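import Pool.Agent.H41.RG.CntDefs

/-!
# RG AvgA: averages over the windows

`X ≥ 2`, `1 ≤ h`, `2h ≤ X`, `Y = X/2` (natural division): for `X ≤ k < 2X` the window `Wk k h` lies in
`[Y, 20 Y]` (`k - h ≥ X/2`, `k + h ≤ 5X/2 ≤ 20 Y`) and any two of its elements differ by at most `2h`.
For a given `n` at most `2h` values of `k` satisfy `k - h < n ≤ k + h`.  So for a set of tuples counted
over the window the sum over `k` (and `l`) is at most `2h` (or `(2h)²`) times the number of tuples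
in `[Y, 20Y]` satisfying the conditions.
For `Q22`: `((n,m),(n',m'))` with `n, n' ∈ Wk k h`, `m, m' ∈ Wk l h` corresponds to
`((n,n'),(m,m')) ∈ SQ Y (2h)`.
-/

set_option autoImplicit false

namespace Pool.Agent.H41.RG

open Finset
open Pool.Agent.H18.RM (SQ)

private theorem AvgA_gen {ι α β : Type} (K : Finset ι) (F : ι → Finset α) (T : Finset β)
    (φ : α → β) (hφ : Function.Injective φ) (c : ℕ) (h1 : ∀ i ∈ K, ∀ a ∈ F i, φ a ∈ T)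
    (h2 : ∀ a, ∃ L : Finset ι, L.card ≤ c ∧ ∀ i ∈ K, a ∈ F i → i ∈ L) :
    ∑ i ∈ K, (F i).card ≤ c * T.card := by
  classical
  rw [← card_sigma]
  refine card_le_mul_card_image_of_maps_to (f := fun p : Sigma (fun _ : ι => α) => φ p.2)
    ?_ c ?_
  · rintro ⟨i, a⟩ hp
    rw [mem_sigma] at hp
    exact h1 i hp.1 a hp.2
  · intro b _
    by_cases hb : ∃ a, φ a = b
    · obtain ⟨a, ha⟩ := hb
      obtain ⟨L, hL, hL'⟩ := h2 a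
      refine le_trans ?_ hL
      refine card_le_card_of_injOn (fun p : Sigma (fun _ : ι => α) => p.1) ?_ ?_
      · rintro ⟨i, a'⟩ hp
        have hp' := mem_filter.1 (mem_coe.1 hp)
        have hp1 := mem_sigma.1 hp'.1
        have ha' : a' = a := hφ (hp'.2.trans ha.symm)
        subst ha'
        exact mem_coe.2 (hL' i hp1.1 hp1.2)
      · rintro ⟨i, a'⟩ hp ⟨j, a''⟩ hq hpq
        have hp' := (mem_filter.1 (mem_coe.1 hp)).2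
        have hq' := (mem_filter.1 (mem_coe.1 hq)).2
        have ha' : a' = a'' := hφ (hp'.trans hq'.symm)
        have hij : i = j := hpq
        rw [hij, ha']
    · rw [filter_eq_empty_iff.2]
      · simp
      · intro p _ hp
        exact hb ⟨p.2, hp⟩

private theorem AvgA_mem {k h n : ℕ} : n ∈ Wk k h ↔ (k - h < n ∧ n ≤ k + h) ∧ Squarefree n := by
  unfold Wk
  rw [mem_filter, mem_Ioc]

private theorem AvgA_L (n h : ℕ) : (Ico (n - h) (n + h)).card ≤ 2 * h := by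
  rw [Nat.card_Ico]
  omega

private theorem AvgA_k {X h k n : ℕ} (h2 : 2 * h ≤ X) (hk : k ∈ Ico X (2 * X)) (hn : n ∈ Wk k h) :
    k ∈ Ico (n - h) (n + h) := by
  rw [mem_Ico] at hk ⊢
  have := (AvgA_mem.1 hn).1
  omega

private theorem AvgA_I {X h k n : ℕ} (hX : 2 ≤ X) (h2 : 2 * h ≤ X) (hk : k ∈ Ico X (2 * X))
    (hn : n ∈ Wk k h) : n ∈ Icc (X / 2) (20 * (X / 2)) := by
  rw [mem_Ico] at hk
  rw [mem_Icc]
  have := (AvgA_mem.1 hn).1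
  omega

private theorem AvgA_d {k h n m : ℕ} (hn : n ∈ Wk k h) (hm : m ∈ Wk k h) :
    |(n : ℤ) - m| ≤ ((2 * h : ℕ) : ℤ) := by
  have h1 := (AvgA_mem.1 hn).1
  have h2 := (AvgA_mem.1 hm).1
  rw [abs_le]
  constructor <;> omega

theorem sum_D1 {X h : ℕ} (hX : 2 ≤ X) (h1 : 1 ≤ h) (h2 : 2 * h ≤ X) :
    ∑ k ∈ Ico X (2 * X), D1 (Wk k h) ≤ 2 * h * (P1 (X / 2) (2 * h)).card := by
  unfold D1
  refine AvgA_gen (Ico X (2 * X)) _ _ (fun t : ℕ × ℕ => t) Function.injective_id _ ?_ ?_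
  · intro k hk t ht
    obtain ⟨ht1, ht2, ht3⟩ := mem_filter.1 ht
    obtain ⟨ha, hb⟩ := mem_product.1 ht1
    unfold P1
    exact mem_filter.2 ⟨mem_product.2 ⟨AvgA_I hX h2 hk ha, AvgA_I hX h2 hk hb⟩,
      ⟨(AvgA_mem.1 ha).2, (AvgA_mem.1 hb).2⟩, ht2, AvgA_d ha hb, ht3⟩
  · intro t
    refine ⟨Ico (t.1 - h) (t.1 + h), AvgA_L _ _, fun k hk ht => ?_⟩
    exact AvgA_k h2 hk (mem_product.1 (mem_filter.1 ht).1).1

theorem sum_Q4 {X h : ℕ} (hX : 2 ≤ X) (h1 : 1 ≤ h) (h2 : 2 * h ≤ X) :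
    ∑ k ∈ Ico X (2 * X), Q4 (Wk k h) ≤ 2 * h * (SQ4 (X / 2) (2 * h)).card := by
  unfold Q4
  refine AvgA_gen (Ico X (2 * X)) _ _ (fun t : (ℕ × ℕ) × (ℕ × ℕ) => t) Function.injective_id _
    ?_ ?_
  · intro k hk t ht
    obtain ⟨ht1, ht2, ht3⟩ := mem_filter.1 ht
    obtain ⟨hab, hcd⟩ := mem_product.1 ht1
    obtain ⟨ha, hb⟩ := mem_product.1 hab
    obtain ⟨hc, hd⟩ := mem_product.1 hcd
    unfold SQ4
    exact mem_filter.2 ⟨mem_product.2 ⟨mem_product.2 ⟨AvgA_I hX h2 hk ha, AvgA_I hX h2 hk hb⟩,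
      mem_product.2 ⟨AvgA_I hX h2 hk hc, AvgA_I hX h2 hk hd⟩⟩,
      ⟨(AvgA_mem.1 ha).2, (AvgA_mem.1 hb).2, (AvgA_mem.1 hc).2, (AvgA_mem.1 hd).2⟩, ht2,
      ⟨AvgA_d ha hb, AvgA_d hc hd, AvgA_d ha hc, AvgA_d ha hd, AvgA_d hb hc, AvgA_d hb hd⟩, ht3⟩
  · intro t
    refine ⟨Ico (t.1.1 - h) (t.1.1 + h), AvgA_L _ _, fun k hk ht => ?_⟩
    exact AvgA_k h2 hk (mem_product.1 (mem_product.1 (mem_filter.1 ht).1).1).1

private theorem AvgA_L2 (n m h : ℕ) :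
    ((Ico (n - h) (n + h)) ×ˢ (Ico (m - h) (m + h))).card ≤ (2 * h) ^ 2 := by
  rw [card_product, sq]
  exact Nat.mul_le_mul (AvgA_L _ _) (AvgA_L _ _)

theorem sum_T2 {X h : ℕ} (hX : 2 ≤ X) (h1 : 1 ≤ h) (h2 : 2 * h ≤ X) :
    ∑ k ∈ Ico X (2 * X), ∑ l ∈ Ico X (2 * X), T2 (Wk k h) (Wk l h) ≤
      (2 * h) ^ 2 * (P2 (X / 2)).card := by
  rw [← sum_product' (Ico X (2 * X)) (Ico X (2 * X)) (fun k l => T2 (Wk k h) (Wk l h))]
  unfold T2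
  refine AvgA_gen ((Ico X (2 * X)) ×ˢ (Ico X (2 * X))) _ _ (fun t : ℕ × ℕ => t)
    Function.injective_id _ ?_ ?_
  · intro p hp t ht
    obtain ⟨hk, hl⟩ := mem_product.1 hp
    obtain ⟨ht1, ht3⟩ := mem_filter.1 ht
    obtain ⟨ha, hb⟩ := mem_product.1 ht1
    unfold P2
    exact mem_filter.2 ⟨mem_product.2 ⟨AvgA_I hX h2 hk ha, AvgA_I hX h2 hl hb⟩,
      ⟨(AvgA_mem.1 ha).2, (AvgA_mem.1 hb).2⟩, ht3⟩
  · intro t
    refine ⟨(Ico (t.1 - h) (t.1 + h)) ×ˢ (Ico (t.2 - h) (t.2 + h)), AvgA_L2 _ _ _,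
      fun p hp ht => ?_⟩
    obtain ⟨hk, hl⟩ := mem_product.1 hp
    obtain ⟨ha, hb⟩ := mem_product.1 (mem_filter.1 ht).1
    exact mem_product.2 ⟨AvgA_k h2 hk ha, AvgA_k h2 hl hb⟩

theorem sum_Q22 {X h : ℕ} (hX : 2 ≤ X) (h1 : 1 ≤ h) (h2 : 2 * h ≤ X) :
    ∑ k ∈ Ico X (2 * X), ∑ l ∈ Ico X (2 * X), Q22 (Wk k h) (Wk l h) ≤
      (2 * h) ^ 2 * (SQ (X / 2) (2 * h)).card := by
  rw [← sum_product' (Ico X (2 * X)) (Ico X (2 * X)) (fun k l => Q22 (Wk k h) (Wk l h))]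
  unfold Q22
  refine AvgA_gen ((Ico X (2 * X)) ×ˢ (Ico X (2 * X))) _ _
    (fun t : (ℕ × ℕ) × (ℕ × ℕ) => ((t.1.1, t.2.1), (t.1.2, t.2.2))) ?_ _ ?_ ?_
  · rintro ⟨⟨a, b⟩, ⟨c, d⟩⟩ ⟨⟨a', b'⟩, ⟨c', d'⟩⟩ h
    simp only [Prod.mk.injEq] at h ⊢
    obtain ⟨⟨h3, h4⟩, h5, h6⟩ := h
    exact ⟨⟨h3, h5⟩, h4, h6⟩
  · intro p hp t ht
    obtain ⟨hk, hl⟩ := mem_product.1 hp
    obtain ⟨ht1, ht2, ht3⟩ := mem_filter.1 ht
    obtain ⟨hab, hcd⟩ := mem_product.1 ht1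
    obtain ⟨ha, hb⟩ := mem_product.1 hab
    obtain ⟨hc, hd⟩ := mem_product.1 hcd
    unfold SQ
    refine mem_filter.2 ⟨mem_product.2 ⟨mem_product.2 ⟨AvgA_I hX h2 hk ha, AvgA_I hX h2 hk hc⟩,
      mem_product.2 ⟨AvgA_I hX h2 hl hb, AvgA_I hX h2 hl hd⟩⟩,
      ⟨(AvgA_mem.1 ha).2, (AvgA_mem.1 hc).2, (AvgA_mem.1 hb).2, (AvgA_mem.1 hd).2⟩, ht2,
      ⟨AvgA_d ha hc, AvgA_d hb hd⟩, ?_⟩
    have h5 : t.1.1 * t.2.1 * (t.1.2 * t.2.2) = t.1.1 * t.1.2 * (t.2.1 * t.2.2) := by ring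
    simp only [h5]
    exact ht3
  · intro t
    refine ⟨(Ico (t.1.1 - h) (t.1.1 + h)) ×ˢ (Ico (t.1.2 - h) (t.1.2 + h)), AvgA_L2 _ _ _,
      fun p hp ht => ?_⟩
    obtain ⟨hk, hl⟩ := mem_product.1 hp
    obtain ⟨ha, hb⟩ := mem_product.1 (mem_product.1 (mem_filter.1 ht).1).1
    exact mem_product.2 ⟨AvgA_k h2 hk ha, AvgA_k h2 hl hb⟩

theorem Wk_facts {k h : ℕ} (hk : h + 1 ≤ k) :
    (∀ n ∈ Wk k h, Squarefree n ∧ 2 ≤ n) ∧ (Wk k h).card ≤ 2 * h := by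
  constructor
  · intro n hn
    have := AvgA_mem.1 hn
    exact ⟨this.2, by omega⟩
  · unfold Wk
    refine (card_filter_le _ _).trans ?_
    rw [Nat.card_Ioc]
    omega

theorem Wk_disjoint {k l h : ℕ} (hk : h ≤ k) (hl : h ≤ l) (hkl : k + 2 * h ≤ l ∨ l + 2 * h ≤ k) :
    Disjoint (Wk k h) (Wk l h) := by
  rw [disjoint_left]
  intro n hn hn'
  have h1 := (AvgA_mem.1 hn).1
  have h2 := (AvgA_mem.1 hn').1
  omega

end Pool.Agent.H41.RG
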