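import Pool.Agent.H41.RG.CntDefs

/-!
# RG CountD: pairs with the same largest prime factor

Split according to `p = lp n = lp m ≤ z` or `p > z` (`lp n` is a prime dividing `n` for `n ≥ 2`; for
`n = 1`, `lp 1 = 0 ≤ z`).
`card_P1`: pairs with `lp ≤ z`: `n ∈ Sm Y z` and at most `2h` values `m ≠ n`; pairs with `lp = p > z`:
`p ∣ n`, `n ≤ 20 Y`, and `p ∣ m`, `0 < |m - n| ≤ h`: at most `(20Y/p) (2h/p)`; sum over the integers
`p > z`: `40 Y h ∑_{p > z} 1/p² ≤ 80 Y h / z`.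
`card_P2`: `≤ #Sm² + ∑_{p > z} (20Y/p)² ≤ #Sm² + 800 Y²/z`.
(`∑_{p > z} 1/p² ≤ 2/z` for `z ≥ 1`, e.g. from `1/p² ≤ 1/(p-1) - 1/p`, or for the finite range
`z < p ≤ 20Y`.)
-/

set_option autoImplicit false

namespace Pool.Agent.H41.RG

open Finset

private lemma CountD_lp_dvd {n : ℕ} (h : 0 < lp n) : lp n ∣ n := by
  unfold lp at *
  by_cases hne : n.primeFactors.Nonempty
  · obtain ⟨i, hi, he⟩ := Finset.exists_mem_eq_sup n.primeFactors hne id
    rw [he]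
    exact Nat.dvd_of_mem_primeFactors hi
  · rw [Finset.not_nonempty_iff_eq_empty] at hne
    rw [hne] at h
    simp at h

private lemma CountD_sum {z : ℝ} (hz : 1 ≤ z) (M : ℕ) :
    ∑ p ∈ Ioc ⌊z⌋₊ M, ((p : ℝ) ^ 2)⁻¹ ≤ 2 / z := by
  have h1 : 1 ≤ ⌊z⌋₊ := by
    rw [Nat.le_floor_iff (by linarith)]
    exact_mod_cast hz
  have h2 : z < (⌊z⌋₊ : ℝ) + 1 := Nat.lt_floor_add_one z
  have h1' : (1 : ℝ) ≤ (⌊z⌋₊ : ℝ) := by exact_mod_cast h1
  have h3 : ((⌊z⌋₊ : ℝ))⁻¹ ≤ 2 / z := by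
    rw [inv_eq_one_div, div_le_div_iff₀ (by linarith) (by linarith)]
    linarith
  by_cases hM : ⌊z⌋₊ ≤ M
  · have h4 := sum_Ioc_inv_sq_le_sub (α := ℝ) (k := ⌊z⌋₊) (n := M) (by omega) hM
    have h5 : (0 : ℝ) ≤ ((M : ℝ))⁻¹ := by positivity
    linarith
  · rw [Finset.Ioc_eq_empty (by omega)]
    simp only [Finset.sum_empty]
    positivity

private lemma CountD_mul (M p : ℕ) :
    ((((Icc 1 M).filter (fun x => p ∣ x)).card : ℕ) : ℝ) ≤ (M : ℝ) / p := by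
  have h : (Icc 1 M).filter (fun x => p ∣ x) = (Ioc 0 M).filter (fun x => p ∣ x) := by
    ext x
    simp only [Finset.mem_filter, Finset.mem_Icc, Finset.mem_Ioc]
    constructor
    · rintro ⟨⟨a, b⟩, c⟩
      exact ⟨⟨by omega, b⟩, c⟩
    · rintro ⟨⟨a, b⟩, c⟩
      exact ⟨⟨by omega, b⟩, c⟩
  rw [h, Nat.Ioc_filter_dvd_card_eq_div]
  exact Nat.cast_div_le

private noncomputable def CountD_K (h : ℕ) (p : ℕ) : Finset ℤ :=
  ((Ioc 0 h).filter (fun x => p ∣ x)).image (fun x : ℕ => (x : ℤ)) ∪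
    ((Ioc 0 h).filter (fun x => p ∣ x)).image (fun x : ℕ => -(x : ℤ))

private lemma CountD_K_card (h p : ℕ) : (((CountD_K h p).card : ℕ) : ℝ) ≤ 2 * ((h : ℝ) / p) := by
  have h1 : (CountD_K h p).card ≤ h / p + h / p := by
    unfold CountD_K
    refine (Finset.card_union_le _ _).trans ?_
    refine Nat.add_le_add ?_ ?_
    · refine Finset.card_image_le.trans ?_
      rw [Nat.Ioc_filter_dvd_card_eq_div]
    · refine Finset.card_image_le.trans ?_
      rw [Nat.Ioc_filter_dvd_card_eq_div]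
  have h2 : (((h / p : ℕ)) : ℝ) ≤ (h : ℝ) / p := Nat.cast_div_le
  have h3 : (((CountD_K h p).card : ℕ) : ℝ) ≤ ((h / p : ℕ) : ℝ) + ((h / p : ℕ) : ℝ) := by
    exact_mod_cast h1
  linarith

private lemma CountD_K_mem {h p : ℕ} {k : ℤ} (h0 : k ≠ 0) (h1 : |k| ≤ h) (h2 : (p : ℤ) ∣ k) :
    k ∈ CountD_K h p := by
  unfold CountD_K
  have hd : p ∣ k.natAbs := Int.natCast_dvd.mp h2
  have hn : 0 < k.natAbs := Int.natAbs_pos.mpr h0
  have hl : k.natAbs ≤ h := by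
    have : ((k.natAbs : ℕ) : ℤ) ≤ h := by
      rw [Int.natCast_natAbs]
      exact h1
    exact_mod_cast this
  rw [Finset.mem_union, Finset.mem_image, Finset.mem_image]
  rcases le_or_gt 0 k with hk | hk
  · left
    refine ⟨k.natAbs, ?_, ?_⟩
    · rw [Finset.mem_filter, Finset.mem_Ioc]
      exact ⟨⟨hn, hl⟩, hd⟩
    · rw [Int.natCast_natAbs, abs_of_nonneg hk]
  · right
    refine ⟨k.natAbs, ?_, ?_⟩
    · rw [Finset.mem_filter, Finset.mem_Ioc]
      exact ⟨⟨hn, hl⟩, hd⟩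
    · rw [Int.natCast_natAbs, abs_of_neg hk]
      ring

private lemma CountD_inj : Function.Injective (fun t : ℕ × ℕ => (t.1, (t.2 : ℤ) - t.1)) := by
  rintro ⟨a, b⟩ ⟨c, d⟩ h
  simp only [Prod.mk.injEq] at h
  obtain ⟨h1, h2⟩ := h
  subst h1
  simp only [Prod.mk.injEq, true_and]
  omega

theorem card_P1 {Y h : ℕ} {z : ℝ} (hz : 1 ≤ z) :
    ((P1 Y h).card : ℝ) ≤ 2 * h * (Sm Y z).card + 80 * Y * h / z := by
  classical
  have hz0 : (0 : ℝ) < z := by linarith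
  -- the covering set
  set A : Finset (ℕ × ℤ) := (Sm Y z) ×ˢ (CountD_K h 1) with hA
  set B : Finset (ℕ × ℤ) := (Ioc ⌊z⌋₊ (20 * Y)).biUnion
    (fun p => ((Icc 1 (20 * Y)).filter (fun x => p ∣ x)) ×ˢ (CountD_K h p)) with hB
  have hsub : (P1 Y h).image (fun t : ℕ × ℕ => (t.1, (t.2 : ℤ) - t.1)) ⊆ A ∪ B := by
    intro u hu
    rw [Finset.mem_image] at hu
    obtain ⟨⟨n, m⟩, ht, rfl⟩ := hu
    unfold P1 at ht
    simp only [Finset.mem_filter, Finset.mem_product, Finset.mem_Icc] at ht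
    obtain ⟨⟨⟨hn1, hn2⟩, hm1, hm2⟩, ⟨hsn, hsm⟩, hne, habs, hlp⟩ := ht
    have hn0 : 1 ≤ n := Nat.one_le_iff_ne_zero.mpr hsn.ne_zero
    have hk0 : (m : ℤ) - n ≠ 0 := by omega
    have hk1 : |(m : ℤ) - n| ≤ h := by rw [abs_sub_comm]; exact habs
    rw [Finset.mem_union]
    rcases le_or_gt ((lp n : ℕ) : ℝ) z with hl | hl
    · left
      rw [hA, Finset.mem_product]
      refine ⟨?_, ?_⟩
      · unfold Sm
        rw [Finset.mem_filter, Finset.mem_Icc]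
        exact ⟨⟨hn0, hn2⟩, hsn, hl⟩
      · exact CountD_K_mem hk0 hk1 (by simp)
    · right
      have hlpos : 0 < lp n := by
        have : (0 : ℝ) < (lp n : ℝ) := by linarith
        exact_mod_cast this
      have hdn : lp n ∣ n := CountD_lp_dvd hlpos
      have hdm : lp n ∣ m := by
        rw [hlp] at hlpos ⊢
        exact CountD_lp_dvd hlpos
      rw [hB, Finset.mem_biUnion]
      refine ⟨lp n, ?_, ?_⟩
      · rw [Finset.mem_Ioc]
        refine ⟨?_, ?_⟩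
        · rw [Nat.floor_lt hz0.le]
          exact hl
        · exact (Nat.le_of_dvd (by omega) hdn).trans hn2
      · rw [Finset.mem_product, Finset.mem_filter, Finset.mem_Icc]
        refine ⟨⟨⟨hn0, hn2⟩, hdn⟩, ?_⟩
        refine CountD_K_mem hk0 hk1 ?_
        exact dvd_sub (Int.natCast_dvd_natCast.mpr hdm) (Int.natCast_dvd_natCast.mpr hdn)
  have hcard : (P1 Y h).card ≤ A.card + B.card := by
    rw [← Finset.card_image_of_injective (P1 Y h) CountD_inj]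
    exact (Finset.card_le_card hsub).trans (Finset.card_union_le _ _)
  have hcA : (A.card : ℝ) ≤ 2 * h * (Sm Y z).card := by
    rw [hA, Finset.card_product]
    push_cast
    have h1 := CountD_K_card h 1
    have h2 : (0 : ℝ) ≤ ((Sm Y z).card : ℝ) := Nat.cast_nonneg _
    have h3 : 2 * ((h : ℝ) / ((1 : ℕ) : ℝ)) = 2 * h := by norm_num
    rw [h3] at h1
    nlinarith
  have hcB : (B.card : ℝ) ≤ 80 * Y * h / z := by
    have h1 : (B.card : ℝ) ≤ ∑ p ∈ Ioc ⌊z⌋₊ (20 * Y),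
        (((((Icc 1 (20 * Y)).filter (fun x => p ∣ x)) ×ˢ (CountD_K h p)).card : ℕ) : ℝ) := by
      rw [hB]
      exact_mod_cast Finset.card_biUnion_le
    have h2 : ∀ p ∈ Ioc ⌊z⌋₊ (20 * Y),
        (((((Icc 1 (20 * Y)).filter (fun x => p ∣ x)) ×ˢ (CountD_K h p)).card : ℕ) : ℝ)
          ≤ (40 * Y * h) * ((p : ℝ) ^ 2)⁻¹ := by
      intro p hp
      rw [Finset.mem_Ioc] at hp
      have hp0 : (0 : ℝ) < p := by
        have : 0 < p := by omega
        exact_mod_cast this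
      rw [Finset.card_product]
      push_cast
      have e1 := CountD_mul (20 * Y) p
      have e2 := CountD_K_card h p
      calc _ ≤ (((20 * Y : ℕ) : ℝ) / p) * (2 * ((h : ℝ) / p)) := by
            refine mul_le_mul e1 e2 (Nat.cast_nonneg _) (by positivity)
        _ = (40 * Y * h) * ((p : ℝ) ^ 2)⁻¹ := by
            push_cast
            field_simp
            ring
    calc (B.card : ℝ) ≤ _ := h1
      _ ≤ ∑ p ∈ Ioc ⌊z⌋₊ (20 * Y), (40 * (Y : ℝ) * h) * ((p : ℝ) ^ 2)⁻¹ := Finset.sum_le_sum h2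
      _ = (40 * (Y : ℝ) * h) * ∑ p ∈ Ioc ⌊z⌋₊ (20 * Y), ((p : ℝ) ^ 2)⁻¹ := by
          rw [Finset.mul_sum]
      _ ≤ (40 * (Y : ℝ) * h) * (2 / z) :=
          mul_le_mul_of_nonneg_left (CountD_sum hz _) (by positivity)
      _ = 80 * Y * h / z := by ring
  have : ((P1 Y h).card : ℝ) ≤ A.card + B.card := by exact_mod_cast hcard
  linarith

theorem card_P2 {Y : ℕ} {z : ℝ} (hz : 1 ≤ z) :
    ((P2 Y).card : ℝ) ≤ ((Sm Y z).card : ℝ) ^ 2 + 800 * (Y : ℝ) ^ 2 / z := by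
  classical
  have hz0 : (0 : ℝ) < z := by linarith
  set A : Finset (ℕ × ℕ) := (Sm Y z) ×ˢ (Sm Y z) with hA
  set B : Finset (ℕ × ℕ) := (Ioc ⌊z⌋₊ (20 * Y)).biUnion
    (fun p => ((Icc 1 (20 * Y)).filter (fun x => p ∣ x)) ×ˢ
      ((Icc 1 (20 * Y)).filter (fun x => p ∣ x))) with hB
  have hsub : P2 Y ⊆ A ∪ B := by
    rintro ⟨n, m⟩ ht
    unfold P2 at ht
    simp only [Finset.mem_filter, Finset.mem_product, Finset.mem_Icc] at ht
    obtain ⟨⟨⟨hn1, hn2⟩, hm1, hm2⟩, ⟨hsn, hsm⟩, hlp⟩ := ht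
    have hn0 : 1 ≤ n := Nat.one_le_iff_ne_zero.mpr hsn.ne_zero
    have hm0 : 1 ≤ m := Nat.one_le_iff_ne_zero.mpr hsm.ne_zero
    rw [Finset.mem_union]
    rcases le_or_gt ((lp n : ℕ) : ℝ) z with hl | hl
    · left
      rw [hA, Finset.mem_product]
      unfold Sm
      rw [Finset.mem_filter, Finset.mem_Icc, Finset.mem_filter, Finset.mem_Icc]
      refine ⟨⟨⟨hn0, hn2⟩, hsn, hl⟩, ⟨hm0, hm2⟩, hsm, ?_⟩
      rw [← hlp]
      exact hl
    · right
      have hlpos : 0 < lp n := by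
        have : (0 : ℝ) < (lp n : ℝ) := by linarith
        exact_mod_cast this
      have hdn : lp n ∣ n := CountD_lp_dvd hlpos
      have hdm : lp n ∣ m := by
        rw [hlp] at hlpos ⊢
        exact CountD_lp_dvd hlpos
      rw [hB, Finset.mem_biUnion]
      refine ⟨lp n, ?_, ?_⟩
      · rw [Finset.mem_Ioc]
        refine ⟨?_, ?_⟩
        · rw [Nat.floor_lt hz0.le]
          exact hl
        · exact (Nat.le_of_dvd (by omega) hdn).trans hn2
      · rw [Finset.mem_product, Finset.mem_filter, Finset.mem_Icc, Finset.mem_filter,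
          Finset.mem_Icc]
        exact ⟨⟨⟨hn0, hn2⟩, hdn⟩, ⟨hm0, hm2⟩, hdm⟩
  have hcard : (P2 Y).card ≤ A.card + B.card :=
    (Finset.card_le_card hsub).trans (Finset.card_union_le _ _)
  have hcA : (A.card : ℝ) = ((Sm Y z).card : ℝ) ^ 2 := by
    rw [hA, Finset.card_product]
    push_cast
    ring
  have hcB : (B.card : ℝ) ≤ 800 * (Y : ℝ) ^ 2 / z := by
    have h1 : (B.card : ℝ) ≤ ∑ p ∈ Ioc ⌊z⌋₊ (20 * Y),
        (((((Icc 1 (20 * Y)).filter (fun x => p ∣ x)) ×ˢ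
          ((Icc 1 (20 * Y)).filter (fun x => p ∣ x))).card : ℕ) : ℝ) := by
      rw [hB]
      exact_mod_cast Finset.card_biUnion_le
    have h2 : ∀ p ∈ Ioc ⌊z⌋₊ (20 * Y),
        (((((Icc 1 (20 * Y)).filter (fun x => p ∣ x)) ×ˢ
          ((Icc 1 (20 * Y)).filter (fun x => p ∣ x))).card : ℕ) : ℝ)
          ≤ (400 * (Y : ℝ) ^ 2) * ((p : ℝ) ^ 2)⁻¹ := by
      intro p hp
      rw [Finset.mem_Ioc] at hp
      have hp0 : (0 : ℝ) < p := by
        have : 0 < p := by omega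
        exact_mod_cast this
      rw [Finset.card_product]
      push_cast
      have e1 := CountD_mul (20 * Y) p
      calc _ ≤ (((20 * Y : ℕ) : ℝ) / p) * (((20 * Y : ℕ) : ℝ) / p) := by
            refine mul_le_mul e1 e1 (Nat.cast_nonneg _) (by positivity)
        _ = (400 * (Y : ℝ) ^ 2) * ((p : ℝ) ^ 2)⁻¹ := by
            push_cast
            field_simp
            ring
    calc (B.card : ℝ) ≤ _ := h1
      _ ≤ ∑ p ∈ Ioc ⌊z⌋₊ (20 * Y), (400 * (Y : ℝ) ^ 2) * ((p : ℝ) ^ 2)⁻¹ := Finset.sum_le_sum h2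
      _ = (400 * (Y : ℝ) ^ 2) * ∑ p ∈ Ioc ⌊z⌋₊ (20 * Y), ((p : ℝ) ^ 2)⁻¹ := by
          rw [Finset.mul_sum]
      _ ≤ (400 * (Y : ℝ) ^ 2) * (2 / z) :=
          mul_le_mul_of_nonneg_left (CountD_sum hz _) (by positivity)
      _ = 800 * (Y : ℝ) ^ 2 / z := by ring
  have : ((P2 Y).card : ℝ) ≤ A.card + B.card := by exact_mod_cast hcard
  linarith

end Pool.Agent.H41.RG
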