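import Pool.Agent.H41.RG.CntDefs
import Pool.Agent.H91.PK.Msq

/-!
# RG CountQ4: four different numbers in a short interval with square product

`#SQ4 Y h ≤ C h² (1 + log (20Y))^4` for `1 ≤ h ≤ Y`.

Proof (compare `H18/RM/CountS`).  Let `((n,m),(n',m')) ∈ SQ4`, `g = gcd(n,m)`, `g' = gcd(n',m')`,
`n = g a`, `m = g b`, `n' = g' a'`, `m' = g' b'`: `a, b` coprime squarefree, so `ab` is squarefree, the
same for `a'b'`, and `(ab)(a'b')` is a square, so `ab = a'b'` (`CountS_eq`).  Put `a1 = gcd(a, a')`,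
`a2 = a / a1`, `b1 = a' / a1`, `b2 = b / b1`; since `a' ∣ a b` and `gcd(a'/a1, a/a1) = 1`, `b1 ∣ b`, and
`n = g a1 a2`, `m = g b1 b2`, `n' = g' a1 b1`, `m' = g' a2 b2`.
Closeness: `(g/g')² = nm/(n'm')`, `(a1/b2)² = nn'/(mm')`, `(a2/b1)² = nm'/(mn')`.  All four numbers are
`≥ Y` and within `h ≤ Y` of each other, so the ratio of two of them is in `[1/2, 2]` and differs from
`1` by at most `h/Y`; hence `|g - g'| ≤ 8 g h / Y` (crude constant), `|a1 - b2| ≤ 8 a1 h / Y`,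
`|a2 - b1| ≤ 8 a2 h / Y`.
At most one of the equalities `g = g'`, `a1 = b2`, `a2 = b1` holds: `a1 = b2` divides both `a` and `b`,
which are coprime, so `a1 = b2 = 1`; likewise `a2 = b1 = 1`.  If `g = g'` and `a1 = b2 = 1` then
`n = g a2 = m'`, contradiction; if `g = g'` and `a2 = b1 = 1` then `n = g a1 = n'`, contradiction;
if `a1 = b2 = 1`, `a2 = b1 = 1` then `n = m`.
Count: the quadruple is determined by `(g, a1, a2, g', b2, b1)`.  Given `(g, a1, a2)` with product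
`n ≤ 20 Y` the number of `u' ≠ u` with `|u' - u| ≤ 8 u h/Y` is `≤ E(u) := 16 u h / Y`, so the number of
`(g', b2, b1)` with at most one equality is
`≤ E(g)E(a1)(1+E(a2)) + E(g)E(a2)(1+E(a1)) + E(a1)E(a2)(1+E(g)) ≤ 3 (16 h/Y)² 17 (g a1 a2)
 ≤ 3 · 256 · 17 · 20 h²/Y` (using `1 + E(u) ≤ 17 u`).  The number of triples `(g, a1, a2)` with
product `≤ 20 Y` is `≤ 20 Y (1 + log 20Y)²` (`∑_{g ≤ M} ∑_{a ≤ M/g} M/(g a)`; `Msq_harmonic` in
`Pool.Agent.H91.PK`: `∑_{g ≤ M} 1/g ≤ 1 + log M`).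
-/

set_option autoImplicit false

namespace Pool.Agent.H41.RG

open Finset

/-- the radius of the window around `u` -/
def CountQ4_k (Y h u : ℕ) : ℕ := 3 * u * h / Y

def CountQ4_E (Y h u : ℕ) : Finset ℕ := Icc (u - CountQ4_k Y h u) (u + CountQ4_k Y h u)

def CountQ4_D (Y h u : ℕ) : Finset ℕ := (CountQ4_E Y h u).erase u

def CountQ4_U (M : ℕ) : Finset (Σ _ : ℕ, Σ _ : ℕ, ℕ) :=
  (Icc 1 M).sigma (fun u => (Icc 1 M).sigma (fun v => Icc 1 (M / (u * v))))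

def CountQ4_V (Y h : ℕ) (u : Σ _ : ℕ, Σ _ : ℕ, ℕ) : Finset (ℕ × ℕ × ℕ) :=
  (CountQ4_D Y h u.1 ×ˢ CountQ4_D Y h u.2.1 ×ˢ CountQ4_E Y h u.2.2) ∪
    ((CountQ4_D Y h u.1 ×ˢ CountQ4_E Y h u.2.1 ×ˢ CountQ4_D Y h u.2.2) ∪
      (CountQ4_E Y h u.1 ×ˢ CountQ4_D Y h u.2.1 ×ˢ CountQ4_D Y h u.2.2))

def CountQ4_phi (t : Σ _ : (Σ _ : ℕ, Σ _ : ℕ, ℕ), ℕ × ℕ × ℕ) : (ℕ × ℕ) × (ℕ × ℕ) :=
  ((t.1.1 * (t.1.2.1 * t.1.2.2), t.1.1 * (t.2.2.2 * t.2.2.1)),
    (t.2.1 * (t.1.2.1 * t.2.2.2), t.2.1 * (t.1.2.2 * t.2.2.1)))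

theorem CountQ4_mem_E {Y h u v : ℕ} (hY : 1 ≤ Y) (hd : |(u : ℤ) - v| * Y ≤ 3 * u * h) :
    v ∈ CountQ4_E Y h u := by
  unfold CountQ4_E CountQ4_k
  set k := 3 * u * h / Y with hk
  have key : ∀ d : ℕ, d * Y ≤ 3 * u * h → d ≤ k := fun d hd => by
    rw [hk, Nat.le_div_iff_mul_le (by omega)]
    exact hd
  rw [mem_Icc]
  rcases le_total u v with hv | hv
  · have h1 : |(u : ℤ) - v| = ((v - u : ℕ) : ℤ) := by
      rw [Nat.cast_sub hv, abs_sub_comm, abs_of_nonneg]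
      have : (u : ℤ) ≤ v := by exact_mod_cast hv
      linarith
    rw [h1] at hd
    have h2 : (v - u) * Y ≤ 3 * u * h := by exact_mod_cast hd
    have h3 := key _ h2
    omega
  · have h1 : |(u : ℤ) - v| = ((u - v : ℕ) : ℤ) := by
      rw [Nat.cast_sub hv, abs_of_nonneg]
      have : (v : ℤ) ≤ u := by exact_mod_cast hv
      linarith
    rw [h1] at hd
    have h2 : (u - v) * Y ≤ 3 * u * h := by exact_mod_cast hd
    have h3 := key _ h2
    omega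

theorem CountQ4_card_D (Y h u : ℕ) (hY : 1 ≤ Y) :
    ((CountQ4_D Y h u).card : ℝ) ≤ 6 * u * h / Y := by
  have h1 : (CountQ4_D Y h u).card ≤ 2 * CountQ4_k Y h u := by
    unfold CountQ4_D CountQ4_E
    rw [card_erase_of_mem (by rw [mem_Icc]; omega), Nat.card_Icc]
    omega
  have h2 : ((CountQ4_k Y h u : ℕ) : ℝ) ≤ (3 * u * h : ℕ) / (Y : ℝ) := by
    unfold CountQ4_k
    exact Nat.cast_div_le
  have h3 : ((CountQ4_D Y h u).card : ℝ) ≤ 2 * (CountQ4_k Y h u : ℕ) := by exact_mod_cast h1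
  refine h3.trans ?_
  push_cast at h2
  calc (2 : ℝ) * (CountQ4_k Y h u : ℕ) ≤ 2 * (3 * u * h / Y) := by linarith
    _ = 6 * u * h / Y := by ring

theorem CountQ4_card_E (Y h u : ℕ) (hY : 1 ≤ Y) (hh : h ≤ Y) (hu : 1 ≤ u) :
    ((CountQ4_E Y h u).card : ℝ) ≤ 7 * u := by
  have h1 : (CountQ4_E Y h u).card ≤ (CountQ4_D Y h u).card + 1 := by
    unfold CountQ4_D
    rw [card_erase_of_mem (by unfold CountQ4_E; rw [mem_Icc]; omega)]
    omega
  have h2 : ((CountQ4_E Y h u).card : ℝ) ≤ (CountQ4_D Y h u).card + 1 := by exact_mod_cast h1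
  have h3 := CountQ4_card_D Y h u hY
  have hY' : (0 : ℝ) < Y := by exact_mod_cast hY
  have hh' : (h : ℝ) ≤ Y := by exact_mod_cast hh
  have hu' : (1 : ℝ) ≤ u := by exact_mod_cast hu
  have h4 : 6 * (u : ℝ) * h / Y ≤ 6 * u := by
    rw [div_le_iff₀ hY']
    nlinarith
  linarith

theorem CountQ4_card_V (Y h : ℕ) (u : Σ _ : ℕ, Σ _ : ℕ, ℕ) (hY : 1 ≤ Y) (hh : h ≤ Y)
    (h1 : 1 ≤ u.1) (h2 : 1 ≤ u.2.1) (h3 : 1 ≤ u.2.2) :
    ((CountQ4_V Y h u).card : ℝ) ≤ 756 * ((h : ℝ) / Y) ^ 2 * (u.1 * u.2.1 * u.2.2) := by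
  obtain ⟨a, b, c⟩ := u
  simp only at h1 h2 h3
  have e1 := CountQ4_card_E Y h a hY hh h1
  have e2 := CountQ4_card_E Y h b hY hh h2
  have e3 := CountQ4_card_E Y h c hY hh h3
  have d1 := CountQ4_card_D Y h a hY
  have d2 := CountQ4_card_D Y h b hY
  have d3 := CountQ4_card_D Y h c hY
  have hY' : (0 : ℝ) < Y := by exact_mod_cast hY
  have key : ((CountQ4_V Y h ⟨a, b, c⟩).card : ℝ) ≤
      (CountQ4_D Y h a).card * ((CountQ4_D Y h b).card * (CountQ4_E Y h c).card) +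
      ((CountQ4_D Y h a).card * ((CountQ4_E Y h b).card * (CountQ4_D Y h c).card) +
      (CountQ4_E Y h a).card * ((CountQ4_D Y h b).card * (CountQ4_D Y h c).card)) := by
    unfold CountQ4_V
    have k1 := card_union_le (CountQ4_D Y h a ×ˢ CountQ4_D Y h b ×ˢ CountQ4_E Y h c)
      ((CountQ4_D Y h a ×ˢ CountQ4_E Y h b ×ˢ CountQ4_D Y h c) ∪
      (CountQ4_E Y h a ×ˢ CountQ4_D Y h b ×ˢ CountQ4_D Y h c))
    have k2 := card_union_le (CountQ4_D Y h a ×ˢ CountQ4_E Y h b ×ˢ CountQ4_D Y h c)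
      (CountQ4_E Y h a ×ˢ CountQ4_D Y h b ×ˢ CountQ4_D Y h c)
    simp only [card_product] at k1 k2
    exact_mod_cast k1.trans (Nat.add_le_add_left k2 _)
  have ea : (0 : ℝ) ≤ a := Nat.cast_nonneg _
  have eb : (0 : ℝ) ≤ b := Nat.cast_nonneg _
  have ec : (0 : ℝ) ≤ c := Nat.cast_nonneg _
  have eh : (0 : ℝ) ≤ h := Nat.cast_nonneg _
  refine key.trans ?_
  have n1 : (0 : ℝ) ≤ (CountQ4_D Y h a).card := Nat.cast_nonneg _
  have n2 : (0 : ℝ) ≤ (CountQ4_D Y h b).card := Nat.cast_nonneg _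
  have n3 : (0 : ℝ) ≤ (CountQ4_D Y h c).card := Nat.cast_nonneg _
  have m1 : (0 : ℝ) ≤ (CountQ4_E Y h a).card := Nat.cast_nonneg _
  have m2 : (0 : ℝ) ≤ (CountQ4_E Y h b).card := Nat.cast_nonneg _
  have m3 : (0 : ℝ) ≤ (CountQ4_E Y h c).card := Nat.cast_nonneg _
  have q1 : ((CountQ4_D Y h a).card : ℝ) * ((CountQ4_D Y h b).card * (CountQ4_E Y h c).card) ≤
      (6 * a * h / Y) * ((6 * b * h / Y) * (7 * c)) := by gcongr
  have q2 : ((CountQ4_D Y h a).card : ℝ) * ((CountQ4_E Y h b).card * (CountQ4_D Y h c).card) ≤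
      (6 * a * h / Y) * ((7 * b) * (6 * c * h / Y)) := by gcongr
  have q3 : ((CountQ4_E Y h a).card : ℝ) * ((CountQ4_D Y h b).card * (CountQ4_D Y h c).card) ≤
      (7 * a) * ((6 * b * h / Y) * (6 * c * h / Y)) := by gcongr
  refine (add_le_add q1 (add_le_add q2 q3)).trans (le_of_eq ?_)
  field_simp
  ring

theorem CountQ4_card_U (M : ℕ) :
    ((CountQ4_U M).card : ℝ) ≤ M * (1 + Real.log M) ^ 2 := by
  unfold CountQ4_U
  rw [card_sigma]
  simp only [card_sigma, Nat.card_Icc, Nat.add_sub_cancel]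
  push_cast
  have hM : (0 : ℝ) ≤ M := Nat.cast_nonneg _
  calc ∑ u ∈ Icc 1 M, ∑ v ∈ Icc 1 M, ((M / (u * v) : ℕ) : ℝ)
      ≤ ∑ u ∈ Icc 1 M, ∑ v ∈ Icc 1 M, (M : ℝ) * ((1 / (u : ℝ)) * (1 / (v : ℝ))) := by
        refine sum_le_sum fun u _ => sum_le_sum fun v _ => ?_
        refine (Nat.cast_div_le).trans (le_of_eq ?_)
        push_cast
        rw [one_div, one_div, ← mul_inv, div_eq_mul_inv]
    _ = M * ((∑ u ∈ Icc 1 M, 1 / (u : ℝ)) * ∑ v ∈ Icc 1 M, 1 / (v : ℝ)) := by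
        rw [sum_mul_sum, mul_sum]
        refine sum_congr rfl fun u _ => ?_
        rw [mul_sum]
    _ ≤ M * (1 + Real.log M) ^ 2 := by
        have h1 := Pool.Agent.H91.PK.Msq_harmonic M
        have h2 : (0 : ℝ) ≤ ∑ u ∈ Icc 1 M, 1 / (u : ℝ) := sum_nonneg fun u _ => by positivity
        rw [pow_two]
        gcongr

/-- closeness of the square roots -/
theorem CountQ4_close {Y h u v K x y z w : ℕ} (hY : 1 ≤ Y) (hh : h ≤ Y)
    (e1 : u ^ 2 * K = x * y) (e2 : v ^ 2 * K = z * w)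
    (hx : Y ≤ x) (hy : Y ≤ y) (hxz : |(x : ℤ) - z| ≤ h) (hyw : |(y : ℤ) - w| ≤ h) :
    |(u : ℤ) - v| * Y ≤ 3 * u * h := by
  have f1 : (u : ℤ) ^ 2 * K = x * y := by exact_mod_cast e1
  have f2 : (v : ℤ) ^ 2 * K = z * w := by exact_mod_cast e2
  have hu0 : (0 : ℤ) ≤ u := Int.natCast_nonneg _
  have hv0 : (0 : ℤ) ≤ v := Int.natCast_nonneg _
  have hK0 : (0 : ℤ) ≤ K := Int.natCast_nonneg _
  have hh0 : (0 : ℤ) ≤ h := Int.natCast_nonneg _
  have hY0 : (1 : ℤ) ≤ Y := by exact_mod_cast hY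
  have hx' : (Y : ℤ) ≤ x := by exact_mod_cast hx
  have hy' : (Y : ℤ) ≤ y := by exact_mod_cast hy
  have hh' : (h : ℤ) ≤ Y := by exact_mod_cast hh
  have hw0 : (0 : ℤ) ≤ w := Int.natCast_nonneg _
  have hx0 : (0 : ℤ) < x := by linarith
  have hy0 : (0 : ℤ) < y := by linarith
  have hw2 : (w : ℤ) ≤ 2 * y := by
    have := (abs_le.1 hyw).1
    linarith
  have k1 : ((u : ℤ) - v) * ((u + v) * K) = x * (y - w) + w * (x - z) := by
    have : ((u : ℤ) - v) * ((u + v) * K) = u ^ 2 * K - v ^ 2 * K := by ring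
    rw [this, f1, f2]
    ring
  have k2 : |(u : ℤ) - v| * ((u + v) * K) ≤ h * (x + w) := by
    have h1 : |((u : ℤ) - v) * ((u + v) * K)| = |(u : ℤ) - v| * ((u + v) * K) := by
      rw [abs_mul, abs_of_nonneg (a := ((u : ℤ) + v) * K) (by positivity)]
    rw [← h1, k1]
    calc |(x : ℤ) * (y - w) + w * (x - z)| ≤ |(x : ℤ) * (y - w)| + |(w : ℤ) * (x - z)| :=
          abs_add_le _ _
      _ = x * |(y : ℤ) - w| + w * |(x : ℤ) - z| := by
          rw [abs_mul, abs_mul, abs_of_pos hx0, abs_of_nonneg hw0]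
      _ ≤ x * h + w * h := by gcongr
      _ = h * (x + w) := by ring
  have k3 : |(u : ℤ) - v| * (u * K) ≤ h * (x + w) := by
    refine le_trans ?_ k2
    gcongr
    linarith
  have k4 : |(u : ℤ) - v| * (x * y) ≤ u * (h * (x + w)) := by
    calc |(u : ℤ) - v| * (x * y) = u * (|(u : ℤ) - v| * (u * K)) := by rw [← f1]; ring
      _ ≤ u * (h * (x + w)) := by gcongr
  have k5 : ((x : ℤ) + w) * Y ≤ 3 * (x * y) := by
    nlinarith [mul_le_mul_of_nonneg_left hy' hx0.le, mul_le_mul_of_nonneg_left hx' hy0.le]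
  have k6 : (|(u : ℤ) - v| * Y) * (x * y) ≤ (3 * u * h) * (x * y) := by
    calc (|(u : ℤ) - v| * Y) * (x * y) = (|(u : ℤ) - v| * (x * y)) * Y := by ring
      _ ≤ (u * (h * (x + w))) * Y := by gcongr
      _ = (u * h) * ((x + w) * Y) := by ring
      _ ≤ (u * h) * (3 * (x * y)) := by gcongr
      _ = (3 * u * h) * (x * y) := by ring
  exact le_of_mul_le_mul_right k6 (mul_pos hx0 hy0)

theorem CountQ4_subset (Y h : ℕ) (hY : 1 ≤ Y) (hh : h ≤ Y) :
    SQ4 Y h ⊆ ((CountQ4_U (20 * Y)).sigma (fun u => CountQ4_V Y h u)).image CountQ4_phi := by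
  classical
  rintro ⟨⟨n, m⟩, ⟨n', m'⟩⟩ ht
  simp only [SQ4, mem_filter, mem_product, mem_Icc] at ht
  obtain ⟨⟨⟨⟨h1, h2⟩, h3, h4⟩, ⟨h5, h6⟩, h7, h8⟩, ⟨s1, s2, s3, s4⟩, ⟨d1, d2, d3, d4, d5, d6⟩,
    ⟨c1, c2, c3, c4, c5, c6⟩, hs⟩ := ht
  have hn0 : 0 < n := by omega
  have hm0 : 0 < m := by omega
  have hn0' : 0 < n' := by omega
  set g := n.gcd m with hg
  set g' := n'.gcd m' with hg'
  have hg0 : 0 < g := Nat.gcd_pos_of_pos_left _ hn0
  have hg0' : 0 < g' := Nat.gcd_pos_of_pos_left _ hn0'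
  have hcof := Pool.Agent.H18.RM.CountS_cof s1 s2
  have hcof' := Pool.Agent.H18.RM.CountS_cof s3 s4
  have hcop : Nat.Coprime (n / g) (m / g) := Nat.coprime_div_gcd_div_gcd hg0
  rw [← hg] at hcof
  rw [← hg'] at hcof'
  obtain ⟨a, ha⟩ := Nat.gcd_dvd_left n m
  obtain ⟨b, hb⟩ := Nat.gcd_dvd_right n m
  obtain ⟨a', ha'⟩ := Nat.gcd_dvd_left n' m'
  obtain ⟨b', hb'⟩ := Nat.gcd_dvd_right n' m'
  rw [← hg] at ha hb
  rw [← hg'] at ha' hb'
  have qa : n / g = a := by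
    conv_lhs => rw [ha]
    exact Nat.mul_div_cancel_left a hg0
  have qb : m / g = b := by
    conv_lhs => rw [hb]
    exact Nat.mul_div_cancel_left b hg0
  have qa' : n' / g' = a' := by
    conv_lhs => rw [ha']
    exact Nat.mul_div_cancel_left a' hg0'
  have qb' : m' / g' = b' := by
    conv_lhs => rw [hb']
    exact Nat.mul_div_cancel_left b' hg0'
  rw [qa, qb] at hcof hcop
  rw [qa', qb'] at hcof'
  have hab : a * b = a' * b' := by
    apply Pool.Agent.H18.RM.CountS_eq hcof hcof'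
    apply Pool.Agent.H18.RM.CountS_sq_of_mul (k := g * g') (Nat.mul_pos hg0 hg0')
    have : (g * g') ^ 2 * (a * b * (a' * b')) = n * m * (n' * m') := by
      rw [ha, hb, ha', hb']; ring
    rw [this]
    exact hs
  have hab0 : 0 < a * b := Nat.pos_of_ne_zero hcof.ne_zero
  have ha0 : 0 < a := Nat.pos_of_mul_pos_right hab0
  have hb0 : 0 < b := Nat.pos_of_mul_pos_left hab0
  clear_value g g'
  -- second factorization
  have hq0 : 0 < a.gcd a' := Nat.gcd_pos_of_pos_left _ ha0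
  have hcop2 : Nat.Coprime (a / a.gcd a') (a' / a.gcd a') := Nat.coprime_div_gcd_div_gcd hq0
  obtain ⟨a2, ha2⟩ := Nat.gcd_dvd_left a a'
  obtain ⟨b1, hb1⟩ := Nat.gcd_dvd_right a a'
  set a1 := a.gcd a' with ha1
  have r1 : a / a1 = a2 := by
    conv_lhs => rw [ha2]
    exact Nat.mul_div_cancel_left a2 hq0
  have r2 : a' / a1 = b1 := by
    conv_lhs => rw [hb1]
    exact Nat.mul_div_cancel_left b1 hq0
  rw [r1, r2] at hcop2
  clear_value a1
  have hd1 : a2 * b = b1 * b' := by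
    apply Nat.eq_of_mul_eq_mul_left hq0
    calc a1 * (a2 * b) = a1 * a2 * b := by ring
      _ = a * b := by rw [← ha2]
      _ = a' * b' := hab
      _ = a1 * (b1 * b') := by rw [hb1]; ring
  have hd2 : b1 ∣ b := by
    have : b1 ∣ a2 * b := ⟨b', hd1⟩
    exact (Nat.Coprime.symm hcop2).dvd_of_dvd_mul_left this
  obtain ⟨b2, hb2⟩ := hd2
  have hb10 : 0 < b1 := Nat.pos_of_ne_zero (by rintro rfl; simp at hb2; omega)
  have hb20 : 0 < b2 := Nat.pos_of_ne_zero (by rintro rfl; simp at hb2; omega)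
  have ha20 : 0 < a2 := Nat.pos_of_ne_zero (by rintro rfl; simp at ha2; omega)
  have hd3 : b' = a2 * b2 := by
    apply Nat.eq_of_mul_eq_mul_left hb10
    rw [← hd1, hb2]
    ring
  have en : n = g * (a1 * a2) := by rw [ha, ha2]
  have em : m = g * (b1 * b2) := by rw [hb, hb2]
  have en' : n' = g' * (a1 * b1) := by rw [ha', hb1]
  have em' : m' = g' * (a2 * b2) := by rw [hb', hd3]
  have hcop3 : Nat.Coprime (a1 * a2) (b1 * b2) := by rw [← ha2, ← hb2]; exact hcop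
  rw [mem_image]
  refine ⟨⟨⟨g, a1, a2⟩, (g', b2, b1)⟩, ?_, ?_⟩
  · rw [mem_sigma]
    constructor
    · unfold CountQ4_U
      simp only [mem_sigma, mem_Icc]
      have hM : g * (a1 * a2) ≤ 20 * Y := by rw [← en]; exact h2
      have hg1 : g ≤ g * (a1 * a2) := Nat.le_mul_of_pos_right _ (Nat.mul_pos hq0 ha20)
      have ha11 : a1 ≤ g * (a1 * a2) := by
        calc a1 ≤ a1 * (g * a2) := Nat.le_mul_of_pos_right _ (Nat.mul_pos hg0 ha20)
          _ = g * (a1 * a2) := by ring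
      refine ⟨⟨hg0, by omega⟩, ⟨hq0, by omega⟩, ha20, ?_⟩
      rw [Nat.le_div_iff_mul_le (Nat.mul_pos hg0 hq0)]
      calc a2 * (g * a1) = g * (a1 * a2) := by ring
        _ ≤ 20 * Y := hM
    · -- the windows
      have w1 : g' ∈ CountQ4_E Y h g := by
        refine CountQ4_mem_E hY (CountQ4_close (K := a1 * a2 * (b1 * b2)) hY hh (x := n) (y := m)
          (z := n') (w := m') ?_ ?_ h1 h3 c3 c6)
        · rw [en, em]; ring
        · rw [en', em']; ring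
      have w2 : b2 ∈ CountQ4_E Y h a1 := by
        refine CountQ4_mem_E hY (CountQ4_close (K := g * g' * (a2 * b1)) hY hh (x := n) (y := n')
          (z := m) (w := m') ?_ ?_ h1 h5 c1 c2)
        · rw [en, en']; ring
        · rw [em, em']; ring
      have w3 : b1 ∈ CountQ4_E Y h a2 := by
        refine CountQ4_mem_E hY (CountQ4_close (K := g * g' * (a1 * b2)) hY hh (x := n) (y := m')
          (z := m) (w := n') ?_ ?_ h1 h7 c1 ?_)
        · rw [en, em']; ring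
        · rw [em, en']; ring
        · rw [abs_sub_comm]; exact c2
      have o1 : a1 = b2 → a1 = 1 := fun e => by
        have k1 : a1 ∣ 1 := by
          rw [← hcop3.gcd_eq_one]
          exact Nat.dvd_gcd (Dvd.intro _ rfl) (by rw [e]; exact Dvd.intro_left _ rfl)
        exact Nat.dvd_one.1 k1
      have o2 : a2 = b1 → a2 = 1 := fun e => by
        have k1 : a2 ∣ 1 := by
          rw [← hcop3.gcd_eq_one]
          exact Nat.dvd_gcd (Dvd.intro_left _ rfl) (by rw [e]; exact Dvd.intro _ rfl)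
        exact Nat.dvd_one.1 k1
      have p1 : ¬ (g = g' ∧ a1 = b2) := by
        rintro ⟨e1, e2⟩
        have e3 := o1 e2
        apply d4
        rw [en, em', ← e1, ← e2, e3]
        ring
      have p2 : ¬ (g = g' ∧ a2 = b1) := by
        rintro ⟨e1, e2⟩
        have e3 := o2 e2
        apply d3
        rw [en, en', ← e1, ← e2]
      have p3 : ¬ (a1 = b2 ∧ a2 = b1) := by
        rintro ⟨e1, e2⟩
        apply d1
        rw [en, em, ← e1, ← e2]
        ring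
      unfold CountQ4_V CountQ4_D
      simp only [mem_union, mem_product, mem_erase]
      by_cases z1 : g' = g
      · have z2 : b2 ≠ a1 := fun e => p1 ⟨z1.symm, e.symm⟩
        have z3 : b1 ≠ a2 := fun e => p2 ⟨z1.symm, e.symm⟩
        exact Or.inr (Or.inr ⟨w1, ⟨z2, w2⟩, z3, w3⟩)
      · by_cases z2 : b2 = a1
        · have z3 : b1 ≠ a2 := fun e => p3 ⟨z2.symm, e.symm⟩
          exact Or.inr (Or.inl ⟨⟨z1, w1⟩, w2, z3, w3⟩)
        · exact Or.inl ⟨⟨z1, w1⟩, ⟨z2, w2⟩, w3⟩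
  · unfold CountQ4_phi
    simp only
    rw [← en, ← em, ← en', ← em']

theorem card_SQ4 : ∃ C : ℝ, 0 < C ∧ ∀ Y h : ℕ, 1 ≤ Y → 1 ≤ h → h ≤ Y →
    ((SQ4 Y h).card : ℝ) ≤ C * (h : ℝ) ^ 2 * (1 + Real.log (20 * Y)) ^ 4 := by
  classical
  refine ⟨756 * 20 * 20, by norm_num, fun Y h hY hh0 hh => ?_⟩
  have hY' : (0 : ℝ) < Y := by exact_mod_cast hY
  have hM1 : (1 : ℝ) ≤ 20 * Y := by
    have : (1 : ℝ) ≤ Y := by exact_mod_cast hY
    linarith
  have hlog : 0 ≤ Real.log (20 * Y) := Real.log_nonneg hM1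
  have h1 : (SQ4 Y h).card ≤ ∑ u ∈ CountQ4_U (20 * Y), (CountQ4_V Y h u).card := by
    rw [← card_sigma]
    exact (card_le_card (CountQ4_subset Y h hY hh)).trans card_image_le
  have h2 : ((SQ4 Y h).card : ℝ) ≤ ∑ u ∈ CountQ4_U (20 * Y), ((CountQ4_V Y h u).card : ℝ) := by
    exact_mod_cast h1
  refine h2.trans ?_
  have h3 : ∀ u ∈ CountQ4_U (20 * Y), ((CountQ4_V Y h u).card : ℝ) ≤
      756 * ((h : ℝ) / Y) ^ 2 * (20 * Y) := by
    intro u hu
    unfold CountQ4_U at hu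
    simp only [mem_sigma, mem_Icc] at hu
    obtain ⟨⟨k1, _⟩, ⟨k2, _⟩, k3, k4⟩ := hu
    refine (CountQ4_card_V Y h u hY hh k1 k2 k3).trans ?_
    have k5 : u.1 * u.2.1 * u.2.2 ≤ 20 * Y := by
      rw [Nat.le_div_iff_mul_le (Nat.mul_pos k1 k2)] at k4
      calc u.1 * u.2.1 * u.2.2 = u.2.2 * (u.1 * u.2.1) := by ring
        _ ≤ 20 * Y := k4
    have k6 : (u.1 : ℝ) * u.2.1 * u.2.2 ≤ 20 * Y := by exact_mod_cast k5
    gcongr
  refine (sum_le_sum h3).trans ?_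
  rw [sum_const, nsmul_eq_mul]
  have h4 := CountQ4_card_U (20 * Y)
  push_cast at h4
  calc ((CountQ4_U (20 * Y)).card : ℝ) * (756 * ((h : ℝ) / Y) ^ 2 * (20 * Y))
      ≤ (20 * Y * (1 + Real.log (20 * Y)) ^ 2) * (756 * ((h : ℝ) / Y) ^ 2 * (20 * Y)) := by
        gcongr
    _ = 756 * 20 * 20 * (h : ℝ) ^ 2 * (1 + Real.log (20 * Y)) ^ 2 := by
        field_simp
    _ ≤ 756 * 20 * 20 * (h : ℝ) ^ 2 * (1 + Real.log (20 * Y)) ^ 4 := by
        have : (1 + Real.log (20 * Y)) ^ 2 ≤ (1 + Real.log (20 * Y)) ^ 4 :=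
          pow_le_pow_right₀ (by linarith) (by norm_num)
        gcongr

end Pool.Agent.H41.RG
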