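import Pool.Agent.H41.RG.CntDefs

/-!
# RG Rankin: squarefree numbers without large prime factors

For every `B` (natural number) and all large `Y`: the number of squarefree `n ≤ 20 Y` all of whose
prime factors are `≤ (log Y)^B` is at most `Y / (log Y)^B`.

Proof (`B ≥ 1`; for `B = 0` use the case `B = 1`: `Sm Y 1 ⊆ Sm Y (log Y)`, or note `Sm Y 1 = {1}`).
Rankin: `σ = 1 - 1/(2B)`, `z = (log Y)^B`:
`#Sm ≤ ∑_{n ∈ Sm} (20Y/n)^σ ≤ (20Y)^σ ∏_{p ≤ z} (1 + p^{-σ})` (each squarefree `n` is the product of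
its set of primes, a subset of the primes `≤ z`; `Finset.prod_one_add` or `prod_add`)
`≤ (20Y)^σ exp(∑_{1 ≤ n ≤ z} n^{-σ}) ≤ (20 Y)^σ exp(1 + 2B z^{1/(2B)})`
(`n^{-σ} ≤ ∫_{n-1}^n t^{-σ} dt` for `n ≥ 2`, or `n^{-σ} ≤ 2B (n^{1-σ} - (n-1)^{1-σ})`),
and `z^{1/(2B)} = (log Y)^{1/2}`.  So `#Sm / Y ≤ 20 Y^{-1/(2B)} exp(1 + 2B (log Y)^{1/2})`, with
`L = log Y`: `20 exp(-L/(2B) + 1 + 2B √L) ≤ L^{-B}` for large `L`.
(Cruder is fine: `n^{-σ} ≤ n^{-1/2}`-type bounds are also enough for `B ≥ 1` if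
`∑_{n ≤ z} n^{-σ} = o(L)`.)
-/

set_option autoImplicit false

namespace Pool.Agent.H41.RG

open Finset Filter

/-- `∑_{n ≤ K} n ^ (δ - 1) ≤ K ^ δ / δ`. -/
private theorem Rankin_sum {δ : ℝ} (hδ0 : 0 < δ) (hδ1 : δ ≤ 1) (K : ℕ) :
    ∑ n ∈ Icc 1 K, (n : ℝ) ^ (δ - 1) ≤ 1 / δ * (K : ℝ) ^ δ := by
  induction K with
  | zero =>
    rw [Icc_eq_empty (by norm_num), sum_empty]
    positivity
  | succ K ih =>
    rw [sum_Icc_succ_top (by omega)]
    have hx : (0 : ℝ) < ((K + 1 : ℕ) : ℝ) := by positivity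
    set x : ℝ := ((K + 1 : ℕ) : ℝ) with hxdef
    have hK : (K : ℝ) = x * (1 + -(1 / x)) := by
      rw [hxdef]
      push_cast
      field_simp
      ring
    have h1 : -1 ≤ -(1 / x) := by
      rw [neg_le_neg_iff, div_le_one hx, hxdef]
      push_cast
      have : (0 : ℝ) ≤ K := Nat.cast_nonneg K
      linarith
    have h2 : (1 + -(1 / x)) ^ δ ≤ 1 + δ * -(1 / x) :=
      _root_.rpow_one_add_le_one_add_mul_self h1 hδ0.le hδ1
    have h3 : (K : ℝ) ^ δ ≤ x ^ δ * (1 + δ * -(1 / x)) := by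
      rw [hK, Real.mul_rpow hx.le (by linarith)]
      exact mul_le_mul_of_nonneg_left h2 (by positivity)
    have h4 : x ^ (δ - 1) = x ^ δ / x := by
      rw [Real.rpow_sub hx, Real.rpow_one]
    have h5 : x ^ δ * (1 + δ * -(1 / x)) = x ^ δ - δ * x ^ (δ - 1) := by
      rw [h4]
      ring
    rw [h5] at h3
    have h6 : 1 / δ * (K : ℝ) ^ δ ≤ 1 / δ * (x ^ δ - δ * x ^ (δ - 1)) :=
      mul_le_mul_of_nonneg_left h3 (by positivity)
    have h7 : 1 / δ * (x ^ δ - δ * x ^ (δ - 1)) = 1 / δ * x ^ δ - x ^ (δ - 1) := by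
      field_simp
    linarith

/-- Rankin's product. -/
private theorem Rankin_prod (A P : Finset ℕ) (f : ℕ → ℝ) (hf : ∀ n, 0 ≤ f n)
    (hA : ∀ n ∈ A, Squarefree n ∧ n.primeFactors ⊆ P) :
    ∑ n ∈ A, ∏ p ∈ n.primeFactors, f p ≤ ∏ p ∈ P, (1 + f p) := by
  classical
  rw [Finset.prod_one_add]
  have hinj : Set.InjOn Nat.primeFactors (A : Set ℕ) := by
    intro a ha b hb h
    have h1 := Nat.prod_primeFactors_of_squarefree (hA a ha).1
    have h2 := Nat.prod_primeFactors_of_squarefree (hA b hb).1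
    have h3 : a.primeFactors = b.primeFactors := h
    rw [← h1, ← h2, h3]
  have h1 : ∑ n ∈ A, ∏ p ∈ n.primeFactors, f p =
      ∑ t ∈ A.image Nat.primeFactors, ∏ p ∈ t, f p := by
    rw [sum_image hinj]
  rw [h1]
  refine sum_le_sum_of_subset_of_nonneg ?_ fun t _ _ => prod_nonneg fun p _ => hf p
  intro t ht
  rw [mem_image] at ht
  obtain ⟨n, hn, rfl⟩ := ht
  exact mem_powerset.2 (hA n hn).2

private theorem Rankin_npow {n : ℕ} (hn : Squarefree n) (s : ℝ) :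
    (n : ℝ) ^ s = ∏ p ∈ n.primeFactors, (p : ℝ) ^ s := by
  conv_lhs => rw [← Nat.prod_primeFactors_of_squarefree hn]
  push_cast
  rw [Real.finsetProd_rpow _ _ fun p _ => Nat.cast_nonneg p]

/-- The bound for fixed `Y`. -/
private theorem Rankin_bound {δ : ℝ} (hδ0 : 0 < δ) (hδ1 : δ ≤ 1) {z : ℝ} (hz : 0 ≤ z) (Y : ℕ) :
    ((Sm Y z).card : ℝ) ≤ (20 * (Y : ℝ)) ^ (1 - δ) * Real.exp (1 / δ * z ^ δ) := by
  have hmem : ∀ n ∈ Sm Y z, 1 ≤ n ∧ n ≤ 20 * Y ∧ Squarefree n ∧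
      n.primeFactors ⊆ Icc 1 ⌊z⌋₊ := by
    intro n hn
    unfold Sm at hn
    rw [mem_filter, mem_Icc] at hn
    refine ⟨hn.1.1, hn.1.2, hn.2.1, fun p hp => ?_⟩
    rw [mem_Icc]
    refine ⟨(Nat.prime_of_mem_primeFactors hp).one_lt.le, Nat.le_floor ?_⟩
    have h1 : p ≤ lp n := by
      unfold lp
      exact le_sup (f := id) hp
    exact le_trans (by exact_mod_cast h1) hn.2.2
  have h1 : ((Sm Y z).card : ℝ) ≤
      ∑ n ∈ Sm Y z, (20 * (Y : ℝ)) ^ (1 - δ) * (n : ℝ) ^ (δ - 1) := by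
    rw [← nsmul_one (Sm Y z).card, ← sum_const]
    refine sum_le_sum fun n hn => ?_
    obtain ⟨hn1, hn2, -, -⟩ := hmem n hn
    have hn0 : (0 : ℝ) < n := by exact_mod_cast hn1
    have hle : (n : ℝ) ≤ 20 * Y := by exact_mod_cast hn2
    have h2 : (n : ℝ) ^ (1 - δ) ≤ (20 * (Y : ℝ)) ^ (1 - δ) :=
      Real.rpow_le_rpow hn0.le hle (by linarith)
    have h3 : (n : ℝ) ^ (1 - δ) * (n : ℝ) ^ (δ - 1) = 1 := by
      rw [← Real.rpow_add hn0]
      simp
    calc (1 : ℝ) = (n : ℝ) ^ (1 - δ) * (n : ℝ) ^ (δ - 1) := h3.symm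
      _ ≤ _ := mul_le_mul_of_nonneg_right h2 (by positivity)
  refine h1.trans ?_
  rw [← mul_sum]
  refine mul_le_mul_of_nonneg_left ?_ (by positivity)
  have h2 : ∑ n ∈ Sm Y z, (n : ℝ) ^ (δ - 1) =
      ∑ n ∈ Sm Y z, ∏ p ∈ n.primeFactors, (p : ℝ) ^ (δ - 1) :=
    sum_congr rfl fun n hn => Rankin_npow (hmem n hn).2.2.1 _
  rw [h2]
  refine (Rankin_prod (Sm Y z) (Icc 1 ⌊z⌋₊) (fun p => (p : ℝ) ^ (δ - 1))
    (fun n => by positivity) fun n hn => (hmem n hn).2.2).trans ?_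
  have h3 : ∏ p ∈ Icc 1 ⌊z⌋₊, (1 + (p : ℝ) ^ (δ - 1)) ≤
      Real.exp (∑ p ∈ Icc 1 ⌊z⌋₊, (p : ℝ) ^ (δ - 1)) := by
    rw [Real.exp_sum]
    refine prod_le_prod (fun p _ => by positivity) fun p _ => ?_
    have := Real.add_one_le_exp ((p : ℝ) ^ (δ - 1))
    linarith
  refine h3.trans (Real.exp_le_exp.2 ?_)
  refine (Rankin_sum hδ0 hδ1 ⌊z⌋₊).trans ?_
  refine mul_le_mul_of_nonneg_left ?_ (by positivity)
  exact Real.rpow_le_rpow (Nat.cast_nonneg _) (Nat.floor_le hz) hδ0.le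

theorem card_Sm (B : ℕ) : ∀ᶠ Y : ℕ in atTop,
    ((Sm Y (Real.log Y ^ B)).card : ℝ) ≤ Y / Real.log Y ^ B := by
  rcases Nat.eq_zero_or_pos B with rfl | hB
  · filter_upwards [eventually_ge_atTop 1] with Y hY
    rw [pow_zero, div_one]
    have h1 : Sm Y 1 ⊆ {1} := by
      intro n hn
      unfold Sm at hn
      rw [mem_filter, mem_Icc] at hn
      rw [mem_singleton]
      by_contra h2
      obtain ⟨p, hp, hpn⟩ := Nat.exists_prime_and_dvd h2
      have h3 : p ∈ n.primeFactors := Nat.mem_primeFactors.2 ⟨hp, hpn, by omega⟩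
      have h4 : p ≤ lp n := by
        unfold lp
        exact le_sup (f := id) h3
      have h5 : (lp n : ℝ) ≤ 1 := hn.2.2
      have h6 : lp n ≤ 1 := by exact_mod_cast h5
      have := hp.one_lt
      omega
    have h2 := card_le_card h1
    rw [card_singleton] at h2
    have h3 : ((Sm Y 1).card : ℝ) ≤ 1 := by exact_mod_cast h2
    have h4 : (1 : ℝ) ≤ Y := by exact_mod_cast hY
    linarith
  · have hBR : (0 : ℝ) < B := by exact_mod_cast hB
    have hB1 : (1 : ℝ) ≤ B := by exact_mod_cast hB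
    set δ : ℝ := 1 / (2 * B) with hδ
    have hδ0 : 0 < δ := by positivity
    have hδ1 : δ ≤ 1 := by
      rw [hδ, div_le_one (by positivity)]
      linarith
    have hlog : Tendsto (fun Y : ℕ => Real.log Y) atTop atTop :=
      Real.tendsto_log_atTop.comp tendsto_natCast_atTop_atTop
    have hlim : Tendsto (fun x : ℝ => x ^ (B : ℝ) * Real.exp (-(1 / (4 * B)) * x)) atTop (nhds 0) :=
      tendsto_rpow_mul_exp_neg_mul_atTop_nhds_zero _ _ (by positivity)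
    have h1 : ∀ᶠ x : ℝ in atTop,
        x ^ (B : ℝ) * Real.exp (-(1 / (4 * B)) * x) ≤ 1 / 20 :=
      hlim.eventually (Iic_mem_nhds (by norm_num))
    have h2 : ∀ᶠ x : ℝ in atTop, (8 * (B : ℝ) ^ 2) ^ 2 ≤ x := eventually_ge_atTop _
    filter_upwards [hlog.eventually h1, hlog.eventually h2, eventually_ge_atTop 3] with Y hY1 hY2 hY3
    have hYR : (3 : ℝ) ≤ Y := by exact_mod_cast hY3
    have hY0 : (0 : ℝ) < Y := by linarith
    set L : ℝ := Real.log Y with hL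
    have hLpos : 0 < L := Real.log_pos (by linarith)
    have h3 := Rankin_bound hδ0 hδ1 (pow_nonneg hLpos.le B) Y
    refine h3.trans ?_
    have h4 : (L ^ B) ^ δ = Real.sqrt L := by
      rw [← Real.rpow_natCast, ← Real.rpow_mul hLpos.le, Real.sqrt_eq_rpow]
      congr 1
      rw [hδ]
      field_simp
    have h5 : (20 * (Y : ℝ)) ^ (1 - δ) ≤ 20 * Y * Real.exp (-(δ * L)) := by
      rw [Real.mul_rpow (by norm_num) hY0.le]
      have e1 : (20 : ℝ) ^ (1 - δ) ≤ 20 := by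
        calc (20 : ℝ) ^ (1 - δ) ≤ (20 : ℝ) ^ (1 : ℝ) :=
              Real.rpow_le_rpow_of_exponent_le (by norm_num) (by linarith)
          _ = 20 := Real.rpow_one _
      have e2 : (Y : ℝ) ^ (1 - δ) = Y * Real.exp (-(δ * L)) := by
        rw [Real.rpow_sub hY0, Real.rpow_one, Real.rpow_def_of_pos hY0, Real.exp_neg, ← hL,
          mul_comm L δ]
        rfl
      rw [e2]
      have e3 : 0 ≤ (Y : ℝ) * Real.exp (-(δ * L)) := by positivity
      calc (20 : ℝ) ^ (1 - δ) * (Y * Real.exp (-(δ * L))) ≤ 20 * (Y * Real.exp (-(δ * L))) :=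
            mul_le_mul_of_nonneg_right e1 e3
        _ = 20 * Y * Real.exp (-(δ * L)) := by ring
    have h6 : 1 / δ * Real.sqrt L ≤ δ / 2 * L := by
      have e1 : 8 * (B : ℝ) ^ 2 ≤ Real.sqrt L := Real.le_sqrt_of_sq_le hY2
      have e2 : Real.sqrt L * Real.sqrt L = L := Real.mul_self_sqrt hLpos.le
      have e3 : 1 / δ = 2 * B := by rw [hδ]; field_simp
      have e4 : δ / 2 * L = Real.sqrt L * Real.sqrt L / (4 * B) := by
        rw [e2, hδ]
        field_simp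
        ring
      rw [e3, e4, le_div_iff₀ (by positivity)]
      have e5 : 0 ≤ Real.sqrt L := Real.sqrt_nonneg _
      nlinarith
    have h7 : Real.exp (-(δ * L)) * Real.exp (1 / δ * (L ^ B) ^ δ) ≤
        Real.exp (-(1 / (4 * B)) * L) := by
      rw [h4, ← Real.exp_add, Real.exp_le_exp]
      have e1 : -(1 / (4 * (B : ℝ))) * L = -(δ * L) + δ / 2 * L := by
        rw [hδ]
        field_simp
        ring
      rw [e1]
      linarith
    have h8 : (L : ℝ) ^ (B : ℝ) = L ^ B := Real.rpow_natCast L B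
    rw [h8] at hY1
    have h9 : 0 < L ^ B := pow_pos hLpos B
    calc (20 * (Y : ℝ)) ^ (1 - δ) * Real.exp (1 / δ * (L ^ B) ^ δ)
        ≤ (20 * Y * Real.exp (-(δ * L))) * Real.exp (1 / δ * (L ^ B) ^ δ) :=
          mul_le_mul_of_nonneg_right h5 (Real.exp_pos _).le
      _ = 20 * Y * (Real.exp (-(δ * L)) * Real.exp (1 / δ * (L ^ B) ^ δ)) := by ring
      _ ≤ 20 * Y * Real.exp (-(1 / (4 * B)) * L) :=
          mul_le_mul_of_nonneg_left h7 (by positivity)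
      _ ≤ Y / L ^ B := by
          rw [le_div_iff₀ h9]
          have : 20 * (Y : ℝ) * Real.exp (-(1 / (4 * B)) * L) * L ^ B =
              Y * (20 * (L ^ B * Real.exp (-(1 / (4 * B)) * L))) := by ring
          rw [this]
          have e1 : 20 * (L ^ B * Real.exp (-(1 / (4 * B)) * L)) ≤ 1 := by linarith
          calc (Y : ℝ) * (20 * (L ^ B * Real.exp (-(1 / (4 * B)) * L))) ≤ Y * 1 :=
                mul_le_mul_of_nonneg_left e1 hY0.le
            _ = Y := mul_one _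

end Pool.Agent.H41.RG
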