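import Pool.Agent.H41.RG.AvgA
import Pool.Agent.H41.RG.CountD
import Pool.Agent.H41.RG.CountQ4
import Pool.Agent.H41.RG.Rankin

/-!
# RG AvgB: bounds for the averages

`L = log X`.  There is `C` such that for all large `X` and all `h ≥ 1` with `h ≤ X / L^10`:
`∑_k D1 ≤ C X h² / L^20`, `∑_k Q4 ≤ C h³ L^4`, `∑_{k,l} T2 ≤ C X² h² / L^20`,
`∑_{k,l} Q22 ≤ C X h³ L^4`.

Proof: `AvgA`, then `card_P1`, `card_P2` with `z = (log Y)^20`, `Y = X/2` (natural division; `log Y ≥ L/2`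
for large `X`), `card_Sm 20`, `card_SQ4`, `Pool.Agent.H18.RM.card_SQ`; `1 + log(20Y) ≤ 3 L` for large `X`.
-/

set_option autoImplicit false

namespace Pool.Agent.H41.RG

open Finset Filter

theorem avgB : ∃ C : ℝ, 1 ≤ C ∧ ∀ᶠ X : ℕ in atTop, ∀ h : ℕ, 1 ≤ h →
    (h : ℝ) ≤ X / Real.log X ^ 10 →
    (∑ k ∈ Ico X (2 * X), (D1 (Wk k h) : ℝ) ≤ C * X * (h : ℝ) ^ 2 / Real.log X ^ 20) ∧
    (∑ k ∈ Ico X (2 * X), (Q4 (Wk k h) : ℝ) ≤ C * (h : ℝ) ^ 3 * Real.log X ^ 4) ∧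
    (∑ k ∈ Ico X (2 * X), ∑ l ∈ Ico X (2 * X), (T2 (Wk k h) (Wk l h) : ℝ) ≤
      C * (X : ℝ) ^ 2 * (h : ℝ) ^ 2 / Real.log X ^ 20) ∧
    (∑ k ∈ Ico X (2 * X), ∑ l ∈ Ico X (2 * X), (Q22 (Wk k h) (Wk l h) : ℝ) ≤
      C * X * (h : ℝ) ^ 3 * Real.log X ^ 4) := by
  obtain ⟨C4, hC4, h4⟩ := card_SQ4
  obtain ⟨Cs, hCs, hs⟩ := Pool.Agent.H18.RM.card_SQ
  obtain ⟨N, hN⟩ := eventually_atTop.1 (card_Sm 20)
  refine ⟨1 + 1000 * 2 ^ 20 + 648 * C4 + 324 * Cs, by nlinarith, ?_⟩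
  have hlog : ∀ᶠ X : ℕ in atTop, (2 : ℝ) ≤ Real.log X :=
    (Real.tendsto_log_atTop.comp tendsto_natCast_atTop_atTop).eventually_ge_atTop 2
  filter_upwards [hlog, eventually_ge_atTop (2 * N), eventually_ge_atTop 16] with X hL hXN hX16
  intro h h1 hh
  obtain ⟨Y, hYdef⟩ : ∃ Y, Y = X / 2 := ⟨_, rfl⟩
  have hX0 : (16 : ℝ) ≤ X := by exact_mod_cast hX16
  have hY2 : (Y : ℝ) ≤ X / 2 := by
    have : 2 * Y ≤ X := by omega
    have : (2 : ℝ) * Y ≤ X := by exact_mod_cast this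
    linarith
  have hY4 : (X : ℝ) / 4 ≤ Y := by
    have : X ≤ 2 * Y + 1 := by omega
    have : (X : ℝ) ≤ 2 * Y + 1 := by exact_mod_cast this
    linarith
  have hYN : N ≤ Y := by omega
  have hY0 : (0 : ℝ) < Y := by linarith
  have hY1 : 1 ≤ Y := by omega
  obtain ⟨L, hLdef⟩ : ∃ L, L = Real.log X := ⟨_, rfl⟩
  obtain ⟨l, hldef⟩ : ∃ l, l = Real.log Y := ⟨_, rfl⟩
  rw [← hLdef] at hL hh ⊢
  have hLl : L / 2 ≤ l := by
    have h5 : Real.sqrt X ≤ Y := by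
      refine le_trans ?_ hY4
      have h6 : (4 : ℝ) ≤ Real.sqrt X := by
        rw [show (4 : ℝ) = Real.sqrt 16 by
          rw [show (16 : ℝ) = 4 ^ 2 by norm_num]
          exact (Real.sqrt_sq (by norm_num)).symm]
        exact Real.sqrt_le_sqrt hX0
      have h7 : Real.sqrt X * Real.sqrt X = X := Real.mul_self_sqrt (by linarith)
      nlinarith
    have h6 : Real.log (Real.sqrt X) ≤ Real.log Y :=
      Real.log_le_log (Real.sqrt_pos.2 (by linarith)) h5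
    rw [Real.log_sqrt (by linarith), ← hLdef, ← hldef] at h6
    exact h6
  have hl1 : 1 ≤ l := by linarith
  have hlpow : (1 : ℝ) ≤ l ^ 20 := one_le_pow₀ hl1
  have hlpos : (0 : ℝ) < l ^ 20 := by positivity
  have hLpos : (0 : ℝ) < L := by linarith
  have hh0 : (1 : ℝ) ≤ h := by exact_mod_cast h1
  -- the size of h
  have hhX : (h : ℝ) ≤ X / 1024 := by
    refine hh.trans ?_
    apply div_le_div_of_nonneg_left (by linarith) (by norm_num)
    calc (1024 : ℝ) = 2 ^ 10 := by norm_num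
      _ ≤ L ^ 10 := pow_le_pow_left₀ (by norm_num) hL 10
  have h2Y : 2 * h ≤ Y := by
    have : (2 : ℝ) * h ≤ Y := by linarith
    exact_mod_cast this
  have h2X : 2 * h ≤ X := by omega
  -- the main quantity
  obtain ⟨a, ha⟩ : ∃ a : ℝ, a = Y / l ^ 20 := ⟨_, rfl⟩
  have ha0 : 0 < a := by rw [ha]; positivity
  have haY : a ≤ Y := by
    rw [ha]
    exact div_le_self hY0.le hlpow
  have hab : a ≤ X * 2 ^ 19 / L ^ 20 := by
    have h5 : (L / 2) ^ 20 ≤ l ^ 20 := pow_le_pow_left₀ (by linarith) hLl 20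
    have h6 : (Y : ℝ) / l ^ 20 ≤ (X / 2) / (L / 2) ^ 20 :=
      div_le_div₀ (by linarith) hY2 (by positivity) h5
    rw [ha]
    refine h6.trans (le_of_eq ?_)
    field_simp
  have hS : ((Sm Y (l ^ 20)).card : ℝ) ≤ a := by
    rw [ha, hldef]
    exact hN Y hYN
  have hS0 : (0 : ℝ) ≤ (Sm Y (l ^ 20)).card := Nat.cast_nonneg _
  have hlog20 : 0 ≤ 1 + Real.log (20 * Y) ∧ 1 + Real.log (20 * Y) ≤ 3 * L := by
    constructor
    · have : 0 ≤ Real.log (20 * Y) := Real.log_nonneg (by linarith)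
      linarith
    · have h5 : Real.log (20 * Y) ≤ Real.log (10 * X) :=
        Real.log_le_log (by linarith) (by linarith)
      have h8 : Real.log (10 * (X : ℝ)) = Real.log 10 + L := by
        rw [Real.log_mul (by norm_num) (by linarith), hLdef]
      rw [h8] at h5
      have h6 : Real.log 10 ≤ 3 := by
        rw [Real.log_le_iff_le_exp (by norm_num)]
        have h7 : (2.7 : ℝ) ≤ Real.exp 1 := by
          have := Real.exp_one_gt_d9
          linarith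
        calc (10 : ℝ) ≤ 2.7 ^ 3 := by norm_num
          _ ≤ Real.exp 1 ^ 3 := pow_le_pow_left₀ (by norm_num) h7 3
          _ = Real.exp 3 := by rw [← Real.exp_nat_mul]; norm_num
      linarith
  have hlog4 : (1 + Real.log (20 * Y)) ^ 4 ≤ 81 * L ^ 4 := by
    calc (1 + Real.log (20 * Y)) ^ 4 ≤ (3 * L) ^ 4 := pow_le_pow_left₀ hlog20.1 hlog20.2 4
      _ = 81 * L ^ 4 := by ring
  have hdiv : ∀ c c' T : ℝ, c ≤ c' → 0 ≤ T → c * T ≤ c' * T := fun c c' T hc hT =>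
    mul_le_mul_of_nonneg_right hc hT
  have hL20 : (0 : ℝ) < L ^ 20 := by positivity
  refine ⟨?_, ?_, ?_, ?_⟩
  · have e1 : (∑ k ∈ Ico X (2 * X), (D1 (Wk k h) : ℝ)) ≤ 2 * h * ((P1 Y (2 * h)).card : ℝ) := by
      have := sum_D1 (X := X) (h := h) (by omega) h1 h2X
      rw [← hYdef] at this
      exact_mod_cast this
    have e2 := card_P1 (Y := Y) (h := 2 * h) (z := l ^ 20) hlpow
    have e3 : 80 * (Y : ℝ) * ((2 * h : ℕ) : ℝ) / l ^ 20 = 160 * h * a := by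
      rw [ha]
      push_cast
      ring
    rw [e3] at e2
    push_cast at e2
    have e4 : ((P1 Y (2 * h)).card : ℝ) ≤ 164 * h * a := by
      have : 2 * (2 * (h : ℝ)) * (Sm Y (l ^ 20)).card ≤ 2 * (2 * (h : ℝ)) * a :=
        mul_le_mul_of_nonneg_left hS (by positivity)
      linarith
    calc (∑ k ∈ Ico X (2 * X), (D1 (Wk k h) : ℝ)) ≤ 2 * h * (164 * h * a) :=
          e1.trans (mul_le_mul_of_nonneg_left e4 (by positivity))
      _ = 328 * (h : ℝ) ^ 2 * a := by ring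
      _ ≤ 328 * (h : ℝ) ^ 2 * (X * 2 ^ 19 / L ^ 20) :=
          mul_le_mul_of_nonneg_left hab (by positivity)
      _ = (164 * 2 ^ 20) * (X * (h : ℝ) ^ 2 / L ^ 20) := by ring
      _ ≤ (1 + 1000 * 2 ^ 20 + 648 * C4 + 324 * Cs) * (X * (h : ℝ) ^ 2 / L ^ 20) :=
          hdiv _ _ _ (by nlinarith) (by positivity)
      _ = (1 + 1000 * 2 ^ 20 + 648 * C4 + 324 * Cs) * X * (h : ℝ) ^ 2 / L ^ 20 := by ring
  · have e1 : (∑ k ∈ Ico X (2 * X), (Q4 (Wk k h) : ℝ)) ≤ 2 * h * ((SQ4 Y (2 * h)).card : ℝ) := by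
      have := sum_Q4 (X := X) (h := h) (by omega) h1 h2X
      rw [← hYdef] at this
      exact_mod_cast this
    have e2 := h4 Y (2 * h) hY1 (by omega) h2Y
    push_cast at e2
    calc (∑ k ∈ Ico X (2 * X), (Q4 (Wk k h) : ℝ))
        ≤ 2 * h * (C4 * (2 * (h : ℝ)) ^ 2 * (1 + Real.log (20 * Y)) ^ 4) :=
          e1.trans (mul_le_mul_of_nonneg_left e2 (by positivity))
      _ ≤ 2 * h * (C4 * (2 * (h : ℝ)) ^ 2 * (81 * L ^ 4)) := by
          apply mul_le_mul_of_nonneg_left _ (by positivity)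
          exact mul_le_mul_of_nonneg_left hlog4 (by positivity)
      _ = (648 * C4) * ((h : ℝ) ^ 3 * L ^ 4) := by ring
      _ ≤ (1 + 1000 * 2 ^ 20 + 648 * C4 + 324 * Cs) * ((h : ℝ) ^ 3 * L ^ 4) :=
          hdiv _ _ _ (by nlinarith) (by positivity)
      _ = (1 + 1000 * 2 ^ 20 + 648 * C4 + 324 * Cs) * (h : ℝ) ^ 3 * L ^ 4 := by ring
  · have e1 : (∑ k ∈ Ico X (2 * X), ∑ l ∈ Ico X (2 * X), (T2 (Wk k h) (Wk l h) : ℝ)) ≤
        (2 * h) ^ 2 * ((P2 Y).card : ℝ) := by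
      have := sum_T2 (X := X) (h := h) (by omega) h1 h2X
      rw [← hYdef] at this
      exact_mod_cast this
    have e2 := card_P2 (Y := Y) (z := l ^ 20) hlpow
    have e3 : 800 * (Y : ℝ) ^ 2 / l ^ 20 = 800 * Y * a := by
      rw [ha]
      ring
    rw [e3] at e2
    have e4 : ((Sm Y (l ^ 20)).card : ℝ) ^ 2 ≤ Y * a := by
      calc ((Sm Y (l ^ 20)).card : ℝ) ^ 2 ≤ a ^ 2 := pow_le_pow_left₀ hS0 hS 2
        _ = a * a := by ring
        _ ≤ Y * a := mul_le_mul_of_nonneg_right haY ha0.le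
    have e5 : ((P2 Y).card : ℝ) ≤ 801 * (Y * a) := by linarith
    have e6 : (Y : ℝ) * a ≤ X / 2 * (X * 2 ^ 19 / L ^ 20) :=
      mul_le_mul hY2 hab ha0.le (by linarith)
    calc (∑ k ∈ Ico X (2 * X), ∑ l ∈ Ico X (2 * X), (T2 (Wk k h) (Wk l h) : ℝ))
        ≤ (2 * h) ^ 2 * (801 * (Y * a)) :=
          e1.trans (mul_le_mul_of_nonneg_left e5 (by positivity))
      _ ≤ (2 * h) ^ 2 * (801 * (X / 2 * (X * 2 ^ 19 / L ^ 20))) := by
          apply mul_le_mul_of_nonneg_left _ (by positivity)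
          linarith
      _ = (801 * 2 ^ 20) * ((X : ℝ) ^ 2 * (h : ℝ) ^ 2 / L ^ 20) := by ring
      _ ≤ (1 + 1000 * 2 ^ 20 + 648 * C4 + 324 * Cs) * ((X : ℝ) ^ 2 * (h : ℝ) ^ 2 / L ^ 20) :=
          hdiv _ _ _ (by nlinarith) (by positivity)
      _ = (1 + 1000 * 2 ^ 20 + 648 * C4 + 324 * Cs) * (X : ℝ) ^ 2 * (h : ℝ) ^ 2 / L ^ 20 := by
          ring
  · have e1 : (∑ k ∈ Ico X (2 * X), ∑ l ∈ Ico X (2 * X), (Q22 (Wk k h) (Wk l h) : ℝ)) ≤
        (2 * h) ^ 2 * ((Pool.Agent.H18.RM.SQ Y (2 * h)).card : ℝ) := by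
      have := sum_Q22 (X := X) (h := h) (by omega) h1 h2X
      rw [← hYdef] at this
      exact_mod_cast this
    have e2 := hs Y (2 * h) hY1 (by omega)
    push_cast at e2
    calc (∑ k ∈ Ico X (2 * X), ∑ l ∈ Ico X (2 * X), (Q22 (Wk k h) (Wk l h) : ℝ))
        ≤ (2 * h) ^ 2 * (Cs * Y * (2 * (h : ℝ)) * (1 + Real.log (20 * Y)) ^ 4) :=
          e1.trans (mul_le_mul_of_nonneg_left e2 (by positivity))
      _ ≤ (2 * h) ^ 2 * (Cs * (X / 2) * (2 * (h : ℝ)) * (81 * L ^ 4)) := by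
          apply mul_le_mul_of_nonneg_left _ (by positivity)
          refine mul_le_mul ?_ hlog4 (pow_nonneg hlog20.1 4) (by positivity)
          apply mul_le_mul_of_nonneg_right _ (by positivity)
          exact mul_le_mul_of_nonneg_left hY2 hCs.le
      _ = (324 * Cs) * (X * (h : ℝ) ^ 3 * L ^ 4) := by ring
      _ ≤ (1 + 1000 * 2 ^ 20 + 648 * C4 + 324 * Cs) * (X * (h : ℝ) ^ 3 * L ^ 4) :=
          hdiv _ _ _ (by nlinarith) (by positivity)
      _ = (1 + 1000 * 2 ^ 20 + 648 * C4 + 324 * Cs) * X * (h : ℝ) ^ 3 * L ^ 4 := by ring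

end Pool.Agent.H41.RG
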