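import Pool.Agent.H41.RG.Defs
import Pool.Agent.H18.RM.Mink

/-!
# RG BridgeA: passage from `(K, 2h)` to `(X, H)` (deterministic)

`g` real with `|g n| ≤ 1`.

`disc_eq`: for natural `h ≤ K`, `phiC g K (2h) t = phiD g K h (t / sg (2h))`: for `x ∈ (k, k+1)` the
integers with `|n - x| < h` are those with `k - h < n ≤ k + h`; on `Wk` only squarefree numbers are
summed, so we assume `g n = 0` for `n` not squarefree.

`phi_X`: changing `X` to `X'` (`X ≤ X' ≤ (1+η) X`): `‖phiC g X H t - phiC g X' H t‖ ≤ 6 η`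
(the integrand has modulus one; intervals `[X,2X]`, `[X',2X']`).

`phi_H`: changing `H` to `H'` for the same `X`, `0 < H' ≤ H ≤ 4 H'` (or the other way round):
`|exp(iu) - exp(iv)| ≤ |u - v|` and
`avg |M(x;H)/σ_H - M(x;H')/σ_{H'}| ≤ avg |M(x;H) - M(x;H')|/σ_H + avg |M(x;H')| |1/σ_H - 1/σ_{H'}|`,
Cauchy-Schwarz.  For almost all `x`: `M(x;H) - M(x;H') = M(x + s; r) + M(x - s; r)`, `r = (H-H')/2`,
`s = (H+H')/4` (see `MC_split` in `H18/RM/Mink`); `[X - s, 2X + s] ⊆ [X/2, 4X]`; if `r ≥ 1` the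
hypothesis `hMS` bounds `∫_{X/2}^{4X} M(x;r)² ≤ 7 X r`; if `r < 1` then the window contains at most
one integer, `|M| ≤ 1`, `∫_{X/2}^{4X} M(x;r)² ≤ 4 X`.  `1/σ_{H'} - 1/σ_H = (1/σ_{H'}) (1 - √(H'/H))
≤ (1/σ_{H'}) (H - H')/H`.
-/

set_option autoImplicit false

namespace Pool.Agent.H41.RG

open Finset MeasureTheory

private theorem BridgeA_MC (g : ℕ → ℝ) (x H : ℝ) :
    H18.RM.MC (fun n => (g n : ℂ)) x H = ((MR g x H : ℝ) : ℂ) := by
  unfold H18.RM.MC MR
  push_cast
  rfl

private theorem BridgeA_norm (g : ℕ → ℝ) (x H : ℝ) :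
    ‖H18.RM.MC (fun n => (g n : ℂ)) x H‖ = |MR g x H| := by
  rw [BridgeA_MC, Complex.norm_real, Real.norm_eq_abs]

private theorem BridgeA_meas (g : ℕ → ℝ) {H : ℝ} (hH : 0 < H) : Measurable (fun x => MR g x H) := by
  have h1 := H18.RM.measurable_MC (fun n => (g n : ℂ)) hH
  have h2 : (fun x => MR g x H) = fun x => (H18.RM.MC (fun n => (g n : ℂ)) x H).re := by
    funext x
    rw [BridgeA_MC, Complex.ofReal_re]
  rw [h2]
  exact Complex.measurable_re.comp h1

private theorem BridgeA_gc {g : ℕ → ℝ} (hg : ∀ n, |g n| ≤ 1) : ∀ n, ‖(g n : ℂ)‖ ≤ 1 := by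
  intro n
  rw [Complex.norm_real, Real.norm_eq_abs]
  exact hg n

private theorem BridgeA_le {g : ℕ → ℝ} (hg : ∀ n, |g n| ≤ 1) {H : ℝ} (hH : 0 < H) (x : ℝ) :
    |MR g x H| ≤ H + 1 := by
  rw [← BridgeA_norm]
  exact H18.RM.norm_MC_le (BridgeA_gc hg) hH x

private theorem BridgeA_int {F : ℝ → ℝ} (hF : Measurable F) {M : ℝ} (hM : ∀ x, |F x| ≤ M)
    (a b : ℝ) : IntervalIntegrable F volume a b := by
  rw [intervalIntegrable_iff]
  refine MeasureTheory.Measure.integrableOn_of_bounded (M := M) ?_ hF.aestronglyMeasurable ?_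
  · rw [Real.volume_uIoc]
    exact ENNReal.ofReal_ne_top
  · exact Filter.Eventually.of_forall hM

private theorem BridgeA_intc {F : ℝ → ℂ} (hF : Measurable F) {M : ℝ} (hM : ∀ x, ‖F x‖ ≤ M)
    (a b : ℝ) : IntervalIntegrable F volume a b := by
  rw [intervalIntegrable_iff]
  refine MeasureTheory.Measure.integrableOn_of_bounded (M := M) ?_ hF.aestronglyMeasurable ?_
  · rw [Real.volume_uIoc]
    exact ENNReal.ofReal_ne_top
  · exact Filter.Eventually.of_forall hM

/-- the integrand -/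
private noncomputable def BridgeA_f (g : ℕ → ℝ) (H t x : ℝ) : ℂ :=
  Complex.exp (Complex.I * ((t * (MR g x H / sg H) : ℝ) : ℂ))

private theorem BridgeA_f_norm (g : ℕ → ℝ) (H t x : ℝ) : ‖BridgeA_f g H t x‖ = 1 := by
  unfold BridgeA_f
  rw [mul_comm]
  exact Complex.norm_exp_ofReal_mul_I _

private theorem BridgeA_f_meas (g : ℕ → ℝ) {H : ℝ} (hH : 0 < H) (t : ℝ) :
    Measurable (BridgeA_f g H t) := by
  unfold BridgeA_f
  have h1 : Measurable (fun x => t * (MR g x H / sg H)) :=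
    ((BridgeA_meas g hH).div_const _).const_mul t
  exact Complex.measurable_exp.comp ((Complex.measurable_ofReal.comp h1).const_mul _)

private theorem BridgeA_f_int (g : ℕ → ℝ) {H : ℝ} (hH : 0 < H) (t a b : ℝ) :
    IntervalIntegrable (BridgeA_f g H t) volume a b :=
  BridgeA_intc (BridgeA_f_meas g hH t) (M := 1) (fun x => (BridgeA_f_norm g H t x).le) a b

private theorem BridgeA_f_bd (g : ℕ → ℝ) (H t : ℝ) {a b : ℝ} (hab : a ≤ b) :
    ‖∫ x in a..b, BridgeA_f g H t x‖ ≤ b - a := by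
  have := intervalIntegral.norm_integral_le_of_norm_le_const (a := a) (b := b)
    (f := BridgeA_f g H t) (C := 1) (fun x _ => (BridgeA_f_norm g H t x).le)
  rw [one_mul, abs_of_nonneg (by linarith)] at this
  exact this

private theorem BridgeA_exp (u v : ℝ) :
    ‖Complex.exp (Complex.I * (u : ℂ)) - Complex.exp (Complex.I * (v : ℂ))‖ ≤ |u - v| := by
  have e : Complex.exp (Complex.I * (u : ℂ)) - Complex.exp (Complex.I * (v : ℂ)) =
      Complex.exp ((v : ℂ) * Complex.I) * (Complex.exp (Complex.I * ((u - v : ℝ) : ℂ)) - 1) := by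
    rw [mul_sub, mul_one, ← Complex.exp_add]
    congr 2
    · push_cast; ring
    · ring
  rw [e, norm_mul, Complex.norm_exp_ofReal_mul_I, one_mul, ← Real.norm_eq_abs]
  exact Real.norm_exp_I_mul_ofReal_sub_one_le

private theorem BridgeA_window {g : ℕ → ℝ} (hg0 : ∀ n, ¬ Squarefree n → g n = 0) {k h : ℕ}
    (hk : h ≤ k) {x : ℝ} (hx : x ∈ Set.Ioo (k : ℝ) (k + 1)) :
    MR g x (2 * h) = ∑ n ∈ Wk k h, g n := by
  unfold MR Wk
  rw [sum_filter_of_ne (s := Ioc (k - h) (k + h)) (p := Squarefree) (f := g)]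
  · apply sum_congr _ (fun _ _ => rfl)
    ext n
    simp only [mem_filter, mem_range, mem_Ioc]
    have e : (2 * (h : ℝ)) / 2 = h := by ring
    rw [e, abs_lt]
    have hkh : ((k - h : ℕ) : ℝ) = (k : ℝ) - h := Nat.cast_sub hk
    constructor
    · rintro ⟨-, h1, h2⟩
      constructor
      · have h3 : ((k - h : ℕ) : ℝ) < n := by rw [hkh]; linarith [hx.1]
        exact_mod_cast h3
      · have h3 : (n : ℝ) < ((k + h + 1 : ℕ) : ℝ) := by push_cast; linarith [hx.2]
        have h4 : n < k + h + 1 := by exact_mod_cast h3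
        omega
    · rintro ⟨h1, h2⟩
      have h3 : ((k - h + 1 : ℕ) : ℝ) ≤ n := by exact_mod_cast h1
      have h4 : (n : ℝ) ≤ ((k + h : ℕ) : ℝ) := by exact_mod_cast h2
      push_cast [hkh] at h3 h4
      have h5 : (n : ℝ) < x + h := by linarith [hx.1]
      refine ⟨?_, by linarith [hx.2], by linarith⟩
      have h6 : (n : ℝ) < ((⌈x + 2 * (h : ℝ)⌉₊ + 1 : ℕ) : ℝ) := by
        have := Nat.le_ceil (x + 2 * (h : ℝ))
        have h7 : (0 : ℝ) ≤ h := by positivity
        push_cast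
        linarith
      exact_mod_cast h6
  · intro n _ hn
    by_contra hc
    exact hn (hg0 n hc)

theorem disc_eq {g : ℕ → ℝ} (hg0 : ∀ n, ¬ Squarefree n → g n = 0) {K h : ℕ} (h1 : 1 ≤ h)
    (hK : h ≤ K) (t : ℝ) :
    phiC g K (2 * h) t = phiD g K h (t / sg (2 * h)) := by
  have hh0 : (0 : ℝ) < 2 * h := by
    have : (0 : ℝ) < h := by exact_mod_cast h1
    linarith
  unfold phiC phiD
  have e1 := intervalIntegral.sum_integral_adjacent_intervals_Ico (μ := volume)
    (f := BridgeA_f g (2 * h) t) (a := fun k : ℕ => (k : ℝ)) (m := K) (n := 2 * K) (by omega)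
    (fun k _ => BridgeA_f_int g hh0 t _ _)
  have e2 : ∫ x in (K : ℝ)..2 * K, Complex.exp (Complex.I * ((t * (MR g x (2 * h) /
      sg (2 * h)) : ℝ) : ℂ)) = ∫ x in (K : ℝ)..((2 * K : ℕ) : ℝ), BridgeA_f g (2 * h) t x := by
    have hc : ((2 * K : ℕ) : ℝ) = 2 * (K : ℝ) := by push_cast; ring
    rw [hc]
    rfl
  rw [e2, ← e1]
  congr 1
  refine sum_congr rfl fun k hk => ?_
  rw [mem_Ico] at hk
  have hk1 : (k : ℝ) ≤ ((k + 1 : ℕ) : ℝ) := by push_cast; linarith
  rw [intervalIntegral.integral_of_le hk1, integral_Ioc_eq_integral_Ioo]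
  have e3 : ∀ x ∈ Set.Ioo (k : ℝ) ((k + 1 : ℕ) : ℝ), BridgeA_f g (2 * h) t x =
      Complex.exp (Complex.I * ((t / sg (2 * h) * ∑ n ∈ Wk k h, g n : ℝ) : ℂ)) := by
    intro x hx
    push_cast at hx
    unfold BridgeA_f
    rw [BridgeA_window hg0 (by omega) hx]
    congr 3
    ring
  rw [setIntegral_congr_fun measurableSet_Ioo e3, setIntegral_const]
  have e4 : (volume : Measure ℝ).real (Set.Ioo (k : ℝ) ((k + 1 : ℕ) : ℝ)) = 1 := by
    rw [Measure.real, Real.volume_Ioo]
    push_cast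
    norm_num
  rw [e4, one_smul]

theorem phi_X {g : ℕ → ℝ} (hg : ∀ n, |g n| ≤ 1) {X X' H η : ℝ} (hX : 1 ≤ X) (hH : 0 < H)
    (hXX : X ≤ X') (hX' : X' ≤ (1 + η) * X) (hη : η ≤ 1) (t : ℝ) :
    ‖phiC g X H t - phiC g X' H t‖ ≤ 6 * η := by
  have hX0 : 0 < X := by linarith
  have hX0' : 0 < X' := by linarith
  have hη0 : 0 ≤ η := by nlinarith
  set f := BridgeA_f g H t with hf
  have hint : ∀ a b, IntervalIntegrable f volume a b := fun a b => BridgeA_f_int g hH t a b
  have e0 : phiC g X H t - phiC g X' H t =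
      ((1 / (X : ℂ)) - (1 / (X' : ℂ))) * (∫ x in X..2 * X, f x) +
      (1 / (X' : ℂ)) * ((∫ x in X..X', f x) - ∫ x in (2 * X)..(2 * X'), f x) := by
    have h1 : (∫ x in X..2 * X, f x) + (∫ x in (2 * X)..(2 * X'), f x) =
        (∫ x in X..X', f x) + ∫ x in X'..(2 * X'), f x := by
      rw [intervalIntegral.integral_add_adjacent_intervals (hint _ _) (hint _ _),
        intervalIntegral.integral_add_adjacent_intervals (hint _ _) (hint _ _)]
    have h2 : phiC g X H t = (1 / (X : ℂ)) * ∫ x in X..2 * X, f x := rfl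
    have h3 : phiC g X' H t = (1 / (X' : ℂ)) * ∫ x in X'..2 * X', f x := rfl
    rw [h2, h3]
    linear_combination (1 / (X' : ℂ)) * h1
  have n1 : ‖((1 / (X : ℂ)) - (1 / (X' : ℂ)))‖ = 1 / X - 1 / X' := by
    have e : ((1 / (X : ℂ)) - (1 / (X' : ℂ))) = ((1 / X - 1 / X' : ℝ) : ℂ) := by push_cast; ring
    rw [e, Complex.norm_real, Real.norm_eq_abs, abs_of_nonneg]
    rw [sub_nonneg]
    exact one_div_le_one_div_of_le hX0 hXX
  have n2 : ‖(1 / (X' : ℂ))‖ = 1 / X' := by
    rw [norm_div, norm_one, Complex.norm_real, Real.norm_eq_abs, abs_of_pos hX0']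
  have b1 : ‖∫ x in X..2 * X, f x‖ ≤ X := by
    have := BridgeA_f_bd g H t (a := X) (b := 2 * X) (by linarith)
    linarith
  have b2 : ‖(∫ x in X..X', f x) - ∫ x in (2 * X)..(2 * X'), f x‖ ≤ 3 * (X' - X) := by
    have h1 := BridgeA_f_bd g H t (a := X) (b := X') hXX
    have h2 := BridgeA_f_bd g H t (a := 2 * X) (b := 2 * X') (by linarith)
    have h3 := norm_sub_le (∫ x in X..X', f x) (∫ x in (2 * X)..(2 * X'), f x)
    linarith
  rw [e0]
  refine (norm_add_le _ _).trans ?_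
  rw [norm_mul, norm_mul, n1, n2]
  have c1 : (1 / X - 1 / X') * ‖∫ x in X..2 * X, f x‖ ≤ (1 / X - 1 / X') * X := by
    refine mul_le_mul_of_nonneg_left b1 ?_
    rw [sub_nonneg]
    exact one_div_le_one_div_of_le hX0 hXX
  have c2 : 1 / X' * ‖(∫ x in X..X', f x) - ∫ x in (2 * X)..(2 * X'), f x‖ ≤
      1 / X' * (3 * (X' - X)) := mul_le_mul_of_nonneg_left b2 (by positivity)
  have c3 : (1 / X - 1 / X') * X = (X' - X) / X' := by field_simp
  have c4 : 1 / X' * (3 * (X' - X)) = 3 * ((X' - X) / X') := by ring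
  have c5 : (X' - X) / X' ≤ η := by
    rw [div_le_iff₀ hX0']
    nlinarith
  rw [c3] at c1
  rw [c4] at c2
  linarith

private theorem BridgeA_ae (g : ℕ → ℝ) {H' r : ℝ} (hH : 0 < H') (hr : 0 < r) :
    ∀ᵐ x : ℝ, MR g x (H' + 2 * r) = MR g x H' +
      (MR g (x + (-(H' / 2 + r / 2))) r + MR g (x + (H' / 2 + r / 2)) r) := by
  have key : ∀ (c : ℝ) {a b : ℝ}, 0 ≤ a → 0 ≤ b → ∀ᵐ x : ℝ, MR g (x + c) (a + b) =
      MR g (x + (c - b / 2)) a + MR g (x + (c + a / 2)) b := by
    intro c a b ha hb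
    have h := (measurePreserving_add_right volume c).quasiMeasurePreserving.ae
      (H18.RM.MC_split (fun n => (g n : ℂ)) ha hb)
    filter_upwards [h] with x hx
    simp only [BridgeA_MC] at hx
    have h2 : MR g (x + c) (a + b) = MR g (x + c - b / 2) a + MR g (x + c + a / 2) b := by
      exact_mod_cast hx
    rw [h2]
    congr 2 <;> ring
  have h1 := key 0 hr.le (by linarith : 0 ≤ H' + r)
  have h2 := key (r / 2) hH.le hr.le
  filter_upwards [h1, h2] with x h1 h2
  have e1 : x + 0 = x := by ring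
  have e2 : r + (H' + r) = H' + 2 * r := by ring
  have e3 : x + (0 - (H' + r) / 2) = x + (-(H' / 2 + r / 2)) := by ring
  have e4 : x + (0 + r / 2) = x + r / 2 := by ring
  have e5 : x + (r / 2 - r / 2) = x := by ring
  have e6 : x + (r / 2 + H' / 2) = x + (H' / 2 + r / 2) := by ring
  rw [e1, e2, e3, e4, h2, e5, e6] at h1
  rw [h1]
  ring

private theorem BridgeA_sqint {g : ℕ → ℝ} (hg : ∀ n, |g n| ≤ 1) {H : ℝ} (hH : 0 < H)
    (c a b : ℝ) : IntervalIntegrable (fun x => (MR g (x + c) H) ^ 2) volume a b := by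
  refine BridgeA_int (M := (H + 1) ^ 2) ?_ ?_ a b
  · exact ((BridgeA_meas g hH).comp (measurable_id.add_const c)).pow_const 2
  · intro x
    rw [abs_of_nonneg (sq_nonneg _), ← sq_abs]
    exact pow_le_pow_left₀ (abs_nonneg _) (BridgeA_le hg hH _) 2

private theorem BridgeA_short {g : ℕ → ℝ} (hg : ∀ n, |g n| ≤ 1) {X H r c : ℝ} (hX : 16 ≤ X)
    (hr : 0 < r) (hrH : r ≤ H) (hc : |c| ≤ X / 2)
    (hMS : ∀ Y ∈ ({X / 2, X, 2 * X} : Set ℝ), ∀ r : ℝ, 1 ≤ r → r ≤ H →
      ∫ x in Y..2 * Y, (MR g x r) ^ 2 ≤ 2 * Y * r) :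
    ∫ x in X..2 * X, (MR g (x + c) r) ^ 2 ≤ 7 * X * r := by
  rcases lt_or_ge r 1 with h1 | h1
  · have h2 := H18.RM.int_short (BridgeA_gc hg) (U := X) (V := 2 * X) (c := c) (by linarith) hr h1
    simp only [BridgeA_norm, sq_abs] at h2
    refine h2.trans ?_
    nlinarith
  · have e1 : ∫ x in X..2 * X, (MR g (x + c) r) ^ 2 = ∫ y in (X + c)..(2 * X + c), (MR g y r) ^ 2 :=
      intervalIntegral.integral_comp_add_right (fun y => (MR g y r) ^ 2) c
    have hi : ∀ a b, IntervalIntegrable (fun x => (MR g x r) ^ 2) volume a b := by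
      intro a b
      have := BridgeA_sqint hg hr 0 a b
      simpa only [add_zero] using this
    have hc' := abs_le.1 hc
    have e2 : ∫ y in (X + c)..(2 * X + c), (MR g y r) ^ 2 ≤
        ∫ y in (X / 2)..(2 * (2 * X)), (MR g y r) ^ 2 := by
      apply intervalIntegral.integral_mono_interval (by linarith [hc'.1]) (by linarith)
        (by linarith [hc'.2]) _ (hi _ _)
      exact Filter.Eventually.of_forall (fun y => by positivity)
    have e3 : ∫ y in (X / 2)..(2 * (2 * X)), (MR g y r) ^ 2 =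
        (∫ y in (X / 2)..(2 * (X / 2)), (MR g y r) ^ 2) + (∫ y in X..(2 * X), (MR g y r) ^ 2) +
        ∫ y in (2 * X)..(2 * (2 * X)), (MR g y r) ^ 2 := by
      have e4 : 2 * (X / 2) = X := by ring
      rw [e4, intervalIntegral.integral_add_adjacent_intervals (hi _ _) (hi _ _),
        intervalIntegral.integral_add_adjacent_intervals (hi _ _) (hi _ _)]
    have m1 := hMS (X / 2) (by simp) r h1 hrH
    have m2 := hMS X (by simp) r h1 hrH
    have m3 := hMS (2 * X) (by simp) r h1 hrH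
    rw [e1]
    refine e2.trans ?_
    rw [e3]
    linarith

theorem phi_H : ∃ C : ℝ, 1 ≤ C ∧ ∀ (g : ℕ → ℝ), (∀ n, |g n| ≤ 1) → ∀ X H H' : ℝ, 16 ≤ X →
    1 ≤ H' → H' ≤ H → H ≤ 4 * H' → 4 * H ≤ X →
    (∀ Y ∈ ({X / 2, X, 2 * X} : Set ℝ), ∀ r : ℝ, 1 ≤ r → r ≤ H →
      ∫ x in Y..2 * Y, (MR g x r) ^ 2 ≤ 2 * Y * r) → ∀ t : ℝ,
    ‖phiC g X H t - phiC g X H' t‖ ≤ C * |t| * Real.sqrt ((H - H') / H + 1 / H) := by
  refine ⟨33, by norm_num, ?_⟩
  intro g hg X H H' hX hH1 hHH hH4 hHX hMS t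
  have hX0 : 0 < X := by linarith
  have hH0' : 0 < H' := by linarith
  have hH0 : 0 < H := by linarith
  rcases hHH.eq_or_lt with heq | hlt
  · rw [heq, sub_self, norm_zero]
    positivity
  set δ : ℝ := (H - H') / H with hδ
  have hδ0 : 0 < δ := div_pos (by linarith) hH0
  have hδ1 : δ ≤ 1 := by
    rw [hδ, div_le_one hH0]; linarith
  set r : ℝ := (H - H') / 2 with hr
  have hr0 : 0 < r := by rw [hr]; linarith
  have hrH : r ≤ H := by rw [hr]; linarith
  set D : ℝ → ℝ := fun x => MR g x H / sg H - MR g x H' / sg H' with hD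
  have hDm : Measurable D := ((BridgeA_meas g hH0).div_const _).sub
    ((BridgeA_meas g hH0').div_const _)
  -- the standard deviations
  have hpi : (0 : ℝ) < Real.pi ^ 2 / 6 := by positivity
  have hpi2 : Real.pi ^ 2 / 6 < 2 := by
    have := Real.pi_lt_d2
    have h3 := Real.pi_pos
    nlinarith
  have hs2 : ∀ {y : ℝ}, 0 < y → sg y ^ 2 = y / (Real.pi ^ 2 / 6) := fun hy => by
    unfold sg
    rw [Real.sq_sqrt (by positivity)]
  have hs0 : ∀ {y : ℝ}, 0 < y → 0 < sg y := fun hy => by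
    unfold sg
    exact Real.sqrt_pos.mpr (by positivity)
  have hsH := hs0 hH0
  have hsH' := hs0 hH0'
  have hsle : sg H' ≤ sg H := by
    unfold sg
    apply Real.sqrt_le_sqrt
    gcongr
  -- bound of the difference of the inverses
  have hinv : |1 / sg H - 1 / sg H'| ≤ δ / sg H' := by
    have h1 : 1 / sg H ≤ 1 / sg H' := one_div_le_one_div_of_le hsH' hsle
    rw [abs_of_nonpos (by linarith)]
    -- sg H' / sg H ≥ H' / H
    have h2 : H' / H ≤ sg H' / sg H := by
      have h3 : (sg H' / sg H) ^ 2 = H' / H := by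
        rw [div_pow, hs2 hH0', hs2 hH0]
        field_simp
      have h4 : 0 < sg H' / sg H := div_pos hsH' hsH
      have h5 : sg H' / sg H ≤ 1 := (div_le_one hsH).mpr hsle
      rw [← h3]
      nlinarith
    have h6 : -(1 / sg H - 1 / sg H') = (1 - sg H' / sg H) / sg H' := by
      field_simp
      ring
    rw [h6]
    have h7 : 1 - sg H' / sg H ≤ δ := by
      have : δ = 1 - H' / H := by rw [hδ]; field_simp
      rw [this]
      linarith
    gcongr
  have i1 : ∀ c : ℝ, IntervalIntegrable (fun x => (MR g (x + c) r) ^ 2) volume X (2 * X) :=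
    fun c => BridgeA_sqint hg hr0 c _ _
  have i2 : IntervalIntegrable (fun x => (MR g x H') ^ 2) volume X (2 * X) := by
    have := BridgeA_sqint hg hH0' 0 X (2 * X)
    simpa only [add_zero] using this
  set s : ℝ := H' / 2 + r / 2 with hs
  have hsX : |s| ≤ X / 2 := by
    rw [abs_of_pos (by rw [hs]; linarith), hs, hr]
    linarith
  have hsX' : |-s| ≤ X / 2 := by rw [abs_neg]; exact hsX
  have hb1 := BridgeA_short hg hX hr0 hrH hsX hMS
  have hb2 := BridgeA_short hg hX hr0 hrH hsX' hMS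
  have hb3 : ∫ x in X..2 * X, (MR g x H') ^ 2 ≤ 2 * X * H' :=
    hMS X (by simp) H' hH1 hHH
  have hae := BridgeA_ae g hH0' hr0
  have hHr : H' + 2 * r = H := by rw [hr]; ring
  rw [hHr] at hae
  have hDint : IntervalIntegrable (fun x => D x ^ 2) volume X (2 * X) := by
    refine BridgeA_int (M := ((H + 1) / sg H + (H' + 1) / sg H') ^ 2) (hDm.pow_const 2) ?_ _ _
    intro x
    rw [abs_of_nonneg (sq_nonneg _), ← sq_abs]
    refine pow_le_pow_left₀ (abs_nonneg _) ?_ 2
    refine (abs_sub _ _).trans (add_le_add ?_ ?_)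
    · rw [abs_div, abs_of_pos hsH]
      exact div_le_div_of_nonneg_right (BridgeA_le hg hH0 x) hsH.le
    · rw [abs_div, abs_of_pos hsH']
      exact div_le_div_of_nonneg_right (BridgeA_le hg hH0' x) hsH'.le
  -- the mean square of `D`
  have hD2 : ∫ x in X..2 * X, D x ^ 2 ≤ 64 * X * δ := by
    have hpt : ∀ᵐ x : ℝ, D x ^ 2 ≤ 4 / sg H ^ 2 * (MR g (x + s) r) ^ 2 +
        4 / sg H ^ 2 * (MR g (x + (-s)) r) ^ 2 + 2 * (δ / sg H') ^ 2 * (MR g x H') ^ 2 := by
      filter_upwards [hae] with x hx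
      set a := MR g (x + s) r
      set b := MR g (x + (-s)) r
      set m := MR g x H' with hm
      have e1 : D x = (b + a) / sg H + m * (1 / sg H - 1 / sg H') := by
        simp only [hD]
        rw [hx]
        ring
      rw [e1]
      have e2 : ((b + a) / sg H + m * (1 / sg H - 1 / sg H')) ^ 2 ≤
          2 * ((b + a) / sg H) ^ 2 + 2 * (m * (1 / sg H - 1 / sg H')) ^ 2 := by
        nlinarith [sq_nonneg ((b + a) / sg H - m * (1 / sg H - 1 / sg H'))]
      refine e2.trans ?_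
      have e3 : 2 * ((b + a) / sg H) ^ 2 ≤ 4 / sg H ^ 2 * a ^ 2 + 4 / sg H ^ 2 * b ^ 2 := by
        have e4 : 2 * ((b + a) / sg H) ^ 2 = 2 / sg H ^ 2 * (b + a) ^ 2 := by
          rw [div_pow]; ring
        have e5 : 4 / sg H ^ 2 * a ^ 2 + 4 / sg H ^ 2 * b ^ 2 =
            2 / sg H ^ 2 * (2 * a ^ 2 + 2 * b ^ 2) := by ring
        rw [e4, e5]
        refine mul_le_mul_of_nonneg_left ?_ (by positivity)
        nlinarith [sq_nonneg (a - b)]
      have e6 : 2 * (m * (1 / sg H - 1 / sg H')) ^ 2 ≤ 2 * (δ / sg H') ^ 2 * m ^ 2 := by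
        rw [mul_pow, ← sq_abs (1 / sg H - 1 / sg H')]
        have : |1 / sg H - 1 / sg H'| ^ 2 ≤ (δ / sg H') ^ 2 :=
          pow_le_pow_left₀ (abs_nonneg _) hinv 2
        nlinarith [sq_nonneg m]
      linarith
    have hI := intervalIntegral.integral_mono_ae (by linarith : X ≤ 2 * X) hDint
      ((((i1 s).const_mul (4 / sg H ^ 2)).add ((i1 (-s)).const_mul (4 / sg H ^ 2))).add
        (i2.const_mul (2 * (δ / sg H') ^ 2))) hpt
    refine hI.trans ?_
    have hI2 : ∫ x in X..2 * X, (4 / sg H ^ 2 * (MR g (x + s) r) ^ 2 +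
        4 / sg H ^ 2 * (MR g (x + (-s)) r) ^ 2 + 2 * (δ / sg H') ^ 2 * (MR g x H') ^ 2) =
        4 / sg H ^ 2 * (∫ x in X..2 * X, (MR g (x + s) r) ^ 2) +
        4 / sg H ^ 2 * (∫ x in X..2 * X, (MR g (x + (-s)) r) ^ 2) +
        2 * (δ / sg H') ^ 2 * (∫ x in X..2 * X, (MR g x H') ^ 2) := by
      rw [intervalIntegral.integral_add (((i1 s).const_mul _).add ((i1 (-s)).const_mul _))
          (i2.const_mul _),
        intervalIntegral.integral_add ((i1 s).const_mul _) ((i1 (-s)).const_mul _),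
        intervalIntegral.integral_const_mul, intervalIntegral.integral_const_mul,
        intervalIntegral.integral_const_mul]
    have hI3 : 4 / sg H ^ 2 * (∫ x in X..2 * X, (MR g (x + s) r) ^ 2) +
        4 / sg H ^ 2 * (∫ x in X..2 * X, (MR g (x + (-s)) r) ^ 2) +
        2 * (δ / sg H') ^ 2 * (∫ x in X..2 * X, (MR g x H') ^ 2) ≤
        4 / sg H ^ 2 * (7 * X * r) + 4 / sg H ^ 2 * (7 * X * r) +
        2 * (δ / sg H') ^ 2 * (2 * X * H') := by
      gcongr
    have hI4 : 4 / sg H ^ 2 * (7 * X * r) + 4 / sg H ^ 2 * (7 * X * r) +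
        2 * (δ / sg H') ^ 2 * (2 * X * H') = Real.pi ^ 2 / 6 * X * (28 * δ + 4 * δ ^ 2) := by
      rw [div_pow, hs2 hH0, hs2 hH0', hr, hδ]
      field_simp
      ring
    have hI5 : Real.pi ^ 2 / 6 * X * (28 * δ + 4 * δ ^ 2) ≤ 64 * X * δ := by
      have h1 : 28 * δ + 4 * δ ^ 2 ≤ 32 * δ := by nlinarith
      calc Real.pi ^ 2 / 6 * X * (28 * δ + 4 * δ ^ 2) ≤ 2 * X * (32 * δ) := by
            gcongr
        _ = 64 * X * δ := by ring
    rw [hI4] at hI3
    calc _ = _ := hI2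
      _ ≤ _ := hI3
      _ ≤ _ := hI5
  -- from the mean square to the mean
  have hsδ : 0 < Real.sqrt δ := Real.sqrt_pos.mpr hδ0
  have hsδ2 : Real.sqrt δ * Real.sqrt δ = δ := Real.mul_self_sqrt hδ0.le
  have hDabs : ∫ x in X..2 * X, |D x| ≤ 33 * X * Real.sqrt δ := by
    have hpt : ∀ x, |D x| ≤ Real.sqrt δ / 2 + 1 / (2 * Real.sqrt δ) * D x ^ 2 := by
      intro x
      have h1 : 0 ≤ (|D x| - Real.sqrt δ) ^ 2 / (2 * Real.sqrt δ) := by positivity
      have h2 : (|D x| - Real.sqrt δ) ^ 2 / (2 * Real.sqrt δ) =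
          Real.sqrt δ / 2 + 1 / (2 * Real.sqrt δ) * D x ^ 2 - |D x| := by
        rw [← sq_abs (D x)]
        field_simp
        ring
      linarith
    have hDabsint : IntervalIntegrable (fun x => |D x|) volume X (2 * X) := by
      refine BridgeA_int (M := (H + 1) / sg H + (H' + 1) / sg H') hDm.abs ?_ _ _
      intro x
      rw [abs_abs]
      refine (abs_sub _ _).trans (add_le_add ?_ ?_)
      · rw [abs_div, abs_of_pos hsH]
        exact div_le_div_of_nonneg_right (BridgeA_le hg hH0 x) hsH.le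
      · rw [abs_div, abs_of_pos hsH']
        exact div_le_div_of_nonneg_right (BridgeA_le hg hH0' x) hsH'.le
    have hI := intervalIntegral.integral_mono (by linarith : X ≤ 2 * X) hDabsint
      ((intervalIntegrable_const (c := Real.sqrt δ / 2)).add
        (hDint.const_mul (1 / (2 * Real.sqrt δ)))) hpt
    refine hI.trans ?_
    have hI2 : ∫ x in X..2 * X, (Real.sqrt δ / 2 + 1 / (2 * Real.sqrt δ) * D x ^ 2) =
        X * (Real.sqrt δ / 2) + 1 / (2 * Real.sqrt δ) * ∫ x in X..2 * X, D x ^ 2 := by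
      rw [intervalIntegral.integral_add intervalIntegrable_const (hDint.const_mul _),
        intervalIntegral.integral_const_mul, intervalIntegral.integral_const, smul_eq_mul]
      ring
    have hI3 : 1 / (2 * Real.sqrt δ) * ∫ x in X..2 * X, D x ^ 2 ≤
        1 / (2 * Real.sqrt δ) * (64 * X * δ) := mul_le_mul_of_nonneg_left hD2 (by positivity)
    have hI4 : 1 / (2 * Real.sqrt δ) * (64 * X * δ) = 32 * X * Real.sqrt δ := by
      have h1 : 1 / (2 * Real.sqrt δ) * (64 * X * δ) =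
          1 / (2 * Real.sqrt δ) * (64 * X * (Real.sqrt δ * Real.sqrt δ)) := by rw [hsδ2]
      rw [h1]
      field_simp
      ring
    rw [hI4] at hI3
    calc _ = _ := hI2
      _ ≤ X * (Real.sqrt δ / 2) + 32 * X * Real.sqrt δ := by linarith
      _ ≤ 33 * X * Real.sqrt δ := by nlinarith
  -- the difference of the characteristic functions
  have hfin : ‖phiC g X H t - phiC g X H' t‖ ≤ 33 * |t| * Real.sqrt δ := by
    have e0 : phiC g X H t - phiC g X H' t =
        (1 / (X : ℂ)) * ∫ x in X..2 * X, (BridgeA_f g H t x - BridgeA_f g H' t x) := by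
      rw [intervalIntegral.integral_sub (BridgeA_f_int g hH0 t _ _)
        (BridgeA_f_int g hH0' t _ _)]
      have h2 : phiC g X H t = (1 / (X : ℂ)) * ∫ x in X..2 * X, BridgeA_f g H t x := rfl
      have h3 : phiC g X H' t = (1 / (X : ℂ)) * ∫ x in X..2 * X, BridgeA_f g H' t x := rfl
      rw [h2, h3]
      ring
    have hDabsint : IntervalIntegrable (fun x => |t| * |D x|) volume X (2 * X) := by
      refine BridgeA_int (M := |t| * ((H + 1) / sg H + (H' + 1) / sg H'))
        (hDm.abs.const_mul _) ?_ _ _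
      intro x
      rw [abs_mul, abs_abs, abs_abs]
      refine mul_le_mul_of_nonneg_left ?_ (abs_nonneg _)
      refine (abs_sub _ _).trans (add_le_add ?_ ?_)
      · rw [abs_div, abs_of_pos hsH]
        exact div_le_div_of_nonneg_right (BridgeA_le hg hH0 x) hsH.le
      · rw [abs_div, abs_of_pos hsH']
        exact div_le_div_of_nonneg_right (BridgeA_le hg hH0' x) hsH'.le
    have hle : ‖∫ x in X..2 * X, (BridgeA_f g H t x - BridgeA_f g H' t x)‖ ≤
        ∫ x in X..2 * X, |t| * |D x| := by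
      refine intervalIntegral.norm_integral_le_of_norm_le (by linarith) ?_ hDabsint
      refine Filter.Eventually.of_forall fun x _ => ?_
      refine (BridgeA_exp _ _).trans ?_
      rw [← mul_sub, abs_mul]
    rw [intervalIntegral.integral_const_mul] at hle
    rw [e0, norm_mul, norm_div, norm_one, Complex.norm_real, Real.norm_eq_abs, abs_of_pos hX0]
    calc 1 / X * ‖∫ x in X..2 * X, (BridgeA_f g H t x - BridgeA_f g H' t x)‖
        ≤ 1 / X * (|t| * (33 * X * Real.sqrt δ)) := by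
          refine mul_le_mul_of_nonneg_left (hle.trans ?_) (by positivity)
          exact mul_le_mul_of_nonneg_left hDabs (abs_nonneg _)
      _ = 33 * |t| * Real.sqrt δ := by
          field_simp
  refine hfin.trans ?_
  refine mul_le_mul_of_nonneg_left ?_ (by positivity)
  apply Real.sqrt_le_sqrt
  have : 0 ≤ 1 / H := by positivity
  linarith

end Pool.Agent.H41.RG
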