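import Pool.Agent.H41.RG.MartA

/-!
# RG MartB: quantitative martingale central limit theorem

`a p` predictable and a.e. bounded, `V = ∑_{p<m} a_p²`, `Δ = E|V - v| + E ∑ a_p⁴`.
Claim `|E exp(i ∑ e_p a_p) - exp(-v/2)| ≤ 4 (1+v) exp(v+1) Δ`.

Proof.  `b_p = a_p` if `∑_{q ≤ p} a_q² ≤ v + 1` and `|a_p| ≤ 1`, otherwise `b_p = 0`
(predictable: `∑_{q≤p} a_q²` is `Past e p`-measurable).  For every `ω`:
(i) `∑_{p<m} b_p² ≤ v + 1` (let `p` be the last index with `b_p ≠ 0`), `|b_p| ≤ 1`.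
(ii) if `V ≤ v + 1` and all `|a_p| ≤ 1` (`p < m`) then `b_p = a_p` for all `p < m`; let `G` be this
event; `1_{Gᶜ} ≤ |V - v| + ∑ a_p⁴` pointwise, so `P(Gᶜ) ≤ Δ`.
Let `W_k = ∏_{p<k} exp(i e_p b_p) / cos b_p` (`cos b ≥ exp(-b²) > 0` for `|b| ≤ 1`): `W_k` is
`Past e k`-measurable, `|W_k| ≤ exp(∑ b_p²) ≤ exp(v+1)`, and `E W_m = 1` by induction with
`mart_step` (`G = W_k / cos b_k`).  Now `exp(i ∑ e_p b_p) = W_m ∏ cos b_p`, so
`|E exp(i ∑ e_p b_p) - exp(-v/2)| = |E W_m (∏ cos b_p - exp(-v/2))| ≤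
 exp(v+1) E |∏ cos b_p - exp(-v/2)|`, and pointwise
`|∏ cos b_p - exp(-∑ b_p²/2)| ≤ ∑ |cos b_p - exp(-b_p²/2)| ≤ ∑ b_p⁴`,
`|exp(-∑ b_p²/2) - exp(-v/2)| ≤ |∑ b_p² - v| / 2 ≤ (|V - v| + (v+1) 1_{Gᶜ})/2`,
`∑ b_p⁴ ≤ ∑ a_p⁴`.  Finally `|E exp(i ∑ e_p a_p) - E exp(i ∑ e_p b_p)| ≤ 2 P(Gᶜ) ≤ 2 Δ`.
Total `≤ Δ (2 + exp(v+1) (1 + (v+2)/2)) ≤ 4 (1+v) exp(v+1) Δ`.
-/

set_option autoImplicit false

namespace Pool.Agent.H41.RG

open Finset MeasureTheory ProbabilityTheory
open Pool.Agent.H18.RM (IsSigns rmf)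

variable {Ω : Type*} [mΩ : MeasurableSpace Ω] {P : Measure Ω} [IsProbabilityMeasure P]
  {e : ℕ → Ω → ℝ}

private theorem MartB_exp_neg {x : ℝ} (hx : 0 ≤ x) : Real.exp (-x) ≤ 1 - x + x ^ 2 / 2 := by
  have h1 := Real.quadratic_le_exp_of_nonneg hx
  have h2 : 0 < Real.exp x := Real.exp_pos x
  have h3 : Real.exp (-x) * Real.exp x = 1 := by
    rw [← Real.exp_add, neg_add_cancel, Real.exp_zero]
  have h4 : 0 < 1 - x + x ^ 2 / 2 := by nlinarith [sq_nonneg (x - 1)]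
  by_contra hc
  push Not at hc
  have h5 : (1 - x + x ^ 2 / 2) * (1 + x + x ^ 2 / 2) ≤ (1 - x + x ^ 2 / 2) * Real.exp x :=
    mul_le_mul_of_nonneg_left h1 h4.le
  have h6 : (1 - x + x ^ 2 / 2) * Real.exp x < Real.exp (-x) * Real.exp x :=
    mul_lt_mul_of_pos_right hc h2
  nlinarith [sq_nonneg (x ^ 2)]

private theorem MartB_sq_le {b : ℝ} (hb : |b| ≤ 1) : b ^ 2 ≤ 1 := by
  rw [← sq_abs]
  exact pow_le_one₀ (abs_nonneg b) hb

private theorem MartB_cos_lower {b : ℝ} (hb : |b| ≤ 1) : Real.exp (-(b ^ 2)) ≤ Real.cos b := by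
  have h1 := MartB_exp_neg (sq_nonneg b)
  have h2 := Real.one_sub_sq_div_two_le_cos (x := b)
  have h3 := MartB_sq_le hb
  nlinarith [sq_nonneg b]

private theorem MartB_cos_pos {b : ℝ} (hb : |b| ≤ 1) : 0 < Real.cos b :=
  (Real.exp_pos _).trans_le (MartB_cos_lower hb)

private theorem MartB_cos_exp {b : ℝ} (hb : |b| ≤ 1) :
    |Real.cos b - Real.exp (-(b ^ 2 / 2))| ≤ b ^ 4 := by
  have h1 := MartB_exp_neg (x := b ^ 2 / 2) (by positivity)
  have h2 := Real.one_sub_sq_div_two_le_cos (x := b)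
  have h3 := (abs_le.1 (Real.cos_bound hb)).2
  have h4 := Real.add_one_le_exp (-(b ^ 2 / 2))
  have h5 : |b| ^ 4 = b ^ 4 := by
    rw [show (4 : ℕ) = 2 * 2 by norm_num, pow_mul, sq_abs, ← pow_mul]
  rw [h5] at h3
  have h6 : 0 ≤ b ^ 4 := by positivity
  rw [abs_le]
  constructor
  · nlinarith
  · nlinarith

private theorem MartB_prod_sub (x y : ℕ → ℝ) (m : ℕ) (hx : ∀ p, |x p| ≤ 1) (hy : ∀ p, |y p| ≤ 1) :
    |∏ p ∈ range m, x p - ∏ p ∈ range m, y p| ≤ ∑ p ∈ range m, |x p - y p| := by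
  induction m with
  | zero => simp
  | succ m ih =>
    rw [prod_range_succ, prod_range_succ, sum_range_succ]
    have e : (∏ p ∈ range m, x p) * x m - (∏ p ∈ range m, y p) * y m =
        (∏ p ∈ range m, x p - ∏ p ∈ range m, y p) * x m + (∏ p ∈ range m, y p) * (x m - y m) := by
      ring
    rw [e]
    have h1 : |∏ p ∈ range m, y p| ≤ 1 := by
      rw [Finset.abs_prod]
      exact Finset.prod_le_one (fun p _ => abs_nonneg _) fun p _ => hy p
    refine (abs_add_le _ _).trans (add_le_add ?_ ?_)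
    · rw [abs_mul]
      exact (mul_le_of_le_one_right (abs_nonneg _) (hx m)).trans ih
    · rw [abs_mul]
      exact mul_le_of_le_one_left (abs_nonneg _) h1

private theorem MartB_exp_lip {x y : ℝ} (hx : 0 ≤ x) (hy : 0 ≤ y) :
    |Real.exp (-x) - Real.exp (-y)| ≤ |x - y| := by
  wlog h : x ≤ y generalizing x y
  · rw [abs_sub_comm, abs_sub_comm x]
    exact this hy hx (le_of_not_ge h)
  have h1 : Real.exp (-y) ≤ Real.exp (-x) := Real.exp_le_exp.2 (by linarith)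
  rw [abs_of_nonneg (by linarith), abs_sub_comm, abs_of_nonneg (by linarith)]
  have h2 : Real.exp (-y) = Real.exp (-x) * Real.exp (-(y - x)) := by
    rw [← Real.exp_add]
    congr 1
    ring
  have h3 := Real.add_one_le_exp (-(y - x))
  have h4 : Real.exp (-x) ≤ 1 := Real.exp_le_one_iff.2 (by linarith)
  have h5 : 0 < Real.exp (-x) := Real.exp_pos _
  rw [h2]
  nlinarith

/-- partial sums of squares -/
private noncomputable def MartB_S (a : ℕ → Ω → ℝ) (k : ℕ) (ω : Ω) : ℝ :=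
  ∑ q ∈ range k, a q ω ^ 2

/-- the truncated coefficients -/
private noncomputable def MartB_b (a : ℕ → Ω → ℝ) (v : ℝ) (p : ℕ) (ω : Ω) : ℝ :=
  if MartB_S a (p + 1) ω ≤ v + 1 ∧ |a p ω| ≤ 1 then a p ω else 0

private theorem MartB_b_abs (a : ℕ → Ω → ℝ) (v : ℝ) (p : ℕ) (ω : Ω) : |MartB_b a v p ω| ≤ 1 := by
  unfold MartB_b
  split_ifs with h
  · exact h.2
  · rw [abs_zero]
    exact zero_le_one

private theorem MartB_b_sq (a : ℕ → Ω → ℝ) (v : ℝ) (p : ℕ) (ω : Ω) :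
    MartB_b a v p ω ^ 2 ≤ a p ω ^ 2 := by
  unfold MartB_b
  split_ifs with h
  · exact le_rfl
  · rw [zero_pow two_ne_zero]
    exact sq_nonneg _

private theorem MartB_b_four (a : ℕ → Ω → ℝ) (v : ℝ) (p : ℕ) (ω : Ω) :
    MartB_b a v p ω ^ 4 ≤ a p ω ^ 4 := by
  unfold MartB_b
  split_ifs with h
  · exact le_rfl
  · rw [zero_pow (by norm_num)]
    positivity

private theorem MartB_sum_sq (a : ℕ → Ω → ℝ) {v : ℝ} (hv : 0 ≤ v) (m : ℕ) (ω : Ω) :
    ∑ p ∈ range m, MartB_b a v p ω ^ 2 ≤ v + 1 := by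
  induction m with
  | zero =>
    rw [range_zero, sum_empty]
    linarith
  | succ m ih =>
    by_cases h : MartB_S a (m + 1) ω ≤ v + 1 ∧ |a m ω| ≤ 1
    · exact (sum_le_sum fun p _ => MartB_b_sq a v p ω).trans h.1
    · rw [sum_range_succ]
      have e : MartB_b a v m ω = 0 := by
        unfold MartB_b
        rw [if_neg h]
      rw [e, zero_pow two_ne_zero, add_zero]
      exact ih

private theorem MartB_S_mono (a : ℕ → Ω → ℝ) (ω : Ω) {k l : ℕ} (h : k ≤ l) :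
    MartB_S a k ω ≤ MartB_S a l ω := by
  unfold MartB_S
  exact sum_le_sum_of_subset_of_nonneg (range_mono h) fun _ _ _ => sq_nonneg _

private theorem MartB_good (a : ℕ → Ω → ℝ) {v : ℝ} {m : ℕ} {ω : Ω}
    (h : MartB_S a m ω ≤ v + 1 ∧ ∀ p < m, |a p ω| ≤ 1) {p : ℕ} (hp : p < m) :
    MartB_b a v p ω = a p ω := by
  unfold MartB_b
  rw [if_pos ⟨(MartB_S_mono a ω (Nat.succ_le_of_lt hp)).trans h.1, h.2 p hp⟩]

private noncomputable def MartB_d (a : ℕ → Ω → ℝ) (v : ℝ) (m : ℕ) (ω : Ω) : ℝ :=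
  |∑ p ∈ range m, a p ω ^ 2 - v| + ∑ p ∈ range m, a p ω ^ 4

private theorem MartB_four_nonneg (a : ℕ → Ω → ℝ) (m : ℕ) (ω : Ω) :
    0 ≤ ∑ p ∈ range m, a p ω ^ 4 :=
  sum_nonneg fun p _ => by positivity

private theorem MartB_d_nonneg (a : ℕ → Ω → ℝ) (v : ℝ) (m : ℕ) (ω : Ω) : 0 ≤ MartB_d a v m ω :=
  add_nonneg (abs_nonneg _) (MartB_four_nonneg a m ω)

private theorem MartB_bad (a : ℕ → Ω → ℝ) {v : ℝ} {m : ℕ} {ω : Ω}
    (h : ¬ (MartB_S a m ω ≤ v + 1 ∧ ∀ p < m, |a p ω| ≤ 1)) : 1 ≤ MartB_d a v m ω := by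
  unfold MartB_d
  by_cases h1 : MartB_S a m ω ≤ v + 1
  · have h2 : ∃ p < m, 1 < |a p ω| := by
      by_contra hc
      push Not at hc
      exact h ⟨h1, hc⟩
    obtain ⟨p, hp, hp1⟩ := h2
    have h3 : (1 : ℝ) ≤ a p ω ^ 4 := by
      have e : a p ω ^ 4 = |a p ω| ^ 4 := by
        rw [show (4 : ℕ) = 2 * 2 by norm_num, pow_mul, pow_mul, sq_abs]
      rw [e]
      exact one_le_pow₀ hp1.le
    have h4 : a p ω ^ 4 ≤ ∑ p ∈ range m, a p ω ^ 4 :=
      single_le_sum (f := fun p => a p ω ^ 4) (fun p _ => by positivity) (mem_range.2 hp)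
    have h5 := abs_nonneg (∑ p ∈ range m, a p ω ^ 2 - v)
    linarith
  · have h2 : v + 1 < ∑ p ∈ range m, a p ω ^ 2 := not_le.1 h1
    have h3 := le_abs_self (∑ p ∈ range m, a p ω ^ 2 - v)
    have h4 := MartB_four_nonneg a m ω
    linarith

private theorem MartB_pt (a : ℕ → Ω → ℝ) {v : ℝ} (hv : 0 ≤ v) (m : ℕ) (ω : Ω) :
    |∏ p ∈ range m, Real.cos (MartB_b a v p ω) - Real.exp (-v / 2)| ≤
      (1 + (v + 2) / 2) * MartB_d a v m ω := by
  have hd := MartB_d_nonneg a v m ω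
  have h1 : |∏ p ∈ range m, Real.cos (MartB_b a v p ω) -
      ∏ p ∈ range m, Real.exp (-(MartB_b a v p ω ^ 2 / 2))| ≤ ∑ p ∈ range m, a p ω ^ 4 := by
    refine (MartB_prod_sub _ _ m (fun p => Real.abs_cos_le_one _) fun p => ?_).trans ?_
    · rw [abs_of_pos (Real.exp_pos _)]
      exact Real.exp_le_one_iff.2 (by linarith [sq_nonneg (MartB_b a v p ω)])
    · exact sum_le_sum fun p _ => (MartB_cos_exp (MartB_b_abs a v p ω)).trans
        (MartB_b_four a v p ω)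
  have h2 : ∏ p ∈ range m, Real.exp (-(MartB_b a v p ω ^ 2 / 2)) =
      Real.exp (-(∑ p ∈ range m, MartB_b a v p ω ^ 2) / 2) := by
    rw [← Real.exp_sum, ← sum_neg_distrib, sum_div]
    congr 1
    exact sum_congr rfl fun p _ => by ring
  have hs0 : 0 ≤ ∑ p ∈ range m, MartB_b a v p ω ^ 2 := sum_nonneg fun p _ => sq_nonneg _
  have hs1 := MartB_sum_sq a hv m ω
  have h3 : |Real.exp (-(∑ p ∈ range m, MartB_b a v p ω ^ 2) / 2) - Real.exp (-v / 2)| ≤
      |∑ p ∈ range m, MartB_b a v p ω ^ 2 - v| / 2 := by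
    have h := MartB_exp_lip (x := (∑ p ∈ range m, MartB_b a v p ω ^ 2) / 2) (y := v / 2)
      (by positivity) (by positivity)
    rw [← sub_div, abs_div, abs_two] at h
    rw [neg_div, neg_div]
    exact h
  have h4 : |∑ p ∈ range m, MartB_b a v p ω ^ 2 - v| ≤
      |∑ p ∈ range m, a p ω ^ 2 - v| + (v + 1) * MartB_d a v m ω := by
    by_cases hg : MartB_S a m ω ≤ v + 1 ∧ ∀ p < m, |a p ω| ≤ 1
    · have e : ∑ p ∈ range m, MartB_b a v p ω ^ 2 = ∑ p ∈ range m, a p ω ^ 2 :=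
        sum_congr rfl fun p hp => by rw [MartB_good a hg (mem_range.1 hp)]
      rw [e]
      have : 0 ≤ (v + 1) * MartB_d a v m ω := by positivity
      linarith
    · have hb := MartB_bad a hg
      have h5 : |∑ p ∈ range m, MartB_b a v p ω ^ 2 - v| ≤ v + 1 := by
        rw [abs_le]
        constructor <;> linarith
      have h6 := abs_nonneg (∑ p ∈ range m, a p ω ^ 2 - v)
      nlinarith
  have h7 : |∑ p ∈ range m, a p ω ^ 2 - v| ≤ MartB_d a v m ω := by
    unfold MartB_d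
    have := MartB_four_nonneg a m ω
    linarith
  have h8 : ∑ p ∈ range m, a p ω ^ 4 ≤ MartB_d a v m ω := by
    unfold MartB_d
    have := abs_nonneg (∑ p ∈ range m, a p ω ^ 2 - v)
    linarith
  rw [h2] at h1
  have h9 := abs_sub_le (∏ p ∈ range m, Real.cos (MartB_b a v p ω))
    (Real.exp (-(∑ p ∈ range m, MartB_b a v p ω ^ 2) / 2)) (Real.exp (-v / 2))
  nlinarith

/-- the exponential martingale -/
private noncomputable def MartB_W (e : ℕ → Ω → ℝ) (b : ℕ → Ω → ℝ) (k : ℕ) (ω : Ω) : ℂ :=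
  ∏ p ∈ range k, (Complex.exp (Complex.I * ((e p ω * b p ω : ℝ) : ℂ)) *
    ((Real.cos (b p ω))⁻¹ : ℝ))

private theorem MartB_norm_exp (x : ℝ) : ‖Complex.exp (Complex.I * (x : ℂ))‖ = 1 := by
  rw [mul_comm]
  exact Complex.norm_exp_ofReal_mul_I x

private theorem MartB_W_norm (e : ℕ → Ω → ℝ) (a : ℕ → Ω → ℝ) {v : ℝ} (hv : 0 ≤ v) (k : ℕ)
    (ω : Ω) : ‖MartB_W e (MartB_b a v) k ω‖ ≤ Real.exp (v + 1) := by
  unfold MartB_W
  rw [norm_prod]
  have h1 : ∏ p ∈ range k, ‖Complex.exp (Complex.I * ((e p ω * MartB_b a v p ω : ℝ) : ℂ)) *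
      ((Real.cos (MartB_b a v p ω))⁻¹ : ℝ)‖ ≤ ∏ p ∈ range k, Real.exp (MartB_b a v p ω ^ 2) := by
    refine prod_le_prod (fun p _ => norm_nonneg _) fun p _ => ?_
    have h2 := MartB_cos_pos (MartB_b_abs a v p ω)
    rw [norm_mul, MartB_norm_exp, one_mul, Complex.norm_real, Real.norm_eq_abs,
      abs_of_pos (inv_pos.2 h2), inv_le_comm₀ h2 (Real.exp_pos _), ← Real.exp_neg]
    exact MartB_cos_lower (MartB_b_abs a v p ω)
  refine h1.trans ?_
  rw [← Real.exp_sum]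
  exact Real.exp_le_exp.2 (MartB_sum_sq a hv k ω)

private theorem MartB_b_meas (h : IsSigns P e) (a : ℕ → Ω → ℝ)
    (ha : ∀ p, Measurable[Past e p] (a p)) (v : ℝ) (p : ℕ) :
    Measurable[Past e p] (MartB_b a v p) := by
  have h1 : Measurable[Past e p] (MartB_S a (p + 1)) := by
    unfold MartB_S
    refine Finset.measurable_fun_sum _ fun q hq => ?_
    have hq' : q ≤ p := Nat.lt_succ_iff.1 (mem_range.1 hq)
    exact ((ha q).mono (past_mono e hq') le_rfl).pow_const 2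
  have h2 : MeasurableSet[Past e p] {ω | MartB_S a (p + 1) ω ≤ v + 1 ∧ |a p ω| ≤ 1} := by
    have h3 : MeasurableSet[Past e p] {ω | MartB_S a (p + 1) ω ≤ v + 1} :=
      h1 measurableSet_Iic
    have h4 : MeasurableSet[Past e p] {ω | |a p ω| ≤ 1} := by
      have h5 : Measurable[Past e p] (fun ω => |a p ω|) :=
        (continuous_abs.measurable).comp (ha p)
      exact h5 measurableSet_Iic
    exact h3.inter h4
  unfold MartB_b
  exact Measurable.ite h2 (ha p) measurable_const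

private theorem MartB_W_meas (h : IsSigns P e) (a : ℕ → Ω → ℝ)
    (ha : ∀ p, Measurable[Past e p] (a p)) (v : ℝ) (k : ℕ) :
    Measurable[Past e k] (MartB_W e (MartB_b a v) k) := by
  unfold MartB_W
  refine Finset.measurable_fun_prod _ fun p hp => ?_
  have hp' : p < k := mem_range.1 hp
  have h1 : Measurable[Past e k] (MartB_b a v p) :=
    (MartB_b_meas h a ha v p).mono (past_mono e hp'.le) le_rfl
  have h2 : Measurable[Past e k] (e p) := measurable_past hp'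
  have h3 : Measurable[Past e k] (fun ω => e p ω * MartB_b a v p ω) := h2.mul h1
  have h4 : Measurable[Past e k] (fun ω => (((e p ω * MartB_b a v p ω : ℝ)) : ℂ)) :=
    Complex.measurable_ofReal.comp h3
  have h5 : Measurable[Past e k] (fun ω => (((Real.cos (MartB_b a v p ω))⁻¹ : ℝ) : ℂ)) :=
    Complex.measurable_ofReal.comp (Real.measurable_cos.comp h1).inv
  exact (Complex.measurable_exp.comp (h4.const_mul Complex.I)).mul h5

private theorem MartB_W_int (h : IsSigns P e) (a : ℕ → Ω → ℝ)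
    (ha : ∀ p, Measurable[Past e p] (a p)) {v : ℝ} (hv : 0 ≤ v) (k : ℕ) :
    ∫ ω, MartB_W e (MartB_b a v) k ω ∂P = 1 := by
  induction k with
  | zero =>
    unfold MartB_W
    simp
  | succ k ih =>
    have hb := MartB_b_meas h a ha v k
    have hG : Measurable[Past e k] (fun ω => MartB_W e (MartB_b a v) k ω *
        (((Real.cos (MartB_b a v k ω))⁻¹ : ℝ) : ℂ)) :=
      (MartB_W_meas h a ha v k).mul
        (Complex.measurable_ofReal.comp (Real.measurable_cos.comp hb).inv)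
    have e1 : ∀ ω, MartB_W e (MartB_b a v) (k + 1) ω = (MartB_W e (MartB_b a v) k ω *
        (((Real.cos (MartB_b a v k ω))⁻¹ : ℝ) : ℂ)) *
          Complex.exp (Complex.I * ((e k ω * MartB_b a v k ω : ℝ) : ℂ)) := by
      intro ω
      unfold MartB_W
      rw [prod_range_succ]
      ring
    have hGR : ∀ᵐ ω ∂P, ‖MartB_W e (MartB_b a v) k ω *
        (((Real.cos (MartB_b a v k ω))⁻¹ : ℝ) : ℂ)‖ ≤ Real.exp (v + 1) := by
      refine Filter.Eventually.of_forall fun ω => ?_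
      have h1 := MartB_W_norm e a hv (k + 1) ω
      rw [e1 ω, norm_mul _ (Complex.exp _), MartB_norm_exp, mul_one] at h1
      exact h1
    have h2 := mart_step h k hG hGR hb
    simp_rw [e1]
    rw [h2, ← ih]
    refine integral_congr_ae (Filter.Eventually.of_forall fun ω => ?_)
    have h3 : ((Real.cos (MartB_b a v k ω) : ℝ) : ℂ) ≠ 0 := by
      exact_mod_cast (MartB_cos_pos (MartB_b_abs a v k ω)).ne'
    simp only
    rw [Complex.ofReal_inv, mul_assoc, inv_mul_cancel₀ h3, mul_one]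

omit mΩ in
private theorem MartB_exp_sum (e b : ℕ → Ω → ℝ) (m : ℕ) (ω : Ω) :
    Complex.exp (Complex.I * ((∑ p ∈ range m, e p ω * b p ω : ℝ) : ℂ)) =
      ∏ p ∈ range m, Complex.exp (Complex.I * ((e p ω * b p ω : ℝ) : ℂ)) := by
  rw [← Complex.exp_sum, Complex.ofReal_sum, mul_sum]

private theorem MartB_exp_W (e a : ℕ → Ω → ℝ) (v : ℝ) (m : ℕ) (ω : Ω) :
    Complex.exp (Complex.I * ((∑ p ∈ range m, e p ω * MartB_b a v p ω : ℝ) : ℂ)) =
      MartB_W e (MartB_b a v) m ω * ((∏ p ∈ range m, Real.cos (MartB_b a v p ω) : ℝ) : ℂ) := by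
  rw [MartB_exp_sum]
  unfold MartB_W
  rw [Complex.ofReal_prod, ← prod_mul_distrib]
  refine prod_congr rfl fun p _ => ?_
  have h3 : ((Real.cos (MartB_b a v p ω) : ℝ) : ℂ) ≠ 0 := by
    exact_mod_cast (MartB_cos_pos (MartB_b_abs a v p ω)).ne'
  rw [Complex.ofReal_inv, mul_assoc, inv_mul_cancel₀ h3, mul_one]

theorem mart (h : IsSigns P e) (a : ℕ → Ω → ℝ) (ha : ∀ p, Measurable[Past e p] (a p))
    {R : ℝ} (hR : ∀ p, ∀ᵐ ω ∂P, |a p ω| ≤ R) (m : ℕ) {v : ℝ} (hv : 0 ≤ v) :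
    ‖∫ ω, Complex.exp (Complex.I * ((∑ p ∈ range m, e p ω * a p ω : ℝ) : ℂ)) ∂P -
        ((Real.exp (-v / 2) : ℝ) : ℂ)‖ ≤
      4 * (1 + v) * Real.exp (v + 1) *
        (∫ ω, |∑ p ∈ range m, a p ω ^ 2 - v| ∂P + ∫ ω, ∑ p ∈ range m, a p ω ^ 4 ∂P) := by
  have hma : ∀ p, Measurable (a p) := fun p => (ha p).mono (past_le h p) le_rfl
  have hmb : ∀ p, Measurable (MartB_b a v p) := fun p =>
    (MartB_b_meas h a ha v p).mono (past_le h p) le_rfl
  have hme : ∀ p, Measurable (e p) := h.meas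
  have hR' : ∀ᵐ ω ∂P, ∀ p, |a p ω| ≤ R := ae_all_iff.2 hR
  -- integrability
  have hR0 : 0 ≤ R := by
    obtain ⟨ω, hω⟩ := hR'.exists
    exact (abs_nonneg _).trans (hω 0)
  have hi1 : Integrable (fun ω => |∑ p ∈ range m, a p ω ^ 2 - v|) P := by
    refine Integrable.of_bound (C := m * R ^ 2 + v) ?_ ?_
    · exact ((Finset.measurable_fun_sum _ fun p _ => (hma p).pow_const 2).sub_const
        v).abs.aestronglyMeasurable
    · filter_upwards [hR'] with ω hω
      rw [Real.norm_eq_abs, abs_abs]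
      have h1 : ∑ p ∈ range m, a p ω ^ 2 ≤ m * R ^ 2 := by
        have : ∑ p ∈ range m, a p ω ^ 2 ≤ ∑ p ∈ range m, R ^ 2 :=
          sum_le_sum fun p _ => sq_le_sq' (abs_le.1 (hω p)).1 (abs_le.1 (hω p)).2
        rw [sum_const, card_range, nsmul_eq_mul] at this
        exact this
      have h2 : 0 ≤ ∑ p ∈ range m, a p ω ^ 2 := sum_nonneg fun p _ => sq_nonneg _
      rw [abs_le]
      constructor
      · have : 0 ≤ (m : ℝ) * R ^ 2 := by positivity
        linarith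
      · linarith
  have hi2 : Integrable (fun ω => ∑ p ∈ range m, a p ω ^ 4) P := by
    refine integrable_finsetSum _ fun p _ => ?_
    refine Integrable.of_bound (C := R ^ 4) ((hma p).pow_const 4).aestronglyMeasurable ?_
    filter_upwards [hR'] with ω hω
    rw [Real.norm_eq_abs, abs_pow]
    exact pow_le_pow_left₀ (abs_nonneg _) (hω p) 4
  have hid : Integrable (MartB_d a v m) P := hi1.add hi2
  have hΔ : ∫ ω, MartB_d a v m ω ∂P =
      ∫ ω, |∑ p ∈ range m, a p ω ^ 2 - v| ∂P + ∫ ω, ∑ p ∈ range m, a p ω ^ 4 ∂P :=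
    integral_add hi1 hi2
  rw [← hΔ]
  set Δ := ∫ ω, MartB_d a v m ω ∂P with hΔdef
  have hΔ0 : 0 ≤ Δ := integral_nonneg fun ω => MartB_d_nonneg a v m ω
  have hmexp : ∀ c : ℕ → Ω → ℝ, (∀ p, Measurable (c p)) →
      Integrable (fun ω => Complex.exp (Complex.I * ((∑ p ∈ range m, e p ω * c p ω : ℝ) : ℂ)))
        P := by
    intro c hc
    refine Integrable.of_bound (C := 1) ?_ (Filter.Eventually.of_forall fun ω => ?_)
    · have h1 : Measurable (fun ω => ∑ p ∈ range m, e p ω * c p ω) :=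
        Finset.measurable_fun_sum _ fun p _ => (hme p).mul (hc p)
      exact (Complex.measurable_exp.comp
        ((Complex.measurable_ofReal.comp h1).const_mul Complex.I)).aestronglyMeasurable
    · rw [MartB_norm_exp]
  have hia := hmexp a hma
  have hib := hmexp (MartB_b a v) hmb
  -- first difference
  have hA : ‖∫ ω, Complex.exp (Complex.I * ((∑ p ∈ range m, e p ω * a p ω : ℝ) : ℂ)) ∂P -
      ∫ ω, Complex.exp (Complex.I * ((∑ p ∈ range m, e p ω * MartB_b a v p ω : ℝ) : ℂ)) ∂P‖ ≤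
      2 * Δ := by
    rw [← integral_sub hia hib, hΔdef, ← integral_const_mul]
    refine norm_integral_le_of_norm_le (hid.const_mul 2) (Filter.Eventually.of_forall fun ω => ?_)
    by_cases hg : MartB_S a m ω ≤ v + 1 ∧ ∀ p < m, |a p ω| ≤ 1
    · have e1 : ∑ p ∈ range m, e p ω * MartB_b a v p ω = ∑ p ∈ range m, e p ω * a p ω :=
        sum_congr rfl fun p hp => by rw [MartB_good a hg (mem_range.1 hp)]
      rw [e1, sub_self, norm_zero]
      have := MartB_d_nonneg a v m ω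
      positivity
    · have hb := MartB_bad a hg
      refine (norm_sub_le _ _).trans ?_
      rw [MartB_norm_exp, MartB_norm_exp]
      linarith
  -- second difference
  have hmW : Measurable (MartB_W e (MartB_b a v) m) :=
    (MartB_W_meas h a ha v m).mono (past_le h m) le_rfl
  have hiW : Integrable (MartB_W e (MartB_b a v) m) P :=
    Integrable.of_bound hmW.aestronglyMeasurable (Real.exp (v + 1))
      (Filter.Eventually.of_forall fun ω => MartB_W_norm e a hv m ω)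
  have hB : ‖∫ ω, Complex.exp (Complex.I *
      ((∑ p ∈ range m, e p ω * MartB_b a v p ω : ℝ) : ℂ)) ∂P - ((Real.exp (-v / 2) : ℝ) : ℂ)‖ ≤
      Real.exp (v + 1) * (1 + (v + 2) / 2) * Δ := by
    have e1 : ((Real.exp (-v / 2) : ℝ) : ℂ) = ∫ ω, MartB_W e (MartB_b a v) m ω *
        ((Real.exp (-v / 2) : ℝ) : ℂ) ∂P := by
      rw [integral_mul_const, MartB_W_int h a ha hv m, one_mul]
    rw [e1, ← integral_sub hib (hiW.mul_const _), hΔdef, ← integral_const_mul]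
    refine norm_integral_le_of_norm_le (hid.const_mul _) (Filter.Eventually.of_forall fun ω => ?_)
    rw [MartB_exp_W, ← mul_sub, norm_mul, ← Complex.ofReal_sub, Complex.norm_real,
      Real.norm_eq_abs, mul_assoc]
    exact mul_le_mul (MartB_W_norm e a hv m ω) (MartB_pt a hv m ω) (abs_nonneg _)
      (Real.exp_pos _).le
  have hC : 2 + Real.exp (v + 1) * (1 + (v + 2) / 2) ≤ 4 * (1 + v) * Real.exp (v + 1) := by
    have h1 : (2 : ℝ) ≤ Real.exp (v + 1) := by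
      have := Real.add_one_le_exp (v + 1)
      linarith
    nlinarith
  calc ‖∫ ω, Complex.exp (Complex.I * ((∑ p ∈ range m, e p ω * a p ω : ℝ) : ℂ)) ∂P -
        ((Real.exp (-v / 2) : ℝ) : ℂ)‖
      ≤ 2 * Δ + Real.exp (v + 1) * (1 + (v + 2) / 2) * Δ := by
        have h1 := norm_sub_le_norm_sub_add_norm_sub
          (∫ ω, Complex.exp (Complex.I * ((∑ p ∈ range m, e p ω * a p ω : ℝ) : ℂ)) ∂P)
          (∫ ω, Complex.exp (Complex.I * ((∑ p ∈ range m, e p ω * MartB_b a v p ω : ℝ) : ℂ)) ∂P)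
          ((Real.exp (-v / 2) : ℝ) : ℂ)
        linarith
    _ = (2 + Real.exp (v + 1) * (1 + (v + 2) / 2)) * Δ := by ring
    _ ≤ 4 * (1 + v) * Real.exp (v + 1) * Δ := mul_le_mul_of_nonneg_right hC hΔ0

end Pool.Agent.H41.RG
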