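import Pool.Agent.H41.RG.Mom
import Pool.Agent.H41.RG.MartB

/-!
# RG Char: characteristic functions of one and of two window sums

`charA`: `mart` with `a p = θ Sp e W p` (`sum_rmf`), `m` larger than all elements of `W`:
`E|θ² ∑ Sp² - v| ≤ |θ² #W - v| + θ² E|∑ Sp² - #W|` and `|Y| ≤ δ + Y²/δ` with `momA`;
`∑ a⁴ = θ⁴ ∑ Sp⁴` with `momB`.
`charB`: `mart` with `a p = θ (Sp e W p - Sp e W' p)`:
`∑ a² = θ² (∑ Sp² + ∑ Sp'² - 2 ∑ Sp Sp')`, `|2 C| ≤ δ + C²/δ`, `a⁴ ≤ 8 θ⁴ (Sp⁴ + Sp'⁴)`.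
-/

set_option autoImplicit false

namespace Pool.Agent.H41.RG

open Finset MeasureTheory ProbabilityTheory
open Pool.Agent.H18.RM (IsSigns rmf)

variable {Ω : Type*} [mΩ : MeasurableSpace Ω] {P : Measure Ω} [IsProbabilityMeasure P]
  {e : ℕ → Ω → ℝ}

private theorem Char_bound {X : ℕ → Ω → ℝ} {K : ℝ} {ω : Ω} (hb : ∀ p, |X p ω| ≤ K) (m : ℕ) :
    |∑ p ∈ range m, X p ω| ≤ m * K := by
  calc |∑ p ∈ range m, X p ω| ≤ ∑ p ∈ range m, |X p ω| := Finset.abs_sum_le_sum_abs _ _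
    _ ≤ ∑ _p ∈ range m, K := Finset.sum_le_sum fun p _ => hb p
    _ = m * K := by simp

private theorem Char_int_sum {X : ℕ → Ω → ℝ} (hX : ∀ p, Measurable (X p)) {K : ℝ}
    (hb : ∀ᵐ ω ∂P, ∀ p, |X p ω| ≤ K) (m : ℕ) :
    Integrable (fun ω => ∑ p ∈ range m, X p ω) P := by
  refine Integrable.of_bound (Finset.measurable_sum _ fun p _ => hX p).aestronglyMeasurable
    (m * K) ?_
  filter_upwards [hb] with ω hω
  rw [Real.norm_eq_abs]
  exact Char_bound hω m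

private theorem Char_int_sq {X : ℕ → Ω → ℝ} (hX : ∀ p, Measurable (X p)) {K : ℝ}
    (hb : ∀ᵐ ω ∂P, ∀ p, |X p ω| ≤ K) (m : ℕ) (c : ℝ) :
    Integrable (fun ω => (∑ p ∈ range m, X p ω - c) ^ 2) P := by
  refine Integrable.of_bound (((Finset.measurable_sum _ fun p _ => hX p).sub_const
    c).pow_const 2).aestronglyMeasurable ((m * K + |c|) ^ 2) ?_
  filter_upwards [hb] with ω hω
  rw [Real.norm_eq_abs, abs_pow]
  refine pow_le_pow_left₀ (abs_nonneg _) ?_ 2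
  refine (abs_sub _ _).trans ?_
  have := Char_bound hω m
  linarith

private theorem Char_int_abs {X : ℕ → Ω → ℝ} (hX : ∀ p, Measurable (X p)) {K : ℝ}
    (hb : ∀ᵐ ω ∂P, ∀ p, |X p ω| ≤ K) (m : ℕ) (c : ℝ) :
    Integrable (fun ω => |∑ p ∈ range m, X p ω - c|) P := by
  have h1 : Integrable (fun ω => ∑ p ∈ range m, X p ω - c) P :=
    (Char_int_sum hX hb m).sub (integrable_const c)
  exact h1.abs

private theorem Char_young {δ : ℝ} (hδ : 0 < δ) (y : ℝ) : 2 * |y| ≤ δ + y ^ 2 / δ := by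
  have h1 : 0 ≤ (|y| - δ) ^ 2 / δ := by positivity
  have h2 : (|y| - δ) ^ 2 / δ = y ^ 2 / δ - 2 * |y| + δ := by
    field_simp
    rw [← sq_abs y]
    ring
  linarith

private theorem Char_young' {δ : ℝ} (hδ : 0 < δ) (y : ℝ) : |y| ≤ δ + y ^ 2 / δ := by
  have := Char_young hδ y
  have := abs_nonneg y
  linarith

private theorem Char_meas (h : IsSigns P e) {W : Finset ℕ} (hW : ∀ n ∈ W, Squarefree n ∧ 2 ≤ n)
    (p : ℕ) : Measurable (Sp e W p) :=
  (measurable_Sp e hW p).mono (past_le h p) le_rfl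

private theorem Char_lt (W : Finset ℕ) : ∀ n ∈ W, n < W.sup id + 1 := by
  intro n hn
  exact Nat.lt_succ_of_le (Finset.le_sup (f := id) hn)

private theorem Char_int2 (h : IsSigns P e) {W : Finset ℕ}
    (hW : ∀ n ∈ W, Squarefree n ∧ 2 ≤ n) (m : ℕ) (c : ℝ) :
    Integrable (fun ω => (∑ p ∈ range m, Sp e W p ω ^ 2 - c) ^ 2) P := by
  refine Char_int_sq (X := fun p ω => Sp e W p ω ^ 2)
    (fun p => (Char_meas h hW p).pow_const 2) (K := (W.card : ℝ) ^ 2) ?_ m c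
  filter_upwards [Sp_bdd h W] with ω hω p
  rw [abs_pow]
  exact pow_le_pow_left₀ (abs_nonneg _) (hω p) 2

private theorem Char_int4 (h : IsSigns P e) {W : Finset ℕ}
    (hW : ∀ n ∈ W, Squarefree n ∧ 2 ≤ n) (m : ℕ) :
    Integrable (fun ω => ∑ p ∈ range m, Sp e W p ω ^ 4) P := by
  refine Char_int_sum (X := fun p ω => Sp e W p ω ^ 4)
    (fun p => (Char_meas h hW p).pow_const 4) (K := (W.card : ℝ) ^ 4) ?_ m
  filter_upwards [Sp_bdd h W] with ω hω p
  rw [abs_pow]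
  exact pow_le_pow_left₀ (abs_nonneg _) (hω p) 4

private theorem Char_intC (h : IsSigns P e) {W W' : Finset ℕ}
    (hW : ∀ n ∈ W, Squarefree n ∧ 2 ≤ n) (hW' : ∀ n ∈ W', Squarefree n ∧ 2 ≤ n) (m : ℕ) :
    Integrable (fun ω => (∑ p ∈ range m, Sp e W p ω * Sp e W' p ω) ^ 2) P := by
  have h1 := Char_int_sq (P := P) (X := fun p ω => Sp e W p ω * Sp e W' p ω)
    (fun p => (Char_meas h hW p).mul (Char_meas h hW' p)) (K := (W.card : ℝ) * W'.card) (by
      filter_upwards [Sp_bdd h W, Sp_bdd h W'] with ω hω hω' p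
      rw [abs_mul]
      exact mul_le_mul (hω p) (hω' p) (abs_nonneg _) (by positivity)) m 0
  simpa using h1

private theorem Char_int_aff {Y : Ω → ℝ} (hY : Integrable Y P) (c t d δ : ℝ) :
    Integrable (fun ω => c + t * (d + Y ω / δ)) P ∧
      ∫ ω, (c + t * (d + Y ω / δ)) ∂P = c + t * (d + (∫ ω, Y ω ∂P) / δ) := by
  have h1 : Integrable (fun ω => Y ω / δ) P := hY.div_const δ
  have h2 : Integrable (fun ω => d + Y ω / δ) P := (integrable_const _).add h1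
  have h3 : Integrable (fun ω => t * (d + Y ω / δ)) P := h2.const_mul t
  refine ⟨(integrable_const _).add h3, ?_⟩
  rw [integral_add (integrable_const _) h3, integral_const_mul,
    integral_add (integrable_const _) h1, integral_div]
  simp only [integral_const, probReal_univ, one_smul]

/-- the fourth moments, with the factor `θ` -/
private theorem Char_momB (h : IsSigns P e) {W : Finset ℕ} (hW : ∀ n ∈ W, Squarefree n ∧ 2 ≤ n)
    {m : ℕ} (hm : ∀ n ∈ W, n < m) (θ : ℝ) :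
    ∫ ω, ∑ p ∈ range m, (θ * Sp e W p ω) ^ 4 ∂P ≤
      θ ^ 4 * (2 * W.card + 6 * D1 W + 2 * Q4 W) := by
  have h1 : ∀ ω, ∑ p ∈ range m, (θ * Sp e W p ω) ^ 4 =
      θ ^ 4 * ∑ p ∈ range m, Sp e W p ω ^ 4 := by
    intro ω
    rw [Finset.mul_sum]
    exact Finset.sum_congr rfl fun p _ => by ring
  simp only [h1]
  rw [integral_const_mul]
  exact mul_le_mul_of_nonneg_left (momB h hW hm) (by positivity)

theorem charA (h : IsSigns P e) {W : Finset ℕ} (hW : ∀ n ∈ W, Squarefree n ∧ 2 ≤ n)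
    (θ : ℝ) {v δ : ℝ} (hv : 0 ≤ v) (hδ : 0 < δ) :
    ‖AW P e W θ - ((Real.exp (-v / 2) : ℝ) : ℂ)‖ ≤ 4 * (1 + v) * Real.exp (v + 1) *
      (|θ ^ 2 * W.card - v| + θ ^ 2 * (δ + (2 * D1 W + Q4 W) / δ) +
        θ ^ 4 * (2 * W.card + 6 * D1 W + 2 * Q4 W)) := by
  obtain ⟨m, hm⟩ : ∃ m, ∀ n ∈ W, n < m := ⟨_, Char_lt W⟩
  have hM := mart h (fun p ω => θ * Sp e W p ω)
    (fun p => (measurable_Sp e hW p).const_mul θ) (R := |θ| * W.card) (fun p => by
      filter_upwards [Sp_bdd h W] with ω hω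
      rw [abs_mul]
      exact mul_le_mul_of_nonneg_left (hω p) (abs_nonneg _)) m hv
  have hA : AW P e W θ = ∫ ω, Complex.exp (Complex.I *
      ((∑ p ∈ range m, e p ω * (θ * Sp e W p ω) : ℝ) : ℂ)) ∂P := by
    unfold AW
    congr 1
    funext ω
    rw [sum_rmf e hW hm ω, Finset.mul_sum]
    congr 3
    exact Finset.sum_congr rfl fun p _ => by ring
  rw [hA]
  refine hM.trans (mul_le_mul_of_nonneg_left ?_ (by positivity))
  have h1 : ∫ ω, |∑ p ∈ range m, (θ * Sp e W p ω) ^ 2 - v| ∂P ≤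
      |θ ^ 2 * W.card - v| + θ ^ 2 * (δ + (2 * D1 W + Q4 W) / δ) := by
    have hY := Char_int2 h hW m (W.card : ℝ)
    obtain ⟨hint, hval⟩ := Char_int_aff hY (|θ ^ 2 * W.card - v|) (θ ^ 2) δ δ
    have h2 : ∫ ω, |∑ p ∈ range m, (θ * Sp e W p ω) ^ 2 - v| ∂P ≤
        ∫ ω, (|θ ^ 2 * W.card - v| + θ ^ 2 * (δ +
        (∑ p ∈ range m, Sp e W p ω ^ 2 - W.card) ^ 2 / δ)) ∂P := by
      refine integral_mono_of_nonneg (Filter.Eventually.of_forall fun ω => abs_nonneg _) hint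
        (Filter.Eventually.of_forall fun ω => ?_)
      simp only
      have e1 : ∑ p ∈ range m, (θ * Sp e W p ω) ^ 2 =
          θ ^ 2 * ∑ p ∈ range m, Sp e W p ω ^ 2 := by
        rw [Finset.mul_sum]
        exact Finset.sum_congr rfl fun p _ => by ring
      rw [e1]
      set S := ∑ p ∈ range m, Sp e W p ω ^ 2
      have e2 : θ ^ 2 * S - v = (θ ^ 2 * W.card - v) + θ ^ 2 * (S - W.card) := by ring
      rw [e2]
      refine (abs_add_le _ _).trans (add_le_add le_rfl ?_)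
      rw [abs_mul, abs_of_nonneg (sq_nonneg θ)]
      exact mul_le_mul_of_nonneg_left (Char_young' hδ _) (sq_nonneg θ)
    refine h2.trans ?_
    rw [hval]
    have h3 := momA h hW hm
    have h4 : (∫ ω, (∑ p ∈ range m, Sp e W p ω ^ 2 - W.card) ^ 2 ∂P) / δ ≤
        (2 * D1 W + Q4 W) / δ := div_le_div_of_nonneg_right h3 hδ.le
    have h5 := mul_le_mul_of_nonneg_left (add_le_add (le_refl δ) h4) (sq_nonneg θ)
    linarith
  have h2 := Char_momB h hW hm θ
  linarith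

theorem charB (h : IsSigns P e) {W W' : Finset ℕ} (hW : ∀ n ∈ W, Squarefree n ∧ 2 ≤ n)
    (hW' : ∀ n ∈ W', Squarefree n ∧ 2 ≤ n) (hd : Disjoint W W')
    (θ : ℝ) {v δ : ℝ} (hv : 0 ≤ v) (hδ : 0 < δ) :
    ‖BW P e W W' θ - ((Real.exp (-v / 2) : ℝ) : ℂ)‖ ≤ 4 * (1 + v) * Real.exp (v + 1) *
      (|θ ^ 2 * (W.card + W'.card) - v| +
        θ ^ 2 * (3 * δ + ((2 * D1 W + Q4 W) + (2 * D1 W' + Q4 W') + (T2 W W' + Q22 W W')) / δ) +
        8 * θ ^ 4 * ((2 * W.card + 6 * D1 W + 2 * Q4 W) +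
          (2 * W'.card + 6 * D1 W' + 2 * Q4 W'))) := by
  obtain ⟨m, hm, hm'⟩ : ∃ m, (∀ n ∈ W, n < m) ∧ ∀ n ∈ W', n < m := by
    refine ⟨max (W.sup id + 1) (W'.sup id + 1), fun n hn => ?_, fun n hn => ?_⟩
    · exact (Char_lt W n hn).trans_le (le_max_left _ _)
    · exact (Char_lt W' n hn).trans_le (le_max_right _ _)
  have hM := mart h (fun p ω => θ * (Sp e W p ω - Sp e W' p ω))
    (fun p => ((measurable_Sp e hW p).sub (measurable_Sp e hW' p)).const_mul θ)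
    (R := |θ| * (W.card + W'.card)) (fun p => by
      filter_upwards [Sp_bdd h W, Sp_bdd h W'] with ω hω hω'
      rw [abs_mul]
      exact mul_le_mul_of_nonneg_left ((abs_sub _ _).trans (add_le_add (hω p) (hω' p)))
        (abs_nonneg _)) m hv
  have hB : BW P e W W' θ = ∫ ω, Complex.exp (Complex.I *
      ((∑ p ∈ range m, e p ω * (θ * (Sp e W p ω - Sp e W' p ω)) : ℝ) : ℂ)) ∂P := by
    unfold BW
    congr 1
    funext ω
    rw [sum_rmf e hW hm ω, sum_rmf e hW' hm' ω, ← Finset.sum_sub_distrib, Finset.mul_sum]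
    congr 3
    exact Finset.sum_congr rfl fun p _ => by ring
  rw [hB]
  refine hM.trans (mul_le_mul_of_nonneg_left ?_ (by positivity))
  have h1 : ∫ ω, |∑ p ∈ range m, (θ * (Sp e W p ω - Sp e W' p ω)) ^ 2 - v| ∂P ≤
      |θ ^ 2 * (W.card + W'.card) - v| + θ ^ 2 * (3 * δ +
        ((2 * D1 W + Q4 W) + (2 * D1 W' + Q4 W') + (T2 W W' + Q22 W W')) / δ) := by
    have hY := Char_int2 h hW m (W.card : ℝ)
    have hY' := Char_int2 h hW' m (W'.card : ℝ)
    have hC := Char_intC h hW hW' m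
    have hsum : Integrable (fun ω => (∑ p ∈ range m, Sp e W p ω ^ 2 - W.card) ^ 2 +
        (∑ p ∈ range m, Sp e W' p ω ^ 2 - W'.card) ^ 2 +
        (∑ p ∈ range m, Sp e W p ω * Sp e W' p ω) ^ 2) P := (hY.add hY').add hC
    obtain ⟨hint, hval⟩ := Char_int_aff hsum (|θ ^ 2 * (W.card + W'.card) - v|) (θ ^ 2)
      (3 * δ) δ
    have h2 : ∫ ω, |∑ p ∈ range m, (θ * (Sp e W p ω - Sp e W' p ω)) ^ 2 - v| ∂P ≤
        ∫ ω, (|θ ^ 2 * (W.card + W'.card) - v| + θ ^ 2 * (3 * δ +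
        ((∑ p ∈ range m, Sp e W p ω ^ 2 - W.card) ^ 2 +
        (∑ p ∈ range m, Sp e W' p ω ^ 2 - W'.card) ^ 2 +
        (∑ p ∈ range m, Sp e W p ω * Sp e W' p ω) ^ 2) / δ)) ∂P := by
      refine integral_mono_of_nonneg (Filter.Eventually.of_forall fun ω => abs_nonneg _) hint
        (Filter.Eventually.of_forall fun ω => ?_)
      simp only
      have e1 : ∑ p ∈ range m, (θ * (Sp e W p ω - Sp e W' p ω)) ^ 2 =
          θ ^ 2 * (∑ p ∈ range m, Sp e W p ω ^ 2 + ∑ p ∈ range m, Sp e W' p ω ^ 2 -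
            2 * ∑ p ∈ range m, Sp e W p ω * Sp e W' p ω) := by
        rw [Finset.mul_sum, ← Finset.sum_add_distrib, ← Finset.sum_sub_distrib, Finset.mul_sum]
        exact Finset.sum_congr rfl fun p _ => by ring
      rw [e1]
      set S := ∑ p ∈ range m, Sp e W p ω ^ 2
      set S' := ∑ p ∈ range m, Sp e W' p ω ^ 2
      set T := ∑ p ∈ range m, Sp e W p ω * Sp e W' p ω
      have e2 : θ ^ 2 * (S + S' - 2 * T) - v = (θ ^ 2 * (W.card + W'.card) - v) +
          θ ^ 2 * ((S - W.card) + (S' - W'.card) - 2 * T) := by ring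
      rw [e2]
      refine (abs_add_le _ _).trans (add_le_add le_rfl ?_)
      rw [abs_mul, abs_of_nonneg (sq_nonneg θ)]
      refine mul_le_mul_of_nonneg_left ?_ (sq_nonneg θ)
      have y1 := Char_young' hδ (S - W.card)
      have y2 := Char_young' hδ (S' - W'.card)
      have y3 := Char_young hδ T
      have y4 : |(S - W.card) + (S' - W'.card) - 2 * T| ≤
          |S - W.card| + |S' - W'.card| + 2 * |T| := by
        refine (abs_sub _ _).trans (add_le_add (abs_add_le _ _) ?_)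
        rw [abs_mul, abs_of_pos (by norm_num : (0 : ℝ) < 2)]
      have y5 : ((S - W.card) ^ 2 + (S' - W'.card) ^ 2 + T ^ 2) / δ =
          (S - W.card) ^ 2 / δ + (S' - W'.card) ^ 2 / δ + T ^ 2 / δ := by ring
      rw [y5]
      linarith
    refine h2.trans ?_
    have hs1 : ∫ ω, ((∑ p ∈ range m, Sp e W p ω ^ 2 - W.card) ^ 2 +
        (∑ p ∈ range m, Sp e W' p ω ^ 2 - W'.card) ^ 2 +
        (∑ p ∈ range m, Sp e W p ω * Sp e W' p ω) ^ 2) ∂P =
        (∫ ω, (∑ p ∈ range m, Sp e W p ω ^ 2 - W.card) ^ 2 ∂P) +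
        (∫ ω, (∑ p ∈ range m, Sp e W' p ω ^ 2 - W'.card) ^ 2 ∂P) +
        (∫ ω, (∑ p ∈ range m, Sp e W p ω * Sp e W' p ω) ^ 2 ∂P) := by
      have hYY : Integrable (fun ω => (∑ p ∈ range m, Sp e W p ω ^ 2 - W.card) ^ 2 +
        (∑ p ∈ range m, Sp e W' p ω ^ 2 - W'.card) ^ 2) P := hY.add hY'
      rw [integral_add hYY hC, integral_add hY hY']
    rw [hval, hs1]
    have h3 := momA h hW hm
    have h3' := momA h hW' hm'
    have h3C := momC h hW hW' hd hm hm'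
    have h4 : ((∫ ω, (∑ p ∈ range m, Sp e W p ω ^ 2 - W.card) ^ 2 ∂P) +
        (∫ ω, (∑ p ∈ range m, Sp e W' p ω ^ 2 - W'.card) ^ 2 ∂P) +
        (∫ ω, (∑ p ∈ range m, Sp e W p ω * Sp e W' p ω) ^ 2 ∂P)) / δ ≤
        ((2 * D1 W + Q4 W) + (2 * D1 W' + Q4 W') + (T2 W W' + Q22 W W')) / δ :=
      div_le_div_of_nonneg_right (add_le_add (add_le_add h3 h3') h3C) hδ.le
    have h5 := mul_le_mul_of_nonneg_left (add_le_add (le_refl (3 * δ)) h4) (sq_nonneg θ)
    linarith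
  have h2 : ∫ ω, ∑ p ∈ range m, (θ * (Sp e W p ω - Sp e W' p ω)) ^ 4 ∂P ≤
      8 * θ ^ 4 * ((2 * W.card + 6 * D1 W + 2 * Q4 W) +
          (2 * W'.card + 6 * D1 W' + 2 * Q4 W')) := by
    have hI := Char_int4 h hW m
    have hI' := Char_int4 h hW' m
    have h3 : ∫ ω, ∑ p ∈ range m, (θ * (Sp e W p ω - Sp e W' p ω)) ^ 4 ∂P ≤
        ∫ ω, 8 * θ ^ 4 * (∑ p ∈ range m, Sp e W p ω ^ 4 + ∑ p ∈ range m, Sp e W' p ω ^ 4) ∂P := by
      refine integral_mono_of_nonneg (Filter.Eventually.of_forall fun ω => ?_)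
        ((hI.add hI').const_mul _) (Filter.Eventually.of_forall fun ω => ?_)
      · exact Finset.sum_nonneg fun p _ => by positivity
      · simp only
        rw [← Finset.sum_add_distrib, Finset.mul_sum]
        refine Finset.sum_le_sum fun p _ => ?_
        set x := Sp e W p ω
        set y := Sp e W' p ω
        have e1 : (θ * (x - y)) ^ 4 = θ ^ 4 * (x - y) ^ 4 := by ring
        have e2 : 8 * θ ^ 4 * (x ^ 4 + y ^ 4) = θ ^ 4 * (8 * (x ^ 4 + y ^ 4)) := by ring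
        rw [e1, e2]
        refine mul_le_mul_of_nonneg_left ?_ (by positivity)
        have f1 : (x - y) ^ 2 ≤ 2 * (x ^ 2 + y ^ 2) := by nlinarith [sq_nonneg (x + y)]
        have f2 : ((x - y) ^ 2) ^ 2 ≤ (2 * (x ^ 2 + y ^ 2)) ^ 2 :=
          pow_le_pow_left₀ (sq_nonneg _) f1 2
        nlinarith [sq_nonneg (x ^ 2 - y ^ 2)]
    refine h3.trans ?_
    rw [integral_const_mul, integral_add hI hI']
    exact mul_le_mul_of_nonneg_left (add_le_add (momB h hW hm) (momB h hW' hm'))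
      (by positivity)
  linarith

end Pool.Agent.H41.RG
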