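import Pool.Agent.H41.RG.Struct

/-!
# RG Char0: the exact case (all largest prime factors different)

If `D1 W = 0` (no two different elements with the same largest prime factor) then for every `p`
the set `W.filter (lp = p)` has at most one element, `Sp e W p = ± 1` (a.e.) or `0`, so
`cos (θ Sp) = cos θ` or `1` a.e.; `mart_exact` with `a p = θ Sp e W p` and `sum_rmf` gives
`AW = (cos θ)^#W` (the number of `p < m` with nonempty fibre is `#W`).
`BW`: the same with `a p = θ (Sp e W p - Sp e W' p)`; by `T2 W W' = 0` no `p` has both fibres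
nonempty.
-/

set_option autoImplicit false

namespace Pool.Agent.H41.RG

open Finset MeasureTheory ProbabilityTheory
open Pool.Agent.H18.RM (IsSigns rmf)

variable {Ω : Type*} [mΩ : MeasurableSpace Ω] {P : Measure Ω} [IsProbabilityMeasure P]
  {e : ℕ → Ω → ℝ}

private theorem Char0_inj {W : Finset ℕ} (h0 : D1 W = 0) {n n' : ℕ} (hn : n ∈ W) (hn' : n' ∈ W)
    (h : lp n = lp n') : n = n' := by
  by_contra hne
  unfold D1 at h0
  rw [card_eq_zero] at h0
  have : (n, n') ∈ (W ×ˢ W).filter (fun t => t.1 ≠ t.2 ∧ lp t.1 = lp t.2) :=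
    mem_filter.2 ⟨mem_product.2 ⟨hn, hn'⟩, hne, h⟩
  rw [h0] at this
  exact absurd this (notMem_empty _)

private theorem Char0_T {W W' : Finset ℕ} (h0 : T2 W W' = 0) {n n' : ℕ} (hn : n ∈ W)
    (hn' : n' ∈ W') : lp n ≠ lp n' := by
  intro h
  unfold T2 at h0
  rw [card_eq_zero] at h0
  have : (n, n') ∈ (W ×ˢ W').filter (fun t => lp t.1 = lp t.2) :=
    mem_filter.2 ⟨mem_product.2 ⟨hn, hn'⟩, h⟩
  rw [h0] at this
  exact absurd this (notMem_empty _)

private theorem Char0_rmf {e : ℕ → Ω → ℝ} {ω : Ω} (h : ∀ p, e p ω = 1 ∨ e p ω = -1) {k : ℕ}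
    (hk : Squarefree k) : rmf e ω k = 1 ∨ rmf e ω k = -1 := by
  unfold rmf
  rw [if_pos hk]
  generalize k.primeFactors = s
  induction s using Finset.induction_on with
  | empty => left; simp
  | insert a s ha ih =>
    rw [prod_insert ha]
    rcases h a with h1 | h1 <;> rcases ih with h2 | h2 <;> rw [h1, h2] <;> norm_num

private theorem Char0_Sp {e : ℕ → Ω → ℝ} {ω : Ω} (h : ∀ p, e p ω = 1 ∨ e p ω = -1)
    {W : Finset ℕ} (hW : ∀ n ∈ W, Squarefree n ∧ 2 ≤ n) (h0 : D1 W = 0) (p : ℕ) :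
    (p ∈ W.image lp ∧ (Sp e W p ω = 1 ∨ Sp e W p ω = -1)) ∨
      (p ∉ W.image lp ∧ Sp e W p ω = 0) := by
  by_cases hp : p ∈ W.image lp
  · left
    refine ⟨hp, ?_⟩
    obtain ⟨n, hn, hnp⟩ := mem_image.1 hp
    have e1 : W.filter (fun n => lp n = p) = {n} := by
      ext k
      rw [mem_filter, mem_singleton]
      constructor
      · rintro ⟨hk, hkp⟩
        exact Char0_inj h0 hk hn (hkp.trans hnp.symm)
      · rintro rfl
        exact ⟨hn, hnp⟩
    unfold Sp
    rw [e1, sum_singleton]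
    have h1 := (lp_facts (hW n hn).1 (hW n hn).2).2.2.2.1
    rw [hnp] at h1
    exact Char0_rmf h h1
  · right
    refine ⟨hp, ?_⟩
    have e1 : W.filter (fun n => lp n = p) = ∅ := by
      rw [filter_eq_empty_iff]
      intro n hn hnp
      exact hp (mem_image.2 ⟨n, hn, hnp⟩)
    unfold Sp
    rw [e1, sum_empty]

private theorem Char0_cos {x : ℝ} (h : x = 1 ∨ x = -1) (θ : ℝ) :
    Real.cos (θ * x) = Real.cos θ := by
  rcases h with h | h
  · rw [h, mul_one]
  · rw [h, mul_neg_one, Real.cos_neg]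

private theorem Char0_main (h : IsSigns P e) {W W' : Finset ℕ}
    (hW : ∀ n ∈ W, Squarefree n ∧ 2 ≤ n) (hW' : ∀ n ∈ W', Squarefree n ∧ 2 ≤ n)
    (h0 : D1 W = 0) (h0' : D1 W' = 0) (h2 : T2 W W' = 0) (θ : ℝ) :
    BW P e W W' θ = ((Real.cos θ ^ W.card * Real.cos θ ^ W'.card : ℝ) : ℂ) := by
  have hm0 : ∃ m : ℕ, ∀ n ∈ W ∪ W', n < m :=
    ⟨(W ∪ W').sup id + 1, fun n hn => Nat.lt_succ_of_le (le_sup (f := id) hn)⟩
  obtain ⟨m, hm⟩ := hm0
  have hmW : ∀ n ∈ W, n < m := fun n hn => hm n (mem_union_left _ hn)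
  have hmW' : ∀ n ∈ W', n < m := fun n hn => hm n (mem_union_right _ hn)
  set S : Finset ℕ := W.image lp ∪ W'.image lp with hS
  have hmain := mart_exact h (fun p ω => θ * (Sp e W p ω - Sp e W' p ω))
    (fun p => ((measurable_Sp e hW p).sub (measurable_Sp e hW' p)).const_mul θ)
    (fun p => if p ∈ S then Real.cos θ else 1) m ?_
  · have e1 : BW P e W W' θ = ∫ ω, Complex.exp (Complex.I *
        ((∑ p ∈ range m, e p ω * (θ * (Sp e W p ω - Sp e W' p ω)) : ℝ) : ℂ)) ∂P := by
      unfold BW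
      refine integral_congr_ae (Filter.Eventually.of_forall fun ω => ?_)
      simp only
      congr 3
      rw [sum_rmf e hW hmW ω, sum_rmf e hW' hmW' ω, ← sum_sub_distrib, mul_sum]
      exact sum_congr rfl fun p _ => by ring
    rw [e1, hmain]
    congr 1
    rw [prod_ite_mem, prod_const, ← pow_add]
    congr 1
    have hsub : S ⊆ range m := by
      intro p hp
      rw [mem_range]
      rcases mem_union.1 hp with hp | hp
      · obtain ⟨n, hn, rfl⟩ := mem_image.1 hp
        exact (lp_facts (hW n hn).1 (hW n hn).2).2.2.1.trans_lt (hmW n hn)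
      · obtain ⟨n, hn, rfl⟩ := mem_image.1 hp
        exact (lp_facts (hW' n hn).1 (hW' n hn).2).2.2.1.trans_lt (hmW' n hn)
    rw [inter_eq_right.2 hsub, hS, card_union_of_disjoint, card_image_of_injOn, card_image_of_injOn]
    · intro a ha b hb hab
      exact Char0_inj h0' ha hb hab
    · intro a ha b hb hab
      exact Char0_inj h0 ha hb hab
    · rw [Finset.disjoint_left]
      intro p hp hp'
      obtain ⟨n, hn, hn1⟩ := mem_image.1 hp
      obtain ⟨n', hn', hn1'⟩ := mem_image.1 hp'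
      exact Char0_T h2 hn hn' (hn1.trans hn1'.symm)
  · intro p _
    filter_upwards [h.ae_signs] with ω hω
    rcases Char0_Sp hω hW h0 p with ⟨h3, h4⟩ | ⟨h3, h4⟩
    · have h5 : p ∉ W'.image lp := by
        intro hp'
        obtain ⟨n, hn, hn1⟩ := mem_image.1 h3
        obtain ⟨n', hn', hn1'⟩ := mem_image.1 hp'
        exact Char0_T h2 hn hn' (hn1.trans hn1'.symm)
      have h6 : Sp e W' p ω = 0 := by
        rcases Char0_Sp hω hW' h0' p with ⟨h7, _⟩ | ⟨_, h7⟩
        · exact absurd h7 h5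
        · exact h7
      rw [h6, sub_zero, if_pos (mem_union_left _ h3)]
      exact Char0_cos h4 θ
    · rcases Char0_Sp hω hW' h0' p with ⟨h5, h6⟩ | ⟨h5, h6⟩
      · rw [h4, zero_sub, mul_neg, Real.cos_neg, if_pos (mem_union_right _ h5)]
        exact Char0_cos h6 θ
      · have h7 : p ∉ S := by
          rw [hS, mem_union]
          push Not
          exact ⟨h3, h5⟩
        rw [h4, h6, sub_zero, mul_zero, Real.cos_zero, if_neg h7]

theorem charA0 (h : IsSigns P e) {W : Finset ℕ} (hW : ∀ n ∈ W, Squarefree n ∧ 2 ≤ n)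
    (h0 : D1 W = 0) (θ : ℝ) : AW P e W θ = ((Real.cos θ ^ W.card : ℝ) : ℂ) := by
  have h1 := Char0_main h hW (W' := ∅) (by simp) h0 (by simp [D1]) (by simp [T2]) θ
  rw [card_empty, pow_zero, mul_one] at h1
  rw [← h1]
  unfold AW BW
  simp

theorem charB0 (h : IsSigns P e) {W W' : Finset ℕ} (hW : ∀ n ∈ W, Squarefree n ∧ 2 ≤ n)
    (hW' : ∀ n ∈ W', Squarefree n ∧ 2 ≤ n) (h0 : D1 W = 0) (h0' : D1 W' = 0)
    (h2 : T2 W W' = 0) (θ : ℝ) :
    BW P e W W' θ = ((Real.cos θ ^ W.card * Real.cos θ ^ W'.card : ℝ) : ℂ) := Char0_main h hW hW' h0 h0' h2 θ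

end Pool.Agent.H41.RG
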