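import Pool.Agent.H41.RG.Defs
import Pool.Agent.H18.RM.CountS

/-!
# RG CntDefs: the sets counted

All numbers are squarefree and lie in `[Y, 20Y]`.
`P1 Y h`: pairs `n ≠ m`, `|n - m| ≤ h`, `lp n = lp m`.  `P2 Y`: pairs with `lp n = lp m`.
`SQ4 Y h`: quadruples of pairwise different numbers, pairwise within `h`, with square product.
(`Pool.Agent.H18.RM.SQ Y h`: quadruples with `n ≠ m`, `n' ≠ m'`, `|n-m| ≤ h`, `|n'-m'| ≤ h` and square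
product.)  `Sm Y z`: the squarefree numbers in `[1, 20Y]` with largest prime factor `≤ z`.
-/

set_option autoImplicit false

namespace Pool.Agent.H41.RG

open Finset

def P1 (Y h : ℕ) : Finset (ℕ × ℕ) :=
  ((Icc Y (20 * Y)) ×ˢ (Icc Y (20 * Y))).filter (fun t =>
    (Squarefree t.1 ∧ Squarefree t.2) ∧ t.1 ≠ t.2 ∧ |(t.1 : ℤ) - t.2| ≤ h ∧ lp t.1 = lp t.2)

def P2 (Y : ℕ) : Finset (ℕ × ℕ) :=
  ((Icc Y (20 * Y)) ×ˢ (Icc Y (20 * Y))).filter (fun t =>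
    (Squarefree t.1 ∧ Squarefree t.2) ∧ lp t.1 = lp t.2)

def SQ4 (Y h : ℕ) : Finset ((ℕ × ℕ) × (ℕ × ℕ)) :=
  (((Icc Y (20 * Y)) ×ˢ (Icc Y (20 * Y))) ×ˢ ((Icc Y (20 * Y)) ×ˢ (Icc Y (20 * Y)))).filter
    (fun t => (Squarefree t.1.1 ∧ Squarefree t.1.2 ∧ Squarefree t.2.1 ∧ Squarefree t.2.2) ∧
      (t.1.1 ≠ t.1.2 ∧ t.2.1 ≠ t.2.2 ∧ t.1.1 ≠ t.2.1 ∧ t.1.1 ≠ t.2.2 ∧ t.1.2 ≠ t.2.1 ∧
        t.1.2 ≠ t.2.2) ∧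
      (|(t.1.1 : ℤ) - t.1.2| ≤ h ∧ |(t.2.1 : ℤ) - t.2.2| ≤ h ∧ |(t.1.1 : ℤ) - t.2.1| ≤ h ∧
        |(t.1.1 : ℤ) - t.2.2| ≤ h ∧ |(t.1.2 : ℤ) - t.2.1| ≤ h ∧ |(t.1.2 : ℤ) - t.2.2| ≤ h) ∧
      IsSquare (t.1.1 * t.1.2 * (t.2.1 * t.2.2)))

noncomputable def Sm (Y : ℕ) (z : ℝ) : Finset ℕ :=
  (Icc 1 (20 * Y)).filter (fun n => Squarefree n ∧ (lp n : ℝ) ≤ z)

end Pool.Agent.H41.RG
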