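import Pool.Agent.H18.RM.Prob

/-!
# RG: Gaussian law for random multiplicative functions in short intervals (definitions)

`lp n`: the largest prime factor.  `Wk k h`: the squarefree numbers `n` with `k - h < n ≤ k + h`
(the window of length `2h` with centre `x`, for every non-integral `x` in `(k, k+1)`).
`Sp e W p`: the coefficient of `e p` in `∑ n ∈ W, f n`, grouped by the largest prime factor.
`D1, Q4, T2, Q22`: the numbers of pairs with the same largest prime factor and of quadruples of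
different numbers with a square product.
-/

set_option autoImplicit false

namespace Pool.Agent.H41.RG

open Finset MeasureTheory ProbabilityTheory
open Pool.Agent.H18.RM (IsSigns rmf)

/-- the largest prime factor of `n` (`0` for `n ≤ 1`) -/
def lp (n : ℕ) : ℕ := n.primeFactors.sup id

/-- the squarefree numbers in `(k - h, k + h]` -/
def Wk (k h : ℕ) : Finset ℕ := (Ioc (k - h) (k + h)).filter Squarefree

/-- the σ-algebra generated by the signs `e q`, `q < p` -/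
abbrev Past {Ω : Type*} (e : ℕ → Ω → ℝ) (p : ℕ) : MeasurableSpace Ω :=
  ⨆ q ∈ Set.Iio p, MeasurableSpace.comap (e q) inferInstance

/-- the coefficient of `e p` -/
noncomputable def Sp {Ω : Type*} (e : ℕ → Ω → ℝ) (W : Finset ℕ) (p : ℕ) (ω : Ω) : ℝ :=
  ∑ n ∈ W.filter (fun n => lp n = p), rmf e ω (n / p)

/-- pairs of different elements with the same largest prime factor -/
def D1 (W : Finset ℕ) : ℕ :=
  ((W ×ˢ W).filter (fun t => t.1 ≠ t.2 ∧ lp t.1 = lp t.2)).card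

/-- quadruples of pairwise different elements of `W` with square product -/
def Q4 (W : Finset ℕ) : ℕ :=
  (((W ×ˢ W) ×ˢ (W ×ˢ W)).filter (fun t =>
    (t.1.1 ≠ t.1.2 ∧ t.2.1 ≠ t.2.2 ∧ t.1.1 ≠ t.2.1 ∧ t.1.1 ≠ t.2.2 ∧ t.1.2 ≠ t.2.1 ∧
      t.1.2 ≠ t.2.2) ∧ IsSquare (t.1.1 * t.1.2 * (t.2.1 * t.2.2)))).card

/-- pairs in `W × W'` with the same largest prime factor -/
def T2 (W W' : Finset ℕ) : ℕ := ((W ×ˢ W').filter (fun t => lp t.1 = lp t.2)).card

/-- pairs `(n, m), (n', m')` in `W × W'` with `n ≠ n'`, `m ≠ m'` and `n m n' m'` a square -/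
def Q22 (W W' : Finset ℕ) : ℕ :=
  (((W ×ˢ W') ×ˢ (W ×ˢ W')).filter (fun t =>
    (t.1.1 ≠ t.2.1 ∧ t.1.2 ≠ t.2.2) ∧ IsSquare (t.1.1 * t.1.2 * (t.2.1 * t.2.2)))).card

/-- the characteristic function of `∑ n ∈ W, f n` -/
noncomputable def AW {Ω : Type*} [MeasurableSpace Ω] (P : Measure Ω) (e : ℕ → Ω → ℝ)
    (W : Finset ℕ) (θ : ℝ) : ℂ :=
  ∫ ω, Complex.exp (Complex.I * ((θ * ∑ n ∈ W, rmf e ω n : ℝ) : ℂ)) ∂P

/-- the characteristic function of `∑ n ∈ W, f n - ∑ n ∈ W', f n` -/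
noncomputable def BW {Ω : Type*} [MeasurableSpace Ω] (P : Measure Ω) (e : ℕ → Ω → ℝ)
    (W W' : Finset ℕ) (θ : ℝ) : ℂ :=
  ∫ ω, Complex.exp (Complex.I * ((θ * (∑ n ∈ W, rmf e ω n - ∑ n ∈ W', rmf e ω n) : ℝ) : ℂ)) ∂P

/-- the average of `exp(iθ ∑_{n ∈ window} f n)` over the windows `Wk k h`, `X ≤ k < 2X` -/
noncomputable def phiD (g : ℕ → ℝ) (X h : ℕ) (θ : ℝ) : ℂ :=
  (1 / (X : ℂ)) * ∑ k ∈ Ico X (2 * X),
    Complex.exp (Complex.I * ((θ * ∑ n ∈ Wk k h, g n : ℝ) : ℂ))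

/-- window sums, as in the frozen statement S15903 (with `g` in place of the Möbius function) -/
noncomputable def MR (g : ℕ → ℝ) (x H : ℝ) : ℝ :=
  ∑ n ∈ (range (⌈x + H⌉₊ + 1)).filter (fun n : ℕ => |(n : ℝ) - x| < H / 2), g n

/-- `σ² = H / ζ(2)`: the predicted standard deviation -/
noncomputable def sg (H : ℝ) : ℝ := Real.sqrt (H / (Real.pi ^ 2 / 6))

/-- the characteristic function of the law over `x ∈ [X, 2X]` of `M(x;H)/σ` -/
noncomputable def phiC (g : ℕ → ℝ) (X H t : ℝ) : ℂ :=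
  (1 / (X : ℂ)) * ∫ x in X..2 * X, Complex.exp (Complex.I * ((t * (MR g x H / sg H) : ℝ) : ℂ))

end Pool.Agent.H41.RG
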