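import Pool.Agent.H41.RG.Defs
import Pool.Agent.H18.RM.Basic

/-!
# RG LevyA: from characteristic functions to distribution functions (deterministic)

`phi_lip`: `‖phiC g X H t - phiC g X H t'‖ ≤ |t - t'| (1/X) ∫ |M|/σ ≤ |t - t'| √(V)/σ`.

`levy`: let `X_n > 0`, `H_n > 0` be sequences with `phiC g X_n H_n t → exp(-t²/2)` for all `t`.  The
law `μ_n` of `x ↦ MR g x H_n / sg H_n` under the uniform probability on `[X_n, 2 X_n]` is a
probability measure with characteristic function `phiC g X_n H_n`; it converges weakly to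
`gaussianReal 0 1`, so `μ_n (Iic u) → gaussianReal 0 1 (Iic u)` (portmanteau).
-/

set_option autoImplicit false

namespace Pool.Agent.H41.RG

open Finset MeasureTheory ProbabilityTheory Filter

theorem LevyA_MC (g : ℕ → ℝ) (x H : ℝ) :
    Pool.Agent.H18.RM.MC (fun n => (g n : ℂ)) x H = ((MR g x H : ℝ) : ℂ) := by
  unfold Pool.Agent.H18.RM.MC MR
  push_cast
  rfl

theorem measurable_MR (g : ℕ → ℝ) {H : ℝ} (hH : 0 < H) : Measurable (fun x => MR g x H) := by
  have h1 := Pool.Agent.H18.RM.measurable_MC (fun n => (g n : ℂ)) hH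
  have h2 : (fun x => MR g x H) =
      fun x => (Pool.Agent.H18.RM.MC (fun n => (g n : ℂ)) x H).re := by
    funext x
    rw [LevyA_MC, Complex.ofReal_re]
  rw [h2]
  exact Complex.measurable_re.comp h1

theorem LevyA_bdd {g : ℕ → ℝ} (hg : ∀ n, |g n| ≤ 1) {H : ℝ} (hH : 0 < H) (x : ℝ) :
    |MR g x H| ≤ H + 1 := by
  have h := Pool.Agent.H18.RM.norm_MC_le (g := fun n => (g n : ℂ))
    (fun n => by rw [Complex.norm_real]; exact hg n) hH x
  rw [LevyA_MC, Complex.norm_real] at h
  exact h

theorem LevyA_int {g : ℕ → ℝ} (hg : ∀ n, |g n| ≤ 1) {H : ℝ} (hH : 0 < H) (a b : ℝ) :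
    IntervalIntegrable (fun x => |MR g x H|) volume a b := by
  have : IsFiniteMeasure (volume.restrict (Set.uIoc a b)) := by
    constructor
    rw [Measure.restrict_apply_univ, Set.uIoc]
    exact measure_Ioc_lt_top
  rw [intervalIntegrable_iff]
  refine Integrable.of_bound (measurable_MR g hH).abs.aestronglyMeasurable (H + 1) ?_
  refine Eventually.of_forall fun x => ?_
  rw [Real.norm_eq_abs, abs_abs]
  exact LevyA_bdd hg hH x

theorem LevyA_int2 {g : ℕ → ℝ} (hg : ∀ n, |g n| ≤ 1) {H : ℝ} (hH : 0 < H) (a b : ℝ) :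
    IntervalIntegrable (fun x => (MR g x H) ^ 2) volume a b := by
  have : IsFiniteMeasure (volume.restrict (Set.uIoc a b)) := by
    constructor
    rw [Measure.restrict_apply_univ, Set.uIoc]
    exact measure_Ioc_lt_top
  rw [intervalIntegrable_iff]
  refine Integrable.of_bound ((measurable_MR g hH).pow_const 2).aestronglyMeasurable
    ((H + 1) ^ 2) ?_
  refine Eventually.of_forall fun x => ?_
  rw [Real.norm_eq_abs, abs_pow]
  exact pow_le_pow_left₀ (abs_nonneg _) (LevyA_bdd hg hH x) 2

theorem LevyA_l1 {g : ℕ → ℝ} (hg : ∀ n, |g n| ≤ 1) {X H A : ℝ} (hX : 1 ≤ X) (hH : 1 ≤ H)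
    (hA : ∫ x in X..2 * X, (MR g x H) ^ 2 ≤ A ^ 2 * X * sg H ^ 2) (hA0 : 0 ≤ A) :
    ∫ x in X..2 * X, |MR g x H| ≤ A * X * sg H := by
  have hH0 : 0 < H := by linarith
  have hX0 : 0 < X := by linarith
  have hs : 0 < sg H := by
    unfold sg
    positivity
  have h1 : ∀ l : ℝ, 0 < l → ∫ x in X..2 * X, |MR g x H| ≤
      X * l / 2 + (A ^ 2 * X * sg H ^ 2) / (2 * l) := by
    intro l hl
    have h2 : ∫ x in X..2 * X, |MR g x H| ≤
        ∫ x in X..2 * X, (l / 2 + (MR g x H) ^ 2 / (2 * l)) := by
      apply intervalIntegral.integral_mono_on (by linarith) (LevyA_int hg hH0 _ _)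
        ((intervalIntegrable_const).add ((LevyA_int2 hg hH0 _ _).div_const _))
      intro x _
      have h3 : 0 ≤ (|MR g x H| - l) ^ 2 / (2 * l) := by positivity
      have h4 : (|MR g x H| - l) ^ 2 / (2 * l) =
          l / 2 + (MR g x H) ^ 2 / (2 * l) - |MR g x H| := by
        rw [← sq_abs (MR g x H)]
        field_simp
        ring
      linarith
    refine h2.trans ?_
    rw [intervalIntegral.integral_add intervalIntegrable_const
      ((LevyA_int2 hg hH0 _ _).div_const _), intervalIntegral.integral_const,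
      intervalIntegral.integral_div]
    have h5 : (2 * X - X) • (l / 2) = X * l / 2 := by
      rw [smul_eq_mul]
      ring
    rw [h5]
    have h6 : (∫ x in X..2 * X, (MR g x H) ^ 2) / (2 * l) ≤
        (A ^ 2 * X * sg H ^ 2) / (2 * l) := div_le_div_of_nonneg_right hA (by positivity)
    linarith
  rcases hA0.eq_or_lt with h0 | h0
  · rw [← h0]
    simp only [zero_mul]
    refine le_of_forall_pos_le_add fun ε hε => ?_
    have := h1 (2 * ε / X) (by positivity)
    rw [← h0] at this
    simp only [ne_eq, OfNat.ofNat_ne_zero, not_false_eq_true, zero_pow, zero_mul, zero_div,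
      add_zero] at this
    refine this.trans (le_of_eq ?_)
    field_simp
    ring
  · refine (h1 (A * sg H) (by positivity)).trans (le_of_eq ?_)
    field_simp
    ring

theorem LevyA_exp (a b : ℝ) :
    ‖Complex.exp (Complex.I * (a : ℂ)) - Complex.exp (Complex.I * (b : ℂ))‖ ≤ |a - b| := by
  have h1 : Complex.exp (Complex.I * (a : ℂ)) - Complex.exp (Complex.I * (b : ℂ)) =
      Complex.exp (Complex.I * (b : ℂ)) * (Complex.exp (Complex.I * ((a - b : ℝ) : ℂ)) - 1) := by
    rw [mul_sub, ← Complex.exp_add, mul_one]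
    congr 2
    push_cast
    ring
  rw [h1, norm_mul, mul_comm Complex.I, Complex.norm_exp_ofReal_mul_I, one_mul]
  exact Real.norm_exp_I_mul_ofReal_sub_one_le

theorem phi_lip {g : ℕ → ℝ} (hg : ∀ n, |g n| ≤ 1) {X H A : ℝ} (hX : 1 ≤ X) (hH : 1 ≤ H)
    (hA : ∫ x in X..2 * X, (MR g x H) ^ 2 ≤ A ^ 2 * X * sg H ^ 2) (hA0 : 0 ≤ A) (t t' : ℝ) :
    ‖phiC g X H t - phiC g X H t'‖ ≤ |t - t'| * A := by
  have hH0 : 0 < H := by linarith
  have hX0 : 0 < X := by linarith
  have hs : 0 < sg H := by
    unfold sg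
    positivity
  have hint : ∀ s : ℝ, IntervalIntegrable
      (fun x => Complex.exp (Complex.I * ((s * (MR g x H / sg H) : ℝ) : ℂ))) volume X (2 * X) := by
    intro s
    have : IsFiniteMeasure (volume.restrict (Set.uIoc X (2 * X))) := by
      constructor
      rw [Measure.restrict_apply_univ, Set.uIoc]
      exact measure_Ioc_lt_top
    rw [intervalIntegrable_iff]
    have hm := measurable_MR g hH0
    refine Integrable.of_bound (C := 1) ?_ (Eventually.of_forall fun x => ?_)
    · exact (by fun_prop : Measurable fun x =>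
        Complex.exp (Complex.I * ((s * (MR g x H / sg H) : ℝ) : ℂ))).aestronglyMeasurable
    · rw [mul_comm Complex.I, Complex.norm_exp_ofReal_mul_I]
  unfold phiC
  rw [← mul_sub, ← intervalIntegral.integral_sub (hint t) (hint t'), norm_mul]
  have h1 : ‖∫ x in X..2 * X, (Complex.exp (Complex.I * ((t * (MR g x H / sg H) : ℝ) : ℂ)) -
      Complex.exp (Complex.I * ((t' * (MR g x H / sg H) : ℝ) : ℂ)))‖ ≤
      ∫ x in X..2 * X, |t - t'| / sg H * |MR g x H| := by
    apply intervalIntegral.norm_integral_le_of_norm_le (by linarith)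
    · refine Eventually.of_forall fun x _ => ?_
      refine (LevyA_exp _ _).trans (le_of_eq ?_)
      rw [← sub_mul, abs_mul, abs_div, abs_of_pos hs]
      ring
    · exact (LevyA_int hg hH0 _ _).const_mul _
  rw [intervalIntegral.integral_const_mul] at h1
  have h2 := LevyA_l1 hg hX hH hA hA0
  have h3 : ‖(1 / (X : ℂ))‖ = 1 / X := by
    rw [norm_div, norm_one, Complex.norm_real, Real.norm_eq_abs, abs_of_pos hX0]
  rw [h3]
  calc 1 / X * _ ≤ 1 / X * (|t - t'| / sg H * ∫ x in X..2 * X, |MR g x H|) :=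
        mul_le_mul_of_nonneg_left h1 (by positivity)
    _ ≤ 1 / X * (|t - t'| / sg H * (A * X * sg H)) := by
        apply mul_le_mul_of_nonneg_left _ (by positivity)
        exact mul_le_mul_of_nonneg_left h2 (by positivity)
    _ = |t - t'| * A := by
        field_simp

/-- the uniform probability on `[X, 2X]` -/
noncomputable def LevyA_U (X : ℝ) : Measure ℝ :=
  (ENNReal.ofReal (1 / X)) • volume.restrict (Set.Icc X (2 * X))

theorem LevyA_U_prob {X : ℝ} (hX : 0 < X) : IsProbabilityMeasure (LevyA_U X) := by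
  constructor
  unfold LevyA_U
  rw [Measure.smul_apply, Measure.restrict_apply_univ, Real.volume_Icc, smul_eq_mul,
    ← ENNReal.ofReal_mul (by positivity)]
  have : 1 / X * (2 * X - X) = 1 := by
    field_simp
    ring
  rw [this, ENNReal.ofReal_one]

theorem levy {g : ℕ → ℝ} (hg : ∀ n, |g n| ≤ 1) (X H : ℕ → ℝ) (hX : ∀ n, 1 ≤ X n)
    (hH : ∀ n, 1 ≤ H n)
    (hphi : ∀ t : ℝ, Tendsto (fun n => phiC g (X n) (H n) t) atTop
      (nhds ((Real.exp (-t ^ 2 / 2) : ℝ) : ℂ))) (u : ℝ) :
    Tendsto (fun n => (1 / X n) *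
      volume.real {x : ℝ | X n ≤ x ∧ x ≤ 2 * X n ∧ MR g x (H n) ≤ u * sg (H n)}) atTop
      (nhds ((gaussianReal 0 1).real (Set.Iic u))) := by
  have hX0 : ∀ n, 0 < X n := fun n => lt_of_lt_of_le one_pos (hX n)
  have hH0 : ∀ n, 0 < H n := fun n => lt_of_lt_of_le one_pos (hH n)
  have hs : ∀ n, 0 < sg (H n) := fun n => by
    have := hH0 n
    unfold sg
    positivity
  have hmeas : ∀ n, Measurable (fun x => MR g x (H n) / sg (H n)) := fun n =>
    (measurable_MR g (hH0 n)).div_const _
  have hU : ∀ n, IsProbabilityMeasure (LevyA_U (X n)) := fun n => LevyA_U_prob (hX0 n)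
  let μ : ℕ → ProbabilityMeasure ℝ := fun n =>
    ⟨Measure.map (fun x => MR g x (H n) / sg (H n)) (LevyA_U (X n)),
      Measure.isProbabilityMeasure_map (hmeas n).aemeasurable⟩
  let μ0 : ProbabilityMeasure ℝ := ⟨gaussianReal 0 1, inferInstance⟩
  have hchar : ∀ n t, charFun (μ n : Measure ℝ) t = phiC g (X n) (H n) t := by
    intro n t
    rw [charFun_apply_real]
    change ∫ x, _ ∂(Measure.map (fun x => MR g x (H n) / sg (H n)) (LevyA_U (X n))) = _
    rw [integral_map (hmeas n).aemeasurable (by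
      exact (by fun_prop : Measurable fun x : ℝ =>
        Complex.exp (t * x * Complex.I)).aestronglyMeasurable)]
    unfold LevyA_U phiC
    rw [integral_smul_measure, intervalIntegral.integral_of_le (by linarith [hX0 n]),
      integral_Icc_eq_integral_Ioc, ENNReal.toReal_ofReal (by have := hX0 n; positivity),
      Complex.real_smul]
    congr 1
    · push_cast
      rfl
    · apply integral_congr_ae
      refine Eventually.of_forall fun x => ?_
      simp only
      congr 1
      push_cast
      ring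
  have hlim : Tendsto μ atTop (nhds μ0) := by
    apply ProbabilityMeasure.tendsto_of_tendsto_charFun
    intro t
    simp_rw [hchar]
    have h0 : charFun (μ0 : Measure ℝ) t = ((Real.exp (-t ^ 2 / 2) : ℝ) : ℂ) := by
      change charFun (gaussianReal 0 1) t = _
      rw [charFun_gaussianReal]
      push_cast
      congr 1
      simp
      ring
    rw [h0]
    exact hphi t
  have hfr : (μ0 : Measure ℝ) (frontier (Set.Iic u)) = 0 := by
    rw [frontier_Iic]
    change gaussianReal 0 1 {u} = 0
    have := nullSingletonClass_gaussianReal (μ := 0) (v := 1) one_ne_zero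
    exact measure_singleton u
  have h1 := ProbabilityMeasure.tendsto_measure_of_null_frontier_of_tendsto' hlim hfr
  have h2 : Tendsto (fun n => ((μ n : Measure ℝ) (Set.Iic u)).toReal) atTop
      (nhds ((gaussianReal 0 1).real (Set.Iic u))) :=
    (ENNReal.tendsto_toReal (measure_ne_top _ _)).comp h1
  refine h2.congr fun n => ?_
  change ((Measure.map (fun x => MR g x (H n) / sg (H n)) (LevyA_U (X n))) (Set.Iic u)).toReal = _
  rw [Measure.map_apply (hmeas n) measurableSet_Iic]
  unfold LevyA_U
  rw [Measure.smul_apply, smul_eq_mul, ENNReal.toReal_mul,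
    ENNReal.toReal_ofReal (by have := hX0 n; positivity),
    Measure.restrict_apply (hmeas n measurableSet_Iic), measureReal_def]
  congr 3
  ext x
  simp only [Set.mem_inter_iff, Set.mem_preimage, Set.mem_Iic, Set.mem_Icc, Set.mem_setOf_eq,
    div_le_iff₀ (hs n)]
  tauto

end Pool.Agent.H41.RG
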