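import Pool.Agent.H41.RG.Unif
import Pool.Agent.H41.RG.LevyA

/-!
# RG Fin: the Gaussian law

`unif` for all rational `t` (countable intersection), `phi_lip` with `MS_ae` (`A = 2`) extends it to all
real `t`.  For a function `H` as in the statement and a sequence `X_n → ∞` (`tendsto_of_seq_tendsto`)
use `levy` (for large `n`; modify finitely many terms, e.g. `X n ⊔ 1`, `H n ⊔ 1`).
-/

set_option autoImplicit false

namespace Pool.Agent.H41.RG

open Finset MeasureTheory ProbabilityTheory Filter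
open Pool.Agent.H18.RM (IsSigns rmf)

theorem Fin_sg (H : ℝ) (hH : 0 ≤ H) : sg H ^ 2 = H / (Real.pi ^ 2 / 6) := by
  unfold sg
  rw [Real.sq_sqrt (by positivity)]

/-- the deterministic part -/
theorem Fin_det {g : ℕ → ℝ} (hg : ∀ n, |g n| ≤ 1)
    (hMS : ∀ᶠ X : ℝ in atTop, ∀ r : ℝ, 1 ≤ r → r ≤ X / Real.log X ^ 25 →
      ∫ x in X..2 * X, (MR g x r) ^ 2 ≤ 2 * X * r)
    (hU : ∀ q : ℚ, ∀ δ : ℝ, 0 < δ → ∃ X₀ H₀ : ℝ, ∀ X H : ℝ, X₀ ≤ X → H₀ ≤ H →
      H ≤ X / Real.log X ^ 26 →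
      ‖phiC g X H q - ((Real.exp (-(q : ℝ) ^ 2 / 2) : ℝ) : ℂ)‖ ≤ δ)
    {H : ℝ → ℝ} (hH : Tendsto H atTop atTop)
    (hHX : ∀ᶠ X in atTop, H X ≤ X / Real.log X ^ 26) (t : ℝ) :
    Tendsto (fun X => phiC g X (H X) t) atTop (nhds ((Real.exp (-t ^ 2 / 2) : ℝ) : ℂ)) := by
  rw [Metric.tendsto_nhds]
  intro ε hε
  -- continuity of the limit
  have hcont : Continuous (fun s : ℝ => Real.exp (-s ^ 2 / 2)) := by fun_prop
  have h1 := Metric.continuousAt_iff.1 (hcont.continuousAt (x := t)) (ε / 4) (by positivity)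
  obtain ⟨d, hd, hd1⟩ := h1
  obtain ⟨q, hq1, hq2⟩ := exists_rat_btwn (show t < t + min d (ε / 8) by
    have : 0 < min d (ε / 8) := lt_min hd (by positivity)
    linarith)
  have hqt : |t - q| ≤ ε / 8 ∧ |(q : ℝ) - t| < d := by
    have h2 : min d (ε / 8) ≤ d := min_le_left _ _
    have h3 : min d (ε / 8) ≤ ε / 8 := min_le_right _ _
    constructor
    · rw [abs_le]
      constructor <;> linarith
    · rw [abs_lt]
      constructor <;> linarith
  obtain ⟨X₀, H₀, hXH⟩ := hU q (ε / 4) (by positivity)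
  filter_upwards [hMS, hHX, hH.eventually_ge_atTop (max 1 H₀), eventually_ge_atTop (max 1 X₀),
    eventually_ge_atTop (Real.exp 1)] with X e1 e2 e3 e4 e5
  have hX1 : 1 ≤ X := (le_max_left _ _).trans e4
  have hX0 : 0 < X := by linarith
  have hH1 : 1 ≤ H X := (le_max_left _ _).trans e3
  have hl : 1 ≤ Real.log X := by
    rw [Real.le_log_iff_exp_le hX0]
    exact e5
  have h25 : H X ≤ X / Real.log X ^ 25 := by
    refine e2.trans ?_
    exact div_le_div_of_nonneg_left hX0.le (by positivity) (pow_le_pow_right₀ hl (by norm_num))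
  have hA := e1 (H X) hH1 h25
  have hA2 : ∫ x in X..2 * X, (MR g x (H X)) ^ 2 ≤ (2 : ℝ) ^ 2 * X * sg (H X) ^ 2 := by
    refine hA.trans ?_
    rw [Fin_sg _ (by linarith)]
    have hpi : Real.pi ^ 2 < 12 := by
      have := Real.pi_lt_d2
      have := Real.pi_pos
      nlinarith
    have h4 : H X ≤ 2 * (H X / (Real.pi ^ 2 / 6)) := by
      rw [mul_div_assoc', le_div_iff₀ (by positivity)]
      nlinarith
    have h5 : 0 ≤ 2 * X := by linarith
    calc 2 * X * H X ≤ 2 * X * (2 * (H X / (Real.pi ^ 2 / 6))) := mul_le_mul_of_nonneg_left h4 h5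
      _ = 2 ^ 2 * X * (H X / (Real.pi ^ 2 / 6)) := by ring
  have h6 := phi_lip hg hX1 hH1 hA2 (by norm_num) t q
  have h7 := hXH X (H X) ((le_max_right _ _).trans e4) ((le_max_right _ _).trans e3) e2
  have h8 := hd1 (x := (q : ℝ)) (by rw [Real.dist_eq]; exact hqt.2)
  rw [Real.dist_eq] at h8
  rw [dist_eq_norm]
  have h9 : phiC g X (H X) t - ((Real.exp (-t ^ 2 / 2) : ℝ) : ℂ) =
      (phiC g X (H X) t - phiC g X (H X) q) +
      (phiC g X (H X) q - ((Real.exp (-(q : ℝ) ^ 2 / 2) : ℝ) : ℂ)) +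
      ((Real.exp (-(q : ℝ) ^ 2 / 2) - Real.exp (-t ^ 2 / 2) : ℝ) : ℂ) := by
    push_cast
    ring
  rw [h9]
  have h10 : ‖((Real.exp (-(q : ℝ) ^ 2 / 2) - Real.exp (-t ^ 2 / 2) : ℝ) : ℂ)‖ < ε / 4 := by
    rw [Complex.norm_real, Real.norm_eq_abs]
    exact h8
  calc _ ≤ ‖phiC g X (H X) t - phiC g X (H X) q‖ +
        ‖phiC g X (H X) q - ((Real.exp (-(q : ℝ) ^ 2 / 2) : ℝ) : ℂ)‖ +
        ‖((Real.exp (-(q : ℝ) ^ 2 / 2) - Real.exp (-t ^ 2 / 2) : ℝ) : ℂ)‖ := norm_add₃_le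
    _ < ε / 8 * 2 + ε / 4 + ε / 4 := by
        have : |t - q| * 2 ≤ ε / 8 * 2 := mul_le_mul_of_nonneg_right hqt.1 (by norm_num)
        linarith
    _ ≤ ε := by linarith

theorem Fin_levy {g : ℕ → ℝ} (hg : ∀ n, |g n| ≤ 1) {H : ℝ → ℝ} (hH : Tendsto H atTop atTop)
    (hphi : ∀ t : ℝ, Tendsto (fun X => phiC g X (H X) t) atTop
      (nhds ((Real.exp (-t ^ 2 / 2) : ℝ) : ℂ))) (u : ℝ) :
    Tendsto (fun X => (1 / X) *
        volume.real {x : ℝ | X ≤ x ∧ x ≤ 2 * X ∧ MR g x (H X) ≤ u * sg (H X)}) atTop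
        (nhds ((gaussianReal 0 1).real (Set.Iic u))) := by
  apply tendsto_of_seq_tendsto
  intro x hx
  have hHx : Tendsto (fun n => H (x n)) atTop atTop := hH.comp hx
  have e1 : ∀ᶠ n in atTop, 1 ≤ x n := hx.eventually_ge_atTop 1
  have e2 : ∀ᶠ n in atTop, 1 ≤ H (x n) := hHx.eventually_ge_atTop 1
  have h1 := levy hg (fun n => max 1 (x n)) (fun n => max 1 (H (x n)))
    (fun n => le_max_left _ _) (fun n => le_max_left _ _) (by
      intro t
      refine ((hphi t).comp hx).congr' ?_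
      filter_upwards [e1, e2] with n h1 h2
      simp only [Function.comp, max_eq_right h1, max_eq_right h2]) u
  refine h1.congr' ?_
  filter_upwards [e1, e2] with n h1 h2
  simp only [max_eq_right h1, max_eq_right h2, Function.comp]

theorem gauss {Ω : Type*} [MeasurableSpace Ω] {P : Measure Ω} [IsProbabilityMeasure P]
    {e : ℕ → Ω → ℝ} (hs : IsSigns P e) :
    ∀ᵐ ω ∂P, ∀ H : ℝ → ℝ, Tendsto H atTop atTop →
      (∀ᶠ X in atTop, H X ≤ X / Real.log X ^ 26) → ∀ u : ℝ,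
      Tendsto (fun X => (1 / X) *
        volume.real {x : ℝ | X ≤ x ∧ x ≤ 2 * X ∧ MR (rmf e ω) x (H X) ≤ u * sg (H X)}) atTop
        (nhds ((gaussianReal 0 1).real (Set.Iic u))) := by
  have h1 : ∀ᵐ ω ∂P, ∀ q : ℚ, ∀ δ : ℝ, 0 < δ → ∃ X₀ H₀ : ℝ, ∀ X H : ℝ, X₀ ≤ X → H₀ ≤ H →
      H ≤ X / Real.log X ^ 26 →
      ‖phiC (rmf e ω) X H q - ((Real.exp (-(q : ℝ) ^ 2 / 2) : ℝ) : ℂ)‖ ≤ δ :=
    ae_all_iff.2 fun q => unif hs (q : ℝ)
  filter_upwards [h1, MS_ae hs, Pool.Agent.H18.RM.rmf_sq hs] with ω h1 h2 h3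
  intro H hH hHX u
  exact Fin_levy (fun n => (h3 n).1) hH
    (fun t => Fin_det (fun n => (h3 n).1) h2 h1 hH hHX t) u

end Pool.Agent.H41.RG
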