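import Pool.Agent.H41.RG.Defs

/-!
# RG MartA: one step of the martingale, and the exact case

`measurable_of_past`: `Past e p ≤ mΩ`, so `Past`-measurable functions are measurable.

`mart_step`.  `exp(i e_p b) = cos b + i e_p sin b` where `e_p = ±1` (`IsSigns.ae_signs`), so
`∫ G exp(i e_p b) = ∫ G cos b + i ∫ (G sin b) e_p`, and `∫ (G sin b) e_p = 0`: real and imaginary
part of `G sin b` are `Past e p`-measurable (and bounded a.e.), hence independent of `e p`
(`ProbabilityTheory.indep_iSup_of_disjoint` applied to `h.indep` and the disjoint sets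
`Set.Iio p`, `{p}`; then `Indep` of the comaps, `IndepFun.integral_mul_eq_mul_integral`), and
`∫ e_p = 0` (`1/2 - 1/2`; see also `Prob_int_odd` in `H18/RM/Prob`, which is `∫ e_p^k = 0` for odd
`k`).

`mart_exact`: induction on `m` with `mart_step`, `G = exp(i ∑_{p<m} e_p a_p)` (which is
`Past e m`-measurable, norm one), `b = a m`.
-/

set_option autoImplicit false

namespace Pool.Agent.H41.RG

open Finset MeasureTheory ProbabilityTheory
open Pool.Agent.H18.RM (IsSigns rmf)

variable {Ω : Type*} [mΩ : MeasurableSpace Ω] {P : Measure Ω} [IsProbabilityMeasure P]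
  {e : ℕ → Ω → ℝ}

theorem past_le (h : IsSigns P e) (p : ℕ) : Past e p ≤ mΩ := by
  exact iSup₂_le fun q _ => (h.meas q).comap_le

theorem past_mono (e : ℕ → Ω → ℝ) {p q : ℕ} (hpq : p ≤ q) : Past e p ≤ Past e q := by
  exact biSup_mono fun _ hr => lt_of_lt_of_le hr hpq

theorem measurable_past {e : ℕ → Ω → ℝ} {q p : ℕ} (hqp : q < p) :
    Measurable[Past e p] (e q) := by
  exact (comap_measurable (e q)).mono
    (le_iSup₂ (f := fun (q : ℕ) (_ : q ∈ Set.Iio p) =>
      MeasurableSpace.comap (e q) (inferInstance : MeasurableSpace ℝ)) q hqp) le_rfl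

private theorem MartA_int_one (h : IsSigns P e) (p : ℕ) : ∫ ω, e p ω ∂P = 0 := by
  have hm1 : MeasurableSet {ω | e p ω = 1} := h.meas p (measurableSet_singleton 1)
  have hm2 : MeasurableSet {ω | e p ω = -1} := h.meas p (measurableSet_singleton (-1))
  have hae : (fun ω => e p ω) =ᵐ[P] fun ω =>
      Set.indicator {ω | e p ω = 1} (fun _ => (1:ℝ)) ω
        - Set.indicator {ω | e p ω = -1} (fun _ => (1:ℝ)) ω := by
    filter_upwards [h.ae_signs] with ω hω
    rcases hω p with hp | hp
    · rw [Set.indicator_of_mem (show ω ∈ {ω | e p ω = 1} from hp),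
        Set.indicator_of_notMem]
      · rw [hp]; norm_num
      · intro hq
        have hq' : e p ω = -1 := hq
        rw [hp] at hq'
        norm_num at hq'
    · rw [Set.indicator_of_mem (show ω ∈ {ω | e p ω = -1} from hp),
        Set.indicator_of_notMem]
      · rw [hp]; norm_num
      · intro hq
        have hq' : e p ω = 1 := hq
        rw [hp] at hq'
        norm_num at hq'
  rw [integral_congr_ae hae, integral_sub, integral_indicator_const _ hm1,
    integral_indicator_const _ hm2]
  · simp only [measureReal_def, h.one p, h.neg p]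
    simp
  · exact (integrable_const (1:ℝ)).indicator hm1
  · exact (integrable_const (1:ℝ)).indicator hm2

/-- the past is independent of `e p` -/
private theorem MartA_indep (h : IsSigns P e) (p : ℕ) :
    Indep (Past e p) (MeasurableSpace.comap (e p) inferInstance) P := by
  have h1 := indep_iSup_of_disjoint (fun q => (h.meas q).comap_le) h.indep.iIndep
    (S := Set.Iio p) (T := {p}) (by simp)
  rw [_root_.iSup_singleton] at h1
  exact h1

/-- `∫ F e_p = 0` for `F` in the past -/
private theorem MartA_zero (h : IsSigns P e) (p : ℕ) {F : Ω → ℂ}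
    (hF : Measurable[Past e p] F) :
    ∫ ω, F ω * ((e p ω : ℝ) : ℂ) ∂P = 0 := by
  have hind : IndepFun F (fun ω => ((e p ω : ℝ) : ℂ)) P := by
    have h1 : Indep (MeasurableSpace.comap F inferInstance)
        (MeasurableSpace.comap (e p) inferInstance) P :=
      indep_of_indep_of_le_left (MartA_indep h p) hF.comap_le
    have h2 : IndepFun F (e p) P := h1
    exact h2.comp measurable_id Complex.measurable_ofReal
  have hF' : Measurable F := hF.mono (past_le h p) le_rfl
  rw [hind.integral_fun_mul_eq_mul_integral hF'.aestronglyMeasurable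
    (Complex.measurable_ofReal.comp (h.meas p)).aestronglyMeasurable]
  have h3 : ∫ ω, ((e p ω : ℝ) : ℂ) ∂P = ((∫ ω, e p ω ∂P : ℝ) : ℂ) := integral_ofReal
  rw [h3, MartA_int_one h p]
  simp

theorem mart_step (h : IsSigns P e) (p : ℕ) {G : Ω → ℂ} {b : Ω → ℝ}
    (hG : Measurable[Past e p] G) {R : ℝ} (hGR : ∀ᵐ ω ∂P, ‖G ω‖ ≤ R)
    (hb : Measurable[Past e p] b) :
    ∫ ω, G ω * Complex.exp (Complex.I * ((e p ω * b ω : ℝ) : ℂ)) ∂P =
      ∫ ω, G ω * ((Real.cos (b ω) : ℝ) : ℂ) ∂P := by
  have hbC : Measurable[Past e p] fun ω => ((Real.sin (b ω) : ℝ) : ℂ) :=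
    Complex.measurable_ofReal.comp (Real.measurable_sin.comp hb)
  have hF : Measurable[Past e p] fun ω => G ω * ((Real.sin (b ω) : ℝ) : ℂ) := hG.mul hbC
  have hG' : Measurable G := hG.mono (past_le h p) le_rfl
  have hb' : Measurable b := hb.mono (past_le h p) le_rfl
  have hbc : Measurable fun ω => ((Real.cos (b ω) : ℝ) : ℂ) :=
    Complex.measurable_ofReal.comp (Real.measurable_cos.comp hb')
  have hbs : Measurable fun ω => ((Real.sin (b ω) : ℝ) : ℂ) :=
    Complex.measurable_ofReal.comp (Real.measurable_sin.comp hb')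
  have hep : Measurable fun ω => ((e p ω : ℝ) : ℂ) :=
    Complex.measurable_ofReal.comp (h.meas p)
  have hI1 : Integrable (fun ω => G ω * ((Real.cos (b ω) : ℝ) : ℂ)) P := by
    refine Integrable.of_bound (hG'.mul hbc).aestronglyMeasurable R ?_
    filter_upwards [hGR] with ω hω
    rw [norm_mul, Complex.norm_real, Real.norm_eq_abs]
    have h1 := Real.abs_cos_le_one (b ω)
    have h2 := norm_nonneg (G ω)
    have h3 := abs_nonneg (Real.cos (b ω))
    nlinarith
  have hI2 : Integrable (fun ω => Complex.I * ((G ω * ((Real.sin (b ω) : ℝ) : ℂ)) *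
      ((e p ω : ℝ) : ℂ))) P := by
    refine Integrable.of_bound (((hG'.mul hbs).mul hep).const_mul _).aestronglyMeasurable R ?_
    filter_upwards [hGR, h.ae_signs] with ω hω hs
    have h0 : |e p ω| = 1 := by
      rcases hs p with hp | hp <;> rw [hp] <;> norm_num
    rw [norm_mul, norm_mul, norm_mul, Complex.norm_I, Complex.norm_real, Complex.norm_real,
      Real.norm_eq_abs, Real.norm_eq_abs, h0, one_mul, mul_one]
    have h1 := Real.abs_sin_le_one (b ω)
    have h2 := norm_nonneg (G ω)
    have h3 := abs_nonneg (Real.sin (b ω))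
    nlinarith
  have hae : (fun ω => G ω * Complex.exp (Complex.I * ((e p ω * b ω : ℝ) : ℂ))) =ᵐ[P]
      fun ω => G ω * ((Real.cos (b ω) : ℝ) : ℂ) +
        Complex.I * ((G ω * ((Real.sin (b ω) : ℝ) : ℂ)) * ((e p ω : ℝ) : ℂ)) := by
    filter_upwards [h.ae_signs] with ω hs
    have h1 : Complex.exp (Complex.I * ((e p ω * b ω : ℝ) : ℂ)) =
        ((Real.cos (e p ω * b ω) : ℝ) : ℂ) + Complex.I * ((Real.sin (e p ω * b ω) : ℝ) : ℂ) := by
      rw [mul_comm Complex.I, Complex.exp_mul_I, Complex.ofReal_cos, Complex.ofReal_sin]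
      ring
    rw [h1]
    rcases hs p with hp | hp
    · rw [hp, one_mul]
      push_cast
      ring
    · rw [hp, neg_one_mul, Real.cos_neg, Real.sin_neg]
      push_cast
      ring
  rw [integral_congr_ae hae, integral_add hI1 hI2, integral_const_mul, MartA_zero h p hF]
  simp

theorem mart_exact (h : IsSigns P e) (a : ℕ → Ω → ℝ)
    (ha : ∀ p, Measurable[Past e p] (a p)) (c : ℕ → ℝ) (m : ℕ)
    (hc : ∀ p < m, ∀ᵐ ω ∂P, Real.cos (a p ω) = c p) :
    ∫ ω, Complex.exp (Complex.I * ((∑ p ∈ range m, e p ω * a p ω : ℝ) : ℂ)) ∂P =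
      ((∏ p ∈ range m, c p : ℝ) : ℂ) := by
  induction m with
  | zero => simp
  | succ m ih =>
    have ih' := ih fun p hp => hc p (hp.trans (Nat.lt_succ_self m))
    have hS : Measurable[Past e m] fun ω => ∑ p ∈ range m, e p ω * a p ω := by
      refine Finset.measurable_sum _ fun p hp => ?_
      have hpm : p < m := Finset.mem_range.mp hp
      exact (measurable_past hpm).mul ((ha p).mono (past_mono e hpm.le) le_rfl)
    have hG : Measurable[Past e m] fun ω =>
        Complex.exp (Complex.I * ((∑ p ∈ range m, e p ω * a p ω : ℝ) : ℂ)) :=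
      Complex.measurable_exp.comp ((Complex.measurable_ofReal.comp hS).const_mul Complex.I)
    have hn : ∀ᵐ ω ∂P, ‖Complex.exp (Complex.I * ((∑ p ∈ range m, e p ω * a p ω : ℝ) : ℂ))‖ ≤
        1 := by
      refine Filter.Eventually.of_forall fun ω => ?_
      rw [mul_comm Complex.I, Complex.norm_exp_ofReal_mul_I]
    have h1 := mart_step h m hG hn (ha m)
    have h2 : ∀ ω, Complex.exp (Complex.I * ((∑ p ∈ range (m + 1), e p ω * a p ω : ℝ) : ℂ)) =
        Complex.exp (Complex.I * ((∑ p ∈ range m, e p ω * a p ω : ℝ) : ℂ)) *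
          Complex.exp (Complex.I * ((e m ω * a m ω : ℝ) : ℂ)) := by
      intro ω
      rw [Finset.sum_range_succ, ← Complex.exp_add]
      congr 1
      push_cast
      ring
    simp only [h2]
    rw [h1]
    have h3 : (fun ω => Complex.exp (Complex.I * ((∑ p ∈ range m, e p ω * a p ω : ℝ) : ℂ)) *
        ((Real.cos (a m ω) : ℝ) : ℂ)) =ᵐ[P] fun ω =>
        Complex.exp (Complex.I * ((∑ p ∈ range m, e p ω * a p ω : ℝ) : ℂ)) * ((c m : ℝ) : ℂ) := by
      filter_upwards [hc m (Nat.lt_succ_self m)] with ω hω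
      rw [hω]
    rw [integral_congr_ae h3, integral_mul_const, ih', Finset.prod_range_succ]
    push_cast
    ring

end Pool.Agent.H41.RG
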