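import Pool.Agent.H41.RG.Struct
import Pool.Agent.H18.RM.CountS

/-!
# RG Mom: second and fourth moments

All three from `Sp_mul` and `Pool.Agent.H18.RM.second_moment` (with `K = 1`, `κ = 1`), which bounds
the second moment of `∑_{s ∈ S} f(s.1) f(s.2)` by the number of `t ∈ S × S` with square product.

`momA`: a.e. `∑_{p<m} Sp² - #W = ∑_{(n,n') ∈ S} f(n) f(n')`, `S` = pairs of `W × W` with `n ≠ n'`,
`lp n = lp n'` (the diagonal `n = n'` gives `f(n)² = 1` for each `n ∈ W`).  In a quadruple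
`(n,m),(n',m') ∈ S × S` with square product either all four are different (`Q4`), or two are
equal; as `n ≠ m`, `n' ≠ m'` this means `n = n'` (then `m m'` is a square, so `m = m'`), or `n = m'`
(then `m = n'`), etc.: at most `2 #S = 2 D1` of these (for two squarefree numbers with square
product are equal: `Pool.Agent.H18.RM.CountS_eq`; `CountS_sq_of_mul` cancels a square factor).
`momB`: `Sp² = N_p + O_p` with `N_p` the number of `n ∈ W` with `lp n = p` and `O_p` the off-diagonal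
sum with both `lp = p`; `Sp⁴ ≤ 2 N_p² + 2 O_p²`; `∑_p N_p² = #W + D1`;
`∑_p E O_p² ≤ ∑_p #{t ∈ S_p × S_p square} ≤ #{t ∈ S × S square} ≤ 2 D1 + Q4`.
`momC` (`W`, `W'` disjoint): `∑_{p<m} Sp(W) Sp(W') = ∑_{(n,m) ∈ S'} f(n) f(m)`, `S'` = pairs of
`W × W'` with the same `lp`; for `(n,m),(n',m') ∈ S'` with square product `n = n'` iff `m = m'`.
-/

set_option autoImplicit false

namespace Pool.Agent.H41.RG

open Finset MeasureTheory ProbabilityTheory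
open Pool.Agent.H18.RM (IsSigns rmf)

variable {Ω : Type*} [mΩ : MeasurableSpace Ω] {P : Measure Ω} [IsProbabilityMeasure P]
  {e : ℕ → Ω → ℝ}

private theorem Mom_sm (h : IsSigns P e) (S : Finset (ℕ × ℕ)) :
    Integrable (fun ω => (∑ s ∈ S, rmf e ω s.1 * rmf e ω s.2) ^ 2) P ∧
    ∫ ω, (∑ s ∈ S, rmf e ω s.1 * rmf e ω s.2) ^ 2 ∂P ≤
      (((S ×ˢ S).filter (fun t => IsSquare (t.1.1 * t.1.2 * (t.2.1 * t.2.2)))).card : ℝ) := by
  have h1 := Pool.Agent.H18.RM.second_moment h S (fun _ => 1) (κ := 1) (fun s _ => by simp)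
  simp only [mul_one, one_pow, one_mul] at h1
  refine ⟨h1.1, h1.2.trans ?_⟩
  have h2 : ((S ×ˢ S).filter (fun t => (Squarefree t.1.1 ∧ Squarefree t.1.2 ∧
        Squarefree t.2.1 ∧ Squarefree t.2.2) ∧ IsSquare (t.1.1 * t.1.2 * (t.2.1 * t.2.2)))).card ≤
      ((S ×ˢ S).filter (fun t => IsSquare (t.1.1 * t.1.2 * (t.2.1 * t.2.2)))).card := by
    refine Finset.card_le_card fun t ht => ?_
    rw [Finset.mem_filter] at ht ⊢
    exact ⟨ht.1, ht.2.2⟩
  exact_mod_cast h2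

private theorem Mom_sq (h : IsSigns P e) :
    ∀ᵐ ω ∂P, ∀ n, Squarefree n → rmf e ω n * rmf e ω n = 1 := by
  filter_upwards [h.ae_signs] with ω hω n hn
  unfold rmf
  rw [if_pos hn, ← Finset.prod_mul_distrib]
  refine Finset.prod_eq_one fun p _ => ?_
  rcases hω p with h1 | h1 <;> rw [h1] <;> norm_num

/-- partition by the largest prime factor -/
private theorem Mom_fiber {W W' : Finset ℕ} {m : ℕ} (hm : ∀ n ∈ W, lp n < m) (F : ℕ × ℕ → ℝ) :
    ∑ p ∈ range m, ∑ t ∈ (W ×ˢ W').filter (fun t => lp t.1 = p ∧ lp t.2 = p), F t =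
      ∑ t ∈ (W ×ˢ W').filter (fun t => lp t.1 = lp t.2), F t := by
  have h1 : ∀ t ∈ (W ×ˢ W').filter (fun t => lp t.1 = lp t.2), lp t.1 ∈ range m := by
    intro t ht
    rw [Finset.mem_filter, Finset.mem_product] at ht
    exact Finset.mem_range.2 (hm _ ht.1.1)
  rw [← Finset.sum_fiberwise_of_maps_to h1]
  refine Finset.sum_congr rfl fun p _ => Finset.sum_congr ?_ fun _ _ => rfl
  ext t
  simp only [Finset.mem_filter]
  constructor
  · rintro ⟨h2, h3, h4⟩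
    exact ⟨⟨h2, h3.trans h4.symm⟩, h3⟩
  · rintro ⟨⟨h2, h3⟩, h4⟩
    exact ⟨h2, h4, h3 ▸ h4⟩

/-- the diagonal is split off -/
private theorem Mom_diag (W : Finset ℕ) (Q : ℕ × ℕ → Prop) [DecidablePred Q]
    (F : ℕ × ℕ → ℝ) :
    ∑ t ∈ (W ×ˢ W).filter Q, F t = ∑ n ∈ W.filter (fun n => Q (n, n)), F (n, n) +
      ∑ t ∈ (W ×ˢ W).filter (fun t => t.1 ≠ t.2 ∧ Q t), F t := by
  rw [← Finset.sum_filter_add_sum_filter_not ((W ×ˢ W).filter Q) (fun t => t.1 = t.2)]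
  congr 1
  · symm
    refine Finset.sum_bij (fun n _ => (n, n)) ?_ ?_ ?_ ?_
    · intro n hn
      rw [Finset.mem_filter] at hn
      rw [Finset.mem_filter, Finset.mem_filter, Finset.mem_product]
      exact ⟨⟨⟨hn.1, hn.1⟩, hn.2⟩, rfl⟩
    · intro n _ n' _ h
      exact congrArg Prod.fst h
    · rintro ⟨a, b⟩ ht
      rw [Finset.mem_filter, Finset.mem_filter, Finset.mem_product] at ht
      obtain ⟨⟨⟨h1, -⟩, h2⟩, h3⟩ := ht
      have h3' : a = b := h3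
      subst h3'
      exact ⟨a, Finset.mem_filter.2 ⟨h1, h2⟩, rfl⟩
    · intro n _
      rfl
  · refine Finset.sum_congr ?_ fun _ _ => rfl
    ext t
    simp only [Finset.mem_filter]
    constructor
    · rintro ⟨⟨h1, h2⟩, h3⟩
      exact ⟨h1, h3, h2⟩
    · rintro ⟨h1, h2, h3⟩
      exact ⟨⟨h1, h3⟩, h2⟩

private theorem Mom_eq {W W' : Finset ℕ} (hW : ∀ n ∈ W, Squarefree n ∧ 2 ≤ n)
    (hW' : ∀ n ∈ W', Squarefree n ∧ 2 ≤ n) {a b c d : ℕ} (ha : a ∈ W) (hb : b ∈ W') (hd : d ∈ W')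
    (hac : a = c) (hs : IsSquare (a * b * (c * d))) : b = d := by
  subst hac
  refine Pool.Agent.H18.RM.CountS_eq (hW' b hb).1 (hW' d hd).1 ?_
  refine Pool.Agent.H18.RM.CountS_sq_of_mul (k := a) (by have := (hW a ha).2; omega) ?_
  have e : a ^ 2 * (b * d) = a * b * (a * d) := by ring
  rw [e]
  exact hs

private theorem Mom_perm {a b c d : ℕ} (hs : IsSquare (a * b * (c * d))) :
    IsSquare (b * a * (d * c)) ∧ IsSquare (a * b * (d * c)) ∧ IsSquare (b * a * (c * d)) := by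
  rw [mul_comm b a, mul_comm d c]
  exact ⟨hs, hs, hs⟩

private theorem Mom_countA {W : Finset ℕ} (hW : ∀ n ∈ W, Squarefree n ∧ 2 ≤ n)
    (S : Finset (ℕ × ℕ)) (hS : S = (W ×ˢ W).filter (fun t => t.1 ≠ t.2 ∧ lp t.1 = lp t.2)) :
    ((S ×ˢ S).filter (fun t => IsSquare (t.1.1 * t.1.2 * (t.2.1 * t.2.2)))).card ≤
      2 * D1 W + Q4 W := by
  have hSc : S.card = D1 W := by rw [hS]; rfl
  have hsub : (S ×ˢ S).filter (fun t => IsSquare (t.1.1 * t.1.2 * (t.2.1 * t.2.2))) ⊆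
      (S.image (fun s => (s, s)) ∪ S.image (fun s => (s, (s.2, s.1)))) ∪
      ((W ×ˢ W) ×ˢ (W ×ˢ W)).filter (fun t =>
    (t.1.1 ≠ t.1.2 ∧ t.2.1 ≠ t.2.2 ∧ t.1.1 ≠ t.2.1 ∧ t.1.1 ≠ t.2.2 ∧ t.1.2 ≠ t.2.1 ∧
      t.1.2 ≠ t.2.2) ∧ IsSquare (t.1.1 * t.1.2 * (t.2.1 * t.2.2))) := by
    rintro ⟨⟨a, b⟩, ⟨c, d⟩⟩ ht
    rw [Finset.mem_filter, Finset.mem_product] at ht
    obtain ⟨⟨h1, h2⟩, hs⟩ := ht
    have hs' : IsSquare (a * b * (c * d)) := hs
    obtain ⟨p1, p2, p3⟩ := Mom_perm hs'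
    have h1' := h1
    have h2' := h2
    rw [hS, Finset.mem_filter, Finset.mem_product] at h1' h2'
    obtain ⟨⟨ha, hb⟩, hab, -⟩ := h1'
    obtain ⟨⟨hc, hd⟩, hcd, -⟩ := h2'
    simp only at ha hb hab hc hd hcd
    by_cases e1 : a = c
    · have e2 := Mom_eq hW hW ha hb hd e1 hs'
      subst e1 e2
      exact Finset.mem_union_left _ (Finset.mem_union_left _ (Finset.mem_image.2 ⟨_, h1, rfl⟩))
    by_cases e3 : a = d
    · have e2 := Mom_eq hW hW ha hb hc e3 p2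
      subst e3 e2
      exact Finset.mem_union_left _ (Finset.mem_union_right _ (Finset.mem_image.2 ⟨_, h1, rfl⟩))
    by_cases e4 : b = c
    · have e2 := Mom_eq hW hW hb ha hd e4 p3
      exact absurd e2 e3
    by_cases e5 : b = d
    · have e2 := Mom_eq hW hW hb ha hc e5 p1
      exact absurd e2 e1
    refine Finset.mem_union_right _ (Finset.mem_filter.2 ⟨?_, ⟨hab, hcd, e1, e3, e4, e5⟩, hs⟩)
    exact Finset.mem_product.2 ⟨Finset.mem_product.2 ⟨ha, hb⟩, Finset.mem_product.2 ⟨hc, hd⟩⟩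
  refine (Finset.card_le_card hsub).trans ((Finset.card_union_le _ _).trans ?_)
  refine Nat.add_le_add ((Finset.card_union_le _ _).trans ?_) le_rfl
  rw [two_mul, ← hSc]
  exact Nat.add_le_add Finset.card_image_le Finset.card_image_le

private theorem Mom_countC {W W' : Finset ℕ} (hW : ∀ n ∈ W, Squarefree n ∧ 2 ≤ n)
    (hW' : ∀ n ∈ W', Squarefree n ∧ 2 ≤ n)
    (S : Finset (ℕ × ℕ)) (hS : S = (W ×ˢ W').filter (fun t => lp t.1 = lp t.2)) :
    ((S ×ˢ S).filter (fun t => IsSquare (t.1.1 * t.1.2 * (t.2.1 * t.2.2)))).card ≤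
      T2 W W' + Q22 W W' := by
  have hSc : S.card = T2 W W' := by rw [hS]; rfl
  have hsub : (S ×ˢ S).filter (fun t => IsSquare (t.1.1 * t.1.2 * (t.2.1 * t.2.2))) ⊆
      S.image (fun s => (s, s)) ∪
      ((W ×ˢ W') ×ˢ (W ×ˢ W')).filter (fun t =>
    (t.1.1 ≠ t.2.1 ∧ t.1.2 ≠ t.2.2) ∧ IsSquare (t.1.1 * t.1.2 * (t.2.1 * t.2.2))) := by
    rintro ⟨⟨a, b⟩, ⟨c, d⟩⟩ ht
    rw [Finset.mem_filter, Finset.mem_product] at ht
    obtain ⟨⟨h1, h2⟩, hs⟩ := ht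
    have hs' : IsSquare (a * b * (c * d)) := hs
    obtain ⟨p1, p2, p3⟩ := Mom_perm hs'
    have h1' := h1
    have h2' := h2
    rw [hS, Finset.mem_filter, Finset.mem_product] at h1' h2'
    obtain ⟨⟨ha, hb⟩, -⟩ := h1'
    obtain ⟨⟨hc, hd⟩, -⟩ := h2'
    simp only at ha hb hc hd
    by_cases e1 : a = c
    · have e2 := Mom_eq hW hW' ha hb hd e1 hs'
      subst e1 e2
      exact Finset.mem_union_left _ (Finset.mem_image.2 ⟨_, h1, rfl⟩)
    by_cases e5 : b = d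
    · have e2 := Mom_eq hW' hW hb ha hc e5 p1
      exact absurd e2 e1
    refine Finset.mem_union_right _ (Finset.mem_filter.2 ⟨?_, ⟨e1, e5⟩, hs⟩)
    exact Finset.mem_product.2 ⟨Finset.mem_product.2 ⟨ha, hb⟩, Finset.mem_product.2 ⟨hc, hd⟩⟩
  refine (Finset.card_le_card hsub).trans ((Finset.card_union_le _ _).trans ?_)
  refine Nat.add_le_add ?_ le_rfl
  rw [← hSc]
  exact Finset.card_image_le

theorem momA (h : IsSigns P e) {W : Finset ℕ} (hW : ∀ n ∈ W, Squarefree n ∧ 2 ≤ n) {m : ℕ}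
    (hm : ∀ n ∈ W, n < m) :
    ∫ ω, (∑ p ∈ range m, Sp e W p ω ^ 2 - W.card) ^ 2 ∂P ≤ 2 * D1 W + Q4 W := by
  have hm' : ∀ n ∈ W, lp n < m := fun n hn =>
    lt_of_le_of_lt (lp_facts (hW n hn).1 (hW n hn).2).2.2.1 (hm n hn)
  have hae : ∀ᵐ ω ∂P, (∑ p ∈ range m, Sp e W p ω ^ 2 - W.card) ^ 2 =
      (∑ s ∈ (W ×ˢ W).filter (fun t => t.1 ≠ t.2 ∧ lp t.1 = lp t.2),
        rmf e ω s.1 * rmf e ω s.2) ^ 2 := by
    filter_upwards [Sp_mul h hW hW, Mom_sq h] with ω h1 h2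
    congr 1
    have h3 : ∑ p ∈ range m, Sp e W p ω ^ 2 =
        ∑ t ∈ (W ×ˢ W).filter (fun t => lp t.1 = lp t.2), rmf e ω t.1 * rmf e ω t.2 := by
      rw [← Mom_fiber hm']
      exact Finset.sum_congr rfl fun p _ => by rw [sq, h1 p]
    rw [h3, Mom_diag W (fun t => lp t.1 = lp t.2)]
    have h4 : ∑ n ∈ W.filter (fun n => lp (n, n).1 = lp (n, n).2),
        rmf e ω (n, n).1 * rmf e ω (n, n).2 = (W.card : ℝ) := by
      rw [Finset.filter_true_of_mem (fun n _ => rfl),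
        Finset.sum_congr rfl (fun n hn => h2 n (hW n hn).1), Finset.sum_const, nsmul_eq_mul,
        mul_one]
    rw [h4]
    ring
  rw [integral_congr_ae hae]
  refine (Mom_sm h _).2.trans ?_
  exact_mod_cast Mom_countA hW _ rfl

theorem momB (h : IsSigns P e) {W : Finset ℕ} (hW : ∀ n ∈ W, Squarefree n ∧ 2 ≤ n) {m : ℕ}
    (hm : ∀ n ∈ W, n < m) :
    ∫ ω, ∑ p ∈ range m, Sp e W p ω ^ 4 ∂P ≤ 2 * W.card + 6 * D1 W + 2 * Q4 W := by
  have hm' : ∀ n ∈ W, lp n < m := fun n hn =>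
    lt_of_le_of_lt (lp_facts (hW n hn).1 (hW n hn).2).2.2.1 (hm n hn)
  set Sf : ℕ → Finset (ℕ × ℕ) := fun p =>
    (W ×ˢ W).filter (fun t => t.1 ≠ t.2 ∧ (lp t.1 = p ∧ lp t.2 = p)) with hSf
  set N : ℕ → ℝ := fun p => ((W.filter (fun n => lp n = p)).card : ℝ) with hN
  have hae : ∀ᵐ ω ∂P, ∑ p ∈ range m, Sp e W p ω ^ 4 ≤
      ∑ p ∈ range m, (2 * N p ^ 2 + 2 * (∑ s ∈ Sf p, rmf e ω s.1 * rmf e ω s.2) ^ 2) := by
    filter_upwards [Sp_mul h hW hW, Mom_sq h] with ω h1 h2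
    refine Finset.sum_le_sum fun p _ => ?_
    have h3 : Sp e W p ω ^ 2 = N p + ∑ s ∈ Sf p, rmf e ω s.1 * rmf e ω s.2 := by
      rw [sq, h1 p, Mom_diag W (fun t => lp t.1 = p ∧ lp t.2 = p)]
      congr 1
      have h5 : W.filter (fun n => lp (n, n).1 = p ∧ lp (n, n).2 = p) =
          W.filter (fun n => lp n = p) := by
        refine Finset.filter_congr fun n _ => ?_
        exact and_self_iff
      rw [h5, Finset.sum_congr rfl (fun n hn => h2 n (hW n (Finset.mem_filter.1 hn).1).1),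
        Finset.sum_const, nsmul_eq_mul, mul_one]
    have h4 : Sp e W p ω ^ 4 = (Sp e W p ω ^ 2) ^ 2 := by ring
    rw [h4, h3]
    nlinarith [sq_nonneg (N p - ∑ s ∈ Sf p, rmf e ω s.1 * rmf e ω s.2)]
  have hint : ∀ p, Integrable (fun ω => (∑ s ∈ Sf p, rmf e ω s.1 * rmf e ω s.2) ^ 2) P :=
    fun p => (Mom_sm h _).1
  have hint2 : ∀ p, Integrable (fun ω =>
      2 * N p ^ 2 + 2 * (∑ s ∈ Sf p, rmf e ω s.1 * rmf e ω s.2) ^ 2) P :=
    fun p => (integrable_const _).add ((hint p).const_mul 2)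
  have h1 : ∫ ω, ∑ p ∈ range m, Sp e W p ω ^ 4 ∂P ≤
      ∫ ω, ∑ p ∈ range m, (2 * N p ^ 2 + 2 * (∑ s ∈ Sf p, rmf e ω s.1 * rmf e ω s.2) ^ 2) ∂P := by
    refine integral_mono_of_nonneg (Filter.Eventually.of_forall fun ω => ?_)
      (integrable_finsetSum _ fun p _ => hint2 p) hae
    exact Finset.sum_nonneg fun p _ => by positivity
  refine h1.trans ?_
  rw [integral_finsetSum _ fun p _ => hint2 p]
  have h2 : ∀ p ∈ range m, ∫ ω, (2 * N p ^ 2 +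
      2 * (∑ s ∈ Sf p, rmf e ω s.1 * rmf e ω s.2) ^ 2) ∂P ≤ 2 * N p ^ 2 + 2 *
        ((((Sf p) ×ˢ (Sf p)).filter
          (fun t => IsSquare (t.1.1 * t.1.2 * (t.2.1 * t.2.2)))).card : ℝ) := by
    intro p _
    rw [integral_add (integrable_const _) ((hint p).const_mul 2), integral_const,
      integral_const_mul]
    simp only [probReal_univ, one_smul]
    have := (Mom_sm h (Sf p)).2
    linarith
  refine (Finset.sum_le_sum h2).trans ?_
  rw [Finset.sum_add_distrib, ← Finset.mul_sum, ← Finset.mul_sum]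
  have h3 : ∑ p ∈ range m, N p ^ 2 = W.card + D1 W := by
    have e1 : ∀ p ∈ range m, N p ^ 2 =
        ∑ t ∈ (W ×ˢ W).filter (fun t => lp t.1 = p ∧ lp t.2 = p), (1 : ℝ) := by
      intro p _
      have e2 : (W ×ˢ W).filter (fun t => lp t.1 = p ∧ lp t.2 = p) =
          (W.filter (fun n => lp n = p)) ×ˢ (W.filter (fun n => lp n = p)) := by
        ext t
        simp only [Finset.mem_filter, Finset.mem_product]
        tauto
      rw [e2, Finset.sum_const, Finset.card_product, nsmul_eq_mul, mul_one, Nat.cast_mul, sq]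
    rw [Finset.sum_congr rfl e1, Mom_fiber hm' (fun _ => (1 : ℝ)),
      Mom_diag W (fun t => lp t.1 = lp t.2) (fun _ => (1 : ℝ))]
    rw [Finset.filter_true_of_mem (fun n _ => rfl), Finset.sum_const, Finset.sum_const,
      nsmul_eq_mul, nsmul_eq_mul, mul_one, mul_one]
    rfl
  set S : Finset (ℕ × ℕ) := (W ×ˢ W).filter (fun t => t.1 ≠ t.2 ∧ lp t.1 = lp t.2) with hS
  have h4 : ∑ p ∈ range m, ((((Sf p) ×ˢ (Sf p)).filter
      (fun t => IsSquare (t.1.1 * t.1.2 * (t.2.1 * t.2.2)))).card : ℝ) ≤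
      (((S ×ˢ S).filter (fun t => IsSquare (t.1.1 * t.1.2 * (t.2.1 * t.2.2)))).card : ℝ) := by
    have e1 : ∀ t ∈ (S ×ˢ S).filter (fun t => IsSquare (t.1.1 * t.1.2 * (t.2.1 * t.2.2))),
        lp t.1.1 ∈ range m := by
      intro t ht
      rw [Finset.mem_filter, Finset.mem_product, hS, Finset.mem_filter, Finset.mem_product] at ht
      exact Finset.mem_range.2 (hm' _ ht.1.1.1.1)
    rw [Finset.card_eq_sum_card_fiberwise e1, ← Nat.cast_sum]
    refine Nat.cast_le.2 (Finset.sum_le_sum fun p _ => Finset.card_le_card fun t ht => ?_)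
    simp only [hSf, hS, Finset.mem_filter, Finset.mem_product] at ht ⊢
    obtain ⟨⟨⟨⟨h5, h6⟩, h7, h8, h9⟩, ⟨⟨h10, h11⟩, h12, h13, h14⟩⟩, h15⟩ := ht
    exact ⟨⟨⟨⟨⟨h5, h6⟩, h7, h8.trans h9.symm⟩, ⟨⟨h10, h11⟩, h12, h13.trans h14.symm⟩⟩, h15⟩, h8⟩
  have h5 : (((S ×ˢ S).filter (fun t =>
      IsSquare (t.1.1 * t.1.2 * (t.2.1 * t.2.2)))).card : ℝ) ≤ 2 * D1 W + Q4 W := by
    exact_mod_cast Mom_countA hW S hS
  rw [h3]
  linarith

theorem momC (h : IsSigns P e) {W W' : Finset ℕ} (hW : ∀ n ∈ W, Squarefree n ∧ 2 ≤ n)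
    (hW' : ∀ n ∈ W', Squarefree n ∧ 2 ≤ n) (hd : Disjoint W W') {m : ℕ}
    (hm : ∀ n ∈ W, n < m) (hm' : ∀ n ∈ W', n < m) :
    ∫ ω, (∑ p ∈ range m, Sp e W p ω * Sp e W' p ω) ^ 2 ∂P ≤ T2 W W' + Q22 W W' := by
  have hm1 : ∀ n ∈ W, lp n < m := fun n hn =>
    lt_of_le_of_lt (lp_facts (hW n hn).1 (hW n hn).2).2.2.1 (hm n hn)
  have hae : ∀ᵐ ω ∂P, (∑ p ∈ range m, Sp e W p ω * Sp e W' p ω) ^ 2 =
      (∑ s ∈ (W ×ˢ W').filter (fun t => lp t.1 = lp t.2),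
        rmf e ω s.1 * rmf e ω s.2) ^ 2 := by
    filter_upwards [Sp_mul h hW hW'] with ω h1
    congr 1
    rw [← Mom_fiber hm1]
    exact Finset.sum_congr rfl fun p _ => h1 p
  rw [integral_congr_ae hae]
  refine (Mom_sm h _).2.trans ?_
  exact_mod_cast Mom_countC hW hW' _ rfl

end Pool.Agent.H41.RG
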