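import Pool.Agent.H41.RG.SecMom

/-!
# RG Net: Borel-Cantelli along the net `⌈ρ^i⌉, ⌈ρ^j⌉`

Hypothesis `hphi` is the conclusion of `phiS`/`phiL` together.  Fix `ρ > 1`, `ε > 0`.
`U i = ⌈ρ^i⌉₊`.  For `i` large and `j` with `1 ≤ U j ≤ U i / (log U i)^10` (so `j ≤ i`)
Chebyshev: `P(‖φ - c‖ ≥ ε) ≤ K / (ε² (log U i)³)`, `log U i ≥ i log ρ`.
Sum over `j ≤ i` and `i`: finite.  Borel-Cantelli.
-/

set_option autoImplicit false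

namespace Pool.Agent.H41.RG

open Finset MeasureTheory ProbabilityTheory Filter
open Pool.Agent.H18.RM (IsSigns rmf)

theorem Net_cheb {Ω : Type*} [MeasurableSpace Ω] {P : Measure Ω} [IsProbabilityMeasure P]
    {e : ℕ → Ω → ℝ} (hs : IsSigns P e) {X : ℕ} (hX : 1 ≤ X) (h : ℕ) (θ c : ℝ) {B ε : ℝ}
    (hε : 0 < ε) (hB : ∫ ω, ‖phiD (rmf e ω) X h θ - ((c : ℝ) : ℂ)‖ ^ 2 ∂P ≤ B) :
    P {ω | ε < ‖phiD (rmf e ω) X h θ - ((c : ℝ) : ℂ)‖} ≤ ENNReal.ofReal (B / ε ^ 2) := by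
  have hm : Measurable (fun ω => ‖phiD (rmf e ω) X h θ - ((c : ℝ) : ℂ)‖ ^ 2) :=
    (((measurable_phiD hs X h θ).sub_const _).norm).pow_const 2
  have hint : Integrable (fun ω => ‖phiD (rmf e ω) X h θ - ((c : ℝ) : ℂ)‖ ^ 2) P := by
    refine Integrable.of_bound hm.aestronglyMeasurable ((1 + |c|) ^ 2)
      (Eventually.of_forall fun ω => ?_)
    rw [Real.norm_eq_abs, abs_of_nonneg (by positivity)]
    apply pow_le_pow_left₀ (norm_nonneg _)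
    refine (norm_sub_le _ _).trans ?_
    rw [Complex.norm_real, Real.norm_eq_abs]
    have := norm_phiD_le (rmf e ω) hX h θ
    linarith
  have h1 := mul_meas_ge_le_integral_of_nonneg (μ := P)
    (f := fun ω => ‖phiD (rmf e ω) X h θ - ((c : ℝ) : ℂ)‖ ^ 2)
    (Eventually.of_forall fun ω => by positivity) hint (ε ^ 2)
  have h2 : P.real {ω | ε ^ 2 ≤ ‖phiD (rmf e ω) X h θ - ((c : ℝ) : ℂ)‖ ^ 2} ≤ B / ε ^ 2 := by
    rw [le_div_iff₀ (by positivity), mul_comm]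
    exact h1.trans hB
  calc P {ω | ε < ‖phiD (rmf e ω) X h θ - ((c : ℝ) : ℂ)‖}
      ≤ P {ω | ε ^ 2 ≤ ‖phiD (rmf e ω) X h θ - ((c : ℝ) : ℂ)‖ ^ 2} := by
        apply measure_mono
        intro ω hω
        exact pow_le_pow_left₀ hε.le (le_of_lt hω) 2
    _ ≤ ENNReal.ofReal (B / ε ^ 2) := by
        rw [← ofReal_measureReal (measure_ne_top P _)]
        exact ENNReal.ofReal_le_ofReal h2

theorem Net_sum {ρ K ε : ℝ} (hρ : 1 < ρ) (i0 : ℕ) (hi0 : 1 ≤ i0) :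
    Summable (fun i : ℕ => if i0 ≤ i then
      ((i : ℝ) + 1) * (K / ((i : ℝ) * Real.log ρ) ^ 3 / ε ^ 2) else 0) := by
  have hl : 0 < Real.log ρ := Real.log_pos hρ
  have h1 : Summable (fun i : ℕ => 2 * |K / Real.log ρ ^ 3 / ε ^ 2| * (1 / (i : ℝ) ^ 2)) :=
    (Real.summable_one_div_nat_pow.2 (by norm_num)).mul_left _
  refine Summable.of_norm_bounded h1 fun i => ?_
  split_ifs with hi
  · have hi1 : (1 : ℝ) ≤ i := by exact_mod_cast hi0.trans hi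
    have hi2 : (0 : ℝ) < i := by linarith
    rw [Real.norm_eq_abs]
    have h2 : ((i : ℝ) + 1) * (K / ((i : ℝ) * Real.log ρ) ^ 3 / ε ^ 2) =
        (((i : ℝ) + 1) / (i : ℝ) ^ 3) * (K / Real.log ρ ^ 3 / ε ^ 2) := by
      rw [mul_pow]
      field_simp
    rw [h2, abs_mul, abs_of_pos (by positivity)]
    have h3 : ((i : ℝ) + 1) / (i : ℝ) ^ 3 ≤ 2 * (1 / (i : ℝ) ^ 2) := by
      rw [div_le_iff₀ (by positivity)]
      have : 2 * (1 / (i : ℝ) ^ 2) * (i : ℝ) ^ 3 = 2 * i := by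
        field_simp
      rw [this]
      linarith
    calc ((i : ℝ) + 1) / (i : ℝ) ^ 3 * |K / Real.log ρ ^ 3 / ε ^ 2|
        ≤ 2 * (1 / (i : ℝ) ^ 2) * |K / Real.log ρ ^ 3 / ε ^ 2| :=
          mul_le_mul_of_nonneg_right h3 (abs_nonneg _)
      _ = _ := by ring
  · simp only [norm_zero]
    positivity

theorem net_ae {Ω : Type*} [MeasurableSpace Ω] {P : Measure Ω} [IsProbabilityMeasure P]
    {e : ℕ → Ω → ℝ} (hs : IsSigns P e) (t : ℝ) {K : ℝ} (hK : 0 ≤ K)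
    (hphi : ∀ᶠ X : ℕ in atTop, ∀ h : ℕ, 1 ≤ h → (h : ℝ) ≤ X / Real.log X ^ 10 →
      ∃ c : ℝ, |c - Real.exp (-t ^ 2 / 2)| ≤ K / Real.sqrt h ∧
      ∫ ω, ‖phiD (rmf e ω) X h (t / sg (2 * h)) - ((c : ℝ) : ℂ)‖ ^ 2 ∂P ≤ K / Real.log X ^ 3)
    {ρ ε : ℝ} (hρ : 1 < ρ) (hε : 0 < ε) :
    ∀ᵐ ω ∂P, ∀ᶠ i : ℕ in atTop, ∀ j : ℕ, ((⌈ρ ^ j⌉₊ : ℕ) : ℝ) ≤
      (⌈ρ ^ i⌉₊ : ℕ) / Real.log (⌈ρ ^ i⌉₊ : ℕ) ^ 10 →
      ‖phiD (rmf e ω) ⌈ρ ^ i⌉₊ ⌈ρ ^ j⌉₊ (t / sg (2 * (⌈ρ ^ j⌉₊ : ℕ))) -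
        ((Real.exp (-t ^ 2 / 2) : ℝ) : ℂ)‖ ≤ ε + K / Real.sqrt (⌈ρ ^ j⌉₊ : ℕ) := by
  have hl : 0 < Real.log ρ := Real.log_pos hρ
  have hUt : Tendsto (fun i : ℕ => ⌈ρ ^ i⌉₊) atTop atTop :=
    tendsto_nat_ceil_atTop.comp (tendsto_pow_atTop_atTop_of_one_lt hρ)
  have hev := hUt.eventually hphi
  have hlt : Tendsto (fun i : ℕ => (i : ℝ) * Real.log ρ) atTop atTop :=
    tendsto_natCast_atTop_atTop.atTop_mul_const hl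
  have hUlog : ∀ i : ℕ, (i : ℝ) * Real.log ρ ≤ Real.log (⌈ρ ^ i⌉₊ : ℕ) := by
    intro i
    rw [← Real.log_pow]
    exact Real.log_le_log (by positivity) (Nat.le_ceil _)
  obtain ⟨i1, hi1⟩ := eventually_atTop.1 (hev.and (hlt.eventually_ge_atTop 2))
  set i0 := max 1 i1 with hi0def
  have hphi' : ∀ i, i0 ≤ i → ∀ h : ℕ, 1 ≤ h →
      (h : ℝ) ≤ (⌈ρ ^ i⌉₊ : ℕ) / Real.log (⌈ρ ^ i⌉₊ : ℕ) ^ 10 →
      ∃ c : ℝ, |c - Real.exp (-t ^ 2 / 2)| ≤ K / Real.sqrt h ∧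
      ∫ ω, ‖phiD (rmf e ω) ⌈ρ ^ i⌉₊ h (t / sg (2 * h)) - ((c : ℝ) : ℂ)‖ ^ 2 ∂P ≤
        K / Real.log (⌈ρ ^ i⌉₊ : ℕ) ^ 3 := fun i hi =>
    (hi1 i ((le_max_right _ _).trans hi)).1
  -- the constants
  have hch : ∀ i h : ℕ, ∃ c : ℝ, i0 ≤ i → 1 ≤ h →
      (h : ℝ) ≤ (⌈ρ ^ i⌉₊ : ℕ) / Real.log (⌈ρ ^ i⌉₊ : ℕ) ^ 10 →
      |c - Real.exp (-t ^ 2 / 2)| ≤ K / Real.sqrt h ∧
      ∫ ω, ‖phiD (rmf e ω) ⌈ρ ^ i⌉₊ h (t / sg (2 * h)) - ((c : ℝ) : ℂ)‖ ^ 2 ∂P ≤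
        K / Real.log (⌈ρ ^ i⌉₊ : ℕ) ^ 3 := by
    intro i h
    by_cases hc : i0 ≤ i ∧ 1 ≤ h ∧ (h : ℝ) ≤ (⌈ρ ^ i⌉₊ : ℕ) / Real.log (⌈ρ ^ i⌉₊ : ℕ) ^ 10
    · obtain ⟨c, hc'⟩ := hphi' i hc.1 h hc.2.1 hc.2.2
      exact ⟨c, fun _ _ _ => hc'⟩
    · exact ⟨0, fun a b c => absurd ⟨a, b, c⟩ hc⟩
  choose c hc using hch
  -- the bad events
  set bad : ℕ → ℕ → Set Ω := fun i j => {ω | ((⌈ρ ^ j⌉₊ : ℕ) : ℝ) ≤
      (⌈ρ ^ i⌉₊ : ℕ) / Real.log (⌈ρ ^ i⌉₊ : ℕ) ^ 10 ∧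
      ε < ‖phiD (rmf e ω) ⌈ρ ^ i⌉₊ ⌈ρ ^ j⌉₊ (t / sg (2 * (⌈ρ ^ j⌉₊ : ℕ))) -
        ((c i ⌈ρ ^ j⌉₊ : ℝ) : ℂ)‖} with hbad
  set s : ℕ → Set Ω := fun i => if i0 ≤ i then ⋃ j ∈ range (i + 1), bad i j else ∅ with hsdef
  have hU1 : ∀ j : ℕ, 1 ≤ ⌈ρ ^ j⌉₊ := fun j => Nat.one_le_iff_ne_zero.2 (by
    have : 0 < ρ ^ j := by positivity
    have := Nat.ceil_pos.2 this
    omega)
  have hP : ∀ i, P (s i) ≤ ENNReal.ofReal (if i0 ≤ i then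
      ((i : ℝ) + 1) * (K / ((i : ℝ) * Real.log ρ) ^ 3 / ε ^ 2) else 0) := by
    intro i
    by_cases hi : i0 ≤ i
    · simp only [hsdef, if_pos hi]
      have hi1' : (1 : ℝ) ≤ i := by exact_mod_cast (le_max_left _ _).trans hi
      have hpos : 0 < (i : ℝ) * Real.log ρ := by positivity
      have hone : ∀ j ∈ range (i + 1), P (bad i j) ≤
          ENNReal.ofReal (K / ((i : ℝ) * Real.log ρ) ^ 3 / ε ^ 2) := by
        intro j _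
        by_cases hv : ((⌈ρ ^ j⌉₊ : ℕ) : ℝ) ≤ (⌈ρ ^ i⌉₊ : ℕ) / Real.log (⌈ρ ^ i⌉₊ : ℕ) ^ 10
        · have h1 := Net_cheb hs (hU1 i) ⌈ρ ^ j⌉₊ (t / sg (2 * (⌈ρ ^ j⌉₊ : ℕ)))
            (c i ⌈ρ ^ j⌉₊) hε (hc i _ hi (hU1 j) hv).2
          refine (measure_mono ?_).trans (h1.trans (ENNReal.ofReal_le_ofReal ?_))
          · intro ω hω
            exact hω.2
          · apply div_le_div_of_nonneg_right _ (by positivity)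
            apply div_le_div_of_nonneg_left hK (by positivity)
            exact pow_le_pow_left₀ hpos.le (hUlog i) 3
        · have : bad i j = ∅ := by
            ext ω
            simp only [hbad, Set.mem_setOf_eq, Set.mem_empty_iff_false, iff_false, not_and]
            intro h
            exact absurd h hv
          rw [this, measure_empty]
          exact bot_le
      calc P (⋃ j ∈ range (i + 1), bad i j) ≤ ∑ j ∈ range (i + 1), P (bad i j) :=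
            measure_biUnion_finset_le _ _
        _ ≤ ∑ j ∈ range (i + 1), ENNReal.ofReal (K / ((i : ℝ) * Real.log ρ) ^ 3 / ε ^ 2) :=
            Finset.sum_le_sum hone
        _ = ENNReal.ofReal (((i : ℝ) + 1) * (K / ((i : ℝ) * Real.log ρ) ^ 3 / ε ^ 2)) := by
            rw [Finset.sum_const, card_range, nsmul_eq_mul, ENNReal.ofReal_mul (by positivity)]
            congr 1
            rw [ENNReal.ofReal_add (by positivity) (by norm_num), ENNReal.ofReal_natCast,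
              ENNReal.ofReal_one]
            push_cast
            rfl
        _ = _ := rfl
    · simp only [hsdef, if_neg hi, measure_empty]
      exact bot_le
  have hsum : ∑' i, P (s i) ≠ ⊤ := by
    refine ne_top_of_le_ne_top ?_ (ENNReal.tsum_le_tsum hP)
    exact (Net_sum (K := K) (ε := ε) hρ i0 (le_max_left _ _)).tsum_ofReal_ne_top
  filter_upwards [ae_eventually_notMem hsum] with ω hω
  filter_upwards [hω, eventually_ge_atTop i0] with i h1 h2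
  intro j hv
  have hi1' : (1 : ℝ) ≤ i := by exact_mod_cast (le_max_left _ _).trans h2
  -- `j ≤ i`
  have hji : j ≤ i := by
    by_contra hcon
    push Not at hcon
    have hL : 2 ≤ Real.log (⌈ρ ^ i⌉₊ : ℕ) :=
      ((hi1 i ((le_max_right _ _).trans h2)).2).trans (hUlog i)
    have hL10 : (2 : ℝ) ≤ Real.log (⌈ρ ^ i⌉₊ : ℕ) ^ 10 := by
      calc (2 : ℝ) ≤ 2 ^ 10 := by norm_num
        _ ≤ _ := pow_le_pow_left₀ (by norm_num) hL 10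
    have hA : ρ ^ i < ρ ^ j := pow_lt_pow_right₀ hρ hcon
    have hB : ρ ^ j ≤ (⌈ρ ^ j⌉₊ : ℕ) := Nat.le_ceil _
    have hC : ((⌈ρ ^ i⌉₊ : ℕ) : ℝ) < ρ ^ i + 1 := Nat.ceil_lt_add_one (by positivity)
    have hD : (1 : ℝ) ≤ ρ ^ i := one_le_pow₀ hρ.le
    have hE : ((⌈ρ ^ i⌉₊ : ℕ) : ℝ) / Real.log (⌈ρ ^ i⌉₊ : ℕ) ^ 10 ≤ (⌈ρ ^ i⌉₊ : ℕ) / 2 :=
      div_le_div_of_nonneg_left (by positivity) (by norm_num) hL10
    linarith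
  have h3 : ω ∉ bad i j := by
    intro h4
    apply h1
    simp only [hsdef, if_pos h2]
    exact Set.mem_biUnion (mem_coe.2 (mem_range.2 (by omega))) h4
  have h5 : ‖phiD (rmf e ω) ⌈ρ ^ i⌉₊ ⌈ρ ^ j⌉₊ (t / sg (2 * (⌈ρ ^ j⌉₊ : ℕ))) -
        ((c i ⌈ρ ^ j⌉₊ : ℝ) : ℂ)‖ ≤ ε := by
    by_contra h6
    push Not at h6
    exact h3 ⟨hv, h6⟩
  have h7 := (hc i _ h2 (hU1 j) hv).1
  have h8 : phiD (rmf e ω) ⌈ρ ^ i⌉₊ ⌈ρ ^ j⌉₊ (t / sg (2 * (⌈ρ ^ j⌉₊ : ℕ))) -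
        ((Real.exp (-t ^ 2 / 2) : ℝ) : ℂ) =
      (phiD (rmf e ω) ⌈ρ ^ i⌉₊ ⌈ρ ^ j⌉₊ (t / sg (2 * (⌈ρ ^ j⌉₊ : ℕ))) -
        ((c i ⌈ρ ^ j⌉₊ : ℝ) : ℂ)) + ((c i ⌈ρ ^ j⌉₊ - Real.exp (-t ^ 2 / 2) : ℝ) : ℂ) := by
    push_cast
    ring
  rw [h8]
  refine (norm_add_le _ _).trans (add_le_add h5 ?_)
  rw [Complex.norm_real, Real.norm_eq_abs]
  exact h7

end Pool.Agent.H41.RG
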