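import Pool.Agent.H41.RG.Defs

/-!
# RG SecMom: second moment of the empirical characteristic function

`φ = phiD (rmf e ω) X h θ = (1/X) ∑_k exp(iθ M_k)`, `M_k = ∑_{n ∈ Wk k h} f(n)` real, `c = (1/X) ∑ C_k`
real.  `|φ - c|² = (1/X²) ∑_{k,l} exp(iθ(M_k - M_l)) - 2 c Re φ + c²`; take expectations (all
functions are bounded and measurable):
`E|φ - c|² = Re [(1/X²) ∑_{k,l} (B_{kl} - C_k C_l) - 2 c (1/X) ∑_k (A_k - C_k)]`
(`(1/X²) ∑∑ C_k C_l = c²`, `(1/X) ∑ C_k = c`), and `|c| ≤ 1`.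
-/

set_option autoImplicit false

namespace Pool.Agent.H41.RG

open Finset MeasureTheory ProbabilityTheory
open Pool.Agent.H18.RM (IsSigns rmf)

variable {Ω : Type*} [mΩ : MeasurableSpace Ω] {P : Measure Ω} [IsProbabilityMeasure P]
  {e : ℕ → Ω → ℝ}

/-- the exponential of a window sum -/
private noncomputable def SecMom_u (e : ℕ → Ω → ℝ) (h : ℕ) (θ : ℝ) (k : ℕ) (ω : Ω) : ℂ :=
  Complex.exp (Complex.I * ((θ * ∑ n ∈ Wk k h, rmf e ω n : ℝ) : ℂ))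

private noncomputable def SecMom_w (e : ℕ → Ω → ℝ) (h : ℕ) (θ : ℝ) (k l : ℕ) (ω : Ω) : ℂ :=
  Complex.exp (Complex.I *
    ((θ * (∑ n ∈ Wk k h, rmf e ω n - ∑ n ∈ Wk l h, rmf e ω n) : ℝ) : ℂ))

private theorem SecMom_norm (x : ℝ) : ‖Complex.exp (Complex.I * (x : ℂ))‖ = 1 := by
  rw [mul_comm, Complex.norm_exp_ofReal_mul_I]

private theorem SecMom_meas_u (hs : IsSigns P e) (h : ℕ) (θ : ℝ) (k : ℕ) :
    Measurable (SecMom_u e h θ k) := by
  unfold SecMom_u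
  have h1 : Measurable (fun ω => ∑ n ∈ Wk k h, rmf e ω n) :=
    Finset.measurable_fun_sum _ fun n _ => Pool.Agent.H18.RM.measurable_rmf hs n
  exact Complex.measurable_exp.comp
    ((Complex.measurable_ofReal.comp (h1.const_mul θ)).const_mul Complex.I)

private theorem SecMom_meas_w (hs : IsSigns P e) (h : ℕ) (θ : ℝ) (k l : ℕ) :
    Measurable (SecMom_w e h θ k l) := by
  unfold SecMom_w
  have h1 : ∀ k, Measurable (fun ω => ∑ n ∈ Wk k h, rmf e ω n) := fun k =>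
    Finset.measurable_fun_sum _ fun n _ => Pool.Agent.H18.RM.measurable_rmf hs n
  exact Complex.measurable_exp.comp
    ((Complex.measurable_ofReal.comp (((h1 k).sub (h1 l)).const_mul θ)).const_mul Complex.I)

private theorem SecMom_int_u (hs : IsSigns P e) (h : ℕ) (θ : ℝ) (k : ℕ) :
    Integrable (SecMom_u e h θ k) P :=
  Integrable.of_bound (SecMom_meas_u hs h θ k).aestronglyMeasurable 1
    (Filter.Eventually.of_forall fun _ => (SecMom_norm _).le)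

private theorem SecMom_int_w (hs : IsSigns P e) (h : ℕ) (θ : ℝ) (k l : ℕ) :
    Integrable (SecMom_w e h θ k l) P :=
  Integrable.of_bound (SecMom_meas_w hs h θ k l).aestronglyMeasurable 1
    (Filter.Eventually.of_forall fun _ => (SecMom_norm _).le)

omit mΩ [IsProbabilityMeasure P] in
private theorem SecMom_mul (e : ℕ → Ω → ℝ) (h : ℕ) (θ : ℝ) (k l : ℕ) (ω : Ω) :
    SecMom_u e h θ k ω * (starRingEnd ℂ) (SecMom_u e h θ l ω) = SecMom_w e h θ k l ω := by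
  unfold SecMom_u SecMom_w
  rw [← Complex.exp_conj, ← Complex.exp_add, map_mul, Complex.conj_I, Complex.conj_ofReal]
  congr 1
  push_cast
  ring

omit mΩ in
private theorem SecMom_expand (e : ℕ → Ω → ℝ) (X h : ℕ) (θ c : ℝ) (ω : Ω) :
    ((‖phiD (rmf e ω) X h θ - (c : ℂ)‖ ^ 2 : ℝ) : ℂ) =
      (1 / (X : ℂ) ^ 2) * ∑ k ∈ Ico X (2 * X), ∑ l ∈ Ico X (2 * X), SecMom_w e h θ k l ω -
        ((c : ℂ) / X) * ∑ k ∈ Ico X (2 * X), SecMom_u e h θ k ω -
        ((c : ℂ) / X) * ∑ k ∈ Ico X (2 * X), (starRingEnd ℂ) (SecMom_u e h θ k ω) +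
        (c : ℂ) ^ 2 := by
  have h1 : phiD (rmf e ω) X h θ = (1 / (X : ℂ)) * ∑ k ∈ Ico X (2 * X), SecMom_u e h θ k ω := rfl
  have h2 : ∀ z : ℂ, ((‖z‖ ^ 2 : ℝ) : ℂ) = z * (starRingEnd ℂ) z := fun z => by
    rw [Complex.mul_conj, Complex.normSq_eq_norm_sq]
  rw [h2, h1]
  simp only [map_sub, map_mul, map_sum, map_div₀, map_one, Complex.conj_natCast,
    Complex.conj_ofReal]
  simp only [← SecMom_mul]
  rw [← Finset.sum_mul_sum]
  ring

private theorem SecMom_lin {F₁ F₂ F₃ : Ω → ℂ} (h1 : Integrable F₁ P) (h2 : Integrable F₂ P)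
    (h3 : Integrable F₃ P) (a b d : ℂ) :
    ∫ ω, (a * F₁ ω - b * F₂ ω - b * F₃ ω + d) ∂P =
      a * ∫ ω, F₁ ω ∂P - b * ∫ ω, F₂ ω ∂P - b * ∫ ω, F₃ ω ∂P + d := by
  have i1 : Integrable (fun ω => a * F₁ ω) P := h1.const_mul a
  have i2 : Integrable (fun ω => b * F₂ ω) P := h2.const_mul b
  have i3 : Integrable (fun ω => b * F₃ ω) P := h3.const_mul b
  have i12 : Integrable (fun ω => a * F₁ ω - b * F₂ ω) P := i1.sub i2
  have i123 : Integrable (fun ω => a * F₁ ω - b * F₂ ω - b * F₃ ω) P := i12.sub i3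
  rw [integral_add i123 (integrable_const _), integral_sub i12 i3, integral_sub i1 i2,
    integral_const_mul, integral_const_mul, integral_const_mul, integral_const, probReal_univ,
    one_smul]

theorem measurable_phiD (h : IsSigns P e) (X k : ℕ) (θ : ℝ) :
    Measurable (fun ω => phiD (rmf e ω) X k θ) := by
  exact (Finset.measurable_fun_sum _ fun j _ => SecMom_meas_u h k θ j).const_mul _

theorem norm_phiD_le (g : ℕ → ℝ) {X : ℕ} (hX : 1 ≤ X) (k : ℕ) (θ : ℝ) :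
    ‖phiD g X k θ‖ ≤ 1 := by
  unfold phiD
  have hX' : (0 : ℝ) < X := by exact_mod_cast hX
  rw [norm_mul, norm_div, norm_one, Complex.norm_natCast]
  have h1 : ‖∑ j ∈ Ico X (2 * X), Complex.exp (Complex.I * ((θ * ∑ n ∈ Wk j k, g n : ℝ) : ℂ))‖ ≤
      X := by
    refine (norm_sum_le _ _).trans ?_
    simp only [SecMom_norm]
    rw [Finset.sum_const, Nat.card_Ico, nsmul_eq_mul, mul_one, two_mul, Nat.add_sub_cancel]
  calc 1 / (X : ℝ) * ‖∑ j ∈ Ico X (2 * X), Complex.exp (Complex.I * ((θ * ∑ n ∈ Wk j k, g n : ℝ) : ℂ))‖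
      ≤ 1 / (X : ℝ) * X := by gcongr
    _ = 1 := by field_simp

theorem secmom (hs : IsSigns P e) {X : ℕ} (hX : 1 ≤ X) (h : ℕ) (θ : ℝ) (C : ℕ → ℝ)
    (hC : ∀ k, |C k| ≤ 1) :
    ∫ ω, ‖phiD (rmf e ω) X h θ - (((1 / (X : ℝ)) * ∑ k ∈ Ico X (2 * X), C k : ℝ) : ℂ)‖ ^ 2 ∂P ≤
      (1 / (X : ℝ) ^ 2) * ∑ k ∈ Ico X (2 * X), ∑ l ∈ Ico X (2 * X),
          ‖BW P e (Wk k h) (Wk l h) θ - ((C k * C l : ℝ) : ℂ)‖ +
        (2 / (X : ℝ)) * ∑ k ∈ Ico X (2 * X), ‖AW P e (Wk k h) θ - ((C k : ℝ) : ℂ)‖ := by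
  have hX' : (0 : ℝ) < X := by exact_mod_cast hX
  have hXc : (X : ℂ) ≠ 0 := by exact_mod_cast hX'.ne'
  set c : ℝ := (1 / (X : ℝ)) * ∑ k ∈ Ico X (2 * X), C k with hc
  have hc1 : |c| ≤ 1 := by
    rw [hc, abs_mul, abs_of_pos (by positivity : (0 : ℝ) < 1 / X)]
    have h1 : |∑ k ∈ Ico X (2 * X), C k| ≤ X := by
      refine (Finset.abs_sum_le_sum_abs _ _).trans ?_
      refine (Finset.sum_le_sum fun k _ => hC k).trans ?_
      rw [Finset.sum_const, Nat.card_Ico, nsmul_eq_mul, mul_one, two_mul, Nat.add_sub_cancel]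
    calc 1 / (X : ℝ) * |∑ k ∈ Ico X (2 * X), C k| ≤ 1 / (X : ℝ) * X := by gcongr
      _ = 1 := by field_simp
  have hA : ∀ k, ∫ ω, SecMom_u e h θ k ω ∂P = AW P e (Wk k h) θ := fun k => rfl
  have hB : ∀ k l, ∫ ω, SecMom_w e h θ k l ω ∂P = BW P e (Wk k h) (Wk l h) θ := fun k l => rfl
  have hconj : ∀ k, Integrable (fun ω => (starRingEnd ℂ) (SecMom_u e h θ k ω)) P := fun k =>
    Integrable.of_bound (Complex.continuous_conj.measurable.comp
      (SecMom_meas_u hs h θ k)).aestronglyMeasurable 1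
      (Filter.Eventually.of_forall fun ω => by
        rw [Complex.norm_conj]
        exact (SecMom_norm _).le)
  have hi1 : Integrable (fun ω => ∑ k ∈ Ico X (2 * X), ∑ l ∈ Ico X (2 * X),
      SecMom_w e h θ k l ω) P := integrable_finsetSum _ fun k _ =>
        integrable_finsetSum _ fun l _ => SecMom_int_w hs h θ k l
  have hi2 : Integrable (fun ω => ∑ k ∈ Ico X (2 * X), SecMom_u e h θ k ω) P :=
    integrable_finsetSum _ fun k _ => SecMom_int_u hs h θ k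
  have hi3 : Integrable (fun ω => ∑ k ∈ Ico X (2 * X), (starRingEnd ℂ) (SecMom_u e h θ k ω)) P :=
    integrable_finsetSum _ fun k _ => hconj k
  have key : ((∫ ω, ‖phiD (rmf e ω) X h θ - (c : ℂ)‖ ^ 2 ∂P : ℝ) : ℂ) =
      (1 / (X : ℂ) ^ 2) * ∑ k ∈ Ico X (2 * X), ∑ l ∈ Ico X (2 * X),
          (BW P e (Wk k h) (Wk l h) θ - ((C k * C l : ℝ) : ℂ)) -
        ((c : ℂ) / X) * ∑ k ∈ Ico X (2 * X), (AW P e (Wk k h) θ - ((C k : ℝ) : ℂ)) -
        ((c : ℂ) / X) * ∑ k ∈ Ico X (2 * X),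
          (starRingEnd ℂ) (AW P e (Wk k h) θ - ((C k : ℝ) : ℂ)) := by
    rw [← integral_complex_ofReal]
    have e1 : ∀ ω, ((‖phiD (rmf e ω) X h θ - (c : ℂ)‖ ^ 2 : ℝ) : ℂ) = _ :=
      fun ω => SecMom_expand e X h θ c ω
    simp only [e1]
    rw [SecMom_lin hi1 hi2 hi3, integral_finsetSum _ (fun k _ => integrable_finsetSum _
        fun l _ => SecMom_int_w hs h θ k l), integral_finsetSum _ (fun k _ =>
        SecMom_int_u hs h θ k), integral_finsetSum _ (fun k _ => hconj k)]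
    have e2 : ∀ k, ∫ ω, ∑ l ∈ Ico X (2 * X), SecMom_w e h θ k l ω ∂P =
        ∑ l ∈ Ico X (2 * X), BW P e (Wk k h) (Wk l h) θ := fun k => by
      rw [integral_finsetSum _ (fun l _ => SecMom_int_w hs h θ k l)]
      exact Finset.sum_congr rfl fun l _ => hB k l
    have e3 : ∀ k, ∫ ω, (starRingEnd ℂ) (SecMom_u e h θ k ω) ∂P =
        (starRingEnd ℂ) (AW P e (Wk k h) θ) := fun k => by
      rw [integral_conj, hA]
    have e4 : ∑ k ∈ Ico X (2 * X), ∑ l ∈ Ico X (2 * X), ((C k * C l : ℝ) : ℂ) =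
        (X : ℂ) ^ 2 * (c : ℂ) ^ 2 := by
      have : ∑ k ∈ Ico X (2 * X), ∑ l ∈ Ico X (2 * X), C k * C l = (X : ℝ) ^ 2 * c ^ 2 := by
        rw [← Finset.sum_mul_sum, hc]
        field_simp
      exact_mod_cast this
    have e5 : ∑ k ∈ Ico X (2 * X), ((C k : ℝ) : ℂ) = (X : ℂ) * (c : ℂ) := by
      have : ∑ k ∈ Ico X (2 * X), C k = (X : ℝ) * c := by
        rw [hc]
        field_simp
      exact_mod_cast this
    simp only [e2, e3, hA, Finset.sum_sub_distrib, e4, e5, map_sub, Complex.conj_ofReal]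
    field_simp
    ring
  have hnn : 0 ≤ ∫ ω, ‖phiD (rmf e ω) X h θ - (c : ℂ)‖ ^ 2 ∂P :=
    integral_nonneg fun ω => by positivity
  have h3 : ∫ ω, ‖phiD (rmf e ω) X h θ - (c : ℂ)‖ ^ 2 ∂P =
      ‖((∫ ω, ‖phiD (rmf e ω) X h θ - (c : ℂ)‖ ^ 2 ∂P : ℝ) : ℂ)‖ := by
    rw [Complex.norm_real, Real.norm_of_nonneg hnn]
  rw [h3, key]
  have n1 : ‖(1 / (X : ℂ) ^ 2) * ∑ k ∈ Ico X (2 * X), ∑ l ∈ Ico X (2 * X),
      (BW P e (Wk k h) (Wk l h) θ - ((C k * C l : ℝ) : ℂ))‖ ≤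
      (1 / (X : ℝ) ^ 2) * ∑ k ∈ Ico X (2 * X), ∑ l ∈ Ico X (2 * X),
          ‖BW P e (Wk k h) (Wk l h) θ - ((C k * C l : ℝ) : ℂ)‖ := by
    rw [norm_mul, norm_div, norm_one, norm_pow, Complex.norm_natCast]
    gcongr
    refine (norm_sum_le _ _).trans ?_
    exact Finset.sum_le_sum fun k _ => norm_sum_le _ _
  have n2 : ∀ F : ℕ → ℂ, ‖((c : ℂ) / X) * ∑ k ∈ Ico X (2 * X), F k‖ ≤
      (1 / (X : ℝ)) * ∑ k ∈ Ico X (2 * X), ‖F k‖ := by
    intro F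
    rw [norm_mul, norm_div, Complex.norm_natCast, Complex.norm_real, Real.norm_eq_abs]
    gcongr
    exact norm_sum_le _ _
  have n3 := n2 (fun k => AW P e (Wk k h) θ - ((C k : ℝ) : ℂ))
  have n4 := n2 (fun k => (starRingEnd ℂ) (AW P e (Wk k h) θ - ((C k : ℝ) : ℂ)))
  simp only [Complex.norm_conj] at n4
  refine (norm_sub_le _ _).trans ?_
  refine (add_le_add ((norm_sub_le _ _).trans (add_le_add n1 n3)) n4).trans ?_
  apply le_of_eq
  ring

end Pool.Agent.H41.RG
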