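import Pool.Agent.H41.RG.Defs

/-!
# RG SqfWin: squarefree numbers in short intervals, on average

`∑_{X ≤ k < 2X} |#Wk k h - (6/π²) 2h| ≤ C X √h` for `1 ≤ h ≤ X`.

Proof.  `1_{n squarefree} = ∑_{d² ∣ n} μ(d)`, so `#Wk k h = ∑_{d ≥ 1} μ(d) N_d(k)`, `N_d(k)` the number
of multiples of `d²` in `(k-h, k+h]` (`h ≤ k`, all these numbers are positive).  Let `D = ⌊√h⌋ ≥ 1`.
`|N_d(k) - 2h/d²| ≤ 1`, `∑_{d ≥ 1} μ(d)/d² = 6/π²`, `∑_{d > D} 1/d² ≤ 1/D ≤ 2/√h`: the part `d ≤ D` is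
`(6/π²) 2h + O(D + 2h · 2/√h)`.  The part `d > D` is at most `∑_{d > D} N_d(k)` in absolute value, and
`∑_k N_d(k) ≤ 2h · #{n ≤ 3X : d² ∣ n} ≤ 2h · 3X/d²`, sum over `d > D`: `≤ 6 h X · 2/√h`.
(For `∑ μ(d)/d² = 6/π²` see `Pool.Agent.H18.RM.Sqf`: `sqf_count` and the lemmas there.)
-/

set_option autoImplicit false

namespace Pool.Agent.H41.RG

open Finset

/-- `d² ∣ b² a` with `a` squarefree means `d ∣ b` -/
private theorem SqfWin_dvd {a b d : ℕ} (ha : Squarefree a) (hb : 0 < b) :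
    d ^ 2 ∣ b ^ 2 * a ↔ d ∣ b := by
  constructor
  · intro h
    have ha0 : a ≠ 0 := ha.ne_zero
    have hn0 : b ^ 2 * a ≠ 0 := mul_ne_zero (pow_ne_zero 2 hb.ne') ha0
    have hd0 : d ≠ 0 := by
      rintro rfl
      rw [zero_pow (by norm_num)] at h
      exact hn0 (Nat.eq_zero_of_zero_dvd h)
    rw [← Nat.factorization_le_iff_dvd hd0 hb.ne']
    rw [← Nat.factorization_le_iff_dvd (pow_ne_zero 2 hd0) hn0] at h
    intro p
    have h1 := h p
    rw [Nat.factorization_mul (pow_ne_zero 2 hb.ne') ha0, Nat.factorization_pow,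
      Nat.factorization_pow] at h1
    simp only [Finsupp.coe_add, Finsupp.coe_smul, Pi.add_apply, Pi.smul_apply, smul_eq_mul] at h1
    have h2 : a.factorization p ≤ 1 := ha.natFactorization_le_one p
    omega
  · intro h
    exact Dvd.dvd.mul_right (pow_dvd_pow_of_dvd h 2) a

private theorem SqfWin_moebius_sum (n : ℕ) :
    ∑ d ∈ n.divisors, (ArithmeticFunction.moebius d : ℤ) = if n = 1 then 1 else 0 := by
  rw [← ArithmeticFunction.coe_mul_zeta_apply, ArithmeticFunction.moebius_mul_coe_zeta,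
    ArithmeticFunction.one_apply]

/-- the indicator of the squarefree numbers -/
private theorem SqfWin_ind {n D : ℕ} (hn : 0 < n) (hD : ∀ d : ℕ, d ^ 2 ∣ n → d ≤ D) :
    ∑ d ∈ Icc 1 D, (if d ^ 2 ∣ n then (ArithmeticFunction.moebius d : ℤ) else 0) =
      if Squarefree n then 1 else 0 := by
  obtain ⟨a, b, ha0, hb0, hab, ha⟩ := Nat.sq_mul_squarefree_of_pos hn
  have h1 : ∀ d, d ^ 2 ∣ n ↔ d ∣ b := by
    intro d
    rw [← hab]
    exact SqfWin_dvd ha hb0
  rw [← sum_filter]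
  have h2 : (Icc 1 D).filter (fun d => d ^ 2 ∣ n) = b.divisors := by
    ext d
    rw [mem_filter, Nat.mem_divisors, h1, mem_Icc]
    constructor
    · rintro ⟨_, h⟩
      exact ⟨h, hb0.ne'⟩
    · rintro ⟨h, _⟩
      refine ⟨⟨Nat.pos_of_dvd_of_pos h hb0, hD d ((h1 d).2 h)⟩, h⟩
  rw [h2, SqfWin_moebius_sum]
  have h3 : b = 1 ↔ Squarefree n := by
    constructor
    · intro h
      rw [← hab, h, one_pow, one_mul]
      exact ha
    · intro h
      have h4 : b * b ∣ n := by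
        rw [← hab, pow_two]
        exact dvd_mul_right _ _
      exact Nat.isUnit_iff.1 (h b h4)
  simp only [h3]

private theorem SqfWin_card_dvd (n d : ℕ) : ((Icc 1 n).filter (fun x => d ∣ x)).card = n / d := by
  rw [← Nat.Ioc_filter_dvd_card_eq_div]
  congr 1

/-- the series `∑ μ(d)/d²` -/
private theorem SqfWin_hasSum :
    HasSum (fun d : ℕ => (ArithmeticFunction.moebius d : ℝ) / (d : ℝ) ^ 2) (6 / Real.pi ^ 2) := by
  have hs : 1 < (2 : ℂ).re := by norm_num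
  have h1 := ArithmeticFunction.LSeriesSummable_moebius_iff.2 hs
  have h2 := ArithmeticFunction.LSeries_zeta_mul_Lseries_moebius hs
  rw [ArithmeticFunction.LSeries_zeta_eq_riemannZeta hs, riemannZeta_two] at h2
  have hpi : (Real.pi : ℂ) ≠ 0 := by exact_mod_cast Real.pi_ne_zero
  have h3 : LSeries (fun n => (ArithmeticFunction.moebius n : ℂ)) 2 = ((6 / Real.pi ^ 2 : ℝ) : ℂ) := by
    push_cast
    field_simp at h2 ⊢
    linear_combination h2
  have h4 := h1.hasSum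
  have h5 : HasSum (fun d : ℕ => (((ArithmeticFunction.moebius d : ℝ) / (d : ℝ) ^ 2 : ℝ) : ℂ))
      ((6 / Real.pi ^ 2 : ℝ) : ℂ) := by
    rw [← h3]
    unfold LSeries
    convert h4 using 1
    funext d
    rcases eq_or_ne d 0 with rfl | hd
    · simp
    · rw [LSeries.term_of_ne_zero hd]
      push_cast
      norm_cast
  exact_mod_cast h5

private theorem SqfWin_abs_moebius (d : ℕ) : |(ArithmeticFunction.moebius d : ℝ)| ≤ 1 := by
  have h := ArithmeticFunction.abs_moebius_le_one (n := d)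
  exact_mod_cast h

/-- the tail -/
private theorem SqfWin_tail (D : ℕ) (hD : 1 ≤ D) :
    |6 / Real.pi ^ 2 - ∑ d ∈ Icc 1 D, (ArithmeticFunction.moebius d : ℝ) / (d : ℝ) ^ 2| ≤
      1 / (D : ℝ) := by
  have h1 := SqfWin_hasSum.tendsto_sum_nat
  have h2 : Filter.Tendsto (fun M : ℕ => |∑ i ∈ range M, (ArithmeticFunction.moebius i : ℝ) /
      (i : ℝ) ^ 2 - ∑ d ∈ Icc 1 D, (ArithmeticFunction.moebius d : ℝ) / (d : ℝ) ^ 2|) Filter.atTop
      (nhds |6 / Real.pi ^ 2 - ∑ d ∈ Icc 1 D, (ArithmeticFunction.moebius d : ℝ) / (d : ℝ) ^ 2|) :=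
    (h1.sub_const _).abs
  refine le_of_tendsto h2 ?_
  filter_upwards [Filter.eventually_ge_atTop (D + 1)] with M hM
  obtain ⟨m, rfl⟩ : ∃ m, M = m + 1 := ⟨M - 1, by omega⟩
  have hDm : D ≤ m := by omega
  have h3 : range (m + 1) = insert 0 (Icc 1 D ∪ Ioc D m) := by
    ext x
    simp only [mem_range, mem_insert, mem_union, mem_Icc, mem_Ioc]
    omega
  have hdis : Disjoint (Icc 1 D) (Ioc D m) := by
    rw [disjoint_left]
    intro x hx hx'
    rw [mem_Icc] at hx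
    rw [mem_Ioc] at hx'
    omega
  rw [h3, sum_insert, sum_union hdis]
  · have h4 : (ArithmeticFunction.moebius 0 : ℝ) / ((0 : ℕ) : ℝ) ^ 2 = 0 := by simp
    rw [h4, zero_add, add_sub_cancel_left]
    refine (abs_sum_le_sum_abs _ _).trans ?_
    have h5 : ∑ i ∈ Ioc D m, |(ArithmeticFunction.moebius i : ℝ) / (i : ℝ) ^ 2| ≤
        ∑ i ∈ Ioc D m, ((i : ℝ) ^ 2)⁻¹ := by
      refine sum_le_sum fun i _ => ?_
      rw [abs_div, abs_of_nonneg (sq_nonneg (i : ℝ)), div_eq_mul_inv]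
      exact mul_le_of_le_one_left (inv_nonneg.2 (sq_nonneg _)) (SqfWin_abs_moebius i)
    refine h5.trans ((sum_Ioc_inv_sq_le_sub (by omega) hDm).trans ?_)
    rw [one_div]
    have : (0 : ℝ) ≤ (m : ℝ)⁻¹ := by positivity
    linarith
  · simp only [mem_union, mem_Icc, mem_Ioc]
    omega

private theorem SqfWin_card (a b q : ℕ) (hab : a ≤ b) (_hq : 0 < q) :
    (((Ioc a b).filter (fun x => q ∣ x)).card : ℝ) = ((b / q : ℕ) : ℝ) - ((a / q : ℕ) : ℝ) := by
  have h1 : (Ioc 0 b).filter (fun x => q ∣ x) =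
      (Ioc 0 a).filter (fun x => q ∣ x) ∪ (Ioc a b).filter (fun x => q ∣ x) := by
    rw [← filter_union, Ioc_union_Ioc_eq_Ioc (Nat.zero_le a) hab]
  have h2 : Disjoint ((Ioc 0 a).filter (fun x => q ∣ x)) ((Ioc a b).filter (fun x => q ∣ x)) := by
    rw [disjoint_left]
    intro x hx hx'
    rw [mem_filter, mem_Ioc] at hx hx'
    omega
  have h3 := congrArg card h1
  rw [card_union_of_disjoint h2, Nat.Ioc_filter_dvd_card_eq_div,
    Nat.Ioc_filter_dvd_card_eq_div] at h3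
  rw [h3]
  push_cast
  ring

private theorem SqfWin_one {k h q : ℕ} (hk : h ≤ k) (hq : 0 < q) :
    |(((Ioc (k - h) (k + h)).filter (fun x => q ∣ x)).card : ℝ) - 2 * h / (q : ℝ)| ≤ 1 := by
  have hq0 : (0 : ℝ) < q := by exact_mod_cast hq
  rw [SqfWin_card _ _ _ (by omega) hq]
  have fl : ∀ n : ℕ, (((n / q : ℕ) : ℝ) ≤ (n : ℝ) / q) ∧ ((n : ℝ) / q < ((n / q : ℕ) : ℝ) + 1) := by
    intro n
    constructor
    · exact Nat.cast_div_le
    · rw [div_lt_iff₀ hq0]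
      have := Nat.lt_div_mul_add (a := n) hq
      have h2 : n < (n / q + 1) * q := by nlinarith
      exact_mod_cast h2
  have h1 := fl (k + h)
  have h2 := fl (k - h)
  have e : 2 * h / (q : ℝ) = ((k + h : ℕ) : ℝ) / q - ((k - h : ℕ) : ℝ) / q := by
    rw [← sub_div, Nat.cast_sub hk]
    push_cast
    ring
  rw [e, abs_le]
  constructor <;> linarith [h1.1, h1.2, h2.1, h2.2]

private theorem SqfWin_sum {X h q : ℕ} (hX : h ≤ X) (hq : 0 < q) :
    ∑ k ∈ Ico X (2 * X), (((Ioc (k - h) (k + h)).filter (fun x => q ∣ x)).card : ℝ) ≤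
      2 * h * (3 * X) * ((q : ℝ))⁻¹ := by
  have h1 : ∀ k ∈ Ico X (2 * X), ((Ioc (k - h) (k + h)).filter (fun x => q ∣ x)).card =
      ∑ n ∈ (Icc 1 (3 * X)).filter (fun x => q ∣ x), if k - h < n ∧ n ≤ k + h then 1 else 0 := by
    intro k hk
    rw [mem_Ico] at hk
    rw [← card_filter, filter_filter]
    congr 1
    ext x
    simp only [mem_filter, mem_Ioc, mem_Icc]
    constructor
    · rintro ⟨⟨h2, h3⟩, h4⟩
      exact ⟨⟨by omega, by omega⟩, h4, h2, h3⟩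
    · rintro ⟨_, h4, h2, h3⟩
      exact ⟨⟨h2, h3⟩, h4⟩
  have h2 : ∑ k ∈ Ico X (2 * X), ((Ioc (k - h) (k + h)).filter (fun x => q ∣ x)).card ≤
      (3 * X / q) * (2 * h) := by
    rw [sum_congr rfl h1, sum_comm, ← SqfWin_card_dvd (3 * X) q, ← smul_eq_mul]
    refine sum_le_card_nsmul _ _ _ fun n _ => ?_
    rw [← card_filter]
    have h3 : (Ico X (2 * X)).filter (fun k => k - h < n ∧ n ≤ k + h) ⊆ Ico (n - h) (n + h) := by
      intro k hk
      rw [mem_filter, mem_Ico] at hk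
      rw [mem_Ico]
      omega
    refine (card_le_card h3).trans ?_
    rw [Nat.card_Ico]
    omega
  have h3 : ((∑ k ∈ Ico X (2 * X), ((Ioc (k - h) (k + h)).filter (fun x => q ∣ x)).card : ℕ) : ℝ) ≤
      (((3 * X / q) * (2 * h) : ℕ) : ℝ) := by exact_mod_cast h2
  rw [Nat.cast_sum] at h3
  refine h3.trans ?_
  push_cast
  have h4 : ((3 * X / q : ℕ) : ℝ) ≤ (3 * X) * (q : ℝ)⁻¹ := by
    have := Nat.cast_div_le (α := ℝ) (m := 3 * X) (n := q)
    rw [div_eq_mul_inv] at this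
    push_cast at this
    exact this
  calc ((3 * X / q : ℕ) : ℝ) * (2 * h) ≤ ((3 * X) * (q : ℝ)⁻¹) * (2 * h) :=
        mul_le_mul_of_nonneg_right h4 (by positivity)
    _ = 2 * h * (3 * X) * ((q : ℝ))⁻¹ := by ring

private theorem SqfWin_Wk {X h k : ℕ} (hX : h ≤ X) (hk : k ∈ Ico X (2 * X)) :
    ((Wk k h).card : ℝ) = ∑ d ∈ Icc 1 (3 * X), (ArithmeticFunction.moebius d : ℝ) *
      (((Ioc (k - h) (k + h)).filter (fun x => d ^ 2 ∣ x)).card : ℝ) := by
  rw [mem_Ico] at hk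
  have h1 : ((Wk k h).card : ℤ) = ∑ d ∈ Icc 1 (3 * X), (ArithmeticFunction.moebius d : ℤ) *
      (((Ioc (k - h) (k + h)).filter (fun x => d ^ 2 ∣ x)).card : ℤ) := by
    unfold Wk
    rw [card_filter]
    push_cast
    have h2 : ∀ x ∈ Ioc (k - h) (k + h), (if Squarefree x then (1 : ℤ) else 0) =
        ∑ d ∈ Icc 1 (3 * X), (if d ^ 2 ∣ x then (ArithmeticFunction.moebius d : ℤ) else 0) := by
      intro x hx
      rw [mem_Ioc] at hx
      rw [SqfWin_ind (by omega)]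
      intro d hd
      have h3 : d ^ 2 ≤ x := Nat.le_of_dvd (by omega) hd
      nlinarith
    rw [sum_congr rfl h2, sum_comm]
    refine sum_congr rfl fun d _ => ?_
    rw [← sum_filter, sum_const, nsmul_eq_mul, mul_comm]
  have h := congrArg (Int.cast : ℤ → ℝ) h1
  rw [Int.cast_natCast, Int.cast_sum] at h
  rw [h]
  refine sum_congr rfl fun d _ => ?_
  rw [Int.cast_mul, Int.cast_natCast]

theorem sqf_win : ∃ C : ℝ, 0 < C ∧ ∀ X h : ℕ, 1 ≤ h → h ≤ X →
    ∑ k ∈ Ico X (2 * X), |((Wk k h).card : ℝ) - 6 / Real.pi ^ 2 * (2 * h)| ≤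
      C * X * Real.sqrt h := by
  refine ⟨17, by norm_num, ?_⟩
  intro X h h1 hX
  set D : ℕ := Nat.sqrt h with hD
  have hD1 : 1 ≤ D := by
    rw [hD, Nat.le_sqrt]
    omega
  have hD0 : (0 : ℝ) < D := by exact_mod_cast hD1
  have hDsq : (D : ℝ) ^ 2 ≤ (h : ℝ) := by
    have := Nat.sqrt_le' h
    exact_mod_cast this
  have hDsq2 : (h : ℝ) ≤ (2 * (D : ℝ)) ^ 2 := by
    have h1 := Nat.lt_succ_sqrt' h
    rw [← hD] at h1
    have h2 : h ≤ (2 * D) ^ 2 := by
      have h3 : Nat.succ D ≤ 2 * D := by omega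
      have h4 := Nat.pow_le_pow_left h3 2
      omega
    exact_mod_cast h2
  have hDle : (D : ℝ) ≤ Real.sqrt (h : ℝ) := Real.le_sqrt_of_sq_le hDsq
  have hsq : Real.sqrt (h : ℝ) ≤ 2 * (D : ℝ) := by
    rw [Real.sqrt_le_left (by positivity)]
    exact hDsq2
  have hDX : D ≤ 3 * X := by
    have : D ≤ h := Nat.sqrt_le_self h
    omega
  have hsqh : Real.sqrt (h : ℝ) * Real.sqrt (h : ℝ) = h := Real.mul_self_sqrt (by positivity)
  -- h / D ≤ 2 √h
  have hhD : (h : ℝ) / D ≤ 2 * Real.sqrt h := by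
    rw [div_le_iff₀ hD0]
    nlinarith [Real.sqrt_nonneg (h : ℝ)]
  set Nd : ℕ → ℕ → ℝ := fun k d =>
    (((Ioc (k - h) (k + h)).filter (fun x => d ^ 2 ∣ x)).card : ℝ) with hNd
  have hpt : ∀ k ∈ Ico X (2 * X), |((Wk k h).card : ℝ) - 6 / Real.pi ^ 2 * (2 * h)| ≤
      (D + 2 * h / D) + ∑ d ∈ Ioc D (3 * X), Nd k d := by
    intro k hk
    have hkk := mem_Ico.1 hk
    rw [SqfWin_Wk hX hk]
    have hsplit : Icc 1 (3 * X) = Icc 1 D ∪ Ioc D (3 * X) := by
      ext x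
      simp only [mem_union, mem_Icc, mem_Ioc]
      omega
    have hdis : Disjoint (Icc 1 D) (Ioc D (3 * X)) := by
      rw [disjoint_left]
      intro x hx hx'
      rw [mem_Icc] at hx
      rw [mem_Ioc] at hx'
      omega
    rw [hsplit, sum_union hdis]
    have e1 : |∑ d ∈ Icc 1 D, (ArithmeticFunction.moebius d : ℝ) * Nd k d -
        2 * h * ∑ d ∈ Icc 1 D, (ArithmeticFunction.moebius d : ℝ) / (d : ℝ) ^ 2| ≤ D := by
      rw [mul_sum, ← sum_sub_distrib]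
      refine (abs_sum_le_sum_abs _ _).trans ?_
      have h2 : ∀ d ∈ Icc 1 D, |(ArithmeticFunction.moebius d : ℝ) * Nd k d -
          2 * h * ((ArithmeticFunction.moebius d : ℝ) / (d : ℝ) ^ 2)| ≤ 1 := by
        intro d hd
        rw [mem_Icc] at hd
        have e3 : (ArithmeticFunction.moebius d : ℝ) * Nd k d -
            2 * h * ((ArithmeticFunction.moebius d : ℝ) / (d : ℝ) ^ 2) =
            (ArithmeticFunction.moebius d : ℝ) * (Nd k d - 2 * h / (((d ^ 2 : ℕ)) : ℝ)) := by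
          push_cast; ring
        rw [e3, abs_mul]
        exact mul_le_one₀ (SqfWin_abs_moebius d) (abs_nonneg _)
          (SqfWin_one (by omega) (pow_pos hd.1 2))
      refine (sum_le_sum h2).trans ?_
      rw [sum_const, Nat.card_Icc, nsmul_eq_mul, mul_one]
      norm_num
    have e2 := SqfWin_tail D hD1
    have e3 : |2 * (h : ℝ) * ∑ d ∈ Icc 1 D, (ArithmeticFunction.moebius d : ℝ) / (d : ℝ) ^ 2 -
        6 / Real.pi ^ 2 * (2 * h)| ≤ 2 * (h : ℝ) / (D : ℝ) := by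
      have e4 : 2 * (h : ℝ) * ∑ d ∈ Icc 1 D, (ArithmeticFunction.moebius d : ℝ) / (d : ℝ) ^ 2 -
        6 / Real.pi ^ 2 * (2 * h) = -(2 * h * (6 / Real.pi ^ 2 -
          ∑ d ∈ Icc 1 D, (ArithmeticFunction.moebius d : ℝ) / (d : ℝ) ^ 2)) := by ring
      rw [e4, abs_neg, abs_mul, abs_of_nonneg (by positivity : (0 : ℝ) ≤ 2 * h)]
      calc 2 * (h : ℝ) * |6 / Real.pi ^ 2 - ∑ d ∈ Icc 1 D,
            (ArithmeticFunction.moebius d : ℝ) / (d : ℝ) ^ 2| ≤ 2 * h * (1 / D) :=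
            mul_le_mul_of_nonneg_left e2 (by positivity)
        _ = 2 * h / D := by ring
    have e5 : |∑ d ∈ Ioc D (3 * X), (ArithmeticFunction.moebius d : ℝ) * Nd k d| ≤
        ∑ d ∈ Ioc D (3 * X), Nd k d := by
      refine (abs_sum_le_sum_abs _ _).trans (sum_le_sum fun d _ => ?_)
      have hn : 0 ≤ Nd k d := by simp only [hNd]; positivity
      rw [abs_mul, abs_of_nonneg hn]
      exact mul_le_of_le_one_left hn (SqfWin_abs_moebius d)
    rw [abs_le] at e1 e3 e5 ⊢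
    constructor
    · linarith [e1.1, e3.1, e5.1]
    · linarith [e1.2, e3.2, e5.2]
  refine (sum_le_sum hpt).trans ?_
  rw [sum_add_distrib, sum_const, Nat.card_Ico, nsmul_eq_mul, sum_comm]
  have hcard : ((2 * X - X : ℕ) : ℝ) = X := by
    rw [show 2 * X - X = X by omega]
  rw [hcard]
  have t1 : ∑ d ∈ Ioc D (3 * X), ∑ k ∈ Ico X (2 * X), Nd k d ≤ 2 * h * (3 * X) * (D : ℝ)⁻¹ := by
    have t2 : ∀ d ∈ Ioc D (3 * X), ∑ k ∈ Ico X (2 * X), Nd k d ≤
        2 * h * (3 * X) * ((d : ℝ) ^ 2)⁻¹ := by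
      intro d hd
      rw [mem_Ioc] at hd
      have := SqfWin_sum (q := d ^ 2) hX (pow_pos (by omega) 2)
      push_cast at this
      exact this
    refine (sum_le_sum t2).trans ?_
    rw [← mul_sum]
    refine mul_le_mul_of_nonneg_left ?_ (by positivity)
    refine (sum_Ioc_inv_sq_le_sub (by omega) hDX).trans ?_
    have : (0 : ℝ) ≤ ((3 * X : ℕ) : ℝ)⁻¹ := by positivity
    linarith
  have t3 : 2 * (h : ℝ) * (3 * X) * (D : ℝ)⁻¹ = 6 * X * (h / D) := by ring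
  rw [t3] at t1
  have hX0 : (0 : ℝ) ≤ X := by positivity
  have t4 : (X : ℝ) * (D + 2 * h / D) ≤ X * (Real.sqrt h + 2 * (2 * Real.sqrt h)) := by
    refine mul_le_mul_of_nonneg_left ?_ hX0
    have : 2 * (h : ℝ) / D = 2 * (h / D) := by ring
    rw [this]
    linarith
  have t5 : 6 * (X : ℝ) * (h / D) ≤ 6 * X * (2 * Real.sqrt h) :=
    mul_le_mul_of_nonneg_left hhD (by positivity)
  calc (X : ℝ) * (D + 2 * h / D) + ∑ d ∈ Ioc D (3 * X), ∑ k ∈ Ico X (2 * X), Nd k d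
      ≤ X * (Real.sqrt h + 2 * (2 * Real.sqrt h)) + 6 * X * (2 * Real.sqrt h) :=
        add_le_add t4 (t1.trans t5)
    _ = 17 * X * Real.sqrt h := by ring

end Pool.Agent.H41.RG
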