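import Pool.Agent.H41.RG.AvgB
import Pool.Agent.H41.RG.SqfWin
import Pool.Agent.H41.RG.Char
import Pool.Agent.H41.RG.SecMom

/-!
# RG PhiL: long windows, `L^8 ≤ h ≤ X/L^10`

`θ = t / sg (2h)`, so `θ² = t² (π²/6)/(2h)`; `L = log X`.  Use `secmom` with the constant
`C k = exp(-t²/2)`; `C k * C l = exp(-t²)`.
`charA` with `v = t²`, `δ = h/L³`, for every `k` (`Wk_facts`), averaged over `k` with `avgB`, `sqf_win`:
`avg |θ² N_k - t²| = θ² avg |N_k - (6/π²) 2h| ≤ C_t / √h ≤ C_t / L^4`; `θ² δ ≤ C_t / L³`;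
`θ² avg(2 D1 + Q4)/δ ≤ C_t (L³/h²) (C h²/L^20 + C h³ L^4 / X) ≤ C_t / L³`;
`θ⁴ avg(2N + 6 D1 + 2 Q4) ≤ C_t/h² (4h + C h²/L^20 + C h³ L^4/X) ≤ C_t / L^3`.
`charB` with `v = 2 t²` and the same `δ` for the pairs `(k,l)` with `|k - l| ≥ 2h` (`Wk_disjoint`); the
other pairs, at most `4 h X` of them, contribute at most `2` each: `8h/X ≤ 8/L^10`.
-/

set_option autoImplicit false

namespace Pool.Agent.H41.RG

open Finset MeasureTheory ProbabilityTheory Filter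
open Pool.Agent.H18.RM (IsSigns rmf)

universe u

private theorem PhiL_sumA {S : Finset ℕ} {a N d q : ℕ → ℝ} {c x v δ : ℝ}
    (ha : ∀ k ∈ S, a k ≤ c * (|x * N k - v| + x * (δ + (2 * d k + q k) / δ) +
      x ^ 2 * (2 * N k + 6 * d k + 2 * q k))) :
    ∑ k ∈ S, a k ≤ c * (∑ k ∈ S, |x * N k - v| +
      x * (S.card * δ + (2 * ∑ k ∈ S, d k + ∑ k ∈ S, q k) / δ) +
      x ^ 2 * (2 * ∑ k ∈ S, N k + 6 * ∑ k ∈ S, d k + 2 * ∑ k ∈ S, q k)) := by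
  refine (sum_le_sum ha).trans (le_of_eq ?_)
  simp only [← mul_sum, sum_add_distrib, ← sum_div, sum_const, nsmul_eq_mul]

private theorem PhiL_sumB {S : Finset ℕ} {b T Q I : ℕ → ℕ → ℝ} {E g w : ℕ → ℝ} {c x δ : ℝ}
    (hb : ∀ k ∈ S, ∀ l ∈ S, b k l ≤ 2 * I k l + c * ((E k + E l) +
      x * (3 * δ + ((g k + g l) + (T k l + Q k l)) / δ) + 8 * x ^ 2 * (w k + w l))) :
    ∑ k ∈ S, ∑ l ∈ S, b k l ≤ 2 * ∑ k ∈ S, ∑ l ∈ S, I k l +
      c * (2 * S.card * ∑ k ∈ S, E k + x * (3 * δ * (S.card : ℝ) ^ 2 +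
        (2 * S.card * ∑ k ∈ S, g k + (∑ k ∈ S, ∑ l ∈ S, T k l + ∑ k ∈ S, ∑ l ∈ S, Q k l)) / δ) +
        8 * x ^ 2 * (2 * S.card * ∑ k ∈ S, w k)) := by
  refine (sum_le_sum fun k hk => sum_le_sum fun l hl => hb k hk l hl).trans (le_of_eq ?_)
  simp only [sum_add_distrib, ← mul_sum, ← sum_div, sum_const, nsmul_eq_mul]
  ring

private theorem PhiL_g1 {D c X L H : ℝ} (hc : 0 ≤ c) (hX : 0 ≤ X) (hL : 1 ≤ L) (hH : 0 < H)
    (h : D ≤ c * X * H ^ 2 / L ^ 20) :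
    D / H ^ 2 * L ^ 3 ≤ c * (X / L ^ 3) ∧ D / H ^ 2 ≤ c * (X / L ^ 3) := by
  have h0 : 0 < L := by linarith
  have h1 : D / H ^ 2 ≤ c * X / L ^ 20 := by
    rw [div_le_iff₀ (by positivity)]
    calc D ≤ _ := h
      _ = c * X / L ^ 20 * H ^ 2 := by ring
  have h2 : 0 ≤ c * X := mul_nonneg hc hX
  constructor
  · calc D / H ^ 2 * L ^ 3 ≤ c * X / L ^ 20 * L ^ 3 :=
        mul_le_mul_of_nonneg_right h1 (by positivity)
      _ ≤ c * (X / L ^ 3) := by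
        rw [div_mul_eq_mul_div, ← mul_div_assoc, div_le_div_iff₀ (by positivity) (by positivity)]
        have h3 : L ^ 6 ≤ L ^ 20 := pow_le_pow_right₀ hL (by norm_num)
        have h4 := mul_le_mul_of_nonneg_left h3 h2
        calc c * X * L ^ 3 * L ^ 3 = c * X * L ^ 6 := by ring
          _ ≤ _ := h4
  · refine h1.trans ?_
    rw [← mul_div_assoc, div_le_div_iff₀ (by positivity) (by positivity)]
    exact mul_le_mul_of_nonneg_left (pow_le_pow_right₀ hL (by norm_num)) h2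

private theorem PhiL_g2 {Q c X L H : ℝ} (hc : 0 ≤ c) (hL : 1 ≤ L) (hH : 0 < H)
    (hHX : H ≤ X / L ^ 10) (h : Q ≤ c * H ^ 3 * L ^ 4) :
    Q / H ^ 2 * L ^ 3 ≤ c * (X / L ^ 3) ∧ Q / H ^ 2 ≤ c * (X / L ^ 3) := by
  have h0 : 0 < L := by linarith
  have h1 : Q / H ^ 2 ≤ c * H * L ^ 4 := by
    rw [div_le_iff₀ (by positivity)]
    calc Q ≤ _ := h
      _ = c * H * L ^ 4 * H ^ 2 := by ring
  have h2 : H * L ^ 7 ≤ X / L ^ 3 := by
    rw [le_div_iff₀ (by positivity)] at hHX ⊢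
    calc H * L ^ 7 * L ^ 3 = H * L ^ 10 := by ring
      _ ≤ X := hHX
  constructor
  · calc Q / H ^ 2 * L ^ 3 ≤ c * H * L ^ 4 * L ^ 3 :=
        mul_le_mul_of_nonneg_right h1 (by positivity)
      _ = c * (H * L ^ 7) := by ring
      _ ≤ _ := mul_le_mul_of_nonneg_left h2 hc
  · refine h1.trans ?_
    have h3 : H * L ^ 4 ≤ H * L ^ 7 :=
      mul_le_mul_of_nonneg_left (pow_le_pow_right₀ hL (by norm_num)) hH.le
    calc c * H * L ^ 4 = c * (H * L ^ 4) := by ring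
      _ ≤ _ := mul_le_mul_of_nonneg_left (h3.trans h2) hc

private theorem PhiL_close (X h : ℕ) :
    ∑ k ∈ Ico X (2 * X), ∑ l ∈ Ico X (2 * X),
      (if (k + 2 * h ≤ l ∨ l + 2 * h ≤ k) then (0 : ℝ) else 1) ≤ (X : ℝ) * (4 * h) := by
  have h1 : ∀ k ∈ Ico X (2 * X), ∑ l ∈ Ico X (2 * X),
      (if (k + 2 * h ≤ l ∨ l + 2 * h ≤ k) then (0 : ℝ) else 1) ≤ 4 * h := by
    intro k _
    have e : ∑ l ∈ Ico X (2 * X), (if (k + 2 * h ≤ l ∨ l + 2 * h ≤ k) then (0 : ℝ) else 1) =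
        (((Ico X (2 * X)).filter (fun l => ¬ (k + 2 * h ≤ l ∨ l + 2 * h ≤ k))).card : ℝ) := by
      rw [← Finset.sum_boole]
      refine sum_congr rfl fun l _ => ?_
      by_cases hc : k + 2 * h ≤ l ∨ l + 2 * h ≤ k
      · rw [if_pos hc, if_neg (not_not.2 hc)]
      · rw [if_neg hc, if_pos hc]
    rw [e]
    have h2 : ((Ico X (2 * X)).filter (fun l => ¬ (k + 2 * h ≤ l ∨ l + 2 * h ≤ k))).card ≤
        (Ico (k + 1 - 2 * h) (k + 2 * h)).card := by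
      refine card_le_card fun l hl => ?_
      rw [mem_filter] at hl
      rw [mem_Ico]
      omega
    rw [Nat.card_Ico] at h2
    have h3 : ((Ico X (2 * X)).filter (fun l => ¬ (k + 2 * h ≤ l ∨ l + 2 * h ≤ k))).card ≤
        4 * h := by omega
    exact_mod_cast h3
  refine (sum_le_sum h1).trans (le_of_eq ?_)
  rw [sum_const, Nat.card_Ico, nsmul_eq_mul]
  have : 2 * X - X = X := by omega
  rw [this]

private theorem PhiL_BW {Ω : Type*} [MeasurableSpace Ω] (P : Measure Ω) [IsProbabilityMeasure P]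
    (e : ℕ → Ω → ℝ) (W W' : Finset ℕ) (θ : ℝ) {c : ℝ} (h0 : 0 ≤ c) (h1 : c ≤ 1) :
    ‖BW P e W W' θ - ((c : ℝ) : ℂ)‖ ≤ 2 := by
  have h2 : ‖BW P e W W' θ‖ ≤ 1 := by
    unfold BW
    have := norm_integral_le_of_norm_le_const (μ := P) (C := 1)
      (f := fun ω => Complex.exp (Complex.I * ((θ * (∑ n ∈ W, rmf e ω n -
        ∑ n ∈ W', rmf e ω n) : ℝ) : ℂ))) (Eventually.of_forall fun ω => by
          rw [mul_comm, Complex.norm_exp_ofReal_mul_I])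
    simpa using this
  have h3 : ‖((c : ℝ) : ℂ)‖ ≤ 1 := by
    rw [Complex.norm_real, Real.norm_eq_abs, abs_of_nonneg h0]
    exact h1
  calc _ ≤ ‖BW P e W W' θ‖ + ‖((c : ℝ) : ℂ)‖ := norm_sub_le _ _
    _ ≤ 2 := by linarith

private theorem PhiL_theta (t : ℝ) {h : ℕ} (hh : 1 ≤ h) :
    (t / sg (2 * h)) ^ 2 = t ^ 2 * Real.pi ^ 2 / 12 / h := by
  have hpi := Real.pi_pos
  have h1 : (0 : ℝ) < h := by exact_mod_cast hh
  unfold sg
  rw [div_pow, Real.sq_sqrt (by positivity)]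
  field_simp
  ring

theorem phiL (t : ℝ) : ∃ K : ℝ, 1 ≤ K ∧ ∀ᶠ X : ℕ in atTop, ∀ h : ℕ, Real.log X ^ 8 ≤ h →
    (h : ℝ) ≤ X / Real.log X ^ 10 →
    ∀ (Ω : Type u) [MeasurableSpace Ω] (P : Measure Ω) [IsProbabilityMeasure P]
      (e : ℕ → Ω → ℝ), IsSigns P e →
    ∫ ω, ‖phiD (rmf e ω) X h (t / sg (2 * h)) - ((Real.exp (-t ^ 2 / 2) : ℝ) : ℂ)‖ ^ 2 ∂P ≤
      K / Real.log X ^ 3 := by
  obtain ⟨C2, hC2, hav⟩ := avgB
  obtain ⟨C1, hC1, hsq⟩ := sqf_win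
  obtain ⟨τ, hτ⟩ : ∃ τ : ℝ, τ = t ^ 2 * Real.pi ^ 2 / 12 := ⟨_, rfl⟩
  have hτ0 : 0 ≤ τ := by
    rw [hτ]
    positivity
  obtain ⟨cA, hcA⟩ : ∃ c : ℝ, c = 4 * (1 + t ^ 2) * Real.exp (t ^ 2 + 1) := ⟨_, rfl⟩
  obtain ⟨cB, hcB⟩ : ∃ c : ℝ, c = 4 * (1 + 2 * t ^ 2) * Real.exp (2 * t ^ 2 + 1) := ⟨_, rfl⟩
  have hcA0 : 0 ≤ cA := by
    rw [hcA]
    positivity
  have hcB0 : 0 ≤ cB := by
    rw [hcB]
    positivity
  have hC20 : 0 ≤ C2 := by linarith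
  obtain ⟨K1, hK1⟩ : ∃ K : ℝ, K = cA * (τ * C1 + τ * (1 + 3 * C2) + τ ^ 2 * (4 + 8 * C2)) :=
    ⟨_, rfl⟩
  obtain ⟨K2, hK2⟩ : ∃ K : ℝ, K = 8 + cB * (2 * (τ * C1) + τ * (3 + 8 * C2) +
    16 * τ ^ 2 * (4 + 8 * C2)) := ⟨_, rfl⟩
  have hK10 : 0 ≤ K1 := by
    rw [hK1]
    positivity
  have hK20 : 1 ≤ K2 := by
    rw [hK2]
    have : 0 ≤ cB * (2 * (τ * C1) + τ * (3 + 8 * C2) + 16 * τ ^ 2 * (4 + 8 * C2)) := by
      positivity
    linarith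
  refine ⟨K2 + 2 * K1, by linarith, ?_⟩
  have hlog : ∀ᶠ X : ℕ in atTop, 2 ≤ Real.log X :=
    (Real.tendsto_log_atTop.comp tendsto_natCast_atTop_atTop).eventually_ge_atTop 2
  filter_upwards [hav, hlog, eventually_ge_atTop 2] with X hav hL2 hX2 h hh hh' Ω _ P _ e he
  obtain ⟨L, hL⟩ : ∃ L : ℝ, L = Real.log X := ⟨_, rfl⟩
  rw [← hL] at hh hh' hL2 hav ⊢
  have hL1 : 1 ≤ L := by linarith
  have hL0 : 0 < L := by linarith
  have hX0 : (2 : ℝ) ≤ X := by exact_mod_cast hX2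
  have hH1 : (1 : ℝ) ≤ h := by
    refine le_trans ?_ hh
    exact one_le_pow₀ hL1
  have hH0 : (0 : ℝ) < h := by linarith
  have h1 : 1 ≤ h := by exact_mod_cast hH1
  have hhX : (h : ℝ) ≤ X / 2 := by
    refine hh'.trans ?_
    refine div_le_div_of_nonneg_left (by linarith) (by norm_num) ?_
    calc (2 : ℝ) ≤ L := hL2
      _ = L ^ 1 := (pow_one L).symm
      _ ≤ L ^ 10 := pow_le_pow_right₀ hL1 (by norm_num)
  have hhX1 : h + 1 ≤ X := by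
    have : (h : ℝ) + 1 ≤ X := by linarith
    exact_mod_cast this
  obtain ⟨a1, a2, a3, a4⟩ := hav h h1 (by rw [hL]; rw [← hL]; exact hh')
  have a5 := hsq X h h1 (by omega)
  -- the parameters
  obtain ⟨θ, hθ⟩ : ∃ θ : ℝ, θ = t / sg (2 * h) := ⟨_, rfl⟩
  have hx : θ ^ 2 = τ / h := by
    rw [hθ, PhiL_theta t h1, hτ]
  have hx4 : θ ^ 4 = (τ / h) ^ 2 := by
    rw [← hx]
    ring
  obtain ⟨δ, hδ⟩ : ∃ δ : ℝ, δ = h / L ^ 3 := ⟨_, rfl⟩
  have hδ0 : 0 < δ := by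
    rw [hδ]
    positivity
  obtain ⟨κ, hκ⟩ : ∃ κ : ℝ, κ = Real.exp (-t ^ 2 / 2) := ⟨_, rfl⟩
  have hκ0 : 0 < κ := by
    rw [hκ]
    exact Real.exp_pos _
  have hκ1 : κ ≤ 1 := by
    rw [hκ, Real.exp_le_one_iff]
    have := sq_nonneg t
    linarith
  have hκ2 : κ * κ = Real.exp (-(2 * t ^ 2) / 2) := by
    rw [hκ, ← Real.exp_add]
    congr 1
    ring
  have hcard : (((Ico X (2 * X)).card : ℕ) : ℝ) = X := by
    rw [Nat.card_Ico]
    have : 2 * X - X = X := by omega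
    rw [this]
  obtain ⟨U, hU⟩ : ∃ U : ℝ, U = X / L ^ 3 := ⟨_, rfl⟩
  have hU0 : 0 ≤ U := by
    rw [hU]
    positivity
  have hW : ∀ k ∈ Ico X (2 * X), (∀ n ∈ Wk k h, Squarefree n ∧ 2 ≤ n) ∧ (Wk k h).card ≤ 2 * h := by
    intro k hk
    rw [mem_Ico] at hk
    exact Wk_facts (by omega)
  -- the sums
  have sE : ∑ k ∈ Ico X (2 * X), |τ / h * ((Wk k h).card : ℝ) - t ^ 2| ≤ τ * C1 * U := by
    have e1 : ∀ k ∈ Ico X (2 * X), |τ / h * ((Wk k h).card : ℝ) - t ^ 2| =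
        τ / h * |((Wk k h).card : ℝ) - 6 / Real.pi ^ 2 * (2 * h)| := by
      intro k _
      have hpi := Real.pi_pos
      rw [← abs_of_nonneg (div_nonneg hτ0 hH0.le), ← abs_mul, abs_of_nonneg (div_nonneg hτ0 hH0.le)]
      congr 1
      rw [mul_sub]
      congr 1
      rw [hτ]
      field_simp
      ring
    rw [sum_congr rfl e1, ← mul_sum]
    refine (mul_le_mul_of_nonneg_left a5 (div_nonneg hτ0 hH0.le)).trans ?_
    have hr : L ^ 3 ≤ Real.sqrt h := by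
      refine Real.le_sqrt_of_sq_le ?_
      refine le_trans ?_ hh
      rw [← pow_mul]
      exact pow_le_pow_right₀ hL1 (by norm_num)
    have hr0 : 0 < Real.sqrt h := Real.sqrt_pos.2 hH0
    have e2 : τ / h * (C1 * X * Real.sqrt h) = τ * C1 * (X / Real.sqrt h) := by
      have : (h : ℝ) = Real.sqrt h * Real.sqrt h := (Real.mul_self_sqrt hH0.le).symm
      rw [div_mul_eq_mul_div, mul_div_assoc', div_eq_div_iff hH0.ne' hr0.ne']
      calc τ * (C1 * X * Real.sqrt h) * Real.sqrt h = τ * C1 * X * (Real.sqrt h * Real.sqrt h) := by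
            ring
        _ = τ * C1 * X * h := by rw [← this]
    rw [e2, hU]
    refine mul_le_mul_of_nonneg_left ?_ (by positivity)
    exact div_le_div_of_nonneg_left (by linarith) (by positivity) hr
  have sN : (∑ k ∈ Ico X (2 * X), ((Wk k h).card : ℝ)) / (h : ℝ) ^ 2 ≤ 2 * U := by
    have e1 : ∑ k ∈ Ico X (2 * X), ((Wk k h).card : ℝ) ≤ X * (2 * h) := by
      calc ∑ k ∈ Ico X (2 * X), ((Wk k h).card : ℝ) ≤ ∑ k ∈ Ico X (2 * X), (2 * h : ℝ) := by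
            refine sum_le_sum fun k hk => ?_
            exact_mod_cast (hW k hk).2
        _ = X * (2 * h) := by rw [sum_const, nsmul_eq_mul, hcard]
    rw [div_le_iff₀ (by positivity)]
    refine e1.trans ?_
    have e2 : L ^ 3 ≤ h := (pow_le_pow_right₀ hL1 (by norm_num)).trans hh
    have e3 : 1 ≤ (h : ℝ) / L ^ 3 := by
      rw [le_div_iff₀ (by positivity), one_mul]
      exact e2
    have e4 : 2 * U * (h : ℝ) ^ 2 = X * (2 * h) * (h / L ^ 3) := by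
      rw [hU]
      ring
    rw [e4]
    exact le_mul_of_one_le_right (by positivity) e3
  obtain ⟨D, hD⟩ : ∃ D : ℝ, D = ∑ k ∈ Ico X (2 * X), (D1 (Wk k h) : ℝ) := ⟨_, rfl⟩
  obtain ⟨Q, hQ⟩ : ∃ Q : ℝ, Q = ∑ k ∈ Ico X (2 * X), (Q4 (Wk k h) : ℝ) := ⟨_, rfl⟩
  obtain ⟨N, hN⟩ : ∃ N : ℝ, N = ∑ k ∈ Ico X (2 * X), ((Wk k h).card : ℝ) := ⟨_, rfl⟩
  obtain ⟨T, hT⟩ : ∃ T : ℝ, T = ∑ k ∈ Ico X (2 * X), ∑ l ∈ Ico X (2 * X),
    (T2 (Wk k h) (Wk l h) : ℝ) := ⟨_, rfl⟩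
  obtain ⟨R, hR⟩ : ∃ R : ℝ, R = ∑ k ∈ Ico X (2 * X), ∑ l ∈ Ico X (2 * X),
    (Q22 (Wk k h) (Wk l h) : ℝ) := ⟨_, rfl⟩
  rw [← hD] at a1
  rw [← hQ] at a2
  rw [← hT] at a3
  rw [← hR] at a4
  rw [← hN] at sN
  have hXn : (0 : ℝ) ≤ X := by linarith
  have bD := PhiL_g1 hC20 hXn hL1 hH0 a1
  have bQ := PhiL_g2 hC20 hL1 hH0 hh' a2
  have bT := PhiL_g1 (c := C2 * X) (mul_nonneg hC20 hXn) hXn hL1 hH0
    (le_of_le_of_eq a3 (by ring))
  have bR := PhiL_g2 (c := C2 * X) (mul_nonneg hC20 hXn) hL1 hH0 hh' a4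
  rw [← hU] at bD bQ bT bR
  -- first sum
  have S1 : ∑ k ∈ Ico X (2 * X), ‖AW P e (Wk k h) θ - ((κ : ℝ) : ℂ)‖ ≤ K1 * U := by
    have e1 : ∀ k ∈ Ico X (2 * X), ‖AW P e (Wk k h) θ - ((κ : ℝ) : ℂ)‖ ≤
        cA * (|τ / h * ((Wk k h).card : ℝ) - t ^ 2| + τ / h * (δ + (2 * (D1 (Wk k h) : ℝ) +
          (Q4 (Wk k h) : ℝ)) / δ) + (τ / h) ^ 2 * (2 * ((Wk k h).card : ℝ) +
          6 * (D1 (Wk k h) : ℝ) + 2 * (Q4 (Wk k h) : ℝ))) := by
      intro k hk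
      have := charA (P := P) he (hW k hk).1 θ (v := t ^ 2) (sq_nonneg t) hδ0
      rw [hx4, hx, ← hcA, ← hκ] at this
      exact this
    refine (PhiL_sumA e1).trans ?_
    rw [hcard, ← hD, ← hQ, ← hN, hK1, mul_assoc]
    refine mul_le_mul_of_nonneg_left ?_ hcA0
    have e2 : τ / h * (X * δ + (2 * D + Q) / δ) =
        τ * (U + (2 * (D / (h : ℝ) ^ 2 * L ^ 3) + Q / (h : ℝ) ^ 2 * L ^ 3)) := by
      rw [hδ, hU]
      field_simp
    have e3 : (τ / h) ^ 2 * (2 * N + 6 * D + 2 * Q) =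
        τ ^ 2 * (2 * (N / (h : ℝ) ^ 2) + 6 * (D / (h : ℝ) ^ 2) + 2 * (Q / (h : ℝ) ^ 2)) := by
      field_simp
    rw [e2, e3]
    have e4 : τ * (U + (2 * (D / (h : ℝ) ^ 2 * L ^ 3) + Q / (h : ℝ) ^ 2 * L ^ 3)) ≤
        τ * (U + (2 * (C2 * U) + C2 * U)) := by
      refine mul_le_mul_of_nonneg_left ?_ hτ0
      linarith [bD.1, bQ.1]
    have e5 : τ ^ 2 * (2 * (N / (h : ℝ) ^ 2) + 6 * (D / (h : ℝ) ^ 2) + 2 * (Q / (h : ℝ) ^ 2)) ≤
        τ ^ 2 * (2 * (2 * U) + 6 * (C2 * U) + 2 * (C2 * U)) := by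
      refine mul_le_mul_of_nonneg_left ?_ (sq_nonneg τ)
      linarith [bD.2, bQ.2]
    calc _ ≤ τ * C1 * U + τ * (U + (2 * (C2 * U) + C2 * U)) +
          τ ^ 2 * (2 * (2 * U) + 6 * (C2 * U) + 2 * (C2 * U)) := add_le_add (add_le_add sE e4) e5
      _ = (τ * C1 + τ * (1 + 3 * C2) + τ ^ 2 * (4 + 8 * C2)) * U := by ring
  -- second sum
  have S2 : ∑ k ∈ Ico X (2 * X), ∑ l ∈ Ico X (2 * X),
      ‖BW P e (Wk k h) (Wk l h) θ - ((κ * κ : ℝ) : ℂ)‖ ≤ K2 * (X * U) := by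
    have e1 : ∀ k ∈ Ico X (2 * X), ∀ l ∈ Ico X (2 * X),
        ‖BW P e (Wk k h) (Wk l h) θ - ((κ * κ : ℝ) : ℂ)‖ ≤
        2 * (if (k + 2 * h ≤ l ∨ l + 2 * h ≤ k) then (0 : ℝ) else 1) +
        cB * ((|τ / h * ((Wk k h).card : ℝ) - t ^ 2| + |τ / h * ((Wk l h).card : ℝ) - t ^ 2|) +
          τ / h * (3 * δ + (((2 * (D1 (Wk k h) : ℝ) + (Q4 (Wk k h) : ℝ)) +
            (2 * (D1 (Wk l h) : ℝ) + (Q4 (Wk l h) : ℝ))) +
            ((T2 (Wk k h) (Wk l h) : ℝ) + (Q22 (Wk k h) (Wk l h) : ℝ))) / δ) +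
          8 * (τ / h) ^ 2 * ((2 * ((Wk k h).card : ℝ) + 6 * (D1 (Wk k h) : ℝ) +
            2 * (Q4 (Wk k h) : ℝ)) + (2 * ((Wk l h).card : ℝ) + 6 * (D1 (Wk l h) : ℝ) +
            2 * (Q4 (Wk l h) : ℝ)))) := by
      intro k hk l hl
      have hτh : 0 ≤ τ / h := div_nonneg hτ0 hH0.le
      by_cases hc : k + 2 * h ≤ l ∨ l + 2 * h ≤ k
      · rw [if_pos hc, mul_zero, zero_add]
        have hk' := mem_Ico.1 hk
        have hl' := mem_Ico.1 hl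
        have hdis : Disjoint (Wk k h) (Wk l h) := Wk_disjoint (by omega) (by omega) hc
        have := charB (P := P) he (hW k hk).1 (hW l hl).1 hdis θ (v := 2 * t ^ 2)
          (by positivity) hδ0
        rw [hx4, hx, ← hcB, ← hκ2] at this
        refine this.trans (mul_le_mul_of_nonneg_left ?_ hcB0)
        have e2 : |τ / h * (((Wk k h).card : ℝ) + ((Wk l h).card : ℝ)) - 2 * t ^ 2| ≤
            |τ / h * ((Wk k h).card : ℝ) - t ^ 2| + |τ / h * ((Wk l h).card : ℝ) - t ^ 2| := by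
          have : τ / h * (((Wk k h).card : ℝ) + ((Wk l h).card : ℝ)) - 2 * t ^ 2 =
            (τ / h * ((Wk k h).card : ℝ) - t ^ 2) + (τ / h * ((Wk l h).card : ℝ) - t ^ 2) := by
            ring
          rw [this]
          exact abs_add_le _ _
        exact add_le_add (add_le_add e2 le_rfl) le_rfl
      · rw [if_neg hc, mul_one]
        have h2 := PhiL_BW P e (Wk k h) (Wk l h) θ (c := κ * κ) (by positivity)
          (mul_le_one₀ hκ1 hκ0.le hκ1)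
        refine h2.trans ?_
        have : 0 ≤ cB * ((|τ / h * ((Wk k h).card : ℝ) - t ^ 2| +
          |τ / h * ((Wk l h).card : ℝ) - t ^ 2|) +
          τ / h * (3 * δ + (((2 * (D1 (Wk k h) : ℝ) + (Q4 (Wk k h) : ℝ)) +
            (2 * (D1 (Wk l h) : ℝ) + (Q4 (Wk l h) : ℝ))) +
            ((T2 (Wk k h) (Wk l h) : ℝ) + (Q22 (Wk k h) (Wk l h) : ℝ))) / δ) +
          8 * (τ / h) ^ 2 * ((2 * ((Wk k h).card : ℝ) + 6 * (D1 (Wk k h) : ℝ) +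
            2 * (Q4 (Wk k h) : ℝ)) + (2 * ((Wk l h).card : ℝ) + 6 * (D1 (Wk l h) : ℝ) +
            2 * (Q4 (Wk l h) : ℝ)))) := by
          positivity
        linarith
    refine (PhiL_sumB e1).trans ?_
    have e2 := PhiL_close X h
    rw [hcard, ← hT, ← hR]
    have e3 : ∑ k ∈ Ico X (2 * X), (2 * (D1 (Wk k h) : ℝ) + (Q4 (Wk k h) : ℝ)) = 2 * D + Q := by
      rw [sum_add_distrib, ← mul_sum, ← hD, ← hQ]
    have e4 : ∑ k ∈ Ico X (2 * X), (2 * ((Wk k h).card : ℝ) + 6 * (D1 (Wk k h) : ℝ) +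
        2 * (Q4 (Wk k h) : ℝ)) = 2 * N + 6 * D + 2 * Q := by
      rw [sum_add_distrib, sum_add_distrib, ← mul_sum, ← mul_sum, ← mul_sum, ← hD, ← hQ, ← hN]
    rw [e3, e4]
    have e5 : τ / h * (3 * δ * (X : ℝ) ^ 2 + (2 * X * (2 * D + Q) + (T + R)) / δ) =
        τ * (3 * (X * U) + (2 * X * (2 * (D / (h : ℝ) ^ 2 * L ^ 3) + Q / (h : ℝ) ^ 2 * L ^ 3) +
          (T / (h : ℝ) ^ 2 * L ^ 3 + R / (h : ℝ) ^ 2 * L ^ 3))) := by
      rw [hδ, hU]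
      field_simp
    have e6 : 8 * (τ / h) ^ 2 * (2 * X * (2 * N + 6 * D + 2 * Q)) =
        16 * τ ^ 2 * (X * (2 * (N / (h : ℝ) ^ 2) + 6 * (D / (h : ℝ) ^ 2) +
          2 * (Q / (h : ℝ) ^ 2))) := by
      field_simp
      ring
    rw [e5, e6]
    have e7 : 2 * X * (2 * (D / (h : ℝ) ^ 2 * L ^ 3) + Q / (h : ℝ) ^ 2 * L ^ 3) ≤
        2 * X * (2 * (C2 * U) + C2 * U) := by
      refine mul_le_mul_of_nonneg_left ?_ (by positivity)
      linarith [bD.1, bQ.1]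
    have e8 : τ * (3 * (X * U) + (2 * X * (2 * (D / (h : ℝ) ^ 2 * L ^ 3) +
          Q / (h : ℝ) ^ 2 * L ^ 3) + (T / (h : ℝ) ^ 2 * L ^ 3 + R / (h : ℝ) ^ 2 * L ^ 3))) ≤
        τ * (3 * (X * U) + (2 * X * (2 * (C2 * U) + C2 * U) + (C2 * X * U + C2 * X * U))) := by
      refine mul_le_mul_of_nonneg_left ?_ hτ0
      linarith [bT.1, bR.1]
    have e9 : 16 * τ ^ 2 * (X * (2 * (N / (h : ℝ) ^ 2) + 6 * (D / (h : ℝ) ^ 2) +
          2 * (Q / (h : ℝ) ^ 2))) ≤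
        16 * τ ^ 2 * (X * (2 * (2 * U) + 6 * (C2 * U) + 2 * (C2 * U))) := by
      refine mul_le_mul_of_nonneg_left (mul_le_mul_of_nonneg_left ?_ hXn) (by positivity)
      linarith [bD.2, bQ.2]
    have e10 : 2 * X * ∑ k ∈ Ico X (2 * X), |τ / h * ((Wk k h).card : ℝ) - t ^ 2| ≤
        2 * X * (τ * C1 * U) := mul_le_mul_of_nonneg_left sE (by positivity)
    have e11 : (X : ℝ) * (4 * h) ≤ 4 * (X * U) := by
      have : (h : ℝ) ≤ U := by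
        rw [hU]
        refine hh'.trans ?_
        exact div_le_div_of_nonneg_left hXn (by positivity) (pow_le_pow_right₀ hL1 (by norm_num))
      nlinarith
    have e12 := mul_le_mul_of_nonneg_left (add_le_add (add_le_add e10 e8) e9) hcB0
    calc _ ≤ 2 * (4 * (X * U)) + cB * (2 * X * (τ * C1 * U) +
          τ * (3 * (X * U) + (2 * X * (2 * (C2 * U) + C2 * U) + (C2 * X * U + C2 * X * U))) +
          16 * τ ^ 2 * (X * (2 * (2 * U) + 6 * (C2 * U) + 2 * (C2 * U)))) := by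
          refine add_le_add ?_ e12
          linarith
      _ = K2 * (X * U) := by
        rw [hK2]
        ring
  -- end
  have hfin := secmom (P := P) he (X := X) (by omega) h θ (fun _ => κ) (fun _ => by
    rw [abs_of_pos hκ0]
    exact hκ1)
  have e1 : (1 / (X : ℝ)) * ∑ k ∈ Ico X (2 * X), κ = κ := by
    rw [sum_const, nsmul_eq_mul, hcard]
    field_simp
  rw [e1] at hfin
  rw [← hκ, ← hθ]
  refine hfin.trans ?_
  have hX0' : (0 : ℝ) < X := by linarith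
  have f1 := mul_le_mul_of_nonneg_left S2 (by positivity : (0 : ℝ) ≤ 1 / (X : ℝ) ^ 2)
  have f2 := mul_le_mul_of_nonneg_left S1 (by positivity : (0 : ℝ) ≤ 2 / (X : ℝ))
  refine (add_le_add f1 f2).trans (le_of_eq ?_)
  rw [hU]
  field_simp

end Pool.Agent.H41.RG
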