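import Pool.Agent.H41.RG.AvgB
import Pool.Agent.H41.RG.SqfWin
import Pool.Agent.H41.RG.Char0
import Pool.Agent.H41.RG.SecMom

/-!
# RG PhiS: short windows, `1 ≤ h ≤ L^8`

`θ = t / sg (2h)`, `C k = cos(θ)^#Wk`, `c = (1/X) ∑ C k`.  `secmom`: by `charA0` the terms with
`D1 (Wk k h) = 0` vanish, the number of the other `k` is at most `∑ D1 ≤ C X h²/L^20 ≤ C X/L^4`
(`avgB`; each term is at most `2`); by `charB0` the pairs with `D1 = D1 = T2 = 0` vanish, the number of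
the other pairs is at most `2 X ∑ D1 + ∑∑ T2 ≤ 3 C X²/L^4`.
`|c - exp(-t²/2)| ≤ K/√h`: with `N = #Wk ≤ 2h`:
`|cos(θ)^N - exp(-θ²/2)^N| ≤ N |cos θ - exp(-θ²/2)| ≤ N θ⁴ ≤ C_t/h` and
`|exp(-Nθ²/2) - exp(-t²/2)| ≤ |N θ² - t²|/2 = (θ²/2) |N - (6/π²) 2h|`, average with `sqf_win`.
-/

set_option autoImplicit false

namespace Pool.Agent.H41.RG

open Finset MeasureTheory ProbabilityTheory Filter
open Pool.Agent.H18.RM (IsSigns rmf)

universe u

private theorem PhiS_cos (θ : ℝ) : |Real.cos θ - Real.exp (-θ ^ 2 / 2)| ≤ 2 * θ ^ 4 := by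
  by_cases hθ : |θ| ≤ 1
  · have h1 := Real.cos_bound hθ
    have h2 : |(-θ ^ 2 / 2 : ℝ)| ≤ 1 := by
      have h3 : θ ^ 2 ≤ 1 := (sq_le_one_iff_abs_le_one _).2 hθ
      rw [abs_le]
      constructor <;> nlinarith [sq_nonneg θ]
    have h3 := Real.abs_exp_sub_one_sub_id_le h2
    have h4 : |θ| ^ 4 = θ ^ 4 := by
      rw [pow_abs, abs_of_nonneg (by positivity)]
    rw [h4] at h1
    have h5 : (-θ ^ 2 / 2) ^ 2 = θ ^ 4 / 4 := by ring
    rw [h5] at h3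
    have h6 := abs_le.1 h1
    have h7 := abs_le.1 h3
    have h8 : 0 ≤ θ ^ 4 := by positivity
    rw [abs_le]
    constructor <;> linarith [h6.1, h6.2, h7.1, h7.2]
  · push Not at hθ
    have h1 : 1 ≤ θ ^ 4 := by
      have : (1 : ℝ) ≤ |θ| ^ 4 := one_le_pow₀ hθ.le
      rwa [pow_abs, abs_of_nonneg (by positivity)] at this
    have h2 := Real.cos_le_one θ
    have h3 := Real.neg_one_le_cos θ
    have h4 : Real.exp (-θ ^ 2 / 2) ≤ 1 := by
      rw [Real.exp_le_one_iff]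
      nlinarith [sq_nonneg θ]
    have h5 := Real.exp_pos (-θ ^ 2 / 2)
    rw [abs_le]
    constructor <;> linarith

private theorem PhiS_pow {a b : ℝ} (ha : |a| ≤ 1) (hb : |b| ≤ 1) (N : ℕ) :
    |a ^ N - b ^ N| ≤ N * |a - b| := by
  induction N with
  | zero => simp
  | succ N ih =>
    have e : a ^ (N + 1) - b ^ (N + 1) = a * (a ^ N - b ^ N) + b ^ N * (a - b) := by ring
    rw [e]
    refine (abs_add_le _ _).trans ?_
    rw [abs_mul, abs_mul, abs_pow]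
    have h1 : |a| * |a ^ N - b ^ N| ≤ 1 * |a ^ N - b ^ N| :=
      mul_le_mul_of_nonneg_right ha (abs_nonneg _)
    have h2 : |b| ^ N * |a - b| ≤ 1 * |a - b| :=
      mul_le_mul_of_nonneg_right (pow_le_one₀ (abs_nonneg _) hb) (abs_nonneg _)
    push_cast
    linarith

private theorem PhiS_exp {x y : ℝ} (hx : x ≤ 0) (hy : y ≤ 0) :
    |Real.exp x - Real.exp y| ≤ |x - y| := by
  have key : ∀ a b : ℝ, a ≤ b → b ≤ 0 → |Real.exp b - Real.exp a| ≤ |b - a| := by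
    intro a b hab hb
    rw [abs_of_nonneg (sub_nonneg.2 (Real.exp_le_exp.2 hab)), abs_of_nonneg (sub_nonneg.2 hab)]
    have h1 : Real.exp a = Real.exp b * Real.exp (a - b) := by rw [← Real.exp_add]; ring_nf
    have h2 := Real.add_one_le_exp (a - b)
    have h3 : Real.exp b ≤ 1 := Real.exp_le_one_iff.2 hb
    have h4 := Real.exp_pos b
    rw [h1]
    nlinarith
  rcases le_total x y with hxy | hxy
  · rw [abs_sub_comm (Real.exp x), abs_sub_comm x]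
    exact key x y hxy hy
  · exact key y x hxy hx

private theorem PhiS_pi : Real.pi ^ 2 / 6 ≤ 2 := by
  have h1 := Real.pi_lt_d2
  have h2 := Real.pi_pos
  nlinarith

private theorem PhiS_sg (t : ℝ) {h : ℕ} (h1 : 1 ≤ h) :
    (t / sg (2 * h)) ^ 2 = t ^ 2 * (Real.pi ^ 2 / 6) / (2 * h) := by
  have hh : (0 : ℝ) < h := by exact_mod_cast h1
  have hp := Real.pi_pos
  unfold sg
  rw [div_pow, Real.sq_sqrt (by positivity)]
  field_simp

private theorem PhiS_one (t : ℝ) {h : ℕ} (h1 : 1 ≤ h) {N : ℕ} (hN : N ≤ 2 * h) :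
    |Real.cos (t / sg (2 * h)) ^ N - Real.exp (-t ^ 2 / 2)| ≤
      4 * t ^ 4 / h + t ^ 2 / h * |(N : ℝ) - 6 / Real.pi ^ 2 * (2 * h)| := by
  have hh : (0 : ℝ) < h := by exact_mod_cast h1
  have hp := Real.pi_pos
  have hp2 := PhiS_pi
  have hN' : (N : ℝ) ≤ 2 * h := by exact_mod_cast hN
  have hs := PhiS_sg t h1
  set θ := t / sg (2 * h) with hθ
  have a1 := PhiS_pow (Real.abs_cos_le_one θ) (b := Real.exp (-θ ^ 2 / 2)) (by
    rw [abs_of_pos (Real.exp_pos _), Real.exp_le_one_iff]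
    nlinarith [sq_nonneg θ]) N
  have a2 := PhiS_cos θ
  have a3 : θ ^ 4 ≤ t ^ 4 / h ^ 2 := by
    have : θ ^ 4 = (θ ^ 2) ^ 2 := by ring
    rw [this, hs, div_pow, mul_pow, div_le_div_iff₀ (by positivity) (by positivity)]
    have b1 : (Real.pi ^ 2 / 6) ^ 2 ≤ 2 ^ 2 := pow_le_pow_left₀ (by positivity) hp2 2
    have b2 : 0 ≤ t ^ 4 * (h : ℝ) ^ 2 := by positivity
    have b3 := mul_le_mul_of_nonneg_left b1 b2
    calc (t ^ 2) ^ 2 * (Real.pi ^ 2 / 6) ^ 2 * (h : ℝ) ^ 2 =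
        t ^ 4 * (h : ℝ) ^ 2 * (Real.pi ^ 2 / 6) ^ 2 := by ring
      _ ≤ _ := b3
      _ = t ^ 4 * (2 * h) ^ 2 := by ring
  have a4 : (N : ℝ) * |Real.cos θ - Real.exp (-θ ^ 2 / 2)| ≤ 4 * t ^ 4 / h := by
    calc (N : ℝ) * |Real.cos θ - Real.exp (-θ ^ 2 / 2)| ≤ (2 * h) * (2 * (t ^ 4 / h ^ 2)) := by
          refine mul_le_mul hN' (a2.trans ?_) (abs_nonneg _) (by positivity)
          linarith
      _ = 4 * t ^ 4 / h := by field_simp; ring
  have a5 : Real.exp (-θ ^ 2 / 2) ^ N = Real.exp (N * (-θ ^ 2 / 2)) := by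
    rw [← Real.exp_nat_mul]
  have a6 : |Real.exp (N * (-θ ^ 2 / 2)) - Real.exp (-t ^ 2 / 2)| ≤
      |(N * (-θ ^ 2 / 2)) - (-t ^ 2 / 2)| := by
    refine PhiS_exp ?_ ?_
    · have : 0 ≤ (N : ℝ) * θ ^ 2 := by positivity
      linarith
    · have : 0 ≤ t ^ 2 := by positivity
      linarith
  have a7 : (N * (-θ ^ 2 / 2)) - (-t ^ 2 / 2) =
      -(θ ^ 2 / 2) * ((N : ℝ) - 6 / Real.pi ^ 2 * (2 * h)) := by
    rw [hs]
    field_simp
    ring
  have a8 : θ ^ 2 / 2 ≤ t ^ 2 / h := by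
    rw [hs, div_div, div_le_div_iff₀ (by positivity) hh]
    have := mul_le_mul_of_nonneg_left hp2 (show 0 ≤ t ^ 2 * h by positivity)
    nlinarith [show 0 ≤ t ^ 2 * (h : ℝ) by positivity]
  rw [a7, abs_mul, abs_neg, abs_of_nonneg (show 0 ≤ θ ^ 2 / 2 by positivity)] at a6
  have a9 := mul_le_mul_of_nonneg_right a8 (abs_nonneg ((N : ℝ) - 6 / Real.pi ^ 2 * (2 * h)))
  calc |Real.cos θ ^ N - Real.exp (-t ^ 2 / 2)| ≤
      |Real.cos θ ^ N - Real.exp (-θ ^ 2 / 2) ^ N| +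
        |Real.exp (-θ ^ 2 / 2) ^ N - Real.exp (-t ^ 2 / 2)| := abs_sub_le _ _ _
    _ ≤ 4 * t ^ 4 / h + t ^ 2 / h * |(N : ℝ) - 6 / Real.pi ^ 2 * (2 * h)| := by
      rw [a5] at a1 ⊢
      linarith

private theorem PhiS_AW {Ω : Type u} [MeasurableSpace Ω] (P : Measure Ω) [IsProbabilityMeasure P]
    (e : ℕ → Ω → ℝ) (W : Finset ℕ) (θ : ℝ) : ‖AW P e W θ‖ ≤ 1 := by
  unfold AW
  refine (norm_integral_le_of_norm_le_const (C := 1) (Eventually.of_forall fun ω => ?_)).trans ?_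
  · rw [mul_comm, Complex.norm_exp_ofReal_mul_I]
  · simp

private theorem PhiS_BW {Ω : Type u} [MeasurableSpace Ω] (P : Measure Ω) [IsProbabilityMeasure P]
    (e : ℕ → Ω → ℝ) (W W' : Finset ℕ) (θ : ℝ) : ‖BW P e W W' θ‖ ≤ 1 := by
  unfold BW
  refine (norm_integral_le_of_norm_le_const (C := 1) (Eventually.of_forall fun ω => ?_)).trans ?_
  · rw [mul_comm, Complex.norm_exp_ofReal_mul_I]
  · simp

theorem phiS (t : ℝ) : ∃ K : ℝ, 1 ≤ K ∧ ∀ᶠ X : ℕ in atTop, ∀ h : ℕ, 1 ≤ h →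
    (h : ℝ) ≤ Real.log X ^ 8 → ∃ c : ℝ, |c - Real.exp (-t ^ 2 / 2)| ≤ K / Real.sqrt h ∧
    ∀ (Ω : Type u) [MeasurableSpace Ω] (P : Measure Ω) [IsProbabilityMeasure P]
      (e : ℕ → Ω → ℝ), IsSigns P e →
    ∫ ω, ‖phiD (rmf e ω) X h (t / sg (2 * h)) - ((c : ℝ) : ℂ)‖ ^ 2 ∂P ≤
      K / Real.log X ^ 3 := by
  obtain ⟨C, hC1, hC⟩ := avgB
  obtain ⟨C₂, hC₂, hsq⟩ := sqf_win
  refine ⟨10 * C + 4 * t ^ 4 + t ^ 2 * C₂ + 1, by
    have : 0 ≤ 4 * t ^ 4 + t ^ 2 * C₂ := by positivity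
    linarith, ?_⟩
  have hcast : Tendsto (fun X : ℕ => (X : ℝ)) atTop atTop := tendsto_natCast_atTop_atTop
  have hlog : Tendsto (fun X : ℕ => Real.log (X : ℝ)) atTop atTop :=
    Real.tendsto_log_atTop.comp hcast
  have e1 : ∀ᶠ X : ℕ in atTop, Real.log (X : ℝ) ^ 18 ≤ X := by
    have h1 : (fun x : ℝ => Real.log x ^ 18) =o[atTop] fun x => x := by
      have := isLittleO_log_rpow_rpow_atTop (s := 1) 18 one_pos
      refine (this.congr' ?_ ?_)
      · filter_upwards with x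
        norm_cast
      · filter_upwards with x
        rw [Real.rpow_one]
    have h2 := h1.bound one_pos
    have h3 := hcast.eventually h2
    filter_upwards [h3] with X hX
    have h5 : |(X : ℝ)| = X := abs_of_nonneg (Nat.cast_nonneg X)
    rw [one_mul, Real.norm_eq_abs, Real.norm_eq_abs, h5] at hX
    exact (le_abs_self _).trans hX
  have e2 : ∀ᶠ X : ℕ in atTop, (2 : ℝ) ≤ Real.log (X : ℝ) := hlog.eventually_ge_atTop 2
  filter_upwards [hC, e1, e2, eventually_ge_atTop 2] with X hX hX18 hL2 hX2 h h1 hh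
  set L := Real.log (X : ℝ) with hL
  have hL0 : 0 < L := by linarith
  have hX0 : (0 : ℝ) < X := by
    have : (2 : ℝ) ≤ X := by exact_mod_cast hX2
    linarith
  have hh0 : (0 : ℝ) < h := by exact_mod_cast h1
  have hhX : (h : ℝ) ≤ X / L ^ 10 := by
    rw [le_div_iff₀ (by positivity)]
    calc (h : ℝ) * L ^ 10 ≤ L ^ 8 * L ^ 10 := mul_le_mul_of_nonneg_right hh (by positivity)
      _ = L ^ 18 := by ring
      _ ≤ X := hX18
  have hhX' : h + 1 ≤ X := by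
    have a1 : (h : ℝ) * 2 ≤ X := by
      have b1 : (2 : ℝ) ≤ L ^ 10 := by
        calc (2 : ℝ) ≤ 2 ^ 10 := by norm_num
          _ ≤ L ^ 10 := pow_le_pow_left₀ (by norm_num) hL2 10
      calc (h : ℝ) * 2 ≤ h * L ^ 10 := mul_le_mul_of_nonneg_left b1 hh0.le
        _ ≤ X := by rwa [le_div_iff₀ (by positivity)] at hhX
    have a2 : h * 2 ≤ X := by exact_mod_cast a1
    omega
  obtain ⟨g1, -, g3, -⟩ := hX h h1 hhX
  have hW : ∀ k ∈ Ico X (2 * X), (∀ n ∈ Wk k h, Squarefree n ∧ 2 ≤ n) ∧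
      (Wk k h).card ≤ 2 * h := fun k hk => Wk_facts (hhX'.trans (mem_Ico.1 hk).1)
  set θ := t / sg (2 * h) with hθ
  set Ck : ℕ → ℝ := fun k => Real.cos θ ^ (Wk k h).card with hCk
  have hCk1 : ∀ k, |Ck k| ≤ 1 := fun k => by
    simp only [hCk]
    rw [abs_pow]
    exact pow_le_one₀ (abs_nonneg _) (Real.abs_cos_le_one θ)
  have hcard : ((Ico X (2 * X)).card : ℝ) = X := by
    rw [Nat.card_Ico]
    have : 2 * X - X = X := by omega
    rw [this]
  -- the numerical bounds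
  have hL4 : (h : ℝ) ^ 2 / L ^ 20 ≤ 1 / L ^ 4 := by
    rw [div_le_div_iff₀ (by positivity) (by positivity)]
    have : (h : ℝ) ^ 2 ≤ (L ^ 8) ^ 2 := pow_le_pow_left₀ hh0.le hh 2
    calc (h : ℝ) ^ 2 * L ^ 4 ≤ (L ^ 8) ^ 2 * L ^ 4 :=
          mul_le_mul_of_nonneg_right this (by positivity)
      _ = 1 * L ^ 20 := by ring
  have g1' : ∑ k ∈ Ico X (2 * X), (D1 (Wk k h) : ℝ) ≤ C * X / L ^ 4 := by
    refine g1.trans ?_
    calc C * X * (h : ℝ) ^ 2 / L ^ 20 = C * X * ((h : ℝ) ^ 2 / L ^ 20) := by ring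
      _ ≤ C * X * (1 / L ^ 4) := mul_le_mul_of_nonneg_left hL4 (by positivity)
      _ = C * X / L ^ 4 := by ring
  have g3' : ∑ k ∈ Ico X (2 * X), ∑ l ∈ Ico X (2 * X), (T2 (Wk k h) (Wk l h) : ℝ) ≤
      C * X ^ 2 / L ^ 4 := by
    refine g3.trans ?_
    calc C * (X : ℝ) ^ 2 * (h : ℝ) ^ 2 / L ^ 20 = C * (X : ℝ) ^ 2 * ((h : ℝ) ^ 2 / L ^ 20) := by
          ring
      _ ≤ C * (X : ℝ) ^ 2 * (1 / L ^ 4) := mul_le_mul_of_nonneg_left hL4 (by positivity)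
      _ = C * (X : ℝ) ^ 2 / L ^ 4 := by ring
  refine ⟨(1 / (X : ℝ)) * ∑ k ∈ Ico X (2 * X), Ck k, ?_, ?_⟩
  · -- the constant
    have b1 : (1 / (X : ℝ)) * ∑ k ∈ Ico X (2 * X), Ck k - Real.exp (-t ^ 2 / 2) =
        (1 / (X : ℝ)) * ∑ k ∈ Ico X (2 * X), (Ck k - Real.exp (-t ^ 2 / 2)) := by
      rw [sum_sub_distrib, sum_const, nsmul_eq_mul, hcard]
      field_simp
    rw [b1, abs_mul, abs_of_pos (by positivity : (0 : ℝ) < 1 / X)]
    have b2 : |∑ k ∈ Ico X (2 * X), (Ck k - Real.exp (-t ^ 2 / 2))| ≤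
        X * (4 * t ^ 4 / h) + t ^ 2 / h * (C₂ * X * Real.sqrt h) := by
      refine (abs_sum_le_sum_abs _ _).trans ?_
      calc ∑ k ∈ Ico X (2 * X), |Ck k - Real.exp (-t ^ 2 / 2)| ≤
          ∑ k ∈ Ico X (2 * X), (4 * t ^ 4 / h + t ^ 2 / h *
            |((Wk k h).card : ℝ) - 6 / Real.pi ^ 2 * (2 * h)|) :=
            sum_le_sum fun k hk => PhiS_one t h1 (hW k hk).2
        _ = X * (4 * t ^ 4 / h) + t ^ 2 / h *
            ∑ k ∈ Ico X (2 * X), |((Wk k h).card : ℝ) - 6 / Real.pi ^ 2 * (2 * h)| := by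
            rw [sum_add_distrib, sum_const, nsmul_eq_mul, hcard, mul_sum]
        _ ≤ _ := by
            have := mul_le_mul_of_nonneg_left (hsq X h h1 (by omega))
              (show 0 ≤ t ^ 2 / (h : ℝ) by positivity)
            linarith
    have hs0 : 0 < Real.sqrt h := Real.sqrt_pos.2 hh0
    have hs1 : Real.sqrt h * Real.sqrt h = h := Real.mul_self_sqrt hh0.le
    have hs2 : 1 ≤ Real.sqrt h := by
      rw [Real.one_le_sqrt]
      exact_mod_cast h1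
    calc 1 / (X : ℝ) * |∑ k ∈ Ico X (2 * X), (Ck k - Real.exp (-t ^ 2 / 2))| ≤
        1 / (X : ℝ) * (X * (4 * t ^ 4 / h) + t ^ 2 / h * (C₂ * X * Real.sqrt h)) :=
          mul_le_mul_of_nonneg_left b2 (by positivity)
      _ = 4 * t ^ 4 / h + t ^ 2 * C₂ * (Real.sqrt h / h) := by field_simp
      _ = 4 * t ^ 4 / h + t ^ 2 * C₂ / Real.sqrt h := by
          have : Real.sqrt h / h = 1 / Real.sqrt h := by
            rw [div_eq_div_iff hh0.ne' hs0.ne']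
            linarith
          rw [this]; ring
      _ ≤ 4 * t ^ 4 / Real.sqrt h + t ^ 2 * C₂ / Real.sqrt h := by
          have : 4 * t ^ 4 / (h : ℝ) ≤ 4 * t ^ 4 / Real.sqrt h := by
            refine div_le_div_of_nonneg_left (by positivity) hs0 ?_
            nlinarith
          linarith
      _ = (4 * t ^ 4 + t ^ 2 * C₂) / Real.sqrt h := by ring
      _ ≤ _ := by
          refine div_le_div_of_nonneg_right ?_ hs0.le
          linarith
  · -- the second moment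
    intro Ω _ P _ e he
    refine (secmom he (by omega) h θ Ck hCk1).trans ?_
    have c1 : ∀ k ∈ Ico X (2 * X), ‖AW P e (Wk k h) θ - ((Ck k : ℝ) : ℂ)‖ ≤
        2 * (D1 (Wk k h) : ℝ) := by
      intro k hk
      by_cases hD : D1 (Wk k h) = 0
      · rw [charA0 he (hW k hk).1 hD θ, sub_self, norm_zero, hD]
        simp
      · have d1 : (1 : ℝ) ≤ D1 (Wk k h) := by
          exact_mod_cast Nat.one_le_iff_ne_zero.2 hD
        have d2 := PhiS_AW P e (Wk k h) θ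
        have d3 : ‖((Ck k : ℝ) : ℂ)‖ ≤ 1 := by
          rw [Complex.norm_real]
          exact hCk1 k
        have d4 := norm_sub_le (AW P e (Wk k h) θ) ((Ck k : ℝ) : ℂ)
        linarith
    have c2 : ∀ k ∈ Ico X (2 * X), ∀ l ∈ Ico X (2 * X),
        ‖BW P e (Wk k h) (Wk l h) θ - ((Ck k * Ck l : ℝ) : ℂ)‖ ≤
        2 * (D1 (Wk k h) : ℝ) + 2 * (D1 (Wk l h) : ℝ) + 2 * (T2 (Wk k h) (Wk l h) : ℝ) := by
      intro k hk l hl
      by_cases hD : D1 (Wk k h) = 0 ∧ D1 (Wk l h) = 0 ∧ T2 (Wk k h) (Wk l h) = 0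
      · obtain ⟨hD1, hD2, hT⟩ := hD
        rw [charB0 he (hW k hk).1 (hW l hl).1 hD1 hD2 hT θ, sub_self, norm_zero]
        positivity
      · have d1 : (1 : ℝ) ≤ (D1 (Wk k h) : ℝ) + (D1 (Wk l h) : ℝ) +
            (T2 (Wk k h) (Wk l h) : ℝ) := by
          have : 1 ≤ D1 (Wk k h) + D1 (Wk l h) + T2 (Wk k h) (Wk l h) := by
            by_contra hcon
            exact hD (by omega)
          exact_mod_cast this
        have d2 := PhiS_BW P e (Wk k h) (Wk l h) θ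
        have d3 : ‖((Ck k * Ck l : ℝ) : ℂ)‖ ≤ 1 := by
          rw [Complex.norm_real, norm_mul]
          exact mul_le_one₀ (hCk1 k) (norm_nonneg _) (hCk1 l)
        have d4 := norm_sub_le (BW P e (Wk k h) (Wk l h) θ) ((Ck k * Ck l : ℝ) : ℂ)
        linarith
    have c3 : ∑ k ∈ Ico X (2 * X), ‖AW P e (Wk k h) θ - ((Ck k : ℝ) : ℂ)‖ ≤
        2 * (C * X / L ^ 4) := by
      refine (sum_le_sum c1).trans ?_
      rw [← mul_sum]
      linarith
    have c4 : ∑ k ∈ Ico X (2 * X), ∑ l ∈ Ico X (2 * X),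
        ‖BW P e (Wk k h) (Wk l h) θ - ((Ck k * Ck l : ℝ) : ℂ)‖ ≤
        6 * (C * X ^ 2 / L ^ 4) := by
      refine (sum_le_sum fun k hk => sum_le_sum fun l hl => c2 k hk l hl).trans ?_
      have s1 : ∑ k ∈ Ico X (2 * X), ∑ l ∈ Ico X (2 * X), (2 * (D1 (Wk k h) : ℝ) +
          2 * (D1 (Wk l h) : ℝ) + 2 * (T2 (Wk k h) (Wk l h) : ℝ)) =
          X * (2 * ∑ k ∈ Ico X (2 * X), (D1 (Wk k h) : ℝ)) +
          X * (2 * ∑ k ∈ Ico X (2 * X), (D1 (Wk k h) : ℝ)) +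
          2 * ∑ k ∈ Ico X (2 * X), ∑ l ∈ Ico X (2 * X), (T2 (Wk k h) (Wk l h) : ℝ) := by
        simp only [sum_add_distrib, sum_const, nsmul_eq_mul, hcard, ← mul_sum]
      rw [s1]
      have s2 := mul_le_mul_of_nonneg_left g1' hX0.le
      have s3 : (X : ℝ) * (C * X / L ^ 4) = C * X ^ 2 / L ^ 4 := by ring
      rw [s3] at s2
      linarith
    calc (1 / (X : ℝ) ^ 2) * ∑ k ∈ Ico X (2 * X), ∑ l ∈ Ico X (2 * X),
          ‖BW P e (Wk k h) (Wk l h) θ - ((Ck k * Ck l : ℝ) : ℂ)‖ +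
        (2 / (X : ℝ)) * ∑ k ∈ Ico X (2 * X), ‖AW P e (Wk k h) θ - ((Ck k : ℝ) : ℂ)‖ ≤
        (1 / (X : ℝ) ^ 2) * (6 * (C * X ^ 2 / L ^ 4)) + (2 / (X : ℝ)) * (2 * (C * X / L ^ 4)) :=
          add_le_add (mul_le_mul_of_nonneg_left c4 (by positivity))
            (mul_le_mul_of_nonneg_left c3 (by positivity))
      _ = 10 * C / L ^ 4 := by field_simp; ring
      _ ≤ 10 * C / L ^ 3 := by
          refine div_le_div_of_nonneg_left (by positivity) (by positivity) ?_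
          exact pow_le_pow_right₀ (by linarith) (by norm_num)
      _ ≤ _ := by
          refine div_le_div_of_nonneg_right ?_ (by positivity)
          have : 0 ≤ 4 * t ^ 4 + t ^ 2 * C₂ := by positivity
          linarith

end Pool.Agent.H41.RG
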