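import Pool.Agent.H41.RG.MartA

/-!
# RG Struct: decomposition by the largest prime factor

`W` is a finite set of squarefree numbers `≥ 2`.
`lp_facts`: for squarefree `n ≥ 2`, `lp n` is a prime dividing `n`, `lp n ≤ n`, `n / lp n` is
squarefree, its prime factors are those of `n` without `lp n` and are all `< lp n`.
`rmf_lp`: `f(n) = e_{lp n} f(n / lp n)` (for every `ω`).
`measurable_Sp`: `Sp e W p` is `Past e p`-measurable (finite sum of products of `e q`, `q < p`).
`sum_rmf`: `∑_{n∈W} f(n) = ∑_{p<m} e_p Sp e W p` as soon as all elements of `W` are `< m`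
(`lp n ≤ n < m`; `Finset.sum_fiberwise`-like).
`Sp_mul`: a.e. (`e_p² = 1`), for all `p`: `Sp e W p * Sp e W' p = ∑ f(n) f(n')` over the
`(n, n') ∈ W × W'` with `lp n = p = lp n'`.
`Sp_bdd`: a.e. `|Sp e W p| ≤ #W`.
-/

set_option autoImplicit false

namespace Pool.Agent.H41.RG

open Finset MeasureTheory ProbabilityTheory
open Pool.Agent.H18.RM (IsSigns rmf)

variable {Ω : Type*} [mΩ : MeasurableSpace Ω] {P : Measure Ω} [IsProbabilityMeasure P]
  {e : ℕ → Ω → ℝ}

theorem lp_facts {n : ℕ} (hn : Squarefree n) (h2 : 2 ≤ n) :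
    (lp n).Prime ∧ lp n ∣ n ∧ lp n ≤ n ∧ Squarefree (n / lp n) ∧
      (∀ q ∈ (n / lp n).primeFactors, q < lp n) ∧
      n.primeFactors = insert (lp n) (n / lp n).primeFactors ∧
      lp n ∉ (n / lp n).primeFactors := by
  have hne : n.primeFactors.Nonempty := Nat.nonempty_primeFactors.mpr h2
  have hmem : lp n ∈ n.primeFactors := by
    obtain ⟨i, hi, he⟩ := Finset.exists_mem_eq_sup n.primeFactors hne id
    unfold lp
    rw [he]
    exact hi
  have hp : (lp n).Prime := Nat.prime_of_mem_primeFactors hmem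
  have hd : lp n ∣ n := Nat.dvd_of_mem_primeFactors hmem
  have hn0 : n ≠ 0 := by omega
  have hmul : lp n * (n / lp n) = n := Nat.mul_div_cancel' hd
  have hsq : Squarefree (lp n * (n / lp n)) := by rw [hmul]; exact hn
  have hcop : Nat.Coprime (lp n) (n / lp n) := Nat.coprime_of_squarefree_mul hsq
  have hq0 : n / lp n ≠ 0 := by
    intro h0
    rw [h0, mul_zero] at hmul
    exact hn0 hmul.symm
  have hnot : lp n ∉ (n / lp n).primeFactors := by
    intro h
    have h1 := Nat.dvd_of_mem_primeFactors h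
    have h3 := Nat.Coprime.eq_one_of_dvd hcop h1
    exact hp.one_lt.ne' h3
  have hpf : n.primeFactors = insert (lp n) (n / lp n).primeFactors := by
    have h1 : (lp n * (n / lp n)).primeFactors = (lp n).primeFactors ∪ (n / lp n).primeFactors :=
      Nat.primeFactors_mul hp.ne_zero hq0
    rw [hmul, hp.primeFactors] at h1
    rw [h1]
    ext q
    simp
  refine ⟨hp, hd, Nat.le_of_dvd (by omega) hd, hsq.of_mul_right, ?_, hpf, hnot⟩
  intro q hq
  have hq1 : q ∈ n.primeFactors := by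
    rw [hpf]
    exact Finset.mem_insert_of_mem hq
  have hle : q ≤ lp n := Finset.le_sup (f := id) hq1
  refine lt_of_le_of_ne hle ?_
  intro h
  rw [h] at hq
  exact hnot hq

theorem rmf_lp (e : ℕ → Ω → ℝ) (ω : Ω) {n : ℕ} (hn : Squarefree n) (h2 : 2 ≤ n) :
    rmf e ω n = e (lp n) ω * rmf e ω (n / lp n) := by
  obtain ⟨_, _, _, hs, _, hpf, hnot⟩ := lp_facts hn h2
  unfold rmf
  rw [if_pos hn, if_pos hs, hpf, Finset.prod_insert hnot]

theorem measurable_Sp (e : ℕ → Ω → ℝ) {W : Finset ℕ} (hW : ∀ n ∈ W, Squarefree n ∧ 2 ≤ n)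
    (p : ℕ) : Measurable[Past e p] (Sp e W p) := by
  unfold Sp
  refine Finset.measurable_sum _ fun n hn => ?_
  rw [Finset.mem_filter] at hn
  obtain ⟨hnW, hnp⟩ := hn
  obtain ⟨_, _, _, hs, hlt, _, _⟩ := lp_facts (hW n hnW).1 (hW n hnW).2
  rw [hnp] at hs hlt
  have he : (fun ω => rmf e ω (n / p)) = fun ω => ∏ q ∈ (n / p).primeFactors, e q ω := by
    funext ω
    unfold rmf
    rw [if_pos hs]
  rw [he]
  exact Finset.measurable_prod _ fun q hq => measurable_past (hlt q hq)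

theorem sum_rmf (e : ℕ → Ω → ℝ) {W : Finset ℕ} (hW : ∀ n ∈ W, Squarefree n ∧ 2 ≤ n) {m : ℕ}
    (hm : ∀ n ∈ W, n < m) (ω : Ω) :
    ∑ n ∈ W, rmf e ω n = ∑ p ∈ range m, e p ω * Sp e W p ω := by
  rw [← Finset.sum_fiberwise_of_maps_to (s := W) (t := range m) (g := lp)
    (fun n hn => Finset.mem_range.mpr
      (lt_of_le_of_lt (lp_facts (hW n hn).1 (hW n hn).2).2.2.1 (hm n hn)))]
  refine Finset.sum_congr rfl fun p _ => ?_
  unfold Sp
  rw [Finset.mul_sum]
  refine Finset.sum_congr rfl fun n hn => ?_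
  rw [Finset.mem_filter] at hn
  have h1 := rmf_lp e ω (hW n hn.1).1 (hW n hn.1).2
  rw [hn.2] at h1
  exact h1

theorem Sp_mul (h : IsSigns P e) {W W' : Finset ℕ} (hW : ∀ n ∈ W, Squarefree n ∧ 2 ≤ n)
    (hW' : ∀ n ∈ W', Squarefree n ∧ 2 ≤ n) :
    ∀ᵐ ω ∂P, ∀ p, Sp e W p ω * Sp e W' p ω =
      ∑ t ∈ (W ×ˢ W').filter (fun t => lp t.1 = p ∧ lp t.2 = p), rmf e ω t.1 * rmf e ω t.2 := by
  filter_upwards [h.ae_signs] with ω hω p
  unfold Sp
  rw [Finset.sum_mul_sum, ← Finset.sum_product']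
  have hset : (W.filter (fun n => lp n = p)) ×ˢ (W'.filter (fun n => lp n = p)) =
      (W ×ˢ W').filter (fun t => lp t.1 = p ∧ lp t.2 = p) := by
    ext t
    simp only [Finset.mem_product, Finset.mem_filter]
    tauto
  rw [hset]
  refine Finset.sum_congr rfl fun t ht => ?_
  rw [Finset.mem_filter, Finset.mem_product] at ht
  obtain ⟨⟨h1, h2⟩, h3, h4⟩ := ht
  have e1 := rmf_lp e ω (hW _ h1).1 (hW _ h1).2
  have e2 := rmf_lp e ω (hW' _ h2).1 (hW' _ h2).2
  rw [h3] at e1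
  rw [h4] at e2
  rw [e1, e2]
  have hsq : e p ω * e p ω = 1 := by
    rcases hω p with hp | hp <;> rw [hp] <;> norm_num
  linear_combination (-(rmf e ω (t.1 / p) * rmf e ω (t.2 / p))) * hsq

theorem Sp_bdd (h : IsSigns P e) (W : Finset ℕ) :
    ∀ᵐ ω ∂P, ∀ p, |Sp e W p ω| ≤ W.card := by
  filter_upwards [Pool.Agent.H18.RM.rmf_sq h] with ω hω p
  unfold Sp
  calc |∑ n ∈ W.filter (fun n => lp n = p), rmf e ω (n / p)|
      ≤ ∑ n ∈ W.filter (fun n => lp n = p), |rmf e ω (n / p)| := Finset.abs_sum_le_sum_abs _ _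
    _ ≤ ∑ _n ∈ W.filter (fun n => lp n = p), (1 : ℝ) :=
        Finset.sum_le_sum fun n _ => (hω (n / p)).1
    _ = ((W.filter (fun n => lp n = p)).card : ℝ) := by simp
    _ ≤ (W.card : ℝ) := by
        exact_mod_cast Finset.card_filter_le _ _

end Pool.Agent.H41.RG
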