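import Pool.Agent.H41.RG.BridgeA
import Pool.Agent.H41.RG.Net
import Pool.Agent.H41.RG.PhiL
import Pool.Agent.H41.RG.PhiS
import Pool.Agent.H18.RM.SeqA

/-!
# RG Unif: uniform statement for fixed `t`

`MS_ae`: from `Pool.Agent.H18.RM.law_ae` with `B = 0` (`|V/(H/ζ(2)) - 1| ≤ 1`, so
`∫_Y^{2Y} M² ≤ 2 (6/π²) Y H ≤ 2 Y H`; `MR` against `MC`: see `M_sq` in
`Pool/Agent/Results/MP_0575cc_nt/RandomModel.lean`).

`unif`: fix `t`, `δ > 0`; take `η` small, `ρ = 1 + η`, `ε = δ/4`; `phiS`, `phiL` give `hphi` (for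
`h ≤ L^8` or `h ≥ L^8`), `net_ae` gives the net.  Given large `X`, `H` choose `i` with
`ρ^i ≤ X < ρ^(i+1)`, `K = ⌈ρ^i⌉₊`, and `j` with `ρ^j ≤ H/2 < ρ^(j+1)`, `h = ⌈ρ^j⌉₊`: `|X - K| ≤ 2ηX`,
`|H - 2h| ≤ 2 η H + 2`.  `phiC g K (2h) t = phiD g K h _` (`disc_eq`);
`phi_H` (whichever of `H`, `2h` is larger) and `phi_X` (whichever of `X`, `K` is larger).  The
hypothesis of `phi_H` holds for large `X` by `MS_ae` (`r ≤ H ≤ X/L^25 ≤ Y/(log Y)^25` for
`Y ∈ {X/2, X, 2X}`; note that `y/(log y)^25` is increasing for large `y` and `Y = X/2` loses a factor `2`,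
so use it for the windows `r ≤ H ≤ X/L^26`, which is at most `(X/2)/(log(X/2))^25` for large `X`; the
range of `H` in the statement is `X/L^26`).  Errors: `6·2η + C|t| √(4η + 4/H) + ε + K/√h ≤ δ` for
small `η` and large `H`.  Take a countable intersection over `δ = 1/(n+1)`.
-/

set_option autoImplicit false

namespace Pool.Agent.H41.RG

open Finset MeasureTheory ProbabilityTheory Filter
open Pool.Agent.H18.RM (IsSigns rmf)

private theorem Unif_MR_sq (g : ℕ → ℝ) (x H : ℝ) :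
    (MR g x H) ^ 2 = ‖Pool.Agent.H18.RM.MC (fun n => (g n : ℂ)) x H‖ ^ 2 := by
  have : Pool.Agent.H18.RM.MC (fun n => (g n : ℂ)) x H = ((MR g x H : ℝ) : ℂ) := by
    unfold Pool.Agent.H18.RM.MC MR
    push_cast
    rfl
  rw [this, Complex.norm_real, Real.norm_eq_abs, sq_abs]

theorem MS_ae {Ω : Type*} [MeasurableSpace Ω] {P : Measure Ω} [IsProbabilityMeasure P]
    {e : ℕ → Ω → ℝ} (hs : IsSigns P e) :
    ∀ᵐ ω ∂P, ∀ᶠ X : ℝ in atTop, ∀ r : ℝ, 1 ≤ r → r ≤ X / Real.log X ^ 25 →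
      ∫ x in X..2 * X, (MR (rmf e ω) x r) ^ 2 ≤ 2 * X * r := by
  filter_upwards [Pool.Agent.H18.RM.law_ae hs 0] with ω hω
  filter_upwards [hω, eventually_ge_atTop (1 : ℝ)] with X hX hX1 r hr1 hr2
  have h1 := hX r hr1 (by simpa using hr2)
  have e1 : ∫ x in X..2 * X, (MR (rmf e ω) x r) ^ 2 =
      Pool.Agent.H18.RM.IC (fun n => (rmf e ω n : ℂ)) X (2 * X) r := by
    unfold Pool.Agent.H18.RM.IC
    simp only [Unif_MR_sq]
  rw [e1]
  set I := Pool.Agent.H18.RM.IC (fun n => (rmf e ω n : ℂ)) X (2 * X) r with hI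
  rw [pow_zero, div_one] at h1
  have h2 := (abs_le.1 h1).2
  have hX0 : 0 < X := by linarith
  have hr0 : 0 < r := by linarith
  have hpi : 3 < Real.pi := Real.pi_gt_three
  have hq : 0 < r / (Real.pi ^ 2 / 6) := by positivity
  have h3 : 1 / X * I ≤ 2 * (r / (Real.pi ^ 2 / 6)) := by
    have h4 : 1 / X * I / (r / (Real.pi ^ 2 / 6)) ≤ 2 := by linarith
    rwa [div_le_iff₀ hq] at h4
  have h5 : r / (Real.pi ^ 2 / 6) ≤ r := by
    apply div_le_self hr0.le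
    nlinarith
  have h6 : 1 / X * I ≤ 2 * r := by linarith
  have h7 : I = X * (1 / X * I) := by field_simp
  rw [h7]
  nlinarith

/-- From a net point to `(X, H)`. -/
private theorem Unif_step {C : ℝ} (hC : 1 ≤ C)
    (hphiH : ∀ (g : ℕ → ℝ), (∀ n, |g n| ≤ 1) → ∀ X H H' : ℝ, 16 ≤ X →
      1 ≤ H' → H' ≤ H → H ≤ 4 * H' → 4 * H ≤ X →
      (∀ Y ∈ ({X / 2, X, 2 * X} : Set ℝ), ∀ r : ℝ, 1 ≤ r → r ≤ H →
        ∫ x in Y..2 * Y, (MR g x r) ^ 2 ≤ 2 * Y * r) → ∀ t : ℝ,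
      ‖phiC g X H t - phiC g X H' t‖ ≤ C * |t| * Real.sqrt ((H - H') / H + 1 / H))
    {g : ℕ → ℝ} (hg : ∀ n, |g n| ≤ 1) (hg0 : ∀ n, ¬ Squarefree n → g n = 0)
    {X H : ℝ} {K h : ℕ} {η : ℝ} (t : ℝ) (hη0 : 0 < η) (hη1 : η ≤ 1)
    (hX : 16 ≤ X) (hH : 4 ≤ H) (hHX : 8 * H ≤ X)
    (hK1 : (K : ℝ) ≤ (1 + η) * X) (hK2 : X ≤ (1 + η) * K)
    (hh1 : 2 * (h : ℝ) ≤ H + 2) (hh2 : H ≤ (1 + η) * (2 * h))
    (hms : ∀ Y ∈ ({X / 2, X, 2 * X} : Set ℝ), ∀ r : ℝ, 1 ≤ r → r ≤ 2 * H →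
      ∫ x in Y..2 * Y, (MR g x r) ^ 2 ≤ 2 * Y * r) :
    ‖phiC g X H t - phiD g K h (t / sg (2 * h))‖ ≤ C * |t| * Real.sqrt (η + 3 / H) + 6 * η := by
  have hh0 : (0 : ℝ) ≤ h := Nat.cast_nonneg h
  have hK0 : (0 : ℝ) ≤ K := Nat.cast_nonneg K
  have hH2 : H ≤ 2 * (2 * (h : ℝ)) := by nlinarith
  have hX2 : X ≤ 2 * (K : ℝ) := by nlinarith
  have hh3 : (1 : ℝ) ≤ h := by linarith
  have hh4 : 1 ≤ h := by exact_mod_cast hh3
  have hhK : (h : ℝ) ≤ K := by linarith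
  have hhK' : h ≤ K := by exact_mod_cast hhK
  have hH0 : 0 < H := by linarith
  have hCt : 0 ≤ C * |t| := mul_nonneg (by linarith) (abs_nonneg t)
  -- the length
  have s1 : ‖phiC g X H t - phiC g X (2 * h) t‖ ≤ C * |t| * Real.sqrt (η + 3 / H) := by
    rcases le_total (2 * (h : ℝ)) H with hc | hc
    · refine (hphiH g hg X H (2 * h) hX (by linarith) hc (by linarith) (by linarith)
        (fun Y hY r hr1 hr2 => hms Y hY r hr1 (by linarith)) t).trans ?_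
      refine mul_le_mul_of_nonneg_left (Real.sqrt_le_sqrt ?_) hCt
      have e1 : (H - 2 * (h : ℝ)) / H ≤ η := by
        rw [div_le_iff₀ hH0]
        nlinarith
      have e2 : 1 / H ≤ 3 / H := div_le_div_of_nonneg_right (by norm_num) hH0.le
      linarith
    · rw [norm_sub_rev]
      refine (hphiH g hg X (2 * h) H hX (by linarith) hc (by linarith) (by linarith)
        (fun Y hY r hr1 hr2 => hms Y hY r hr1 (by linarith)) t).trans ?_
      refine mul_le_mul_of_nonneg_left (Real.sqrt_le_sqrt ?_) hCt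
      have h2h : 0 < 2 * (h : ℝ) := by linarith
      have e1 : (2 * (h : ℝ) - H) / (2 * h) + 1 / (2 * h) ≤ 3 / (2 * h) := by
        rw [← add_div]
        exact div_le_div_of_nonneg_right (by linarith) h2h.le
      have e2 : 3 / (2 * (h : ℝ)) ≤ 3 / H := div_le_div_of_nonneg_left (by norm_num) hH0 hc
      linarith
  -- the interval
  have s2 : ‖phiC g X (2 * h) t - phiC g K (2 * h) t‖ ≤ 6 * η := by
    rcases le_total X (K : ℝ) with hc | hc
    · exact phi_X hg (by linarith) (by linarith) hc hK1 hη1 t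
    · rw [norm_sub_rev]
      exact phi_X hg (by linarith) (by linarith) hc hK2 hη1 t
  rw [← disc_eq hg0 hh4 hhK' t]
  calc ‖phiC g X H t - phiC g K (2 * h) t‖
      = ‖(phiC g X H t - phiC g X (2 * h) t) + (phiC g X (2 * h) t - phiC g K (2 * h) t)‖ := by
        congr 1; ring
    _ ≤ _ := (norm_add_le _ _).trans (add_le_add s1 s2)

/-- Conditions on the sizes. -/
private theorem Unif_size {X H L : ℝ} {K h : ℕ} (hX : 16 ≤ X) (hH : 4 ≤ H)
    (hL : Real.log X = L) (hL27 : 2 ^ 27 ≤ L) (hHX : H ≤ X / L ^ 26)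
    (hK1 : (K : ℝ) ≤ 2 * X) (hK2 : X ≤ 2 * K) (hh1 : 2 * (h : ℝ) ≤ H + 2) :
    8 * H ≤ X ∧ (h : ℝ) ≤ K / Real.log K ^ 10 ∧
      ∀ Y ∈ ({X / 2, X, 2 * X} : Set ℝ), 2 * H ≤ Y / Real.log Y ^ 25 := by
  have hX0 : 0 < X := by linarith
  have hL0 : 0 < L := by linarith [show (0 : ℝ) < 2 ^ 27 by norm_num]
  have hL1 : 1 ≤ L := by linarith [show (1 : ℝ) ≤ 2 ^ 27 by norm_num]
  have hHL : H * L ^ 26 ≤ X := by rwa [le_div_iff₀ (by positivity)] at hHX
  have hlog2 : Real.log 2 ≤ 1 := by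
    have := Real.log_le_sub_one_of_pos (show (0 : ℝ) < 2 by norm_num)
    linarith
  have hlog2X : Real.log (2 * X) ≤ 2 * L := by
    rw [Real.log_mul (by norm_num) (by positivity), hL]
    linarith
  have hY : ∀ Y : ℝ, X / 2 ≤ Y → Y ≤ 2 * X → 0 < Real.log Y ∧ Real.log Y ≤ 2 * L := by
    intro Y h1 h2
    have hY0 : 0 < Y := by linarith
    refine ⟨Real.log_pos (by linarith), ?_⟩
    exact (Real.log_le_log hY0 h2).trans hlog2X
  have hP : ∀ n : ℕ, n ≤ 25 → 2 ^ (n + 1) * L ^ n ≤ L ^ 26 := by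
    intro n hn
    calc 2 ^ (n + 1) * L ^ n ≤ 2 ^ 27 * L ^ n := by
          refine mul_le_mul_of_nonneg_right ?_ (by positivity)
          exact pow_le_pow_right₀ (by norm_num) (by omega)
      _ ≤ L * L ^ n := mul_le_mul_of_nonneg_right hL27 (by positivity)
      _ = L ^ (n + 1) := by ring
      _ ≤ L ^ 26 := pow_le_pow_right₀ hL1 (by omega)
  refine ⟨?_, ?_, ?_⟩
  · have h1 : (8 : ℝ) ≤ L ^ 26 := by
      calc (8 : ℝ) ≤ 2 ^ 27 := by norm_num
        _ ≤ L := hL27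
        _ = L ^ 1 := (pow_one L).symm
        _ ≤ L ^ 26 := pow_le_pow_right₀ hL1 (by norm_num)
    nlinarith
  · obtain ⟨l0, l1⟩ := hY K (by linarith) hK1
    rw [le_div_iff₀ (by positivity)]
    have h1 : Real.log K ^ 10 ≤ (2 * L) ^ 10 := pow_le_pow_left₀ l0.le l1 10
    have h2 : 2 ^ (10 + 1) * L ^ 10 ≤ L ^ 26 := hP 10 (by norm_num)
    have h3 : (h : ℝ) ≤ H := by linarith
    have h4 : (2 * L) ^ 10 * 2 ≤ L ^ 26 := by
      calc (2 * L) ^ 10 * 2 = 2 ^ (10 + 1) * L ^ 10 := by ring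
        _ ≤ _ := h2
    calc (h : ℝ) * Real.log K ^ 10 ≤ H * (2 * L) ^ 10 := by
          apply mul_le_mul h3 h1 (by positivity) (by linarith)
      _ ≤ (K : ℝ) := by
          have h5 : H * ((2 * L) ^ 10 * 2) ≤ H * L ^ 26 :=
            mul_le_mul_of_nonneg_left h4 (by linarith)
          linarith
  · have key : ∀ Y : ℝ, X / 2 ≤ Y → Y ≤ 2 * X → 2 * H ≤ Y / Real.log Y ^ 25 := by
      intro Y h1 h2
      obtain ⟨l0, l1⟩ := hY Y h1 h2
      rw [le_div_iff₀ (by positivity)]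
      have h3 : Real.log Y ^ 25 ≤ (2 * L) ^ 25 := pow_le_pow_left₀ l0.le l1 25
      have h4 : (2 * L) ^ 25 * 4 ≤ L ^ 26 := by
        calc (2 * L) ^ 25 * 4 = 2 ^ 27 * L ^ 25 := by ring
          _ ≤ L * L ^ 25 := mul_le_mul_of_nonneg_right hL27 (by positivity)
          _ = L ^ 26 := by ring
      calc 2 * H * Real.log Y ^ 25 ≤ 2 * H * (2 * L) ^ 25 :=
            mul_le_mul_of_nonneg_left h3 (by linarith)
        _ ≤ X / 2 := by
            have h5 : H * ((2 * L) ^ 25 * 4) ≤ H * L ^ 26 :=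
              mul_le_mul_of_nonneg_left h4 (by linarith)
            linarith
        _ ≤ Y := h1
    intro Y hYm
    simp only [Set.mem_insert_iff, Set.mem_singleton_iff] at hYm
    rcases hYm with rfl | rfl | rfl
    · exact key _ le_rfl (by linarith)
    · exact key _ (by linarith) (by linarith)
    · exact key _ (by linarith) le_rfl

/-- The choice of `η`. -/
private theorem Unif_eta {A δ : ℝ} (hA : 0 ≤ A) (hδ : 0 < δ) :
    ∃ η : ℝ, 0 < η ∧ η ≤ 1 ∧ 6 * η ≤ δ / 4 ∧ A * Real.sqrt (2 * η) ≤ δ / 4 := by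
  refine ⟨min 1 (min (δ / 24) ((δ / 4) ^ 2 / (2 * A ^ 2 + 1))), ?_, min_le_left _ _, ?_, ?_⟩
  · refine lt_min one_pos (lt_min (by positivity) (by positivity))
  · have := (min_le_right (1 : ℝ) (min (δ / 24) ((δ / 4) ^ 2 / (2 * A ^ 2 + 1)))).trans
      (min_le_left _ _)
    linarith
  · set η := min 1 (min (δ / 24) ((δ / 4) ^ 2 / (2 * A ^ 2 + 1))) with hη
    have h1 : η ≤ (δ / 4) ^ 2 / (2 * A ^ 2 + 1) := (min_le_right _ _).trans (min_le_right _ _)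
    have h2 : η * (2 * A ^ 2 + 1) ≤ (δ / 4) ^ 2 := by rwa [le_div_iff₀ (by positivity)] at h1
    have h0 : 0 < η := lt_min one_pos (lt_min (by positivity) (by positivity))
    have h3 : A * Real.sqrt (2 * η) = Real.sqrt (A ^ 2 * (2 * η)) := by
      rw [Real.sqrt_mul (sq_nonneg A) (2 * η), Real.sqrt_sq hA]
    rw [h3]
    apply Real.sqrt_le_iff.2
    refine ⟨by positivity, ?_⟩
    nlinarith

theorem unif {Ω : Type*} [MeasurableSpace Ω] {P : Measure Ω} [IsProbabilityMeasure P]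
    {e : ℕ → Ω → ℝ} (hs : IsSigns P e) (t : ℝ) :
    ∀ᵐ ω ∂P, ∀ δ : ℝ, 0 < δ → ∃ X₀ H₀ : ℝ, ∀ X H : ℝ, X₀ ≤ X → H₀ ≤ H →
      H ≤ X / Real.log X ^ 26 →
      ‖phiC (rmf e ω) X H t - ((Real.exp (-t ^ 2 / 2) : ℝ) : ℂ)‖ ≤ δ := by
  obtain ⟨C, hC, hphiH⟩ := phi_H
  obtain ⟨K₁, hK₁, hL⟩ := phiL t
  obtain ⟨K₂, hK₂, hS⟩ := phiS t
  set K := max K₁ K₂ with hK
  have hK0 : 0 ≤ K := le_max_of_le_left (by linarith)
  have hphi : ∀ᶠ X : ℕ in atTop, ∀ h : ℕ, 1 ≤ h → (h : ℝ) ≤ X / Real.log X ^ 10 →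
      ∃ c : ℝ, |c - Real.exp (-t ^ 2 / 2)| ≤ K / Real.sqrt h ∧
      ∫ ω, ‖phiD (rmf e ω) X h (t / sg (2 * h)) - ((c : ℝ) : ℂ)‖ ^ 2 ∂P ≤
        K / Real.log X ^ 3 := by
    filter_upwards [hL, hS, eventually_ge_atTop 3] with X hXL hXS hX3 h h1 h2
    have hlog : 0 ≤ Real.log (X : ℝ) ^ 3 := by
      have : 0 ≤ Real.log (X : ℝ) := Real.log_natCast_nonneg X
      positivity
    rcases le_total (h : ℝ) (Real.log X ^ 8) with hc | hc
    · obtain ⟨c, hc1, hc2⟩ := hXS h h1 hc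
      refine ⟨c, hc1.trans ?_, (hc2 _ P e hs).trans ?_⟩
      · exact div_le_div_of_nonneg_right (le_max_right _ _) (Real.sqrt_nonneg _)
      · exact div_le_div_of_nonneg_right (le_max_right _ _) hlog
    · refine ⟨Real.exp (-t ^ 2 / 2), ?_, (hXL h hc h2 _ P e hs).trans ?_⟩
      · rw [sub_self, abs_zero]
        positivity
      · exact div_le_div_of_nonneg_right (le_max_left _ _) hlog
  have hA : 0 ≤ C * |t| := mul_nonneg (by linarith) (abs_nonneg t)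
  -- the net for one `δ`
  have hone : ∀ n : ℕ, ∀ᵐ ω ∂P, ∃ X₀ H₀ : ℝ, ∀ X H : ℝ, X₀ ≤ X → H₀ ≤ H →
      H ≤ X / Real.log X ^ 26 →
      ‖phiC (rmf e ω) X H t - ((Real.exp (-t ^ 2 / 2) : ℝ) : ℂ)‖ ≤ 1 / ((n : ℝ) + 1) := by
    intro n
    set δ : ℝ := 1 / ((n : ℝ) + 1) with hδ
    have hδ0 : 0 < δ := by positivity
    obtain ⟨η, hη0, hη1, hη2, hη3⟩ := Unif_eta hA hδ0
    have hρ : 1 < 1 + η := by linarith
    filter_upwards [net_ae hs t hK0 hphi hρ (show 0 < δ / 4 by positivity), MS_ae hs,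
      Pool.Agent.H18.RM.rmf_sq hs] with ω hnet hms hsq
    set g := rmf e ω with hgdef
    have hg : ∀ n, |g n| ≤ 1 := fun n => (hsq n).1
    have hg0 : ∀ n, ¬ Squarefree n → g n = 0 := by
      intro n hn
      rw [hgdef]
      unfold rmf
      rw [if_neg hn]
    obtain ⟨I₀, hI₀⟩ := eventually_atTop.1 hnet
    obtain ⟨X₁, hX₁⟩ := eventually_atTop.1 hms
    refine ⟨max (max ((1 + η) ^ I₀) (2 * X₁)) (max (max 16 (1 / η)) (Real.exp (2 ^ 27))),
      max (max 4 (3 / η)) ((8 * K / δ) ^ 2), fun X H hX hH hHX => ?_⟩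
    have x1 : (1 + η) ^ I₀ ≤ X := ((le_max_left _ _).trans (le_max_left _ _)).trans hX
    have x2 : 2 * X₁ ≤ X := ((le_max_right _ _).trans (le_max_left _ _)).trans hX
    have x3 : 16 ≤ X :=
      (((le_max_left _ _).trans (le_max_left _ _)).trans (le_max_right _ _)).trans hX
    have x4 : 1 / η ≤ X :=
      (((le_max_right _ _).trans (le_max_left _ _)).trans (le_max_right _ _)).trans hX
    have x5 : Real.exp (2 ^ 27) ≤ X := ((le_max_right _ _).trans (le_max_right _ _)).trans hX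
    have y1 : 4 ≤ H := ((le_max_left _ _).trans (le_max_left _ _)).trans hH
    have y2 : 3 / η ≤ H := ((le_max_right _ _).trans (le_max_left _ _)).trans hH
    have y3 : (8 * K / δ) ^ 2 ≤ H := (le_max_right _ _).trans hH
    have hX0 : 0 < X := by linarith
    have hH0 : 0 < H := by linarith
    have hL27 : 2 ^ 27 ≤ Real.log X := (Real.le_log_iff_exp_le hX0).2 x5
    -- the net point
    obtain ⟨i, hi1, hi2⟩ := exists_nat_pow_near (show 1 ≤ X by linarith) hρ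
    obtain ⟨j, hj1, hj2⟩ := exists_nat_pow_near (show 1 ≤ H / 2 by linarith) hρ
    have hiI : I₀ ≤ i := by
      by_contra hc
      have h1 : i + 1 ≤ I₀ := by omega
      have h2 : (1 + η) ^ (i + 1) ≤ (1 + η) ^ I₀ := pow_le_pow_right₀ hρ.le h1
      linarith
    have hρi : 0 ≤ (1 + η) ^ i := by positivity
    have hρj : 0 ≤ (1 + η) ^ j := by positivity
    have s2 := hI₀ i hiI j
    have k1 : (1 + η) ^ i ≤ (⌈(1 + η) ^ i⌉₊ : ℝ) := Nat.le_ceil _
    have k2 : (⌈(1 + η) ^ i⌉₊ : ℝ) < (1 + η) ^ i + 1 := Nat.ceil_lt_add_one hρi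
    have k3 : (1 + η) ^ j ≤ (⌈(1 + η) ^ j⌉₊ : ℝ) := Nat.le_ceil _
    have k4 : (⌈(1 + η) ^ j⌉₊ : ℝ) < (1 + η) ^ j + 1 := Nat.ceil_lt_add_one hρj
    have hpi : (1 + η) ^ (i + 1) = (1 + η) * (1 + η) ^ i := by ring
    have hpj : (1 + η) ^ (j + 1) = (1 + η) * (1 + η) ^ j := by ring
    rw [hpi] at hi2
    rw [hpj] at hj2
    generalize ⌈(1 + η) ^ i⌉₊ = Kn at k1 k2 s2
    generalize ⌈(1 + η) ^ j⌉₊ = hn at k3 k4 s2
    generalize (1 + η) ^ i = A at hi1 hi2 k1 k2 hρi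
    generalize (1 + η) ^ j = B at hj1 hj2 k3 k4 hρj
    have hηX : 1 ≤ η * X := by
      rw [div_le_iff₀ hη0] at x4
      linarith
    have hKn0 : (0 : ℝ) ≤ (Kn : ℝ) := Nat.cast_nonneg _
    have hhn0 : (0 : ℝ) ≤ (hn : ℝ) := Nat.cast_nonneg _
    have hK1 : (Kn : ℝ) ≤ (1 + η) * X := by linarith
    have hK2 : X ≤ (1 + η) * (Kn : ℝ) := by
      have := mul_le_mul_of_nonneg_left k1 (show (0 : ℝ) ≤ 1 + η by linarith)
      linarith
    have hh1 : 2 * (hn : ℝ) ≤ H + 2 := by linarith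
    have hh2 : H ≤ (1 + η) * (2 * (hn : ℝ)) := by
      have := mul_le_mul_of_nonneg_left k3 (show (0 : ℝ) ≤ 1 + η by linarith)
      linarith
    have hK3 : (Kn : ℝ) ≤ 2 * X := by
      have := mul_le_mul_of_nonneg_right hη1 hX0.le
      linarith
    have hK4 : X ≤ 2 * (Kn : ℝ) := by
      have := mul_le_mul_of_nonneg_right hη1 hKn0
      linarith
    obtain ⟨z1, z2, z3⟩ := Unif_size x3 y1 rfl hL27 hHX hK3 hK4 hh1
    have hms' : ∀ Y ∈ ({X / 2, X, 2 * X} : Set ℝ), ∀ r : ℝ, 1 ≤ r → r ≤ 2 * H →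
        ∫ x in Y..2 * Y, (MR g x r) ^ 2 ≤ 2 * Y * r := by
      intro Y hY r hr1 hr2
      refine hX₁ Y ?_ r hr1 (hr2.trans (z3 Y hY))
      simp only [Set.mem_insert_iff, Set.mem_singleton_iff] at hY
      rcases hY with rfl | rfl | rfl <;> linarith
    have s1 := Unif_step hC hphiH hg hg0 t hη0 hη1 x3 y1 z1 hK1 hK2 hh1 hh2 hms'
    have s2' := s2 z2
    have s3 : C * |t| * Real.sqrt (η + 3 / H) ≤ δ / 4 := by
      refine (mul_le_mul_of_nonneg_left (Real.sqrt_le_sqrt ?_) hA).trans hη3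
      have : 3 / H ≤ η := by
        rw [div_le_iff₀ hη0] at y2
        rw [div_le_iff₀ hH0]
        linarith
      linarith
    have s4 : K / Real.sqrt (hn : ℝ) ≤ δ / 4 := by
      have h1 : H / 4 ≤ (hn : ℝ) := by
        have := mul_le_mul_of_nonneg_right hη1 hhn0
        linarith
      have h2 : (4 * K / δ) ^ 2 ≤ (hn : ℝ) := by
        refine le_trans ?_ h1
        have : (8 * K / δ) ^ 2 = 4 * (4 * K / δ) ^ 2 := by ring
        linarith
      have h3 : 4 * K / δ ≤ Real.sqrt (hn : ℝ) := Real.le_sqrt_of_sq_le h2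
      have h4 : 0 < Real.sqrt (hn : ℝ) := by
        apply Real.sqrt_pos.2
        linarith
      rw [div_le_iff₀ h4]
      rw [div_le_iff₀ hδ0] at h3
      linarith
    calc ‖phiC g X H t - ((Real.exp (-t ^ 2 / 2) : ℝ) : ℂ)‖
        = ‖(phiC g X H t - phiD g Kn hn (t / sg (2 * (hn : ℕ)))) +
            (phiD g Kn hn (t / sg (2 * (hn : ℕ))) -
              ((Real.exp (-t ^ 2 / 2) : ℝ) : ℂ))‖ := by
          congr 1; ring
      _ ≤ _ := norm_add_le _ _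
      _ ≤ (C * |t| * Real.sqrt (η + 3 / H) + 6 * η) +
          (δ / 4 + K / Real.sqrt (hn : ℝ)) := add_le_add s1 s2'
      _ ≤ δ := by linarith
  have hall := ae_all_iff.2 hone
  filter_upwards [hall] with ω hω δ hδ
  obtain ⟨n, hn⟩ := exists_nat_one_div_lt hδ
  obtain ⟨X₀, H₀, h0⟩ := hω n
  exact ⟨X₀, H₀, fun X H h1 h2 h3 => (h0 X H h1 h2 h3).trans hn.le⟩

end Pool.Agent.H41.RG
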